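import Mathlib
import Pool.Agent.H42.Wilde.Final

/-!
The arithmetic consequences of the local theorem.
-/

namespace Pool.Agent.H57.Wilde

open Finset Pool.Agent.H42.Wilde

section
variable {G V : Type*} [Group G] [Finite G] [AddCommGroup V] [Module ℂ V] [FiniteDimensional ℂ V]
  (ρ : Representation ℂ G V)

/-- The known inequalities between the exponents at a prime dividing the order of `x`. -/
theorem key_exponents [ρ.IsIrreducible] (x : G) (hx : ρ.character x ≠ 0) {p : ℕ} (hp : p.Prime)
    (hpx : p ∣ orderOf x) (u : G) (hux : u ∈ Subgroup.zpowers x)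
    (hu : orderOf u = p ^ (orderOf x).factorization p) :
    2 * (orderOf x).factorization p ≤
      2 * (Nat.card G / Module.finrank ℂ V).factorization p +
      ((Subgroup.centralizer {u}).relIndex
        (Subgroup.normalizer (Subgroup.zpowers u : Set G))).factorization p ∧
    ((Subgroup.centralizer {u}).relIndex
        (Subgroup.normalizer (Subgroup.zpowers u : Set G))).factorization p + 1 ≤
      (orderOf x).factorization p ∧
    ((Subgroup.centralizer {u}).relIndex
        (Subgroup.normalizer (Subgroup.zpowers u : Set G))).factorization p +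
      (orderOf x).factorization p ≤ (Nat.card G).factorization p := by
  have hx0 : orderOf x ≠ 0 := (orderOf_pos x).ne'
  have hN0 : Nat.card G ≠ 0 := Nat.card_pos.ne'
  obtain ⟨_, h2, h3⟩ := local_ineq ρ x hx hp hpx u hux hu
  refine ⟨h3, ?_, ?_⟩
  · have ha0 : 0 < (orderOf x).factorization p := hp.factorization_pos_of_dvd hx0 hpx
    have hpa : 0 < (p ^ (orderOf x).factorization p).totient :=
      Nat.totient_pos.mpr (pow_pos hp.pos _)
    have h4 := (Nat.factorization_le_iff_dvd
      (by rintro h; rw [h, zero_dvd_iff] at h2; omega) hpa.ne').mpr h2 p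
    have h5 : (p ^ (orderOf x).factorization p).totient.factorization p =
        (orderOf x).factorization p - 1 := by
      rw [Nat.totient_prime_pow hp ha0]
      rw [Nat.factorization_mul (pow_pos hp.pos _).ne' (by have := hp.two_le; omega)]
      rw [Nat.factorization_pow, hp.factorization]
      have h3 : (p - 1).factorization p = 0 := by
        apply Nat.factorization_eq_zero_of_not_dvd
        intro h
        have := Nat.le_of_dvd (by have := hp.two_le; omega) h
        have := hp.two_le
        omega
      simp [h3]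
    omega
  · have h4 := relIndex_mul_orderOf_dvd u
    rw [hu] at h4
    have h6 : (Subgroup.centralizer {u}).relIndex
        (Subgroup.normalizer (Subgroup.zpowers u : Set G)) ≠ 0 := by
      intro h
      rw [h, zero_mul, zero_dvd_iff] at h4
      exact hN0 h4
    have h5 := (Nat.factorization_le_iff_dvd
      (mul_ne_zero h6 (pow_pos hp.pos _).ne') hN0).mpr h4 p
    rw [Nat.factorization_mul h6 (pow_pos hp.pos _).ne', Nat.factorization_pow,
      hp.factorization] at h5
    simpa using h5

/-- From the local theorem to all consequences. -/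
theorem global_of_local [ρ.IsIrreducible] (x : G) (hx : ρ.character x ≠ 0)
    (hloc : ∀ p : ℕ, p.Prime → p ∣ orderOf x → ∀ u ∈ Subgroup.zpowers x,
      orderOf u = p ^ (orderOf x).factorization p →
      (orderOf x).factorization p ≤ (Nat.card G / Module.finrank ℂ V).factorization p ∨
      5 * (orderOf x).factorization p ≤
        3 * ((Subgroup.centralizer {u}).relIndex
          (Subgroup.normalizer (Subgroup.zpowers u : Set G))).factorization p +
        3 * (Nat.card G / Module.finrank ℂ V).factorization p ∨
      (p = 2 ∧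
        (orderOf x).factorization p = (Nat.card G / Module.finrank ℂ V).factorization p + 1 ∧
        4 ≤ (orderOf x).factorization p ∧
        2 ≤ ((Subgroup.centralizer {u}).relIndex
          (Subgroup.normalizer (Subgroup.zpowers u : Set G))).factorization p)) :
    orderOf x ^ 2 * (∏ r ∈ (orderOf x).primeFactors, r) * Module.finrank ℂ V ^ 3 ∣
      Nat.card G ^ 3 ∧
    (orderOf x * Module.finrank ℂ V) ^ 6 ∣ Nat.card G ^ 7 ∧
    orderOf x ^ 3 * Module.finrank ℂ V ^ 2 ∣ Nat.card G ^ 3 ∧
    ((∀ p : ℕ, p.Prime → p ^ (if p = 2 then 4 else 6) ∣ orderOf x →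
      p ^ (if p = 2 then 6 else 11) ∣ Nat.card G →
      ∃ u ∈ Subgroup.zpowers x, orderOf u = p ^ (orderOf x).factorization p ∧
        ¬ p ^ (if p = 2 then 2 else 5) ∣ (Subgroup.centralizer {u}).relIndex
            (Subgroup.normalizer (Subgroup.zpowers u : Set G))) →
      orderOf x ∣ Nat.card G / Module.finrank ℂ V) := by
  have hx0 : orderOf x ≠ 0 := (orderOf_pos x).ne'
  have hN0 : Nat.card G ≠ 0 := Nat.card_pos.ne'
  have hdim := finrank_pos_of_irreducible ρ
  have hdvd := finrank_dvd_card ρ
  have he0 : Nat.card G / Module.finrank ℂ V ≠ 0 :=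
    (Nat.div_pos (Nat.le_of_dvd Nat.card_pos hdvd) hdim).ne'
  have hrad0 : (∏ q ∈ (orderOf x).primeFactors, q) ≠ 0 :=
    Finset.prod_ne_zero_iff.mpr (fun q hq => (Nat.prime_of_mem_primeFactors hq).ne_zero)
  have hN : ∀ p, (Nat.card G).factorization p =
      (Nat.card G / Module.finrank ℂ V).factorization p + (Module.finrank ℂ V).factorization p := by
    intro p
    have h1 : Nat.card G / Module.finrank ℂ V * Module.finrank ℂ V = Nat.card G :=
      Nat.div_mul_cancel hdvd
    conv_lhs => rw [← h1]
    rw [Nat.factorization_mul he0 hdim.ne']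
    rfl
  have hrad := factorization_prod_primeFactors (orderOf x)
  have hcase : ∀ p : ℕ, p.Prime → (¬ p ∣ orderOf x ∧ (orderOf x).factorization p = 0 ∧
      (∏ q ∈ (orderOf x).primeFactors, q).factorization p = 0) ∨
      (p ∣ orderOf x ∧ (∏ q ∈ (orderOf x).primeFactors, q).factorization p = 1) := by
    intro p hp
    by_cases h : p ∣ orderOf x
    · right
      refine ⟨h, ?_⟩
      rw [hrad, if_pos (Nat.mem_primeFactors.mpr ⟨hp, h, hx0⟩)]
    · left
      refine ⟨h, Nat.factorization_eq_zero_of_not_dvd h, ?_⟩
      rw [hrad, if_neg (fun hm => h (Nat.dvd_of_mem_primeFactors hm))]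
  -- the inequalities between the exponents
  have hineq : ∀ p : ℕ, p.Prime → p ∣ orderOf x →
      1 ≤ (orderOf x).factorization p ∧
      2 * (orderOf x).factorization p + 1 ≤
        3 * (Nat.card G / Module.finrank ℂ V).factorization p ∧
      6 * (orderOf x).factorization p ≤ (Nat.card G).factorization p +
        6 * (Nat.card G / Module.finrank ℂ V).factorization p := by
    intro p hp hpx
    obtain ⟨u, hux, hu⟩ := exists_ppart x p
    have ha0 : 0 < (orderOf x).factorization p := hp.factorization_pos_of_dvd hx0 hpx
    obtain ⟨h1, h2, h3⟩ := key_exponents ρ x hx hp hpx u hux hu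
    have h4 := hloc p hp hpx u hux hu
    generalize ((Subgroup.centralizer {u}).relIndex
        (Subgroup.normalizer (Subgroup.zpowers u : Set G))).factorization p = c at h1 h2 h3 h4
    rcases h4 with h4 | h4 | ⟨_, h4, h5, h6⟩
    · refine ⟨?_, ?_, ?_⟩ <;> omega
    · refine ⟨?_, ?_, ?_⟩ <;> omega
    · refine ⟨?_, ?_, ?_⟩ <;> omega
  refine ⟨?_, ?_, (global_consequences ρ x hx).2.1, ?_⟩
  · rw [← Nat.factorization_prime_le_iff_dvd
      (mul_ne_zero (mul_ne_zero (pow_ne_zero _ hx0) hrad0) (pow_ne_zero _ hdim.ne'))
      (pow_ne_zero _ hN0)]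
    intro p hp
    rw [Nat.factorization_mul (mul_ne_zero (pow_ne_zero _ hx0) hrad0) (pow_ne_zero _ hdim.ne'),
      Nat.factorization_mul (pow_ne_zero _ hx0) hrad0, Nat.factorization_pow,
      Nat.factorization_pow, Nat.factorization_pow]
    simp only [Finsupp.add_apply, Finsupp.smul_apply, smul_eq_mul]
    rw [hN p]
    rcases hcase p hp with ⟨_, h1, h2⟩ | ⟨h1, h2⟩
    · rw [h1, h2]; omega
    · obtain ⟨h3, h4, _⟩ := hineq p hp h1
      rw [h2]; omega
  · rw [← Nat.factorization_prime_le_iff_dvd
      (pow_ne_zero _ (mul_ne_zero hx0 hdim.ne')) (pow_ne_zero _ hN0)]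
    intro p hp
    rw [Nat.factorization_pow, Nat.factorization_mul hx0 hdim.ne', Nat.factorization_pow]
    simp only [Finsupp.add_apply, Finsupp.smul_apply, smul_eq_mul]
    have hNp := hN p
    rcases hcase p hp with ⟨_, h1, h2⟩ | ⟨h1, h2⟩
    · rw [h1]; omega
    · obtain ⟨_, _, h4⟩ := hineq p hp h1
      omega
  · intro hyp
    rw [← Nat.factorization_prime_le_iff_dvd hx0 he0]
    intro p hp
    rcases hcase p hp with ⟨_, h1, h2⟩ | ⟨h1, h2⟩
    · rw [h1]; omega
    · by_contra hcon
      have ha0 : 0 < (orderOf x).factorization p := hp.factorization_pos_of_dvd hx0 h1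
      -- what holds for every generator of the `p`-part
      have hall : ∀ u ∈ Subgroup.zpowers x, orderOf u = p ^ (orderOf x).factorization p →
          (if p = 2 then 4 else 6) ≤ (orderOf x).factorization p ∧
          (if p = 2 then 6 else 11) ≤ (Nat.card G).factorization p ∧
          p ^ (if p = 2 then 2 else 5) ∣ (Subgroup.centralizer {u}).relIndex
            (Subgroup.normalizer (Subgroup.zpowers u : Set G)) := by
        intro u hux hu
        obtain ⟨k1, k2, k3⟩ := key_exponents ρ x hx hp h1 u hux hu
        have k4 := hloc p hp h1 u hux hu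
        have hc : (if p = 2 then 4 else 6) ≤ (orderOf x).factorization p ∧
            (if p = 2 then 6 else 11) ≤ (Nat.card G).factorization p ∧
            (if p = 2 then 2 else 5) ≤ ((Subgroup.centralizer {u}).relIndex
              (Subgroup.normalizer (Subgroup.zpowers u : Set G))).factorization p := by
          generalize ((Subgroup.centralizer {u}).relIndex
            (Subgroup.normalizer (Subgroup.zpowers u : Set G))).factorization p = c
              at k1 k2 k3 k4 ⊢
          by_cases hp2 : p = 2
          · rw [if_pos hp2, if_pos hp2, if_pos hp2]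
            rcases k4 with k4 | k4 | ⟨_, k4, k5, k6⟩
            · omega
            · refine ⟨?_, ?_, ?_⟩ <;> omega
            · refine ⟨?_, ?_, ?_⟩ <;> omega
          · rw [if_neg hp2, if_neg hp2, if_neg hp2]
            rcases k4 with k4 | k4 | ⟨k7, k4, k5, k6⟩
            · omega
            · refine ⟨?_, ?_, ?_⟩ <;> omega
            · exact absurd k7 hp2
        refine ⟨hc.1, hc.2.1, ?_⟩
        rcases Nat.eq_zero_or_pos ((Subgroup.centralizer {u}).relIndex
          (Subgroup.normalizer (Subgroup.zpowers u : Set G))) with h0 | h0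
        · rw [h0]; exact dvd_zero _
        · rw [hp.pow_dvd_iff_le_factorization h0.ne']
          exact hc.2.2
      obtain ⟨u0, hux0, hu0⟩ := exists_ppart x p
      obtain ⟨m1, m2, _⟩ := hall u0 hux0 hu0
      obtain ⟨u, hux, hu, hn⟩ := hyp p hp ((hp.pow_dvd_iff_le_factorization hx0).mpr m1)
        ((hp.pow_dvd_iff_le_factorization hN0).mpr m2)
      exact hn (hall u hux hu).2.2

end

end Pool.Agent.H57.Wilde
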