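import Mathlib
import Pool.Agent.H42.Wilde.Final

/-!
Elements acting on a cyclic subgroup through exponents congruent to one, and the index attached
to a pair of elements.
-/

namespace Pool.Agent.H57.Wilde

open Finset Pool.Agent.H42.Wilde

section

variable {G : Type*} [Group G] [Finite G]

/-- The elements `n` with `n y n⁻¹ = y ^ i` for some `i ≡ 1` modulo `m`. -/
def NN (m : ℕ) (y : G) : Subgroup G where
  carrier := {n | ∃ i : ℕ, i ≡ 1 [MOD m] ∧ n * y * n⁻¹ = y ^ i}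
  one_mem' := ⟨1, rfl, by simp⟩
  mul_mem' := by
    rintro a b ⟨i, hi, ha⟩ ⟨j, hj, hb⟩
    refine ⟨i * j, by simpa using hi.mul hj, ?_⟩
    have h1 : a * b * y * (a * b)⁻¹ = a * (b * y * b⁻¹) * a⁻¹ := by group
    rw [h1, hb, ← conj_pow, ha, pow_mul]
  inv_mem' := by
    rintro a ⟨i, hi, ha⟩
    have key : ∀ r : ℕ, a ^ r * y * (a ^ r)⁻¹ = y ^ (i ^ r) := by
      intro r
      induction r with
      | zero => simp
      | succ r ih =>
        have h1 : a ^ (r + 1) * y * (a ^ (r + 1))⁻¹ = a * (a ^ r * y * (a ^ r)⁻¹) * a⁻¹ := by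
          rw [pow_succ']; group
        rw [h1, ih, ← conj_pow, ha, ← pow_mul, pow_succ', ]
    have h2 : a⁻¹ = a ^ (orderOf a - 1) := by
      rw [inv_eq_iff_mul_eq_one, ← pow_succ', Nat.sub_add_cancel (orderOf_pos a),
        pow_orderOf_eq_one]
    refine ⟨i ^ (orderOf a - 1), by simpa using hi.pow (orderOf a - 1), ?_⟩
    rw [h2]
    exact key _

theorem mem_NN {m : ℕ} {y n : G} :
    n ∈ NN m y ↔ ∃ i : ℕ, i ≡ 1 [MOD m] ∧ n * y * n⁻¹ = y ^ i := Iff.rfl

/-- The least `t ≥ k` such that `z` normalises `⟨y ^ (p ^ t * q)⟩`. -/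
noncomputable def tt (p q k : ℕ) (y z : G) : ℕ :=
  sInf {t | k ≤ t ∧ z * y ^ (p ^ t * q) * z⁻¹ ∈ Subgroup.zpowers (y ^ (p ^ t * q))}

/-- The index attached to a pair. -/
noncomputable def II (p q k : ℕ) (y z : G) : ℕ :=
  (Subgroup.centralizer {z}).relIndex (NN (p ^ tt p q k y z * q) y)

/-- The units congruent to `1` modulo `q`, as a set of exponents. -/
def JJ (N q : ℕ) (h : q ∣ N) : Subgroup (ZMod N)ˣ := (ZMod.unitsMap h).ker

/-- The exponents in `JJ` fixing the class of `y`. -/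
def Gam (q : ℕ) (h : q ∣ Nat.card G) (y : G) : Subgroup (ZMod (Nat.card G))ˣ where
  carrier := {j | j ∈ JJ (Nat.card G) q h ∧ IsConj y (pw j y)}
  one_mem' := ⟨one_mem _, by rw [pw_one]⟩
  mul_mem' := by
    rintro i j ⟨hi, hi'⟩ ⟨hj, hj'⟩
    refine ⟨mul_mem hi hj, ?_⟩
    rw [pw_mul]
    exact hi'.trans (isConj_pw i hj')
  inv_mem' := by
    rintro i ⟨hi, hi'⟩
    refine ⟨inv_mem hi, ?_⟩
    have h1 := isConj_pw i⁻¹ hi'
    rw [← pw_mul, inv_mul_cancel, pw_one] at h1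
    exact h1.symm

end

end Pool.Agent.H57.Wilde
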