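import Mathlib
import Pool.Agent.H57.Wilde.Defs

/-!
Averages of a character over a subgroup, and the sum of a character over a class times an element.
-/

namespace Pool.Agent.H57.Wilde

open Finset Representation Pool.Agent.H42.Wilde

variable {G V : Type*} [Group G] [Fintype G] [AddCommGroup V] [Module ℂ V] [FiniteDimensional ℂ V]
  (ρ : Representation ℂ G V) {p n q : ℕ}

/-- The average of a character over the coset of a normalised subgroup is integral. -/
theorem isIntegral_avg (R : Subgroup G) [Fintype R] (z : G) (hz : ∀ h ∈ R, z * h * z⁻¹ ∈ R) :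
    IsIntegral ℤ ((Nat.card R : ℂ)⁻¹ * ∑ h : R, ρ.character ((h : G) * z)) := by
  classical
  have hD : (Nat.card R : ℂ) ≠ 0 := by exact_mod_cast Nat.card_pos.ne'
  let e : Module.End ℂ V := (Nat.card R : ℂ)⁻¹ • ∑ h : R, ρ (h : G)
  have hRe : ∀ y : R, ρ (y : G) * e = e := by
    intro y
    simp only [e]
    rw [mul_smul_comm, Finset.mul_sum]
    congr 1
    simp_rw [← map_mul]
    exact Fintype.sum_equiv (Equiv.mulLeft y) _ _ (fun x => rfl)
  have hee : e * e = e := by
    have h0 : e * e = ((Nat.card R : ℂ)⁻¹ • ∑ h : R, ρ (h : G)) * e := rfl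
    rw [h0, smul_mul_assoc, Finset.sum_mul]
    simp_rw [hRe]
    rw [Finset.sum_const, Finset.card_univ, ← Nat.card_eq_fintype_card, ← Nat.cast_smul_eq_nsmul ℂ,
      smul_smul, inv_mul_cancel₀ hD, one_smul]
  let cj : R → R := fun h => ⟨z * (h : G) * z⁻¹, hz _ h.2⟩
  have hcj : Function.Bijective cj := by
    apply Function.Injective.bijective_of_finite
    intro a b hab
    have h1 : z * (a : G) * z⁻¹ = z * (b : G) * z⁻¹ := congrArg Subtype.val hab
    apply Subtype.ext
    simpa using h1
  have hZe : Commute (ρ z) e := by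
    change ρ z * e = e * ρ z
    simp only [e]
    rw [mul_smul_comm, smul_mul_assoc, Finset.mul_sum, Finset.sum_mul]
    congr 1
    refine Fintype.sum_bijective cj hcj _ _ ?_
    intro h
    rw [← map_mul, ← map_mul]
    congr 1
    simp [cj]
  have hpow : ∀ m : ℕ, e ^ (m + 1) = e := by
    intro m
    induction m with
    | zero => simp
    | succ m ih => rw [pow_succ, ih, hee]
  have hN : Nat.card G ≠ 0 := Nat.card_pos.ne'
  have hT : (e * ρ z) ^ (Nat.card G + 1) = e * ρ z := by
    rw [hZe.symm.mul_pow, hpow, pow_succ, ← map_pow, pow_card_eq_one', map_one, one_mul]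
  have hζ := Complex.isPrimitiveRoot_exp (Nat.card G) hN
  obtain ⟨d, hd⟩ := exists_trace_pow (Nat.card G) hN _ hζ (e * ρ z) hT
  have h1 := hd 1 le_rfl
  rw [pow_one] at h1
  have h2 : (Nat.card R : ℂ)⁻¹ * ∑ h : R, ρ.character ((h : G) * z)
      = LinearMap.trace ℂ V (e * ρ z) := by
    simp only [e]
    rw [smul_mul_assoc, map_smul, smul_eq_mul]
    congr 1
    rw [Finset.sum_mul, map_sum]
    refine Finset.sum_congr rfl fun h _ => ?_
    rw [← map_mul]
    rfl
  rw [h2, h1]
  apply IsIntegral.sum
  intro i _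
  exact IsIntegral.mul (IsIntegral.pow (hζ.isIntegral (Nat.pos_of_ne_zero hN)) _)
    (_root_.isIntegral_natCast _)

/-- The class sum acts as a scalar. -/
theorem sum_class_char [ρ.IsIrreducible] (y g : G) (K : Finset G) (hK : ∀ z, z ∈ K ↔ IsConj y z) :
    ∑ z ∈ K, ρ.character (g * z) =
      (clCard y : ℂ) * ρ.character y / (Module.finrank ℂ V : ℂ) * ρ.character g := by
  classical
  let E : Module.End ℂ V := ∑ z ∈ K, ρ z
  have hcomm : ∀ h : G, ρ h * E = E * ρ h := by
    intro h
    have h1 : ρ h * E * ρ h⁻¹ = E := by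
      simp only [E]
      rw [Finset.mul_sum, Finset.sum_mul]
      apply Finset.sum_bij' (fun y _ => h * y * h⁻¹) (fun y _ => h⁻¹ * y * h)
      · intro x hx
        rw [hK] at hx ⊢
        exact hx.trans (isConj_iff.mpr ⟨h, rfl⟩)
      · intro x hx
        rw [hK] at hx ⊢
        exact hx.trans (isConj_iff.mpr ⟨h⁻¹, by simp⟩)
      · intro x _
        group
      · intro x _
        group
      · intro x _
        rw [map_mul, map_mul]
    calc ρ h * E = ρ h * E * (ρ h⁻¹ * ρ h) := by rw [← map_mul]; simp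
      _ = (ρ h * E * ρ h⁻¹) * ρ h := by simp only [mul_assoc]
      _ = E * ρ h := by rw [h1]
  let f : IntertwiningMap ρ ρ := ⟨E, by
    intro h
    exact (hcomm h).symm⟩
  obtain ⟨c, hc⟩ := (IsIrreducible.algebraMap_intertwiningMap_bijective_of_isAlgClosed
    (ρ := ρ)).surjective f
  have hE : E = algebraMap ℂ (Module.End ℂ V) c := by
    have h1 : f.toLinearMap = E := rfl
    rw [← h1, ← hc, IntertwiningMap.algebraMap_apply]
    rfl
  have hnt : Nontrivial V := by
    by_contra hV
    rw [not_nontrivial_iff_subsingleton] at hV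
    have h1 : (⊥ : Subrepresentation ρ) = ⊤ := by
      apply Subrepresentation.toSubmodule_injective
      exact Subsingleton.elim _ _
    exact bot_ne_top h1
  have hfin : (Module.finrank ℂ V : ℂ) ≠ 0 := by
    exact_mod_cast (Module.finrank_pos (R := ℂ) (M := V)).ne'
  have htr : (clCard y : ℂ) * ρ.character y = c * (Module.finrank ℂ V : ℂ) := by
    have h1 : LinearMap.trace ℂ V E = c * (Module.finrank ℂ V : ℂ) := by
      rw [hE, Algebra.algebraMap_eq_smul_one, map_smul, LinearMap.trace_one, smul_eq_mul]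
    rw [← h1]
    simp only [E]
    rw [map_sum]
    have h2 : ∀ x ∈ K, LinearMap.trace ℂ V (ρ x) = ρ.character y := by
      intro x hx
      rw [hK] at hx
      obtain ⟨h, rfl⟩ := isConj_iff.mp hx
      exact char_conj ρ y h
    rw [Finset.sum_congr rfl h2, Finset.sum_const, nsmul_eq_mul]
    congr 2
    unfold clCard
    rw [Nat.card_eq_fintype_card, ← Set.toFinset_card]
    congr 1
    ext x
    rw [Set.mem_toFinset, hK, ConjAct.mem_orbit_conjAct, isConj_comm]
  have hsum : ∑ z ∈ K, ρ.character (g * z) = LinearMap.trace ℂ V (ρ g * E) := by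
    simp only [E]
    rw [Finset.mul_sum, map_sum]
    refine Finset.sum_congr rfl fun z _ => ?_
    rw [← map_mul]
    rfl
  have h3 : LinearMap.trace ℂ V (ρ g * E) = c * ρ.character g := by
    rw [hE, Algebra.algebraMap_eq_smul_one, mul_smul_comm, mul_one, map_smul, smul_eq_mul]
    rfl
  rw [hsum, h3, htr, mul_div_assoc, div_self hfin, mul_one]

end Pool.Agent.H57.Wilde
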