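import Mathlib
import Pool.Agent.H57.Wilde.Defs

/-!
Group theory of pairs of conjugate elements: one of the two indices is divisible by the power
of `p`.
-/

namespace Pool.Agent.H57.Wilde

open Finset Pool.Agent.H42.Wilde

theorem relIndex_dvd_index {C : Type*} [Group C] [Finite C] (Q T : Subgroup C) [Q.Normal] :
    T.relIndex Q ∣ T.index := by
  have h1 : T.relIndex (T ⊔ Q) * (T ⊔ Q).index = T.index :=
    Subgroup.relIndex_mul_index le_sup_left
  have h2 : Q.relIndex (T ⊔ Q) = Q.relIndex T := Subgroup.relIndex_sup_right T Q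
  have key : ∀ H K : Subgroup C, H.relIndex K * Nat.card (H ⊓ K : Subgroup C) = Nat.card K := by
    intro H K
    have h3 := Subgroup.card_mul_index (H.subgroupOf K)
    have h4 : Nat.card (H.subgroupOf K) = Nat.card (H ⊓ K : Subgroup C) := by
      rw [← Subgroup.inf_subgroupOf_right H K]
      exact Nat.card_congr (Subgroup.subgroupOfEquivOfLe inf_le_right).toEquiv
    rw [h4, mul_comm] at h3
    exact h3
  have e1 := key T (T ⊔ Q)
  have e2 := key Q (T ⊔ Q)
  have e3 := key Q T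
  have e4 := key T Q
  rw [inf_eq_left.mpr (le_sup_left : T ≤ T ⊔ Q)] at e1
  rw [inf_eq_left.mpr (le_sup_right : Q ≤ T ⊔ Q), h2] at e2
  rw [inf_comm Q T] at e3
  have hpos : 0 < Nat.card (T ⊓ Q : Subgroup C) := Nat.card_pos
  have hpos2 : 0 < Q.relIndex T := Nat.pos_of_ne_zero (by
    intro h
    rw [h, zero_mul] at e3
    have : 0 < Nat.card T := Nat.card_pos
    omega)
  have e5 : T.relIndex (T ⊔ Q) = T.relIndex Q := by
    apply Nat.eq_of_mul_eq_mul_right (Nat.mul_pos hpos2 hpos)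
    calc T.relIndex (T ⊔ Q) * (Q.relIndex T * Nat.card (T ⊓ Q : Subgroup C))
        = T.relIndex (T ⊔ Q) * Nat.card T := by rw [e3]
      _ = Nat.card (T ⊔ Q : Subgroup C) := e1
      _ = Q.relIndex T * Nat.card Q := e2.symm
      _ = Q.relIndex T * (T.relIndex Q * Nat.card (T ⊓ Q : Subgroup C)) := by rw [e4]
      _ = T.relIndex Q * (Q.relIndex T * Nat.card (T ⊓ Q : Subgroup C)) := by ring
  rw [← h1, e5]
  exact dvd_mul_right _ _

theorem relIndex_dvd_of_normal {G : Type*} [Group G] [Finite G] (C Q T : Subgroup G)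
    (hQ : Q ≤ C) (hn : ∀ c ∈ C, ∀ h ∈ Q, c * h * c⁻¹ ∈ Q) :
    T.relIndex Q ∣ T.relIndex C := by
  have hQn : (Q.subgroupOf C).Normal := by
    refine ⟨fun x hx g => ?_⟩
    rw [Subgroup.mem_subgroupOf] at hx ⊢
    have := hn g g.2 x hx
    simpa using this
  have h1 := relIndex_dvd_index (Q.subgroupOf C) (T.subgroupOf C)
  rw [Subgroup.relIndex_subgroupOf hQ] at h1
  exact h1

section
variable {G : Type*} [Group G] [Finite G] {p n q : ℕ}

theorem centralizer_le_NN (m : ℕ) (y : G) : Subgroup.centralizer {y} ≤ NN m y := by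
  intro g hg
  rw [Subgroup.mem_centralizer_iff] at hg
  refine ⟨1, rfl, ?_⟩
  rw [pow_one, ← hg y rfl, mul_inv_cancel_right]

theorem NN_mono {m m' : ℕ} (h : m' ∣ m) (y : G) : NN m y ≤ NN m' y := by
  rintro g ⟨i, hi, hg⟩
  exact ⟨i, hi.of_dvd h, hg⟩

theorem conj_pow_mem_zpowers {m : ℕ} {y g : G} (hg : g ∈ NN m y) (r : ℕ) {h : G}
    (hh : h ∈ Subgroup.zpowers (y ^ r)) : g * h * g⁻¹ ∈ Subgroup.zpowers (y ^ r) := by
  obtain ⟨i, _, hi⟩ := hg
  obtain ⟨s, rfl⟩ := Subgroup.mem_zpowers_iff.mp hh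
  rw [← conj_zpow, ← conj_pow, hi, ← pow_mul, mul_comm, pow_mul]
  exact Subgroup.zpow_mem _ (Subgroup.npow_mem_zpowers _ _) _

/-- Orders of the powers of `y`. -/
theorem orderOf_pow_pq (hp : p.Prime) {a t : ℕ} {y : G} (ho : orderOf (y ^ q) = p ^ a) (hta : t ≤ a) :
    orderOf (y ^ (p ^ t * q)) = p ^ (a - t) := by
  rw [mul_comm, pow_mul, orderOf_pow, ho, Nat.gcd_eq_right (pow_dvd_pow p hta),
    Nat.pow_div hta hp.pos]

theorem card_NN (hp : p.Prime) {a k t : ℕ} {y : G}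
    (ho : orderOf (y ^ q) = p ^ a) (hkt : k ≤ t) (hta : t ≤ a)
    (hH : ∀ i : ℕ, i ≡ 1 [MOD p ^ k * q] → IsConj y (y ^ i)) :
    Nat.card (NN (p ^ t * q) y) = p ^ (a - t) * Nat.card (Subgroup.centralizer {y}) := by
  classical
  set m := p ^ t * q with hm
  let φ : NN m y →* ConjAct G := (ConjAct.toConjAct (G := G)).toMonoidHom.comp (NN m y).subtype
  let _ : MulAction (NN m y) G := MulAction.compHom G φ
  have hsmul : ∀ (g : NN m y) (x : G), g • x = (g : G) * x * (g : G)⁻¹ := fun g x => rfl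
  have h1 := MulAction.index_stabilizer (NN m y) y
  have h2 : MulAction.stabilizer (NN m y) y = (Subgroup.centralizer {y}).subgroupOf (NN m y) := by
    ext g
    rw [MulAction.mem_stabilizer_iff, hsmul, Subgroup.mem_subgroupOf, Subgroup.mem_centralizer_iff]
    constructor
    · intro h x hx
      rw [Set.mem_singleton_iff] at hx
      subst hx
      rw [mul_inv_eq_iff_eq_mul] at h
      exact h.symm
    · intro h
      rw [mul_inv_eq_iff_eq_mul]
      exact (h y rfl).symm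
  have hkm : p ^ k * q ∣ m := by
    rw [hm]
    exact mul_dvd_mul_right (pow_dvd_pow p hkt) q
  have h3 : MulAction.orbit (NN m y) y = (fun h : G => h * y) '' (Subgroup.zpowers (y ^ m) : Set G) := by
    ext v
    rw [MulAction.mem_orbit_iff]
    constructor
    · rintro ⟨⟨g, i, hi, hg⟩, rfl⟩
      refine ⟨y ^ i * y⁻¹, ?_, ?_⟩
      · have h4 : (i : ℤ) - 1 ≡ 0 [ZMOD m] := by
          have := (Int.natCast_modEq_iff.mpr hi).sub_right 1
          simpa using this
        obtain ⟨c, hc⟩ := (Int.modEq_zero_iff_dvd.mp h4)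
        have h5 : y ^ i * y⁻¹ = (y ^ m) ^ c := by
          rw [← zpow_natCast, ← zpow_natCast, ← zpow_mul, ← hc, zpow_sub, zpow_one]
        rw [h5]
        exact Subgroup.zpow_mem_zpowers _ _
      · simp only [inv_mul_cancel_right]
        rw [hsmul]
        exact hg.symm
    · rintro ⟨h, hh, rfl⟩
      have hh' : h ∈ Submonoid.powers (y ^ m) := (mem_powers_iff_mem_zpowers).mpr hh
      obtain ⟨s, rfl⟩ := Submonoid.mem_powers_iff _ _ |>.mp hh'
      have h4 : (m * s + 1) ≡ 1 [MOD m] := by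
        have := (Nat.modEq_zero_iff_dvd.mpr (dvd_mul_right m s)).add_right 1
        rwa [zero_add] at this
      have h5 : (y ^ m) ^ s * y = y ^ (m * s + 1) := by rw [← pow_mul, pow_succ]
      obtain ⟨c, hc⟩ := isConj_iff.mp (hH _ (h4.of_dvd hkm))
      refine ⟨⟨c, m * s + 1, h4, hc⟩, ?_⟩
      rw [hsmul]
      simp only [h5]
      exact hc
  rw [h2, h3, Set.ncard_image_of_injective _ (mul_left_injective y)] at h1
  have h4 := Subgroup.card_mul_index ((Subgroup.centralizer {y}).subgroupOf (NN m y))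
  rw [h1] at h4
  have h5 : (Subgroup.zpowers (y ^ m) : Set G).ncard = p ^ (a - t) := by
    rw [← orderOf_pow_pq hp ho hta, ← hm, ← Nat.card_zpowers]
    rfl
  have h6 : Nat.card ((Subgroup.centralizer {y}).subgroupOf (NN m y)) =
      Nat.card (Subgroup.centralizer {y}) :=
    Nat.card_congr (Subgroup.subgroupOfEquivOfLe (centralizer_le_NN m y)).toEquiv
  rw [h5, h6] at h4
  rw [← h4, mul_comm]

omit [Finite G] in
theorem tt_min {k s : ℕ} {y z : G} (hk : k ≤ s)
    (h : z * y ^ (p ^ s * q) * z⁻¹ ∈ Subgroup.zpowers (y ^ (p ^ s * q))) : tt p q k y z ≤ s :=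
  Nat.sInf_le ⟨hk, h⟩

omit [Finite G] in
theorem tt_spec {a k : ℕ} {y : G} (ho : orderOf (y ^ q) = p ^ a) (hka : k ≤ a) (z : G) :
    k ≤ tt p q k y z ∧ tt p q k y z ≤ a ∧
      z * y ^ (p ^ tt p q k y z * q) * z⁻¹ ∈ Subgroup.zpowers (y ^ (p ^ tt p q k y z * q)) := by
  have h1 : y ^ (p ^ a * q) = 1 := by
    rw [mul_comm, pow_mul, ← ho, pow_orderOf_eq_one]
  have h2 : z * y ^ (p ^ a * q) * z⁻¹ ∈ Subgroup.zpowers (y ^ (p ^ a * q)) := by
    rw [h1, mul_one, mul_inv_cancel]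
    exact one_mem _
  have h3 : {t | k ≤ t ∧ z * y ^ (p ^ t * q) * z⁻¹ ∈
      Subgroup.zpowers (y ^ (p ^ t * q))}.Nonempty := ⟨a, hka, h2⟩
  have h4 := Nat.sInf_mem h3
  exact ⟨h4.1, tt_min hka h2, h4.2⟩

omit [Finite G] in
theorem pow_relIndex_mem_of_zpowers (T : Subgroup G) (w : G) :
    w ^ T.relIndex (Subgroup.zpowers w) ∈ T := by
  have hn : (T.subgroupOf (Subgroup.zpowers w)).Normal := by
    refine ⟨fun x hx g => ?_⟩
    have h1 : g * x * g⁻¹ = x := by
      obtain ⟨g, hg⟩ := g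
      obtain ⟨x, hx'⟩ := x
      obtain ⟨i, rfl⟩ := Subgroup.mem_zpowers_iff.mp hg
      obtain ⟨j, rfl⟩ := Subgroup.mem_zpowers_iff.mp hx'
      apply Subtype.ext
      simp only [Subgroup.coe_mul, Subgroup.coe_inv]
      rw [← zpow_add, ← zpow_neg, ← zpow_add]
      congr 1
      ring
    rw [h1]
    exact hx
  have h1 := Subgroup.pow_index_mem (T.subgroupOf (Subgroup.zpowers w))
    ⟨w, Subgroup.mem_zpowers w⟩
  rw [Subgroup.mem_subgroupOf] at h1
  exact h1

omit [Finite G] in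
theorem relIndex_mul_card_inf (H K : Subgroup G) :
    H.relIndex K * Nat.card (H ⊓ K : Subgroup G) = Nat.card K := by
  have h3 := Subgroup.card_mul_index (H.subgroupOf K)
  have h4 : Nat.card (H.subgroupOf K) = Nat.card (H ⊓ K : Subgroup G) := by
    rw [← Subgroup.inf_subgroupOf_right H K]
    exact Nat.card_congr (Subgroup.subgroupOfEquivOfLe inf_le_right).toEquiv
  rw [h4, mul_comm] at h3
  exact h3

/-- Consequences of the failure of the divisibility. -/
theorem step (hp : p.Prime) {a k : ℕ} {y z : G}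
    (hyz : Nat.card (Subgroup.centralizer {z}) = Nat.card (Subgroup.centralizer {y}))
    (ho : orderOf (y ^ q) = p ^ a) (hoz : orderOf (z ^ q) = p ^ a) (hka : k < a)
    (hH : ∀ i : ℕ, i ≡ 1 [MOD p ^ k * q] → IsConj y (y ^ i))
    (hI : ¬ p ^ (a - k) ∣ II p q k y z) :
    k + 1 ≤ tt p q k y z ∧ tt p q k y z + k + 1 ≤ a ∧
      (z ^ q) ^ (p ^ (tt p q k y z - k - 1)) ∈ NN (p ^ tt p q k y z * q) y := by
  obtain ⟨hkt, hta, hnorm⟩ := tt_spec (p := p) (q := q) ho hka.le z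
  unfold II at hI
  set t := tt p q k y z with ht
  set N := NN (p ^ t * q) y with hNdef
  set C := Subgroup.centralizer {z} with hC
  have hcard := card_NN hp ho hkt hta hH
  rw [← hNdef, ← hyz] at hcard
  -- `I = p ^ (a - t) * |C(z) : C(z) ∩ N|`
  have e1 := relIndex_mul_card_inf C N
  have e2 := relIndex_mul_card_inf N C
  rw [inf_comm N C] at e2
  have hpos : 0 < Nat.card (C ⊓ N : Subgroup G) := Nat.card_pos
  have e3 : C.relIndex N = p ^ (a - t) * N.relIndex C := by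
    apply Nat.eq_of_mul_eq_mul_right hpos
    rw [e1, hcard, ← e2]
    ring
  have d1 : N.relIndex (Subgroup.zpowers (z ^ q)) ∣ N.relIndex C := by
    apply relIndex_dvd_of_normal
    · rw [Subgroup.zpowers_le, hC, Subgroup.mem_centralizer_iff]
      intro h hh
      rw [Set.mem_singleton_iff] at hh
      subst hh
      exact ((Commute.refl h).pow_right q).eq
    · intro c hc h hh
      rw [hC, Subgroup.mem_centralizer_iff] at hc
      have hcz : Commute c z := (hc z rfl).symm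
      obtain ⟨i, rfl⟩ := Subgroup.mem_zpowers_iff.mp hh
      have : Commute c ((z ^ q) ^ i) := (hcz.pow_right q).zpow_right i
      rw [this.eq, mul_inv_cancel_right]
      exact hh
  obtain ⟨i, hi, hi'⟩ : ∃ i ≤ a, N.relIndex (Subgroup.zpowers (z ^ q)) = p ^ i := by
    rw [← Nat.dvd_prime_pow hp, ← hoz, ← Nat.card_zpowers]
    exact Subgroup.relIndex_dvd_card _ _
  have m1 := pow_relIndex_mem_of_zpowers N (z ^ q)
  rw [hi'] at m1
  have f1 : i + k + 1 ≤ t := by
    by_contra hcon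
    apply hI
    rw [e3]
    rw [hi'] at d1
    refine dvd_trans ?_ (mul_dvd_mul_left _ d1)
    rw [← pow_add]
    exact pow_dvd_pow p (by omega)
  -- second divisibility
  have d2 : C.relIndex (Subgroup.zpowers (y ^ q)) ∣ C.relIndex N := by
    apply relIndex_dvd_of_normal
    · refine le_trans ?_ (centralizer_le_NN _ y)
      rw [Subgroup.zpowers_le, Subgroup.mem_centralizer_iff]
      intro h hh
      rw [Set.mem_singleton_iff] at hh
      subst hh
      exact ((Commute.refl h).pow_right q).eq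
    · intro c hc h hh
      exact conj_pow_mem_zpowers hc q hh
  obtain ⟨i', _, hi2⟩ : ∃ i ≤ a, C.relIndex (Subgroup.zpowers (y ^ q)) = p ^ i := by
    rw [← Nat.dvd_prime_pow hp, ← ho, ← Nat.card_zpowers]
    exact Subgroup.relIndex_dvd_card _ _
  have m2 := pow_relIndex_mem_of_zpowers C (y ^ q)
  rw [hi2] at m2
  have f2 : i' + k + 1 ≤ a := by
    by_contra hcon
    apply hI
    rw [hi2] at d2
    refine dvd_trans ?_ d2
    exact pow_dvd_pow p (by omega)
  have key : ∀ s, i' ≤ s → z * y ^ (p ^ s * q) * z⁻¹ ∈ Subgroup.zpowers (y ^ (p ^ s * q)) := by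
    intro s hs
    have h1 : y ^ (p ^ s * q) ∈ C := by
      have h2 : y ^ (p ^ s * q) = ((y ^ q) ^ p ^ i') ^ (p ^ (s - i')) := by
        rw [← pow_mul (y ^ q), ← pow_add, Nat.add_sub_cancel' hs, ← pow_mul, mul_comm]
      rw [h2]
      exact Subgroup.pow_mem _ m2 _
    rw [hC, Subgroup.mem_centralizer_iff] at h1
    rw [h1 z rfl, mul_inv_cancel_right]
    exact Subgroup.mem_zpowers _
  refine ⟨by omega, ?_, ?_⟩
  · rcases Nat.lt_or_ge k i' with h | h
    · have := tt_min h.le (key i' le_rfl)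
      omega
    · have := tt_min le_rfl (key k h)
      omega
  · have h2 : (z ^ q) ^ (p ^ (t - k - 1)) = ((z ^ q) ^ p ^ i) ^ (p ^ (t - k - 1 - i)) := by
      rw [← pow_mul (z ^ q), ← pow_add]
      congr 2
      omega
    rw [h2]
    exact Subgroup.pow_mem _ m1 _

theorem lift_exp (_hp : p.Prime) (μ : ℤ) (hμ : (p : ℤ) ∣ μ - 1) (M : ℕ) :
    (p : ℤ) ∣ μ ^ p ^ M - 1 ∧ (p : ℤ) ^ M * (μ - 1) ∣ μ ^ p ^ M - 1 := by
  have one : ∀ ν : ℤ, (p : ℤ) ∣ ν - 1 → (p : ℤ) * (ν - 1) ∣ ν ^ p - 1 := by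
    intro ν hν
    rw [← geom_sum_mul ν p]
    apply mul_dvd_mul_right
    have h1 : ν ≡ 1 [ZMOD p] := (Int.modEq_iff_dvd.mpr hν).symm
    have h2 : ∑ i ∈ range p, ν ^ i ≡ ∑ i ∈ range p, 1 [ZMOD p] := by
      apply Int.ModEq.sum
      intro i _
      simpa using h1.pow i
    have h3 : (∑ i ∈ range p, (1 : ℤ)) = p := by simp
    rw [h3] at h2
    exact (Int.modEq_zero_iff_dvd.mp (h2.trans (by simp [Int.ModEq])))
  induction M with
  | zero => simpa using hμ
  | succ M ih =>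
    obtain ⟨h1, h2⟩ := ih
    have h3 := one _ h1
    rw [← pow_mul, ← pow_succ] at h3
    refine ⟨(dvd_mul_right _ _).trans h3, ?_⟩
    refine dvd_trans ?_ h3
    rw [pow_succ', mul_assoc]
    exact mul_dvd_mul_left _ h2

/-- The final commutator computation. -/
theorem final_step (hp : p.Prime) (hq : ¬ p ∣ q) {a k t t' : ℕ} {y z : G}
    (ho : orderOf (y ^ q) = p ^ a) (hoz : orderOf (z ^ q) = p ^ a)
    (ht1 : k + 1 ≤ t') (ht2 : t' ≤ t) (ht3 : t' ≤ 2 * k + 1) (hta : t ≤ a)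
    (hA : (y ^ q) ^ (p ^ (t' - k - 1)) ∈ NN (p ^ t' * q) z)
    (hB : (z ^ q) ^ (p ^ (t - k - 1)) ∈ NN (p ^ t * q) y) :
    z * y ^ (p ^ (t - 1) * q) * z⁻¹ ∈ Subgroup.zpowers (y ^ (p ^ (t - 1) * q)) := by
  obtain ⟨μ, hμ, hμz⟩ := hA
  set v2 := (y ^ q) ^ (p ^ (t' - k - 1)) with hv2
  set v1 := (z ^ q) ^ (p ^ (t - k - 1)) with hv1
  set v := y ^ (p ^ (t - 1) * q) with hv
  have hqp : Nat.Coprime q (p ^ a) := (((hp.coprime_iff_not_dvd).mpr hq).symm).pow_right a
  -- divisibilities of `μ - 1`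
  have hμ' : ((p ^ t' * q : ℕ) : ℤ) ∣ (μ : ℤ) - 1 := by
    have := (Int.natCast_modEq_iff.mpr hμ).symm.dvd
    simpa using this
  have hμp : (p : ℤ) ∣ (μ : ℤ) - 1 := by
    refine dvd_trans ?_ hμ'
    push_cast
    exact (dvd_pow_self _ (by omega)).mul_right _
  obtain ⟨b, hb⟩ : (q : ℤ) ∣ (μ : ℤ) - 1 := by
    refine dvd_trans ?_ hμ'
    push_cast
    exact dvd_mul_left _ _
  obtain ⟨_, x, hx⟩ := lift_exp hp (μ : ℤ) hμp (t - t' + k)
  -- the commutator `c0`
  have hconj : ∀ g : G, g ∈ Subgroup.zpowers z → v2 * g * v2⁻¹ = g ^ μ := by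
    intro g hg
    obtain ⟨s, rfl⟩ := Subgroup.mem_zpowers_iff.mp hg
    rw [← conj_zpow, hμz, ← zpow_natCast, ← zpow_natCast, ← zpow_mul, ← zpow_mul, mul_comm]
  have hv1z : v1 ∈ Subgroup.zpowers z := by
    rw [hv1]
    exact Subgroup.pow_mem _ (Subgroup.pow_mem _ (Subgroup.mem_zpowers z) _) _
  have hc0 : v2 * v1 * v2⁻¹ * v1⁻¹ = v1 ^ ((μ : ℤ) - 1) := by
    rw [hconj v1 hv1z, zpow_sub, zpow_one, zpow_natCast]
  have hc0y : v1 ^ ((μ : ℤ) - 1) ∈ Subgroup.zpowers (y ^ q) := by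
    rw [← hc0]
    have h1 : v2 ∈ Subgroup.zpowers (y ^ q) := Subgroup.pow_mem _ (Subgroup.mem_zpowers _) _
    have h2 := conj_pow_mem_zpowers hB q (Subgroup.inv_mem _ h1)
    have h3 : v2 * v1 * v2⁻¹ * v1⁻¹ = v2 * (v1 * v2⁻¹ * v1⁻¹) := by group
    rw [h3]
    exact Subgroup.mul_mem _ h1 h2
  -- `v` is a power of `v2`
  have hvv : v = v2 ^ (p ^ (t - t' + k)) := by
    rw [hv, hv2, ← pow_mul (y ^ q), ← pow_add, ← pow_mul, mul_comm]
    congr 3
    omega
  have hvz : ∀ r : ℕ, v2 ^ r * z * (v2 ^ r)⁻¹ = z ^ (μ ^ r) := by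
    intro r
    induction r with
    | zero => simp
    | succ r ih =>
      have h1 : v2 ^ (r + 1) * z * (v2 ^ (r + 1))⁻¹ = v2 * (v2 ^ r * z * (v2 ^ r)⁻¹) * v2⁻¹ := by
        rw [pow_succ']; group
      rw [h1, ih, ← conj_pow, hμz, ← pow_mul, pow_succ']
  have hw : v * z * v⁻¹ * z⁻¹ = z ^ (((μ : ℤ) ^ p ^ (t - t' + k)) - 1) := by
    rw [hvv, hvz, zpow_sub, zpow_one, ← zpow_natCast]
    push_cast
    rfl
  have hwy : v * z * v⁻¹ * z⁻¹ ∈ Subgroup.zpowers (y ^ q) := by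
    obtain ⟨q', hq'⟩ : ∃ q' : ℤ, (z ^ q) ^ ((q : ℤ) * q') = z ^ q := by
      obtain ⟨c, d, hcd⟩ := (Nat.isCoprime_iff_coprime.mpr hqp)
      refine ⟨c, ?_⟩
      have h3 : (q : ℤ) * c = 1 + (p ^ a : ℕ) * (-d) := by linarith
      rw [h3, zpow_add, zpow_one, zpow_mul, zpow_natCast, ← hoz, pow_orderOf_eq_one, one_zpow,
        mul_one]
    have h1 : z ^ (((μ : ℤ) ^ p ^ (t - t' + k)) - 1) =
        (v1 ^ ((μ : ℤ) - 1)) ^ (q' * (p : ℤ) ^ (2 * k + 1 - t') * x) := by
      rw [hx, hb, hv1]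
      have h2 : z ^ ((p : ℤ) ^ (t - t' + k) * ((q : ℤ) * b) * x) =
          (z ^ q) ^ ((p : ℤ) ^ (t - t' + k) * b * x) := by
        rw [← zpow_natCast z q, ← zpow_mul]
        congr 1
        ring
      rw [h2]
      conv_lhs => rw [← hq']
      rw [← zpow_natCast (z ^ q) (p ^ (t - k - 1)), ← zpow_mul, ← zpow_mul, ← zpow_mul]
      congr 1
      have h3 : (p : ℤ) ^ (t - t' + k) = (p : ℤ) ^ (t - k - 1) * (p : ℤ) ^ (2 * k + 1 - t') := by
        rw [← pow_add]
        congr 1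
        omega
      rw [h3]
      push_cast
      ring
    rw [hw, h1]
    exact Subgroup.zpow_mem _ hc0y _
  -- conclusion
  have hvy : v ∈ Subgroup.zpowers (y ^ q) := by
    rw [hv, mul_comm, pow_mul]
    exact Subgroup.npow_mem_zpowers _ _
  have h1 : z * v * z⁻¹ ∈ Subgroup.zpowers (y ^ q) := by
    have h2 : z * v * z⁻¹ = (v * z * v⁻¹ * z⁻¹)⁻¹ * v := by group
    rw [h2]
    exact Subgroup.mul_mem _ (Subgroup.inv_mem _ hwy) hvy
  have h2 : z * v * z⁻¹ ∈ Submonoid.powers (y ^ q) := (mem_powers_iff_mem_zpowers).mpr h1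
  obtain ⟨s, hs⟩ := Submonoid.mem_powers_iff _ _ |>.mp h2
  have hov : v ^ p ^ (a - t + 1) = 1 := by
    rw [hv, ← pow_mul]
    have : p ^ (t - 1) * q * p ^ (a - t + 1) = q * p ^ a := by
      have h3 : p ^ a = p ^ (t - 1) * p ^ (a - t + 1) := by
        rw [← pow_add]; congr 1; omega
      rw [h3]; ring
    rw [this, pow_mul, ← ho, pow_orderOf_eq_one]
  have h3 : (y ^ q) ^ (s * p ^ (a - t + 1)) = 1 := by
    rw [pow_mul, hs, conj_pow, hov, mul_one, mul_inv_cancel]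
  rw [← orderOf_dvd_iff_pow_eq_one, ho] at h3
  have h4 : p ^ (t - 1) ∣ s := by
    have h5 : p ^ a = p ^ (t - 1) * p ^ (a - t + 1) := by
      rw [← pow_add]; congr 1; omega
    rw [h5] at h3
    exact Nat.dvd_of_mul_dvd_mul_right (pow_pos hp.pos _) h3
  obtain ⟨s', rfl⟩ := h4
  rw [← hs, hv, mul_comm (p ^ (t - 1)) q, pow_mul y q, pow_mul (y ^ q) (p ^ (t-1)) s']
  exact Subgroup.npow_mem_zpowers _ _

omit [Finite G] in
theorem card_centralizer_of_isConj {y z : G} (h : IsConj y z) :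
    Nat.card (Subgroup.centralizer {z}) = Nat.card (Subgroup.centralizer {y}) := by
  obtain ⟨c, rfl⟩ := isConj_iff.mp h
  apply Nat.card_congr
  refine ⟨fun g => ⟨c⁻¹ * g * c, ?_⟩, fun g => ⟨c * g * c⁻¹, ?_⟩, fun g => ?_, fun g => ?_⟩
  · have hg := g.2
    rw [Subgroup.mem_centralizer_iff] at hg ⊢
    intro x hx
    rw [Set.mem_singleton_iff] at hx
    subst hx
    have h1 := hg _ rfl
    have h2 : x * (c⁻¹ * g * c) = c⁻¹ * (c * x * c⁻¹ * g) * c := by group
    have h3 : c⁻¹ * g * c * x = c⁻¹ * (g * (c * x * c⁻¹)) * c := by group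
    rw [h2, h3, h1]
  · have hg := g.2
    rw [Subgroup.mem_centralizer_iff] at hg ⊢
    intro x hx
    rw [Set.mem_singleton_iff] at hx
    subst hx
    have h1 := hg _ rfl
    have h2 : c * y * c⁻¹ * (c * g * c⁻¹) = c * (y * g) * c⁻¹ := by group
    have h3 : c * g * c⁻¹ * (c * y * c⁻¹) = c * (g * y) * c⁻¹ := by group
    rw [h2, h3, h1]
  · apply Subtype.ext
    simp only
    group
  · apply Subtype.ext
    simp only
    group

omit [Finite G] in
theorem fusion_of_isConj {m : ℕ} {y z : G} (h : IsConj y z)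
    (hH : ∀ i : ℕ, i ≡ 1 [MOD m] → IsConj y (y ^ i)) :
    ∀ i : ℕ, i ≡ 1 [MOD m] → IsConj z (z ^ i) :=
  fun i hi => h.symm.trans ((hH i hi).trans (h.pow i))

omit [Finite G] in
theorem orderOf_of_isConj {y z : G} (h : IsConj y z) (r : ℕ) :
    orderOf (z ^ r) = orderOf (y ^ r) := by
  obtain ⟨c, rfl⟩ := isConj_iff.mp h
  rw [conj_pow]
  exact orderOf_injective (MulAut.conj c).toMonoidHom (MulAut.conj c).injective (y ^ r)

/-- Claim A. -/
theorem claimA (hp : p.Prime) (hq : ¬ p ∣ q) {a k : ℕ} {y z : G}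
    (hyz : IsConj y z) (ho : orderOf (y ^ q) = p ^ a) (hka : k < a)
    (h3 : a ≤ 3 * k + 2) (hH : ∀ i : ℕ, i ≡ 1 [MOD p ^ k * q] → IsConj y (y ^ i)) :
    p ^ (a - k) ∣ II p q k y z ∨ p ^ (a - k) ∣ II p q k z y := by
  by_contra hcon
  push Not at hcon
  obtain ⟨hc1, hc2⟩ := hcon
  have hoz : orderOf (z ^ q) = p ^ a := by rw [orderOf_of_isConj hyz, ho]
  have hHz := fusion_of_isConj hyz hH
  have hcc := card_centralizer_of_isConj hyz
  obtain ⟨a1, a2, a3⟩ := step hp hcc ho hoz hka hH hc1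
  obtain ⟨b1, b2, b3⟩ := step hp hcc.symm hoz ho hka hHz hc2
  rcases Nat.le_total (tt p q k z y) (tt p q k y z) with h | h
  · have h1 := final_step hp hq ho hoz b1 h (by omega) (by omega) b3 a3
    have h2 := tt_min (k := k) (by omega) h1
    omega
  · have h1 := final_step hp hq hoz ho a1 h (by omega) (by omega) a3 b3
    have h2 := tt_min (k := k) (by omega) h1
    omega

end

end Pool.Agent.H57.Wilde
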