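import Mathlib
import Pool.Agent.H57.Wilde.GA

/-!
Group theory of pairs of conjugate elements, symmetric version: the least level `t` at which
`⟨y ^ (p ^ t * q)⟩` and `⟨z ^ (p ^ t * q)⟩` lie in `NN (p ^ t * q) z` and `NN (p ^ t * q) y`.
-/

namespace Pool.Agent.H57.Wilde

open Finset Pool.Agent.H42.Wilde

section

variable {G : Type*} [Group G] [Finite G] {p q : ℕ}

/-- The cyclic groups of `y ^ m` and `z ^ m` lie in `NN m z` and `NN m y`. -/
def Mut (m : ℕ) (y z : G) : Prop := y ^ m ∈ NN m z ∧ z ^ m ∈ NN m y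

/-- The least level `t ≥ k` with `Mut`. -/
noncomputable def th (p q k : ℕ) (y z : G) : ℕ := sInf {t | k ≤ t ∧ Mut (p ^ t * q) y z}

theorem Mut_comm {m : ℕ} {y z : G} : Mut m y z ↔ Mut m z y := and_comm

theorem th_comm (k : ℕ) (y z : G) : th p q k y z = th p q k z y := by
  unfold th
  congr 1
  ext t
  simp only [Set.mem_ofPred_eq, Mut_comm (y := y)]

theorem NN_le_of_mem_zpowers {m : ℕ} {y y' : G} (h : y' ∈ Subgroup.zpowers y) :
    NN m y ≤ NN m y' := by
  rintro g ⟨i, hi, hg⟩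
  obtain ⟨j, rfl⟩ := Subgroup.mem_zpowers_iff.mp h
  refine ⟨i, hi, ?_⟩
  rw [← conj_zpow, hg, ← zpow_natCast, ← zpow_natCast, ← zpow_mul, ← zpow_mul, mul_comm]

theorem NN_congr {m : ℕ} {y y' : G} (h : Subgroup.zpowers y = Subgroup.zpowers y') :
    NN m y = NN m y' :=
  le_antisymm (NN_le_of_mem_zpowers (by rw [h]; exact Subgroup.mem_zpowers _))
    (NN_le_of_mem_zpowers (by rw [← h]; exact Subgroup.mem_zpowers _))

omit [Finite G] in
theorem zpowers_pow_congr {y y' : G} (h : Subgroup.zpowers y = Subgroup.zpowers y') (m : ℕ) :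
    Subgroup.zpowers (y ^ m) = Subgroup.zpowers (y' ^ m) := by
  have key : ∀ {y y' : G}, y' ∈ Subgroup.zpowers y →
      Subgroup.zpowers (y' ^ m) ≤ Subgroup.zpowers (y ^ m) := by
    intro y y' h
    rw [Subgroup.zpowers_le]
    obtain ⟨j, rfl⟩ := Subgroup.mem_zpowers_iff.mp h
    rw [← zpow_natCast (y ^ j) m, ← zpow_mul, mul_comm, zpow_mul, zpow_natCast]
    exact Subgroup.zpow_mem_zpowers _ _
  exact le_antisymm (key (by rw [← h]; exact Subgroup.mem_zpowers _))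
    (key (by rw [h]; exact Subgroup.mem_zpowers _))

theorem mem_NN_conj {m : ℕ} {g x y : G} : x ∈ NN m (g * y * g⁻¹) ↔ g⁻¹ * x * g ∈ NN m y := by
  rw [mem_NN, mem_NN]
  refine exists_congr fun i => and_congr_right fun _ => ?_
  rw [conj_pow]
  constructor
  · intro h
    have h2 : g⁻¹ * x * g * y * (g⁻¹ * x * g)⁻¹ = g⁻¹ * (x * (g * y * g⁻¹) * x⁻¹) * g := by group
    rw [h2, h]; group
  · intro h
    have h2 : x * (g * y * g⁻¹) * x⁻¹ = g * (g⁻¹ * x * g * y * (g⁻¹ * x * g)⁻¹) * g⁻¹ := by group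
    rw [h2, h]

theorem Mut_conj (m : ℕ) (g y z : G) : Mut m (g * y * g⁻¹) (g * z * g⁻¹) ↔ Mut m y z := by
  have key : ∀ y z : G, (g * y * g⁻¹) ^ m ∈ NN m (g * z * g⁻¹) ↔ y ^ m ∈ NN m z := by
    intro y z
    rw [mem_NN_conj, conj_pow]
    have h : g⁻¹ * (g * y ^ m * g⁻¹) * g = y ^ m := by group
    rw [h]
  unfold Mut
  rw [key, key]

theorem Mut_congr {m : ℕ} {y y' z z' : G} (h : Subgroup.zpowers y = Subgroup.zpowers y')
    (h' : Subgroup.zpowers z = Subgroup.zpowers z') : Mut m y z ↔ Mut m y' z' := by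
  have e1 := zpowers_pow_congr h m
  have e2 := zpowers_pow_congr h' m
  unfold Mut
  rw [NN_congr h, NN_congr h']
  rw [← Subgroup.zpowers_le (g := y ^ m), ← Subgroup.zpowers_le (g := z ^ m), e1, e2,
    Subgroup.zpowers_le, Subgroup.zpowers_le]

theorem th_conj (k : ℕ) (g y z : G) :
    th p q k (g * y * g⁻¹) (g * z * g⁻¹) = th p q k y z := by
  unfold th
  congr 1
  ext t
  simp only [Set.mem_ofPred_eq, Mut_conj]

theorem th_congr {k : ℕ} {y y' z z' : G} (h : Subgroup.zpowers y = Subgroup.zpowers y')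
    (h' : Subgroup.zpowers z = Subgroup.zpowers z') : th p q k y z = th p q k y' z' := by
  unfold th
  congr 1
  ext t
  simp only [Set.mem_ofPred_eq, Mut_congr h h']

theorem th_min {k t : ℕ} {y z : G} (hk : k ≤ t) (h : Mut (p ^ t * q) y z) : th p q k y z ≤ t :=
  Nat.sInf_le ⟨hk, h⟩

theorem th_spec {a k : ℕ} {y z : G} (ho : orderOf (y ^ q) = p ^ a)
    (hoz : orderOf (z ^ q) = p ^ a) (hka : k ≤ a) :
    k ≤ th p q k y z ∧ th p q k y z ≤ a ∧ Mut (p ^ th p q k y z * q) y z := by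
  have h1 : y ^ (p ^ a * q) = 1 := by
    rw [mul_comm, pow_mul, ← ho, pow_orderOf_eq_one]
  have h1' : z ^ (p ^ a * q) = 1 := by
    rw [mul_comm, pow_mul, ← hoz, pow_orderOf_eq_one]
  have h2 : Mut (p ^ a * q) y z := by
    unfold Mut
    rw [h1, h1']
    exact ⟨one_mem _, one_mem _⟩
  have h3 : {t | k ≤ t ∧ Mut (p ^ t * q) y z}.Nonempty := ⟨a, hka, h2⟩
  have h4 := Nat.sInf_mem h3
  exact ⟨h4.1, th_min hka h2, h4.2⟩

/-- The two indices agree. -/
theorem relIndex_comm (hp : p.Prime) {a k t : ℕ} {y z : G} (hyz : IsConj y z)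
    (ho : orderOf (y ^ q) = p ^ a) (hkt : k ≤ t) (hta : t ≤ a)
    (hH : ∀ i : ℕ, i ≡ 1 [MOD p ^ k * q] → IsConj y (y ^ i)) :
    (NN (p ^ t * q) z).relIndex (NN (p ^ t * q) y) =
      (NN (p ^ t * q) y).relIndex (NN (p ^ t * q) z) := by
  have hoz : orderOf (z ^ q) = p ^ a := by rw [orderOf_of_isConj hyz, ho]
  have e1 := relIndex_mul_card_inf (NN (p ^ t * q) z) (NN (p ^ t * q) y)
  have e2 := relIndex_mul_card_inf (NN (p ^ t * q) y) (NN (p ^ t * q) z)
  rw [inf_comm, card_NN hp ho hkt hta hH] at e1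
  rw [card_NN hp hoz hkt hta (fusion_of_isConj hyz hH), card_centralizer_of_isConj hyz] at e2
  exact Nat.eq_of_mul_eq_mul_right Nat.card_pos (e1.trans e2.symm)

/-- Failure of membership gives divisibility of the index. -/
theorem pow_dvd_relIndex (hp : p.Prime) {a t s : ℕ} {y z : G}
    (ho : orderOf (y ^ q) = p ^ a) (h : (y ^ q) ^ (p ^ s) ∉ NN (p ^ t * q) z) :
    p ^ (s + 1) ∣ (NN (p ^ t * q) z).relIndex (NN (p ^ t * q) y) := by
  have d1 : (NN (p ^ t * q) z).relIndex (Subgroup.zpowers (y ^ q)) ∣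
      (NN (p ^ t * q) z).relIndex (NN (p ^ t * q) y) := by
    apply relIndex_dvd_of_normal
    · refine le_trans ?_ (centralizer_le_NN _ y)
      rw [Subgroup.zpowers_le, Subgroup.mem_centralizer_iff]
      intro x hx
      rw [Set.mem_singleton_iff] at hx
      subst hx
      exact ((Commute.refl x).pow_right q).eq
    · intro c hc x hx
      exact conj_pow_mem_zpowers hc q hx
  obtain ⟨i, hi, hi'⟩ : ∃ i ≤ a, (NN (p ^ t * q) z).relIndex (Subgroup.zpowers (y ^ q)) = p ^ i := by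
    rw [← Nat.dvd_prime_pow hp, ← ho, ← Nat.card_zpowers]
    exact Subgroup.relIndex_dvd_card _ _
  have m1 := pow_relIndex_mem_of_zpowers (NN (p ^ t * q) z) (y ^ q)
  rw [hi'] at m1 d1
  refine dvd_trans (pow_dvd_pow p ?_) d1
  by_contra hcon
  apply h
  have h2 : (y ^ q) ^ (p ^ s) = ((y ^ q) ^ p ^ i) ^ (p ^ (s - i)) := by
    rw [← pow_mul (y ^ q), ← pow_add]
    congr 2
    omega
  rw [h2]
  exact Subgroup.pow_mem _ m1 _

/-- Above the least level the index is divisible by `p ^ t`. -/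
theorem dvd_relIndex (hp : p.Prime) {a k : ℕ} {y z : G} (hyz : IsConj y z)
    (ho : orderOf (y ^ q) = p ^ a) (hka : k ≤ a)
    (hH : ∀ i : ℕ, i ≡ 1 [MOD p ^ k * q] → IsConj y (y ^ i)) (hk : k < th p q k y z) :
    p ^ th p q k y z ∣
      (NN (p ^ th p q k y z * q) z).relIndex (NN (p ^ th p q k y z * q) y) := by
  have hoz : orderOf (z ^ q) = p ^ a := by rw [orderOf_of_isConj hyz, ho]
  obtain ⟨hkt, hta, _⟩ := th_spec ho hoz hka
  set t := th p q k y z with ht
  have hpow : ∀ x : G, x ^ (p ^ (t - 1) * q) = (x ^ q) ^ (p ^ (t - 1)) := by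
    intro x
    rw [← pow_mul, mul_comm]
  have hdiv : p ^ (t - 1) * q ∣ p ^ t * q := mul_dvd_mul_right (pow_dvd_pow p (by omega)) q
  by_contra hcon
  have hnot : ¬ Mut (p ^ (t - 1) * q) y z := by
    intro h
    have := th_min (k := k) (by omega) h
    omega
  apply hnot
  refine ⟨?_, ?_⟩
  · by_contra h
    apply hcon
    have h1 : (y ^ q) ^ (p ^ (t - 1)) ∉ NN (p ^ t * q) z := by
      intro h2
      apply h
      rw [hpow]
      exact NN_mono hdiv z h2
    have h2 := pow_dvd_relIndex hp ho h1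
    rwa [Nat.sub_add_cancel (by omega)] at h2
  · by_contra h
    apply hcon
    have h1 : (z ^ q) ^ (p ^ (t - 1)) ∉ NN (p ^ t * q) y := by
      intro h2
      apply h
      rw [hpow]
      exact NN_mono hdiv y h2
    have h2 := pow_dvd_relIndex hp hoz h1
    rw [← relIndex_comm hp hyz ho hkt hta hH] at h2
    rwa [Nat.sub_add_cancel (by omega)] at h2

/-- The size of a block is divisible by `p ^ (a - k)`, and by `p ^ a` above the level `k`. -/
theorem dvd_block (hp : p.Prime) {a k : ℕ} {y z : G} (hyz : IsConj y z)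
    (ho : orderOf (y ^ q) = p ^ a) (hka : k ≤ a)
    (hH : ∀ i : ℕ, i ≡ 1 [MOD p ^ k * q] → IsConj y (y ^ i)) :
    p ^ (a - k) ∣ p ^ (a - th p q k y z) *
      (NN (p ^ th p q k y z * q) z).relIndex (NN (p ^ th p q k y z * q) y) := by
  have hoz : orderOf (z ^ q) = p ^ a := by rw [orderOf_of_isConj hyz, ho]
  obtain ⟨hkt, hta, _⟩ := th_spec ho hoz hka
  rcases hkt.eq_or_lt with h | h
  · rw [← h]
    exact dvd_mul_right _ _
  · have h1 := dvd_relIndex hp hyz ho hka hH h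
    refine dvd_trans ?_ (mul_dvd_mul_left _ h1)
    rw [← pow_add]
    exact pow_dvd_pow p (by omega)

theorem dvd_block_of_lt (hp : p.Prime) {a k : ℕ} {y z : G} (hyz : IsConj y z)
    (ho : orderOf (y ^ q) = p ^ a) (hka : k ≤ a)
    (hH : ∀ i : ℕ, i ≡ 1 [MOD p ^ k * q] → IsConj y (y ^ i)) (hk : k < th p q k y z) :
    p ^ a ∣ p ^ (a - th p q k y z) *
      (NN (p ^ th p q k y z * q) z).relIndex (NN (p ^ th p q k y z * q) y) := by
  have hoz : orderOf (z ^ q) = p ^ a := by rw [orderOf_of_isConj hyz, ho]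
  obtain ⟨hkt, hta, _⟩ := th_spec ho hoz hka
  have h1 := dvd_relIndex hp hyz ho hka hH hk
  refine dvd_trans ?_ (mul_dvd_mul_left _ h1)
  rw [← pow_add]
  exact pow_dvd_pow p (by omega)

/-- The pairs with a block of least size. -/
theorem tight (hp : p.Prime) {a k : ℕ} {y z : G} (hyz : IsConj y z)
    (ho : orderOf (y ^ q) = p ^ a) (hk1 : 1 ≤ k) (hka : k ≤ a)
    (hH : ∀ i : ℕ, i ≡ 1 [MOD p ^ k * q] → IsConj y (y ^ i))
    (hn : ¬ p ^ (a - k + 1) ∣ p ^ (a - th p q k y z) *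
      (NN (p ^ th p q k y z * q) z).relIndex (NN (p ^ th p q k y z * q) y)) :
    th p q k y z = k ∧ ¬ p ∣ (NN (p ^ k * q) z).relIndex (NN (p ^ k * q) y) ∧
      y ^ q ∈ NN (p ^ k * q) z ∧ z ^ q ∈ NN (p ^ k * q) y := by
  have hoz : orderOf (z ^ q) = p ^ a := by rw [orderOf_of_isConj hyz, ho]
  obtain ⟨hkt, hta, _⟩ := th_spec ho hoz hka
  have hth : th p q k y z = k := by
    by_contra hcon
    apply hn
    exact dvd_trans (pow_dvd_pow p (by omega))
      (dvd_block_of_lt hp hyz ho hka hH (lt_of_le_of_ne hkt (Ne.symm hcon)))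
  rw [hth] at hn
  have h1 : ¬ p ∣ (NN (p ^ k * q) z).relIndex (NN (p ^ k * q) y) := by
    intro h
    apply hn
    rw [pow_succ]
    exact mul_dvd_mul_left _ h
  refine ⟨hth, h1, ?_, ?_⟩
  · by_contra h
    have h2 : (y ^ q) ^ (p ^ 0) ∉ NN (p ^ k * q) z := by simpa using h
    have h3 := pow_dvd_relIndex hp ho h2
    rw [zero_add, pow_one] at h3
    exact h1 h3
  · by_contra h
    have h2 : (z ^ q) ^ (p ^ 0) ∉ NN (p ^ k * q) y := by simpa using h
    have h3 := pow_dvd_relIndex hp hoz h2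
    rw [zero_add, pow_one, ← relIndex_comm hp hyz ho le_rfl hka hH] at h3
    exact h1 h3

/-- `⟨y ^ m⟩` normalises `⟨z ^ m⟩`. -/
theorem norm_zpowers {m : ℕ} {y z h b : G} (hM : Mut m y z) (hh : h ∈ Subgroup.zpowers (y ^ m))
    (hb : b ∈ Subgroup.zpowers (z ^ m)) : h * b * h⁻¹ ∈ Subgroup.zpowers (z ^ m) := by
  have h1 : h ∈ NN m z := (Subgroup.zpowers_le.mpr hM.1) hh
  exact conj_pow_mem_zpowers h1 m hb

omit [Finite G] in
theorem zpow_one_sub_mem {m i : ℕ} (hi : i ≡ 1 [MOD m]) (y : G) :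
    y ^ (1 - (i : ℤ)) ∈ Subgroup.zpowers (y ^ m) := by
  have h4 : (1 : ℤ) - i ≡ 0 [ZMOD m] := by
    have := (Int.natCast_modEq_iff.mpr hi.symm).sub_right i
    simpa using this
  obtain ⟨c, hc⟩ := (Int.modEq_zero_iff_dvd.mp h4)
  rw [hc, zpow_mul, zpow_natCast]
  exact Subgroup.zpow_mem_zpowers _ _

/-- `y` normalises the product. -/
theorem norm_left {m : ℕ} {y z w : G} (hM : Mut m y z)
    (hw : w ∈ Subgroup.zpowers (y ^ m) ⊔ Subgroup.zpowers (z ^ m)) :
    y * w * y⁻¹ ∈ Subgroup.zpowers (y ^ m) ⊔ Subgroup.zpowers (z ^ m) := by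
  obtain ⟨_, i, hi, hz⟩ := hM
  have h1 : (Subgroup.zpowers (y ^ m) ⊔ Subgroup.zpowers (z ^ m)).map
      (MulAut.conj y).toMonoidHom ≤ Subgroup.zpowers (y ^ m) ⊔ Subgroup.zpowers (z ^ m) := by
    rw [Subgroup.map_sup, MonoidHom.map_zpowers, MonoidHom.map_zpowers]
    refine sup_le ?_ ?_
    · rw [Subgroup.zpowers_le]
      have h2 : (MulAut.conj y).toMonoidHom (y ^ m) = y ^ m := by
        simp only [MulEquiv.toMonoidHom_eq_coe, MonoidHom.coe_coe, MulAut.conj_apply]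
        rw [← pow_succ', pow_succ, mul_inv_cancel_right]
      rw [h2]
      exact Subgroup.mem_sup_left (Subgroup.mem_zpowers _)
    · rw [Subgroup.zpowers_le]
      have h2 : (MulAut.conj y).toMonoidHom (z ^ m) = y ^ (1 - (i : ℤ)) * z ^ m := by
        simp only [MulEquiv.toMonoidHom_eq_coe, MonoidHom.coe_coe, MulAut.conj_apply]
        have h3 : z ^ m * y = y ^ i * z ^ m := by
          rw [← hz, inv_mul_cancel_right]
        have h4 : z ^ m * y⁻¹ = (y ^ i)⁻¹ * z ^ m := by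
          rw [eq_inv_mul_iff_mul_eq, ← mul_assoc, ← h3, mul_inv_cancel_right]
        rw [mul_assoc, h4, zpow_sub, zpow_one, zpow_natCast, mul_assoc]
      rw [h2]
      exact Subgroup.mul_mem _ (Subgroup.mem_sup_left (zpow_one_sub_mem hi y))
        (Subgroup.mem_sup_right (Subgroup.mem_zpowers _))
  exact h1 (Subgroup.mem_map_of_mem _ hw)

/-- `z` normalises the product. -/
theorem norm_right {m : ℕ} {y z w : G} (hM : Mut m y z)
    (hw : w ∈ Subgroup.zpowers (y ^ m) ⊔ Subgroup.zpowers (z ^ m)) :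
    z * w * z⁻¹ ∈ Subgroup.zpowers (y ^ m) ⊔ Subgroup.zpowers (z ^ m) := by
  rw [sup_comm] at hw ⊢
  exact norm_left (Mut_comm.mp hM) hw

end

end Pool.Agent.H57.Wilde
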