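import Mathlib
import Pool.Agent.H57.Wilde.GB
import Pool.Agent.H57.Wilde.AV

/-!
The mean of a character over `⟨y ^ m⟩ × ⟨z ^ m⟩` is its mean over the product of the two groups.
-/

namespace Pool.Agent.H57.Wilde

open Finset Representation Pool.Agent.H42.Wilde

section
variable {G : Type*} [Group G] [Finite G]

/-- The product of the two cyclic groups. -/
def WW (m : ℕ) (y z : G) (h : Mut m y z) : Subgroup G where
  carrier := {w | ∃ a ∈ Subgroup.zpowers (y ^ m), ∃ b ∈ Subgroup.zpowers (z ^ m), w = a * b}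
  one_mem' := ⟨1, one_mem _, 1, one_mem _, by simp⟩
  mul_mem' := by
    rintro _ _ ⟨a, ha, b, hb, rfl⟩ ⟨a', ha', b', hb', rfl⟩
    have h2 := norm_zpowers h (Subgroup.inv_mem _ ha') hb
    refine ⟨a * a', mul_mem ha ha', _, mul_mem h2 hb', ?_⟩
    group
  inv_mem' := by
    rintro _ ⟨a, ha, b, hb, rfl⟩
    have h2 := norm_zpowers h ha (Subgroup.inv_mem _ hb)
    refine ⟨a⁻¹, inv_mem ha, _, h2, ?_⟩
    group

theorem WW_eq_sup {m : ℕ} {y z : G} (h : Mut m y z) :
    WW m y z h = Subgroup.zpowers (y ^ m) ⊔ Subgroup.zpowers (z ^ m) := by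
  apply le_antisymm
  · rintro _ ⟨a, ha, b, hb, rfl⟩
    exact mul_mem (Subgroup.mem_sup_left ha) (Subgroup.mem_sup_right hb)
  · refine sup_le ?_ ?_
    · intro a ha
      exact ⟨a, ha, 1, one_mem _, by simp⟩
    · intro b hb
      exact ⟨1, one_mem _, b, hb, by simp⟩

/-- Every element of the join is a product `b * a`. -/
theorem mem_sup_mul {m : ℕ} {y z w : G} (h : Mut m y z)
    (hw : w ∈ Subgroup.zpowers (y ^ m) ⊔ Subgroup.zpowers (z ^ m)) :
    ∃ b ∈ Subgroup.zpowers (z ^ m), ∃ a ∈ Subgroup.zpowers (y ^ m), w = b * a := by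
  rw [← WW_eq_sup h] at hw
  obtain ⟨a, ha, b, hb, hab⟩ := (WW m y z h).inv_mem hw
  refine ⟨b⁻¹, inv_mem hb, a⁻¹, inv_mem ha, ?_⟩
  rw [← mul_inv_rev, ← hab, inv_inv]

/-- The sum over the product group, in terms of the sum over pairs. -/
theorem sum_prod_sup {m : ℕ} {y z : G} (h : Mut m y z)
    [Fintype (Subgroup.zpowers (y ^ m))] [Fintype (Subgroup.zpowers (z ^ m))]
    [Fintype (Subgroup.zpowers (y ^ m) ⊔ Subgroup.zpowers (z ^ m) : Subgroup G)] (f : G → ℂ) :
    (Fintype.card (Subgroup.zpowers (y ^ m) ⊔ Subgroup.zpowers (z ^ m) : Subgroup G) : ℂ) *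
      ∑ a : Subgroup.zpowers (y ^ m), ∑ b : Subgroup.zpowers (z ^ m),
        f ((b : G) * (a : G)) =
    (Fintype.card (Subgroup.zpowers (y ^ m)) : ℂ) * (Fintype.card (Subgroup.zpowers (z ^ m)) : ℂ) *
      ∑ w : (Subgroup.zpowers (y ^ m) ⊔ Subgroup.zpowers (z ^ m) : Subgroup G), f (w : G) := by
  -- both sides equal a triple sum
  have e2 : ∑ w : (Subgroup.zpowers (y ^ m) ⊔ Subgroup.zpowers (z ^ m) : Subgroup G),
      ∑ a : Subgroup.zpowers (y ^ m), ∑ b : Subgroup.zpowers (z ^ m),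
      f ((b : G) * (w : G) * (a : G)) =
      (Fintype.card (Subgroup.zpowers (y ^ m) ⊔ Subgroup.zpowers (z ^ m) : Subgroup G) : ℂ) *
      ∑ a : Subgroup.zpowers (y ^ m), ∑ b : Subgroup.zpowers (z ^ m),
        f ((b : G) * (a : G)) := by
    rw [← nsmul_eq_mul, ← Finset.card_univ, ← Finset.sum_const]
    apply Finset.sum_congr rfl
    intro w _
    obtain ⟨b0, hb0, a0, ha0, hw⟩ := mem_sup_mul h w.2
    rw [← Equiv.sum_comp (Equiv.mulLeft (⟨a0, ha0⟩ : Subgroup.zpowers (y ^ m)))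
      (fun a => ∑ b : Subgroup.zpowers (z ^ m), f ((b : G) * (a : G)))]
    apply Finset.sum_congr rfl
    intro a _
    rw [← Equiv.sum_comp (Equiv.mulRight (⟨b0, hb0⟩ : Subgroup.zpowers (z ^ m)))
      (fun b => f ((b : G) * ((Equiv.mulLeft (⟨a0, ha0⟩ : Subgroup.zpowers (y ^ m)) a :
        Subgroup.zpowers (y ^ m)) : G)))]
    apply Finset.sum_congr rfl
    intro b _
    rw [hw]
    simp only [Equiv.coe_mulLeft, Equiv.coe_mulRight, Subgroup.coe_mul]
    congr 1
    group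
  have e3 : ∑ w : (Subgroup.zpowers (y ^ m) ⊔ Subgroup.zpowers (z ^ m) : Subgroup G),
      ∑ a : Subgroup.zpowers (y ^ m), ∑ b : Subgroup.zpowers (z ^ m),
      f ((b : G) * (w : G) * (a : G)) =
      (Fintype.card (Subgroup.zpowers (y ^ m)) : ℂ) *
      (Fintype.card (Subgroup.zpowers (z ^ m)) : ℂ) *
      ∑ w : (Subgroup.zpowers (y ^ m) ⊔ Subgroup.zpowers (z ^ m) : Subgroup G), f (w : G) := by
    rw [Finset.sum_comm]
    rw [mul_assoc, ← nsmul_eq_mul, ← nsmul_eq_mul, ← Finset.card_univ, ← Finset.card_univ,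
      ← Finset.sum_const, ← Finset.sum_const]
    apply Finset.sum_congr rfl
    intro a _
    rw [Finset.sum_comm]
    apply Finset.sum_congr rfl
    intro b _
    let b' : (Subgroup.zpowers (y ^ m) ⊔ Subgroup.zpowers (z ^ m) : Subgroup G) :=
      ⟨b, Subgroup.mem_sup_right b.2⟩
    let a' : (Subgroup.zpowers (y ^ m) ⊔ Subgroup.zpowers (z ^ m) : Subgroup G) :=
      ⟨a, Subgroup.mem_sup_left a.2⟩
    rw [← Equiv.sum_comp ((Equiv.mulLeft b').trans (Equiv.mulRight a'))
      (fun w : (Subgroup.zpowers (y ^ m) ⊔ Subgroup.zpowers (z ^ m) : Subgroup G) => f (w : G))]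
    apply Finset.sum_congr rfl
    intro w _
    simp only [Equiv.trans_apply, Equiv.coe_mulLeft, Equiv.coe_mulRight, Subgroup.coe_mul, a', b']
  rw [← e2, e3]

end

section
variable {G V : Type*} [Group G] [Fintype G] [AddCommGroup V] [Module ℂ V] [FiniteDimensional ℂ V]
  (ρ : Representation ℂ G V)

/-- The mean over pairs is the mean over the product group. -/
theorem avg_pair_eq {m : ℕ} {y z : G} (h : Mut m y z)
    [Fintype (Subgroup.zpowers (y ^ m))] [Fintype (Subgroup.zpowers (z ^ m))]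
    [Fintype (Subgroup.zpowers (y ^ m) ⊔ Subgroup.zpowers (z ^ m) : Subgroup G)] :
    ((Nat.card (Subgroup.zpowers (y ^ m)) : ℂ) * (Nat.card (Subgroup.zpowers (z ^ m)) : ℂ))⁻¹ *
      ∑ a : Subgroup.zpowers (y ^ m), ∑ b : Subgroup.zpowers (z ^ m),
        ρ.character (y * (a : G) * (z * (b : G))) =
    (Nat.card (Subgroup.zpowers (y ^ m) ⊔ Subgroup.zpowers (z ^ m) : Subgroup G) : ℂ)⁻¹ *
      ∑ w : (Subgroup.zpowers (y ^ m) ⊔ Subgroup.zpowers (z ^ m) : Subgroup G),
        ρ.character ((w : G) * (y * z)) := by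
  have e1 : ∀ (a : Subgroup.zpowers (y ^ m)) (b : Subgroup.zpowers (z ^ m)),
      ρ.character (y * (a : G) * (z * (b : G))) = ρ.character ((b : G) * (a : G) * (y * z)) := by
    intro a b
    have h2 : Commute y (a : G) := by
      obtain ⟨s, hs⟩ := Subgroup.mem_zpowers_iff.mp a.2
      rw [← hs]
      exact ((Commute.refl y).pow_right m).zpow_right s
    have h3 : y * (a : G) * (z * (b : G)) = ((a : G) * (y * z)) * (b : G) := by
      rw [h2.eq]; group
    rw [h3, Representation.character, map_mul, LinearMap.trace_mul_comm, ← map_mul]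
    congr 2
    group
  simp only [e1]
  have key := sum_prod_sup h (fun g => ρ.character (g * (y * z)))
  have c1 : (Nat.card (Subgroup.zpowers (y ^ m)) : ℂ) ≠ 0 := by exact_mod_cast Nat.card_pos.ne'
  have c2 : (Nat.card (Subgroup.zpowers (z ^ m)) : ℂ) ≠ 0 := by exact_mod_cast Nat.card_pos.ne'
  have c3 : (Nat.card (Subgroup.zpowers (y ^ m) ⊔ Subgroup.zpowers (z ^ m) : Subgroup G) : ℂ) ≠ 0 := by
    exact_mod_cast Nat.card_pos.ne'
  rw [← Nat.card_eq_fintype_card, ← Nat.card_eq_fintype_card, ← Nat.card_eq_fintype_card] at key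
  rw [inv_mul_eq_iff_eq_mul₀ (mul_ne_zero c1 c2), ← mul_assoc, mul_comm (_ * _) (_⁻¹), mul_assoc,
    ← key, ← mul_assoc, inv_mul_cancel₀ c3, one_mul]

/-- The mean over pairs is integral. -/
theorem isIntegral_avg_pair {m : ℕ} {y z : G} (h : Mut m y z)
    [Fintype (Subgroup.zpowers (y ^ m))] [Fintype (Subgroup.zpowers (z ^ m))] :
    IsIntegral ℤ (((Nat.card (Subgroup.zpowers (y ^ m)) : ℂ) *
      (Nat.card (Subgroup.zpowers (z ^ m)) : ℂ))⁻¹ *
      ∑ a : Subgroup.zpowers (y ^ m), ∑ b : Subgroup.zpowers (z ^ m),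
        ρ.character (y * (a : G) * (z * (b : G)))) := by
  classical
  have : Fintype (Subgroup.zpowers (y ^ m) ⊔ Subgroup.zpowers (z ^ m) : Subgroup G) :=
    Fintype.ofFinite _
  rw [avg_pair_eq ρ h]
  apply isIntegral_avg
  intro w hw
  have h1 : (y * z) * w * (y * z)⁻¹ = y * (z * w * z⁻¹) * y⁻¹ := by group
  rw [h1]
  exact norm_left h (norm_right h hw)

end

end Pool.Agent.H57.Wilde
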