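import Mathlib
import Pool.Agent.H57.Wilde.Defs

/-!
Averages of a character over a normalised subgroup: congruence modulo the radical of `2`.
-/

namespace Pool.Agent.H57.Wilde

open Finset Representation Pool.Agent.H42.Wilde

section frob

/-- Frobenius for sums in a commutative ring, modulo `2`. -/
theorem cg_sum_pow {R : Type*} [CommRing R] (L : ℕ) (s : Finset ℕ) (f : ℕ → R) :
    ∃ r : R, (∑ i ∈ s, f i) ^ 2 ^ L = ∑ i ∈ s, f i ^ 2 ^ L + 2 * r := by
  classical
  induction s using Finset.induction_on with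
  | empty => exact ⟨0, by simp⟩
  | insert a s ha ih =>
    obtain ⟨r, hr⟩ := ih
    obtain ⟨r', hr'⟩ := exists_add_pow_prime_pow_eq Nat.prime_two (f a) (∑ i ∈ s, f i) L
    rw [Finset.sum_insert ha, Finset.sum_insert ha, hr', hr]
    push_cast
    refine ⟨r + f a * (∑ i ∈ s, f i) * r', ?_⟩
    ring

theorem cg_nat_pow {R : Type*} [CommRing R] (L d : ℕ) :
    ∃ r : R, (d : R) ^ 2 ^ L = (d : R) + 2 * r := by
  have h1 : Even ((d : ℤ) ^ 2 ^ L - (d : ℤ)) := by
    have h2 : (2 : ℕ) ^ L ≠ 0 := by positivity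
    rw [Int.even_sub, Int.even_pow' h2]
  obtain ⟨r, hr⟩ := h1
  refine ⟨(r : R), ?_⟩
  have h3 : (d : ℤ) ^ 2 ^ L = (d : ℤ) + 2 * r := by linarith
  have h4 := congrArg (fun t : ℤ => (t : R)) h3
  push_cast at h4
  exact h4

end frob

variable {G V : Type*} [Group G] [Fintype G] [AddCommGroup V] [Module ℂ V] [FiniteDimensional ℂ V]
  (ρ : Representation ℂ G V) {p n q : ℕ}

omit [Fintype G] [FiniteDimensional ℂ V] in
/-- The projection to the fixed vectors of a subgroup. -/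
theorem cg_setup (R : Subgroup G) [Fintype R] :
    ∃ e : Module.End ℂ V, e * e = e ∧
      (∀ w : G, (∀ h ∈ R, w * h * w⁻¹ ∈ R) → Commute (ρ w) e) ∧
      ∀ w : G, (Nat.card R : ℂ)⁻¹ * ∑ h : R, ρ.character ((h : G) * w)
        = LinearMap.trace ℂ V (e * ρ w) := by
  classical
  have hD : (Nat.card R : ℂ) ≠ 0 := by exact_mod_cast Nat.card_pos.ne'
  let e : Module.End ℂ V := (Nat.card R : ℂ)⁻¹ • ∑ h : R, ρ (h : G)
  have hRe : ∀ y : R, ρ (y : G) * e = e := by
    intro y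
    simp only [e]
    rw [mul_smul_comm, Finset.mul_sum]
    congr 1
    simp_rw [← map_mul]
    exact Fintype.sum_equiv (Equiv.mulLeft y) _ _ (fun x => rfl)
  have hee : e * e = e := by
    have h0 : e * e = ((Nat.card R : ℂ)⁻¹ • ∑ h : R, ρ (h : G)) * e := rfl
    rw [h0, smul_mul_assoc, Finset.sum_mul]
    simp_rw [hRe]
    rw [Finset.sum_const, Finset.card_univ, ← Nat.card_eq_fintype_card, ← Nat.cast_smul_eq_nsmul ℂ,
      smul_smul, inv_mul_cancel₀ hD, one_smul]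
  refine ⟨e, hee, ?_, ?_⟩
  · intro z hz
    let cj : R → R := fun h => ⟨z * (h : G) * z⁻¹, hz _ h.2⟩
    have hcj : Function.Bijective cj := by
      apply Function.Injective.bijective_of_finite
      intro a b hab
      have h1 : z * (a : G) * z⁻¹ = z * (b : G) * z⁻¹ := congrArg Subtype.val hab
      apply Subtype.ext
      simpa using h1
    change ρ z * e = e * ρ z
    simp only [e]
    rw [mul_smul_comm, smul_mul_assoc, Finset.mul_sum, Finset.sum_mul]
    congr 1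
    refine Fintype.sum_bijective cj hcj _ _ ?_
    intro h
    rw [← map_mul, ← map_mul]
    congr 1
    simp [cj]
  · intro w
    simp only [e]
    rw [smul_mul_assoc, map_smul, smul_eq_mul]
    congr 1
    rw [Finset.sum_mul, map_sum]
    refine Finset.sum_congr rfl fun h _ => ?_
    rw [← map_mul]
    rfl

/-- The averages at two elements with the same `2 ^ L`-th power are congruent modulo the radical
of `2`. -/
theorem avg_congr (R : Subgroup G) [Fintype R] (w w' : G) (hw : ∀ h ∈ R, w * h * w⁻¹ ∈ R)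
    (hw' : ∀ h ∈ R, w' * h * w'⁻¹ ∈ R) (L : ℕ) (h : w ^ (2 ^ L) = w' ^ (2 ^ L)) :
    ∃ M : ℕ, IsIntegral ℤ ((((Nat.card R : ℂ)⁻¹ * ∑ h : R, ρ.character ((h : G) * w)) -
      ((Nat.card R : ℂ)⁻¹ * ∑ h : R, ρ.character ((h : G) * w'))) ^ M / 2) := by
  classical
  obtain ⟨e, hee, hcomm, htr⟩ := cg_setup ρ R
  have hpow : ∀ m : ℕ, e ^ (m + 1) = e := by
    intro m
    induction m with
    | zero => simp
    | succ m ih => rw [pow_succ, ih, hee]
  have hTp : ∀ v : G, (∀ h ∈ R, v * h * v⁻¹ ∈ R) → ∀ m : ℕ, 1 ≤ m →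
      (e * ρ v) ^ m = e * ρ (v ^ m) := by
    intro v hv m hm
    obtain ⟨m, rfl⟩ : ∃ m', m = m' + 1 := ⟨m - 1, by omega⟩
    rw [(hcomm v hv).symm.mul_pow, hpow, map_pow]
  have hN : Nat.card G ≠ 0 := Nat.card_pos.ne'
  have hζ := Complex.isPrimitiveRoot_exp (Nat.card G) hN
  set ζ := Complex.exp (2 * Real.pi * Complex.I / (Nat.card G : ℕ)) with hζdef
  have hζi : IsIntegral ℤ ζ := hζ.isIntegral (Nat.pos_of_ne_zero hN)
  let A := integralClosure ℤ ℂ
  let z0 : A := ⟨ζ, hζi⟩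
  -- the main congruence
  have key : ∀ v : G, (∀ h ∈ R, v * h * v⁻¹ ∈ R) → ∃ x r : A,
      (x : ℂ) = LinearMap.trace ℂ V (e * ρ v) ∧
      ((x ^ 2 ^ L : A) : ℂ) = LinearMap.trace ℂ V (e * ρ (v ^ 2 ^ L)) + ((2 * r : A) : ℂ) := by
    intro v hv
    have hT : (e * ρ v) ^ (Nat.card G + 1) = e * ρ v := by
      rw [hTp v hv _ (by omega), pow_succ, pow_card_eq_one', one_mul]
    obtain ⟨d, hd⟩ := exists_trace_pow (Nat.card G) hN _ hζ (e * ρ v) hT
    let f : ℕ → A := fun i => z0 ^ i * (d i : A)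
    obtain ⟨r1, hr1⟩ := cg_sum_pow L (range (Nat.card G)) f
    have h2 : ∀ i, ∃ r : A, f i ^ 2 ^ L = z0 ^ (i * 2 ^ L) * (d i : A) + 2 * r := by
      intro i
      obtain ⟨r, hr⟩ := cg_nat_pow (R := A) L (d i)
      refine ⟨z0 ^ (i * 2 ^ L) * r, ?_⟩
      simp only [f]
      rw [mul_pow, hr, ← pow_mul]
      ring
    choose r2 hr2 using h2
    refine ⟨∑ i ∈ range (Nat.card G), f i, ∑ i ∈ range (Nat.card G), r2 i + r1, ?_, ?_⟩
    · have h3 := hd 1 le_rfl
      rw [pow_one] at h3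
      rw [h3]
      push_cast
      refine Finset.sum_congr rfl fun i _ => ?_
      simp [f, z0]
    · have h3 := hd (2 ^ L) (Nat.one_le_two_pow)
      rw [hTp v hv _ Nat.one_le_two_pow] at h3
      rw [h3, hr1, Finset.sum_congr rfl (fun i _ => hr2 i), Finset.sum_add_distrib,
        ← Finset.mul_sum]
      push_cast
      have h4 : ((z0 : A) : ℂ) = ζ := rfl
      simp only [h4]
      ring
  obtain ⟨x, r, hx, hxr⟩ := key w hw
  obtain ⟨x', r', hx', hxr'⟩ := key w' hw'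
  refine ⟨2 ^ L, ?_⟩
  rw [htr, htr, ← hx, ← hx']
  obtain ⟨r3, hr3⟩ := exists_add_pow_prime_pow_eq Nat.prime_two (x - x') x' L
  have h5 : x ^ 2 ^ L = x' ^ 2 ^ L + 2 * (r - r') := by
    apply Subtype.ext
    have h6 : ((x' ^ 2 ^ L + 2 * (r - r') : A) : ℂ)
        = ((x' ^ 2 ^ L : A) : ℂ) + ((2 * r : A) : ℂ) - ((2 * r' : A) : ℂ) := by
      push_cast
      ring
    rw [h6, hxr', hxr, h]
    ring
  have h7 : (x - x') ^ 2 ^ L = 2 * (r - r' - (x - x') * x' * r3) := by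
    have h8 : x ^ 2 ^ L = (x - x') ^ 2 ^ L + x' ^ 2 ^ L + 2 * ((x - x') * x' * r3) := by
      rw [← sub_add_cancel x x']
      simp only [add_sub_cancel_right]
      rw [hr3]
      push_cast
      ring
    have h9 : (x - x') ^ 2 ^ L = x ^ 2 ^ L - x' ^ 2 ^ L - 2 * ((x - x') * x' * r3) := by
      rw [h8]; ring
    rw [h9, h5]; ring
  have h10 : (((x : ℂ) - (x' : ℂ)) ^ 2 ^ L / 2) = ((r - r' - (x - x') * x' * r3 : A) : ℂ) := by
    have h11 : ((((x - x') ^ 2 ^ L : A)) : ℂ) =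
        ((2 * (r - r' - (x - x') * x' * r3) : A) : ℂ) := by rw [h7]
    have h12 : (((x - x') ^ 2 ^ L : A) : ℂ) = ((x : ℂ) - (x' : ℂ)) ^ 2 ^ L := by push_cast; rfl
    have h13 : ((2 * (r - r' - (x - x') * x' * r3) : A) : ℂ)
        = 2 * ((r - r' - (x - x') * x' * r3 : A) : ℂ) := rfl
    rw [← h12, h11, h13, mul_div_cancel_left₀ _ (two_ne_zero)]
  rw [h10]
  exact (r - r' - (x - x') * x' * r3 : A).2

end Pool.Agent.H57.Wilde
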