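import Mathlib
import Pool.Agent.H57.Wilde.Defs

/-!
Module WC: comparison of the number of exponents fixing the class of `y` with the index
`|N(⟨u⟩) : C(u)|`, `u = y ^ q`.
-/

namespace Pool.Agent.H57.Wilde

open Finset Pool.Agent.H42.Wilde

/-- The number of units modulo `p ^ n * q` that are `1` modulo `q * p ^ a`. -/
theorem card_ker_unitsMap {N p n q a : ℕ} (hp : p.Prime) (hN : N = p ^ n * q) (hN0 : N ≠ 0)
    (hq : ¬ p ∣ q) (ha : 1 ≤ a) (han : a ≤ n) (h : q * p ^ a ∣ N) :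
    Nat.card (ZMod.unitsMap h).ker = p ^ (n - a) := by
  have : NeZero N := ⟨hN0⟩
  have hq0 : q ≠ 0 := by
    rintro rfl
    exact hq (dvd_zero _)
  have hpa : p ^ a ≠ 0 := pow_ne_zero _ hp.ne_zero
  have : NeZero (q * p ^ a) := ⟨mul_ne_zero hq0 hpa⟩
  have h1 := Subgroup.card_mul_index (ZMod.unitsMap h).ker
  rw [Subgroup.index_ker, MonoidHom.range_eq_top.mpr (ZMod.unitsMap_surjective h),
    Subgroup.card_top, Nat.card_eq_fintype_card (α := (ZMod N)ˣ),
    Nat.card_eq_fintype_card (α := (ZMod (q * p ^ a))ˣ), ZMod.card_units_eq_totient,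
    ZMod.card_units_eq_totient, show N.totient = (p ^ n * q).totient by rw [← hN]] at h1
  have hcop : ∀ m : ℕ, (p ^ m).Coprime q := fun m =>
    Nat.Coprime.pow_left m ((Nat.Prime.coprime_iff_not_dvd hp).mpr hq)
  rw [Nat.totient_mul (hcop n), Nat.totient_mul (hcop a).symm,
    Nat.totient_prime_pow hp (by omega : 0 < n), Nat.totient_prime_pow hp (by omega : 0 < a)] at h1
  have h2 : p ^ (n - 1) = p ^ (n - a) * p ^ (a - 1) := by
    rw [← pow_add]
    congr 1
    omega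
  rw [h2] at h1
  have h3 : 0 < q.totient * (p ^ (a - 1) * (p - 1)) := by
    refine Nat.mul_pos (Nat.totient_pos.mpr (Nat.pos_of_ne_zero hq0)) (Nat.mul_pos ?_ ?_)
    · exact Nat.pow_pos hp.pos
    · have := hp.two_le
      omega
  apply Nat.eq_of_mul_eq_mul_right h3
  rw [h1]
  ring

section
variable {G : Type*} [Group G] [Finite G] {p n q : ℕ}

/-- `|Γ_y|` divides `p ^ (n - a) * |N(⟨u⟩) : C(u)|` for `u = y ^ q` of order `p ^ a`. -/
theorem card_Gam_dvd (hp : p.Prime) (hN : Nat.card G = p ^ n * q) (hq : ¬ p ∣ q)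
    (hqN : q ∣ Nat.card G) {a : ℕ} (ha : 1 ≤ a) {y : G} (ho : orderOf (y ^ q) = p ^ a) :
    Nat.card (Gam q hqN y) ∣ p ^ (n - a) * (Subgroup.centralizer {y ^ q}).relIndex
      (Subgroup.normalizer (Subgroup.zpowers (y ^ q) : Set G)) := by
  have hN0 : Nat.card G ≠ 0 := Nat.card_pos.ne'
  have : NeZero (Nat.card G) := ⟨hN0⟩
  have : NeZero (orderOf (y ^ q)) := ⟨(orderOf_pos _).ne'⟩
  have hq0 : q ≠ 0 := by
    rintro rfl
    exact hq (dvd_zero _)
  have hdvd : orderOf (y ^ q) ∣ Nat.card G := orderOf_dvd_natCard _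
  have hcop : ∀ m : ℕ, (p ^ m).Coprime q := fun m =>
    Nat.Coprime.pow_left m ((Nat.Prime.coprime_iff_not_dvd hp).mpr hq)
  have han : a ≤ n := by
    rw [ho, hN] at hdvd
    have h1 : p ^ a ∣ p ^ n := (hcop a).dvd_of_dvd_mul_right hdvd
    exact (Nat.pow_dvd_pow_iff_le_right hp.one_lt).mp h1
  have hqa : q * p ^ a ∣ Nat.card G := by
    rw [hN, mul_comm q]
    exact mul_dvd_mul_right (pow_dvd_pow p han) q
  set f : Gam q hqN y →* (ZMod (orderOf (y ^ q)))ˣ :=
    (ZMod.unitsMap hdvd).comp (Gam q hqN y).subtype with hf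
  have h1 := Subgroup.card_mul_index f.ker
  rw [Subgroup.index_ker] at h1
  rw [← h1, ← card_conj_eq_relIndex, ← card_HH]
  refine mul_dvd_mul ?_ ?_
  · have h2 : Nat.card f.ker = Nat.card (f.ker.map (Gam q hqN y).subtype) :=
      Nat.card_congr (Subgroup.equivMapOfInjective _ _
        (Gam q hqN y).subtype_injective).toEquiv
    rw [h2, ← card_ker_unitsMap hp hN hN0 hq ha han hqa]
    apply Subgroup.card_dvd_of_le
    rintro _ ⟨⟨j, hj⟩, hjk, rfl⟩
    have h3 : ZMod.unitsMap hdvd j = 1 := hjk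
    have h4 : ZMod.unitsMap hqN j = 1 := hj.1
    rw [MonoidHom.mem_ker]
    change ZMod.unitsMap hqa j = 1
    have key : ∀ (m : ℕ) (hm : m ∣ Nat.card G), ZMod.unitsMap hm j = 1 ↔
        (j : ZMod (Nat.card G)).val ≡ 1 [MOD m] := by
      intro m hm
      rw [← ZMod.natCast_eq_natCast_iff, Units.ext_iff, ZMod.unitsMap_val, ← ZMod.natCast_val]
      simp
    rw [key] at h3 h4 ⊢
    rw [ho] at h3
    exact (Nat.modEq_and_modEq_iff_modEq_mul (hcop a).symm).mp ⟨h4, h3⟩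
  · apply Subgroup.card_dvd_of_le
    rintro _ ⟨⟨j, hj⟩, rfl⟩
    rw [mem_HH]
    have h2 : IsConj (y ^ q) ((pw j y) ^ q) := hj.2.pow q
    rw [pw_pow] at h2
    have h3 : (y ^ q) ^ ((f ⟨j, hj⟩ : (ZMod (orderOf (y ^ q)))ˣ) : ZMod (orderOf (y ^ q))).val
        = pw j (y ^ q) := by
      change (y ^ q) ^ ((ZMod.unitsMap hdvd j : (ZMod (orderOf (y ^ q)))ˣ) :
        ZMod (orderOf (y ^ q))).val = pw j (y ^ q)
      unfold pw
      rw [ZMod.unitsMap_val, ← ZMod.natCast_val, ZMod.val_natCast, pow_mod_orderOf]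
    rw [h3]
    exact h2

end

end Pool.Agent.H57.Wilde
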