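import Mathlib
import Pool.Agent.H57.Wilde.CI

/-!
`|Γ_y| · |C(y)| = p ^ (n - a) · |N_q(y)|`: both sides count the conjugates of `y` of the form
`y ^ i`, `i ≡ 1` modulo `q`.
-/

namespace Pool.Agent.H57.Wilde

open Finset Pool.Agent.H42.Wilde

section
variable {G : Type*} [Group G] [Finite G] {y : G}

/-- The conjugates of `y` of the form `y ^ i` with `i ≡ 1` modulo `q`. -/
def CT (q : ℕ) (y : G) : Set G := {v | IsConj y v ∧ ∃ i : ℕ, i ≡ 1 [MOD q] ∧ v = y ^ i}

theorem card_NN_eq (q : ℕ) (y : G) :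
    Nat.card (NN q y) = Nat.card (Subgroup.centralizer {y}) * (CT q y).ncard := by
  let φ : NN q y →* ConjAct G := (ConjAct.toConjAct (G := G)).toMonoidHom.comp (NN q y).subtype
  let _ : MulAction (NN q y) G := MulAction.compHom G φ
  have hsmul : ∀ (g : NN q y) (x : G), g • x = (g : G) * x * (g : G)⁻¹ := fun g x => rfl
  have h1 := MulAction.index_stabilizer (NN q y) y
  have h2 : (MulAction.stabilizer (NN q y) y).map (NN q y).subtype =
      Subgroup.centralizer {y} := by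
    ext g
    rw [Subgroup.mem_map, Subgroup.mem_centralizer_iff]
    constructor
    · rintro ⟨g', hg', rfl⟩ x hx
      rw [Set.mem_singleton_iff] at hx
      subst hx
      rw [MulAction.mem_stabilizer_iff, hsmul, mul_inv_eq_iff_eq_mul] at hg'
      exact hg'.symm
    · intro h
      have h3 : g * y * g⁻¹ = y := by
        rw [mul_inv_eq_iff_eq_mul]
        exact (h y rfl).symm
      refine ⟨⟨g, mem_NN.mpr ⟨1, rfl, by rw [h3, pow_one]⟩⟩, ?_, rfl⟩
      rw [MulAction.mem_stabilizer_iff, hsmul]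
      exact h3
  have h3 : Nat.card (MulAction.stabilizer (NN q y) y) = Nat.card (Subgroup.centralizer {y}) := by
    rw [← h2]
    exact Nat.card_congr (Subgroup.equivMapOfInjective _ _ (NN q y).subtype_injective).toEquiv
  have h4 : MulAction.orbit (NN q y) y = CT q y := by
    ext v
    rw [MulAction.mem_orbit_iff]
    constructor
    · rintro ⟨⟨g, hg⟩, rfl⟩
      obtain ⟨i, hi, hi'⟩ := mem_NN.mp hg
      rw [hsmul]
      exact ⟨isConj_iff.mpr ⟨g, rfl⟩, i, hi, hi'⟩
    · rintro ⟨hc, i, hi, rfl⟩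
      obtain ⟨g, hg⟩ := isConj_iff.mp hc
      exact ⟨⟨g, mem_NN.mpr ⟨i, hi, hg⟩⟩, by rw [hsmul]; exact hg⟩
  rw [← Subgroup.card_mul_index (MulAction.stabilizer (NN q y) y), h1, h3, h4]

/-- The exponents `j ≡ 1` modulo `q` fixing `y` are those `j ≡ 1` modulo `q * p ^ a`. -/
theorem mem_ker_iff {p q : ℕ} (hp : p.Prime) (hq : ¬ p ∣ q) (hqN : q ∣ Nat.card G) {a : ℕ}
    (ho : orderOf (y ^ q) = p ^ a) (hqa : q * p ^ a ∣ Nat.card G) (j : (ZMod (Nat.card G))ˣ) :
    j ∈ (ZMod.unitsMap hqa).ker ↔ j ∈ JJ (Nat.card G) q hqN ∧ pw j y = y := by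
  have hN0 : Nat.card G ≠ 0 := Nat.card_pos.ne'
  have : NeZero (Nat.card G) := ⟨hN0⟩
  have hcop : (p ^ a).Coprime q :=
    Nat.Coprime.pow_left a ((Nat.Prime.coprime_iff_not_dvd hp).mpr hq)
  have key : ∀ (m : ℕ) (hm : m ∣ Nat.card G), ZMod.unitsMap hm j = 1 ↔
      (j : ZMod (Nat.card G)).val ≡ 1 [MOD m] := by
    intro m hm
    rw [← ZMod.natCast_eq_natCast_iff, Units.ext_iff, ZMod.unitsMap_val, ← ZMod.natCast_val]
    simp
  rw [MonoidHom.mem_ker, key]
  have h0 : j ∈ JJ (Nat.card G) q hqN ↔ (j : ZMod (Nat.card G)).val ≡ 1 [MOD q] := by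
    rw [← key q hqN]
    exact Iff.rfl
  rw [h0]
  have h1 : orderOf y ∣ q * p ^ a := by
    rw [orderOf_dvd_iff_pow_eq_one, pow_mul, ← ho]
    exact pow_orderOf_eq_one _
  constructor
  · intro h
    refine ⟨h.of_mul_right _, ?_⟩
    unfold pw
    nth_rewrite 2 [← pow_one y]
    exact pow_eq_pow_iff_modEq.mpr (h.of_dvd h1)
  · rintro ⟨h2, h3⟩
    have h4 : pw j (y ^ q) = y ^ q := by rw [← pw_pow, h3]
    have h5 : (j : ZMod (Nat.card G)).val ≡ 1 [MOD p ^ a] := by
      rw [← ho]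
      apply pow_eq_pow_iff_modEq.mp
      rw [pow_one]
      exact h4
    exact (Nat.modEq_and_modEq_iff_modEq_mul hcop.symm).mp ⟨h2, h5⟩

theorem card_Gam_eq {p n q : ℕ} (hp : p.Prime) (hN : Nat.card G = p ^ n * q) (hq : ¬ p ∣ q)
    (hqN : q ∣ Nat.card G) {a : ℕ} (ha : 1 ≤ a) (ho : orderOf (y ^ q) = p ^ a) :
    Nat.card (Gam q hqN y) = p ^ (n - a) * (CT q y).ncard := by
  have hN0 : Nat.card G ≠ 0 := Nat.card_pos.ne'
  have : NeZero (Nat.card G) := ⟨hN0⟩
  have hcop : ∀ m : ℕ, (p ^ m).Coprime q := fun m =>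
    Nat.Coprime.pow_left m ((Nat.Prime.coprime_iff_not_dvd hp).mpr hq)
  have hdvd : orderOf (y ^ q) ∣ Nat.card G := orderOf_dvd_natCard _
  have han : a ≤ n := by
    rw [ho, hN] at hdvd
    have h1 : p ^ a ∣ p ^ n := (hcop a).dvd_of_dvd_mul_right hdvd
    exact (Nat.pow_dvd_pow_iff_le_right hp.one_lt).mp h1
  have hqa : q * p ^ a ∣ Nat.card G := by
    rw [hN, mul_comm q]
    exact mul_dvd_mul_right (pow_dvd_pow p han) q
  let _ : MulAction (Gam q hqN y) G :=
    { smul := fun j g => pw (j : (ZMod (Nat.card G))ˣ) g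
      one_smul := fun g => pw_one g
      mul_smul := fun i j g => pw_mul _ _ g }
  have hsmul : ∀ (j : Gam q hqN y) (x : G), j • x = pw (j : (ZMod (Nat.card G))ˣ) x :=
    fun j x => rfl
  have h1 := MulAction.index_stabilizer (Gam q hqN y) y
  have h2 : (MulAction.stabilizer (Gam q hqN y) y).map (Gam q hqN y).subtype =
      (ZMod.unitsMap hqa).ker := by
    ext j
    rw [Subgroup.mem_map, mem_ker_iff hp hq hqN ho hqa]
    constructor
    · rintro ⟨j', hj', rfl⟩
      exact ⟨j'.2.1, hj'⟩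
    · rintro ⟨h3, h4⟩
      exact ⟨⟨j, h3, by rw [h4]⟩, h4, rfl⟩
  have h3 : Nat.card (MulAction.stabilizer (Gam q hqN y) y) = p ^ (n - a) := by
    rw [← card_ker_unitsMap hp hN hN0 hq ha han hqa, ← h2]
    exact Nat.card_congr (Subgroup.equivMapOfInjective _ _
      (Gam q hqN y).subtype_injective).toEquiv
  have h4 : MulAction.orbit (Gam q hqN y) y = CT q y := by
    ext v
    rw [MulAction.mem_orbit_iff]
    constructor
    · rintro ⟨⟨j, hj⟩, rfl⟩
      refine ⟨hj.2, (j : ZMod (Nat.card G)).val, ?_, rfl⟩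
      have h5 : ZMod.unitsMap hqN j = 1 := hj.1
      rw [Units.ext_iff, ZMod.unitsMap_val, ← ZMod.natCast_val] at h5
      rw [← ZMod.natCast_eq_natCast_iff, h5]
      simp
    · rintro ⟨hc, i, hi, rfl⟩
      have hord : orderOf (y ^ i) = orderOf y := by
        obtain ⟨c, hc'⟩ := isConj_iff.mp hc
        rw [← hc']
        exact orderOf_injective (MulAut.conj c).toMonoidHom (MulAut.conj c).injective y
      have hpy : p ∣ orderOf y := by
        have h5 : orderOf (y ^ q) ∣ orderOf y := orderOf_pow_dvd q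
        rw [ho] at h5
        exact (dvd_pow_self p (by omega)).trans h5
      have hpi : ¬ p ∣ i := by
        intro hpi
        have h5 := orderOf_pow y (n := i)
        rw [hord] at h5
        have h6 : (orderOf y).gcd i ∣ orderOf y := Nat.gcd_dvd_left _ _
        have h7 : p ∣ (orderOf y).gcd i := Nat.dvd_gcd hpy hpi
        have h8 : 0 < orderOf y := orderOf_pos y
        have h9 : 0 < (orderOf y).gcd i := Nat.gcd_pos_of_pos_left _ h8
        have h10 : 1 < (orderOf y).gcd i := lt_of_lt_of_le hp.one_lt (Nat.le_of_dvd h9 h7)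
        have h11 := Nat.div_lt_self h8 h10
        omega
      have hiN : i.Coprime (Nat.card G) := by
        rw [hN]
        apply Nat.Coprime.mul_right
        · exact (Nat.Coprime.pow_left n
            ((Nat.Prime.coprime_iff_not_dvd hp).mpr hpi)).symm
        · rw [Nat.coprime_iff_gcd_eq_one, ← Nat.gcd_comm]
          have h5 := hi.gcd_eq
          rw [Nat.gcd_comm, h5, Nat.gcd_one_left]
      have h5 : pw (ZMod.unitOfCoprime i hiN) y = y ^ i := by
        unfold pw
        rw [ZMod.coe_unitOfCoprime, ZMod.val_natCast, pow_mod_natCard]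
      refine ⟨⟨ZMod.unitOfCoprime i hiN, ?_, ?_⟩, h5⟩
      · change ZMod.unitsMap hqN (ZMod.unitOfCoprime i hiN) = 1
        rw [Units.ext_iff, ZMod.unitsMap_val, ZMod.coe_unitOfCoprime, ZMod.cast_natCast hqN,
          Units.val_one]
        have h6 := (ZMod.natCast_eq_natCast_iff i 1 q).mpr hi
        rw [h6, Nat.cast_one]
      · rw [h5]
        exact hc
  rw [← Subgroup.card_mul_index (MulAction.stabilizer (Gam q hqN y) y), h1, h3, h4]

/-- `|Γ_y| · |C(y)| = p ^ (n - a) · |N_q(y)|`. -/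
theorem card_Gam_mul_prime {p n q : ℕ} (hp : p.Prime) (hN : Nat.card G = p ^ n * q)
    (hq : ¬ p ∣ q) (hqN : q ∣ Nat.card G) {a : ℕ} (ha : 1 ≤ a) (ho : orderOf (y ^ q) = p ^ a) :
    Nat.card (Gam q hqN y) * Nat.card (Subgroup.centralizer {y}) =
      p ^ (n - a) * Nat.card (NN q y) := by
  rw [card_Gam_eq hp hN hq hqN ha ho, card_NN_eq]
  ring

theorem card_Gam_mul {n q a : ℕ} (hN : Nat.card G = 2 ^ n * q) (hq : ¬ 2 ∣ q)
    (hqN : q ∣ Nat.card G) (ha : 1 ≤ a) (ho : orderOf (y ^ q) = 2 ^ a) :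
    Nat.card (Gam q hqN y) * Nat.card (Subgroup.centralizer {y}) =
      2 ^ (n - a) * Nat.card (NN q y) :=
  card_Gam_mul_prime Nat.prime_two hN hq hqN ha ho

end

end Pool.Agent.H57.Wilde
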