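import Mathlib
import Pool.Agent.H57.Wilde.GA

/-!
Definitions of the block version: for a pair of elements, the product of two cyclic groups, the
admissible pairs of exponents and the index attached to them.
-/

namespace Pool.Agent.H57.Wilde

section

variable {G : Type*} [Group G]

/-- The subgroup generated by `⟨y ^ (p ^ i * q)⟩` and `⟨z ^ (p ^ j * q)⟩`. -/
def RR (p q i j : ℕ) (y z : G) : Subgroup G :=
  Subgroup.zpowers (y ^ (p ^ i * q)) ⊔ Subgroup.zpowers (z ^ (p ^ j * q))

/-- Admissible pairs of exponents: `y ^ (p ^ i * q)` normalises `⟨z ^ (p ^ j * q)⟩`, and `y`, `z`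
normalise the product `RR` of the two cyclic groups. -/
def Adm (p q i j : ℕ) (y z : G) : Prop :=
  y ^ (p ^ i * q) * z ^ (p ^ j * q) * (y ^ (p ^ i * q))⁻¹ ∈ Subgroup.zpowers (z ^ (p ^ j * q)) ∧
  z * y ^ (p ^ i * q) * z⁻¹ ∈ RR p q i j y z ∧ y * z ^ (p ^ j * q) * y⁻¹ ∈ RR p q i j y z

/-- The index attached to a pair of exponents. -/
noncomputable def IX [Finite G] (p q a i j : ℕ) (y z : G) : ℕ :=
  p ^ (a - j) * (NN (p ^ j * q) z).relIndex (NN (p ^ i * q) y)

end

end Pool.Agent.H57.Wilde
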