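import Mathlib
import Pool.Agent.H57.Wilde.GB
import Pool.Agent.H57.Wilde.AV

/-!
The main lemma for all exponents, by sums over double cosets.
-/

namespace Pool.Agent.H57.Wilde

open Finset Representation Pool.Agent.H42.Wilde

namespace MB

section group

variable {G : Type*} [Group G] [Finite G] {p q : ℕ}

theorem exists_of_mem_NN {m : ℕ} {n y : G} (h : n ∈ NN m y) :
    ∃ i i' : ℕ, i ≡ 1 [MOD m] ∧ i' ≡ 1 [MOD m] ∧ n * y * n⁻¹ = y ^ i ∧ n⁻¹ * y * n = y ^ i' ∧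
      y = (y ^ i) ^ i' ∧ y = (y ^ i') ^ i := by
  obtain ⟨i, hi, h1⟩ := h
  obtain ⟨i', hi', h2⟩ := (NN m y).inv_mem ⟨i, hi, h1⟩
  rw [inv_inv] at h2
  have h3 : y = (y ^ i) ^ i' := by
    rw [← h1, conj_pow, ← h2]; group
  refine ⟨i, i', hi, hi', h1, h2, h3, ?_⟩
  rw [← pow_mul, mul_comm, pow_mul]
  exact h3

omit [Finite G] in
theorem zpowers_eq_of_pow {x : G} {i j : ℕ} (h : x = (x ^ i) ^ j) :
    Subgroup.zpowers (x ^ i) = Subgroup.zpowers x := by
  apply le_antisymm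
  · rw [Subgroup.zpowers_le]
    exact Subgroup.npow_mem_zpowers _ _
  · rw [Subgroup.zpowers_le]
    have h1 : (x ^ i) ^ j ∈ Subgroup.zpowers (x ^ i) := Subgroup.npow_mem_zpowers _ _
    rwa [← h] at h1

/-- Invariance on double cosets. -/
theorem th_double {k m : ℕ} {y : G} (c : G) {n n' : G} (hn : n ∈ NN m y) (hn' : n' ∈ NN m y) :
    th p q k y ((n * c * n') * y * (n * c * n')⁻¹) = th p q k y (c * y * c⁻¹) := by
  obtain ⟨i, i', -, -, h1, h2, h3, h4⟩ := exists_of_mem_NN hn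
  obtain ⟨j, j', -, -, g1, g2, g3, g4⟩ := exists_of_mem_NN hn'
  have e1 : (n * c * n') * y * (n * c * n')⁻¹ = n * (c * y * c⁻¹) ^ j * n⁻¹ := by
    rw [conj_pow, ← g1]; group
  have e2 : n * (y ^ i') * n⁻¹ = y := by rw [← h2]; group
  have e3 : th p q k y (n * (c * y * c⁻¹) ^ j * n⁻¹) =
      th p q k (n * (y ^ i') * n⁻¹) (n * (c * y * c⁻¹) ^ j * n⁻¹) := by rw [e2]
  rw [e1, e3, th_conj]
  apply th_congr (zpowers_eq_of_pow h4)
  apply zpowers_eq_of_pow (j := j')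
  rw [conj_pow, conj_pow, ← g3]

/-- The commutator of an element of `NN m y` with `y`. -/
theorem comm_mem {m : ℕ} {n y g : G} (hg : g = y ∨ g = y⁻¹) (hn : n ∈ NN m y) :
    g⁻¹ * (n⁻¹ * g * n) ∈ Subgroup.zpowers (y ^ m) := by
  obtain ⟨i, i', -, hi', -, h2, -, -⟩ := exists_of_mem_NN hn
  have h5 : y⁻¹ * y ^ i' ∈ Subgroup.zpowers (y ^ m) := by
    have h4 : (i' : ℤ) - 1 ≡ 0 [ZMOD m] := by
      have := (Int.natCast_modEq_iff.mpr hi').sub_right 1
      simpa using this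
    obtain ⟨c, hc⟩ := (Int.modEq_zero_iff_dvd.mp h4)
    have h6 : y⁻¹ * y ^ i' = (y ^ m) ^ c := by
      rw [← zpow_natCast y m, ← zpow_mul, ← hc, ← zpow_natCast y i', sub_eq_add_neg, add_comm,
        zpow_add, zpow_neg, zpow_one]
    rw [h6]
    exact Subgroup.zpow_mem_zpowers _ _
  rcases hg with rfl | rfl
  · rw [h2]; exact h5
  · have e : y⁻¹⁻¹ * (n⁻¹ * y⁻¹ * n) = (y⁻¹ * y ^ i')⁻¹ := by
      rw [mul_inv_rev, inv_inv, ← h2]
      have h7 : Commute y (n⁻¹ * y⁻¹ * n) := by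
        have h8 : n⁻¹ * y⁻¹ * n = (y ^ i')⁻¹ := by rw [← h2]; group
        rw [h8]
        exact ((Commute.refl y).pow_right i').inv_right
      rw [h7.eq]; group
    rw [e]
    exact Subgroup.inv_mem _ h5

theorem exists_conj {k t : ℕ} {y g : G} (hg : g = y ∨ g = y⁻¹) (hkt : k ≤ t)
    (hH : ∀ i : ℕ, i ≡ 1 [MOD p ^ k * q] → IsConj y (y ^ i)) {h : G}
    (hh : h ∈ Subgroup.zpowers (y ^ (p ^ t * q))) :
    ∃ n ∈ NN (p ^ t * q) y, n⁻¹ * g * n = g * h := by
  have key : ∀ h ∈ Subgroup.zpowers (y ^ (p ^ t * q)), ∃ n ∈ NN (p ^ t * q) y,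
      n⁻¹ * y * n = y * h := by
    intro h hh
    have hh' : h ∈ Submonoid.powers (y ^ (p ^ t * q)) := (mem_powers_iff_mem_zpowers).mpr hh
    obtain ⟨s, rfl⟩ := Submonoid.mem_powers_iff _ _ |>.mp hh'
    have h4 : (p ^ t * q * s + 1) ≡ 1 [MOD p ^ t * q] := by
      have := (Nat.modEq_zero_iff_dvd.mpr (dvd_mul_right (p ^ t * q) s)).add_right 1
      rwa [zero_add] at this
    obtain ⟨c, hc⟩ := isConj_iff.mp (hH _ (h4.of_dvd (mul_dvd_mul_right (pow_dvd_pow p hkt) q)))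
    refine ⟨c⁻¹, (NN (p ^ t * q) y).inv_mem ⟨_, h4, hc⟩, ?_⟩
    rw [inv_inv, hc, pow_succ', pow_mul]
  rcases hg with rfl | rfl
  · exact key h hh
  · obtain ⟨n, hn, h1⟩ := key h⁻¹ (Subgroup.inv_mem _ hh)
    refine ⟨n, hn, ?_⟩
    have h2 : n⁻¹ * y⁻¹ * n = (y * h⁻¹)⁻¹ := by rw [← h1]; group
    rw [h2, mul_inv_rev, inv_inv]
    obtain ⟨r, rfl⟩ := Subgroup.mem_zpowers_iff.mp hh
    exact ((((Commute.refl y).pow_left _).zpow_left r).inv_right).eq

omit [Finite G] in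
/-- Elements of the product of a subgroup with a subgroup normalised by it. -/
theorem exists_mul_of_mem_sup {R S : Subgroup G} (hRS : ∀ h ∈ R, ∀ b ∈ S, h * b * h⁻¹ ∈ S)
    {w : G} (hw : w ∈ R ⊔ S) : ∃ h ∈ R, ∃ b ∈ S, w = h * b := by
  let T : Subgroup G :=
    { carrier := {w | ∃ h ∈ R, ∃ b ∈ S, w = h * b}
      one_mem' := ⟨1, one_mem _, 1, one_mem _, by simp⟩
      mul_mem' := by
        rintro _ _ ⟨h, hh, b, hb, rfl⟩ ⟨h', hh', b', hb', rfl⟩
        refine ⟨h * h', mul_mem hh hh', (h'⁻¹ * b * h'⁻¹⁻¹) * b',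
          mul_mem (hRS _ (inv_mem hh') _ hb) hb', ?_⟩
        group
      inv_mem' := by
        rintro _ ⟨h, hh, b, hb, rfl⟩
        refine ⟨h⁻¹, inv_mem hh, h * b⁻¹ * h⁻¹, hRS _ hh _ (inv_mem hb), ?_⟩
        group }
  have h1 : R ⊔ S ≤ T := sup_le (fun h hh => ⟨h, hh, 1, one_mem _, by simp⟩)
    (fun b hb => ⟨1, one_mem _, b, hb, by simp⟩)
  exact h1 hw

omit [Finite G] in
theorem sum_mul_eq {R S : Subgroup G} [Fintype R] [Fintype S] [Fintype ↥(R ⊔ S)]
    (hRS : ∀ h ∈ R, ∀ b ∈ S, h * b * h⁻¹ ∈ S) (φ : G → ℂ) :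
    (Fintype.card ↥(R ⊔ S) : ℂ) * ∑ h : R, ∑ b : S, φ ((h : G) * b) =
      (Fintype.card R : ℂ) * (Fintype.card S : ℂ) * ∑ w : ↥(R ⊔ S), φ w := by
  have h1 : ∀ w : ↥(R ⊔ S), ∑ h : R, ∑ b : S, φ ((h : G) * w * b) =
      ∑ h : R, ∑ b : S, φ ((h : G) * b) := by
    intro w
    obtain ⟨h0, hh0, b0, hb0, hw⟩ := exists_mul_of_mem_sup hRS w.2
    refine Fintype.sum_equiv (Equiv.mulRight (⟨h0, hh0⟩ : R)) _ _ (fun h => ?_)
    refine Fintype.sum_equiv (Equiv.mulLeft (⟨b0, hb0⟩ : S)) _ _ (fun b => ?_)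
    rw [hw]
    congr 1
    simp [mul_assoc]
  have h2 : ∀ (h : R) (b : S), ∑ w : ↥(R ⊔ S), φ ((h : G) * w * b) = ∑ w : ↥(R ⊔ S), φ w := by
    intro h b
    refine Fintype.sum_equiv ((Equiv.mulLeft (⟨h, Subgroup.mem_sup_left h.2⟩ : ↥(R ⊔ S))).trans
      (Equiv.mulRight (⟨b, Subgroup.mem_sup_right b.2⟩ : ↥(R ⊔ S)))) _ _ (fun w => ?_)
    rfl
  calc (Fintype.card ↥(R ⊔ S) : ℂ) * ∑ h : R, ∑ b : S, φ ((h : G) * b)
      = ∑ w : ↥(R ⊔ S), ∑ h : R, ∑ b : S, φ ((h : G) * w * b) := by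
        rw [Finset.sum_congr rfl (fun w _ => h1 w), Finset.sum_const, Finset.card_univ,
          nsmul_eq_mul]
    _ = ∑ h : R, ∑ b : S, ∑ w : ↥(R ⊔ S), φ ((h : G) * w * b) := by
        rw [Finset.sum_comm]
        exact Finset.sum_congr rfl (fun h _ => Finset.sum_comm)
    _ = (Fintype.card R : ℂ) * (Fintype.card S : ℂ) * ∑ w : ↥(R ⊔ S), φ w := by
        simp_rw [h2]
        rw [Finset.sum_const, Finset.sum_const, Finset.card_univ, Finset.card_univ,
          nsmul_eq_mul, nsmul_eq_mul, mul_assoc]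

/-- The action of `N × N` on `G`. -/
@[reducible] def act (N : Subgroup G) : MulAction (N × N) G where
  smul x c := (x.1 : G) * c * (x.2 : G)⁻¹
  one_smul c := by
    change ((1 : N) : G) * c * ((1 : N) : G)⁻¹ = c
    simp
  mul_smul x y c := by
    change ((x.1 * y.1 : N) : G) * c * ((x.2 * y.2 : N) : G)⁻¹ =
      (x.1 : G) * ((y.1 : G) * c * (y.2 : G)⁻¹) * (x.2 : G)⁻¹
    simp only [Subgroup.coe_mul]
    group

/-- The size of a double coset. -/
theorem card_orbit {m : ℕ} {y : G} (c : G) :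
    let _ := act (NN m y)
    Nat.card (MulAction.orbit (NN m y × NN m y) c) =
      Nat.card (NN m y) * (NN m (c * y * c⁻¹)).relIndex (NN m y) := by
  intro _
  have h1 := MulAction.index_stabilizer (NN m y × NN m y) c
  have h2 := Subgroup.card_mul_index (MulAction.stabilizer (NN m y × NN m y) c)
  have h3 : Nat.card (MulAction.stabilizer (NN m y × NN m y) c) =
      Nat.card (NN m (c * y * c⁻¹) ⊓ NN m y : Subgroup G) := by
    apply Nat.card_congr
    refine ⟨fun x => ⟨x.1.1, ?_, x.1.1.2⟩, fun n => ⟨(⟨n, n.2.2⟩, ⟨c⁻¹ * n * c, ?_⟩), ?_⟩,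
      fun x => ?_, fun n => ?_⟩
    · have hx : (x.1.1 : G) * c * (x.1.2 : G)⁻¹ = c := x.2
      change (x.1.1 : G) ∈ NN m (c * y * c⁻¹)
      rw [mem_NN_conj]
      have h4 : c⁻¹ * (x.1.1 : G) * c = x.1.2 := by
        have h5 : (x.1.1 : G) * c = c * x.1.2 := by
          rw [← mul_inv_eq_iff_eq_mul]; exact hx
        rw [mul_assoc, h5, inv_mul_cancel_left]
      rw [h4]
      exact x.1.2.2
    · exact mem_NN_conj.mp n.2.1
    · change (n : G) * c * (c⁻¹ * n * c)⁻¹ = c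
      group
    · have hx : (x.1.1 : G) * c * (x.1.2 : G)⁻¹ = c := x.2
      have h5 : (x.1.1 : G) * c = c * x.1.2 := by
        rw [← mul_inv_eq_iff_eq_mul]; exact hx
      apply Subtype.ext
      apply Prod.ext
      · rfl
      · apply Subtype.ext
        change c⁻¹ * (x.1.1 : G) * c = x.1.2
        rw [mul_assoc, h5, inv_mul_cancel_left]
    · rfl
  have h4 := relIndex_mul_card_inf (NN m (c * y * c⁻¹)) (NN m y)
  rw [h3, h1, Nat.card_prod] at h2
  have h5 : Nat.card (MulAction.orbit (NN m y × NN m y) c) =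
      (MulAction.orbit (NN m y × NN m y) c).ncard := rfl
  rw [h5]
  apply Nat.eq_of_mul_eq_mul_left (Nat.card_pos (α := (NN m (c * y * c⁻¹) ⊓ NN m y : Subgroup G)))
  rw [h2]
  calc Nat.card (NN m y) * Nat.card (NN m y)
      = Nat.card (NN m y) * ((NN m (c * y * c⁻¹)).relIndex (NN m y) *
          Nat.card (NN m (c * y * c⁻¹) ⊓ NN m y : Subgroup G)) := by rw [h4]
    _ = _ := by ring

end group

section char

variable {G V : Type*} [Group G] [Fintype G] [AddCommGroup V] [Module ℂ V] [FiniteDimensional ℂ V]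
  (ρ : Representation ℂ G V) {p q : ℕ}

open Classical in
/-- The elements of `⟨y ^ m⟩`. -/
noncomputable def RF (m : ℕ) (y : G) : Finset G :=
  univ.filter (fun h => h ∈ Subgroup.zpowers (y ^ m))

theorem mem_RF {m : ℕ} {y h : G} : h ∈ RF m y ↔ h ∈ Subgroup.zpowers (y ^ m) := by
  simp [RF]

theorem card_RF_ne (m : ℕ) (y : G) : (#(RF m y) : ℂ) ≠ 0 := by
  have : 0 < #(RF m y) := Finset.card_pos.mpr ⟨1, mem_RF.mpr (one_mem _)⟩
  exact_mod_cast this.ne'

/-- The average of the character over the blocks. -/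
noncomputable def FF (m : ℕ) (y g c : G) : ℂ :=
  ((#(RF m y) : ℂ)⁻¹ * (#(RF m y) : ℂ)⁻¹) *
    ∑ h ∈ RF m y, ∑ h' ∈ RF m y, ρ.character (g * h * (c * (y * h') * c⁻¹))

omit [FiniteDimensional ℂ V] in
theorem FF_double {m : ℕ} {y g : G} (hg : g = y ∨ g = y⁻¹) (c : G) {n n' : G}
    (hn : n ∈ NN m y) (hn' : n' ∈ NN m y) : FF ρ m y g (n * c * n') = FF ρ m y g c := by
  unfold FF
  congr 1
  have hn2 := (NN m y).inv_mem hn
  have hn2' := (NN m y).inv_mem hn'
  have memi : ∀ h ∈ RF m y, g⁻¹ * (n⁻¹ * (g * h) * n) ∈ RF m y := by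
    intro h hh
    rw [mem_RF] at hh ⊢
    have e : g⁻¹ * (n⁻¹ * (g * h) * n) = (g⁻¹ * (n⁻¹ * g * n)) * (n⁻¹ * h * n⁻¹⁻¹) := by group
    rw [e]
    exact mul_mem (comm_mem hg hn) (conj_pow_mem_zpowers hn2 m hh)
  have memj : ∀ h ∈ RF m y, g⁻¹ * (n * (g * h) * n⁻¹) ∈ RF m y := by
    intro h hh
    rw [mem_RF] at hh ⊢
    have e : g⁻¹ * (n * (g * h) * n⁻¹) = (g⁻¹ * (n⁻¹⁻¹ * g * n⁻¹)) * (n * h * n⁻¹) := by group
    rw [e]
    exact mul_mem (comm_mem hg hn2) (conj_pow_mem_zpowers hn m hh)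
  have memi' : ∀ h ∈ RF m y, y⁻¹ * (n' * (y * h) * n'⁻¹) ∈ RF m y := by
    intro h hh
    rw [mem_RF] at hh ⊢
    have e : y⁻¹ * (n' * (y * h) * n'⁻¹) = (y⁻¹ * (n'⁻¹⁻¹ * y * n'⁻¹)) * (n' * h * n'⁻¹) := by group
    rw [e]
    exact mul_mem (comm_mem (Or.inl rfl) hn2') (conj_pow_mem_zpowers hn' m hh)
  have memj' : ∀ h ∈ RF m y, y⁻¹ * (n'⁻¹ * (y * h) * n') ∈ RF m y := by
    intro h hh
    rw [mem_RF] at hh ⊢
    have e : y⁻¹ * (n'⁻¹ * (y * h) * n') = (y⁻¹ * (n'⁻¹ * y * n')) * (n'⁻¹ * h * n'⁻¹⁻¹) := by group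
    rw [e]
    exact mul_mem (comm_mem (Or.inl rfl) hn') (conj_pow_mem_zpowers hn2' m hh)
  refine Finset.sum_bij' (fun h _ => g⁻¹ * (n⁻¹ * (g * h) * n))
    (fun h _ => g⁻¹ * (n * (g * h) * n⁻¹)) memi memj ?_ ?_ ?_
  · intro h _; group
  · intro h _; group
  · intro h _
    refine Finset.sum_bij' (fun h' _ => y⁻¹ * (n' * (y * h') * n'⁻¹))
      (fun h' _ => y⁻¹ * (n'⁻¹ * (y * h') * n')) memi' memj' ?_ ?_ ?_
    · intro h' _; group
    · intro h' _; group
    · intro h' _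
      have e : g * (g⁻¹ * (n⁻¹ * (g * h) * n)) * (c * (y * (y⁻¹ * (n' * (y * h') * n'⁻¹))) * c⁻¹) =
          n⁻¹ * (g * h * (n * c * n' * (y * h') * (n * c * n')⁻¹)) * n⁻¹⁻¹ := by group
      rw [e, char_conj]

omit [FiniteDimensional ℂ V] in
/-- Averaging over the blocks. -/
theorem sum_eq_sum_FF {k t : ℕ} {y g : G} (hg : g = y ∨ g = y⁻¹) (hkt : k ≤ t)
    (hH : ∀ i : ℕ, i ≡ 1 [MOD p ^ k * q] → IsConj y (y ^ i)) (X : Finset G)
    (hX : ∀ n ∈ NN (p ^ t * q) y, ∀ n' ∈ NN (p ^ t * q) y, ∀ c ∈ X, n * c * n' ∈ X) :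
    ∑ c ∈ X, ρ.character (g * (c * y * c⁻¹)) = ∑ c ∈ X, FF ρ (p ^ t * q) y g c := by
  have key : ∀ h ∈ RF (p ^ t * q) y, ∀ h' ∈ RF (p ^ t * q) y,
      ∑ c ∈ X, ρ.character (g * h * (c * (y * h') * c⁻¹)) =
        ∑ c ∈ X, ρ.character (g * (c * y * c⁻¹)) := by
    intro h hh h' hh'
    rw [mem_RF] at hh hh'
    obtain ⟨n, hn, h1⟩ := exists_conj hg hkt hH hh
    obtain ⟨n', hn', h2⟩ := exists_conj (Or.inl rfl) hkt hH hh'
    have hn2 := (NN (p ^ t * q) y).inv_mem hn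
    have hn2' := (NN (p ^ t * q) y).inv_mem hn'
    refine Finset.sum_bij' (fun c _ => n * c * n'⁻¹) (fun c _ => n⁻¹ * c * n')
      (fun c hc => hX n hn _ hn2' c hc) (fun c hc => hX _ hn2 n' hn' c hc) ?_ ?_ ?_
    · intro c _; group
    · intro c _; group
    · intro c _
      rw [← h1, ← h2]
      have e : n⁻¹ * g * n * (c * (n'⁻¹ * y * n') * c⁻¹) =
          n⁻¹ * (g * (n * c * n'⁻¹ * y * (n * c * n'⁻¹)⁻¹)) * n⁻¹⁻¹ := by group
      rw [e, char_conj]
  unfold FF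
  rw [← Finset.mul_sum, Finset.sum_comm]
  have h1 : ∑ h ∈ RF (p ^ t * q) y, ∑ c ∈ X, ∑ h' ∈ RF (p ^ t * q) y,
      ρ.character (g * h * (c * (y * h') * c⁻¹)) =
      ∑ h ∈ RF (p ^ t * q) y, ∑ h' ∈ RF (p ^ t * q) y,
        ∑ c ∈ X, ρ.character (g * (c * y * c⁻¹)) := by
    refine Finset.sum_congr rfl (fun h hh => ?_)
    rw [Finset.sum_comm]
    exact Finset.sum_congr rfl (fun h' hh' => key h hh h' hh')
  rw [h1, Finset.sum_const, Finset.sum_const, nsmul_eq_mul, nsmul_eq_mul]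
  have h2 := card_RF_ne (p ^ t * q) y
  field_simp

theorem FF_integral {m : ℕ} {y g : G} (hg : g = y ∨ g = y⁻¹) (c : G)
    (hM : Mut m y (c * y * c⁻¹)) : IsIntegral ℤ (FF ρ m y g c) := by
  classical
  set z := c * y * c⁻¹ with hz
  let R := Subgroup.zpowers (y ^ m)
  let S := Subgroup.zpowers (z ^ m)
  have hRS : ∀ h ∈ R, ∀ b ∈ S, h * b * h⁻¹ ∈ S := fun h hh b hb => norm_zpowers hM hh hb
  have hnorm : ∀ w ∈ R ⊔ S, (z * g) * w * (z * g)⁻¹ ∈ R ⊔ S := by
    intro w hw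
    have e : (z * g) * w * (z * g)⁻¹ = z * (g * w * g⁻¹) * z⁻¹ := by group
    rw [e]
    apply norm_right hM
    rcases hg with rfl | rfl
    · exact norm_left hM hw
    · have h1 : Subgroup.zpowers y = Subgroup.zpowers y⁻¹ := (Subgroup.zpowers_inv).symm
      have h2 : Mut m y⁻¹ z := (Mut_congr h1 rfl).mp hM
      have h3 := zpowers_pow_congr h1 m
      change w ∈ Subgroup.zpowers (y ^ m) ⊔ Subgroup.zpowers (z ^ m) at hw
      rw [h3] at hw ⊢
      exact norm_left h2 hw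
  have h1 := isIntegral_avg ρ (R ⊔ S) (z * g) hnorm
  have h2 := sum_mul_eq hRS (fun x => ρ.character (x * (z * g)))
  have hcard : #(RF m y) = Fintype.card R := by
    rw [Fintype.card_subtype]
    rfl
  have hcardS : Fintype.card S = Fintype.card R := by
    rw [← Nat.card_eq_fintype_card, ← Nat.card_eq_fintype_card, Nat.card_zpowers, Nat.card_zpowers,
      hz, conj_pow]
    exact orderOf_injective (MulAut.conj c).toMonoidHom (MulAut.conj c).injective (y ^ m)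
  have h3 : ∑ h ∈ RF m y, ∑ h' ∈ RF m y, ρ.character (g * h * (c * (y * h') * c⁻¹)) =
      ∑ h : R, ∑ b : S, ρ.character ((h : G) * b * (z * g)) := by
    rw [Finset.sum_subtype (RF m y) (p := fun x => x ∈ R) (fun x => mem_RF)]
    refine Finset.sum_congr rfl (fun h _ => ?_)
    rw [← Finset.sum_subtype (univ.filter (fun x => x ∈ S)) (p := fun x => x ∈ S)
      (fun x => by simp) (fun x => ρ.character ((h : G) * x * (z * g)))]
    refine Finset.sum_bij' (fun h' _ => c * h' * c⁻¹) (fun b _ => c⁻¹ * b * c) ?_ ?_ ?_ ?_ ?_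
    · intro h' hh'
      rw [mem_RF] at hh'
      obtain ⟨r, rfl⟩ := Subgroup.mem_zpowers_iff.mp hh'
      simp only [mem_filter, mem_univ, true_and]
      rw [← conj_zpow, ← conj_pow, ← hz]
      exact Subgroup.zpow_mem_zpowers _ _
    · intro b hb
      simp only [mem_filter, mem_univ, true_and] at hb
      obtain ⟨r, rfl⟩ := Subgroup.mem_zpowers_iff.mp hb
      rw [mem_RF, hz, conj_pow, conj_zpow]
      have e : c⁻¹ * (c * (y ^ m) ^ r * c⁻¹) * c = (y ^ m) ^ r := by group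
      rw [e]
      exact Subgroup.zpow_mem_zpowers _ _
    · intro h' _; group
    · intro b _; group
    · intro h' hh'
      rw [mem_RF] at hh'
      obtain ⟨r, hr⟩ := Subgroup.mem_zpowers_iff.mp hh'
      have hcm : y * h' = h' * y := by
        rw [← hr]
        exact (((Commute.refl y).pow_right m).zpow_right r).eq
      have e : g * (h : G) * (c * (y * h') * c⁻¹) =
          g * ((h : G) * (c * h' * c⁻¹) * (z * g)) * g⁻¹ := by
        rw [hcm, hz]; group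
      rw [e, char_conj]
  have hR0 : (Fintype.card R : ℂ) ≠ 0 := by exact_mod_cast Fintype.card_ne_zero
  have hW0 : (Fintype.card ↥(R ⊔ S) : ℂ) ≠ 0 := by exact_mod_cast Fintype.card_ne_zero
  have h4 : FF ρ m y g c = (Nat.card ↥(R ⊔ S) : ℂ)⁻¹ *
      ∑ h : ↥(R ⊔ S), ρ.character ((h : G) * (z * g)) := by
    unfold FF
    rw [h3, hcard, Nat.card_eq_fintype_card]
    rw [hcardS] at h2
    rw [eq_inv_mul_iff_mul_eq₀ hW0]
    calc _ = ((Fintype.card R : ℂ)⁻¹ * (Fintype.card R : ℂ)⁻¹) * ((Fintype.card ↥(R ⊔ S) : ℂ) *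
          ∑ h : R, ∑ b : S, ρ.character ((h : G) * b * (z * g))) := by ring
      _ = _ := by rw [h2]; field_simp
  rw [h4]
  exact h1

/-- The part of the sum over the elements of level `t` with a property `P`. -/
theorem level_sum (hp : p.Prime) {a k t s : ℕ} {y g : G} (hg : g = y ∨ g = y⁻¹)
    (ho : orderOf (y ^ q) = p ^ a) (hkt : k ≤ t) (hta : t ≤ a)
    (hH : ∀ i : ℕ, i ≡ 1 [MOD p ^ k * q] → IsConj y (y ^ i)) (P : G → Prop) [DecidablePred P]
    (hP : ∀ n ∈ NN (p ^ t * q) y, ∀ n' ∈ NN (p ^ t * q) y, ∀ c, P c → P (n * c * n'))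
    (hPt : ∀ c, P c → th p q k y (c * y * c⁻¹) = t)
    (hs : ∀ c, P c → p ^ s ∣ p ^ (a - t) *
      (NN (p ^ t * q) (c * y * c⁻¹)).relIndex (NN (p ^ t * q) y)) :
    IsIntegral ℤ (((p ^ s * Nat.card (Subgroup.centralizer {y}) : ℕ) : ℂ)⁻¹ *
      ∑ c ∈ univ.filter P, ρ.character (g * (c * y * c⁻¹))) := by
  rw [sum_eq_sum_FF ρ hg hkt hH (univ.filter P) (by
    intro n hn n' hn' c hc
    simp only [mem_filter, mem_univ, true_and] at hc ⊢
    exact hP n hn n' hn' c hc), Finset.sum_filter]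
  let _ := act (NN (p ^ t * q) y)
  apply isIntegral_sum_of_orbit (G := NN (p ^ t * q) y × NN (p ^ t * q) y)
  · intro x c
    have hx1 := x.1.2
    have hx2 := (NN (p ^ t * q) y).inv_mem x.2.2
    have hiff : P ((x.1 : G) * c * (x.2 : G)⁻¹) ↔ P c := by
      constructor
      · intro h
        have h1 := hP _ ((NN (p ^ t * q) y).inv_mem hx1) _ x.2.2 _ h
        have e : (x.1 : G)⁻¹ * ((x.1 : G) * c * (x.2 : G)⁻¹) * (x.2 : G) = c := by group
        rwa [e] at h1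
      · exact hP _ hx1 _ hx2 c
    change (if P ((x.1 : G) * c * (x.2 : G)⁻¹) then
      FF ρ (p ^ t * q) y g ((x.1 : G) * c * (x.2 : G)⁻¹) else 0) = _
    by_cases hc : P c
    · rw [if_pos hc, if_pos (hiff.mpr hc), FF_double ρ hg c hx1 hx2]
    · rw [if_neg hc, if_neg (fun h => hc (hiff.mp h))]
  · intro c
    by_cases hc : P c
    · rw [if_pos hc]
      have hM : Mut (p ^ t * q) y (c * y * c⁻¹) := by
        have hoz : orderOf ((c * y * c⁻¹) ^ q) = p ^ a := by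
          rw [orderOf_of_isConj (isConj_iff.mpr ⟨c, rfl⟩), ho]
        have h1 := (th_spec (p := p) (q := q) ho hoz (hkt.trans hta)).2.2
        rwa [hPt c hc] at h1
      have h2 := card_orbit (m := p ^ t * q) (y := y) c
      simp only at h2
      have h3 := card_NN hp ho hkt hta hH
      obtain ⟨u, hu⟩ := hs c hc
      have hp0 : (p : ℂ) ≠ 0 := by exact_mod_cast hp.ne_zero
      have hC0 : (Nat.card (Subgroup.centralizer {y}) : ℂ) ≠ 0 := by
        exact_mod_cast Nat.card_pos.ne'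
      have h4 : Nat.card (MulAction.orbit (NN (p ^ t * q) y × NN (p ^ t * q) y) c) =
          p ^ s * Nat.card (Subgroup.centralizer {y}) * u := by
        rw [h2, h3]
        calc _ = (p ^ (a - t) * (NN (p ^ t * q) (c * y * c⁻¹)).relIndex (NN (p ^ t * q) y)) *
              Nat.card (Subgroup.centralizer {y}) := by ring
          _ = _ := by rw [hu]; ring
      rw [h4]
      have h5 : (((p ^ s * Nat.card (Subgroup.centralizer {y}) : ℕ) : ℂ)⁻¹ *
          ((p ^ s * Nat.card (Subgroup.centralizer {y}) * u : ℕ) : ℂ)) = (u : ℂ) := by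
        push_cast
        field_simp
      rw [h5]
      exact (isIntegral_natCast u).mul (FF_integral ρ hg c hM)
    · rw [if_neg hc, mul_zero]
      exact isIntegral_zero

/-- The sum over all elements. -/
theorem sum_conj_integral (hp : p.Prime) {a k : ℕ} {y g : G} (hg : g = y ∨ g = y⁻¹)
    (ho : orderOf (y ^ q) = p ^ a) (hka : k ≤ a)
    (hH : ∀ i : ℕ, i ≡ 1 [MOD p ^ k * q] → IsConj y (y ^ i)) :
    IsIntegral ℤ (((p ^ (a - k) * Nat.card (Subgroup.centralizer {y}) : ℕ) : ℂ)⁻¹ *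
      ∑ c : G, ρ.character (g * (c * y * c⁻¹))) := by
  have hsp : ∀ c : G, k ≤ th p q k y (c * y * c⁻¹) ∧ th p q k y (c * y * c⁻¹) ≤ a := by
    intro c
    have hoz : orderOf ((c * y * c⁻¹) ^ q) = p ^ a := by
      rw [orderOf_of_isConj (isConj_iff.mpr ⟨c, rfl⟩), ho]
    have h1 := th_spec (p := p) (q := q) ho hoz hka
    exact ⟨h1.1, h1.2.1⟩
  have h1 : ∑ c : G, ρ.character (g * (c * y * c⁻¹)) =
      ∑ t ∈ range (a + 1), ∑ c ∈ univ.filter (fun c : G => th p q k y (c * y * c⁻¹) = t),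
        ρ.character (g * (c * y * c⁻¹)) := by
    refine (Finset.sum_fiberwise_of_maps_to (fun c _ => ?_) _).symm
    rw [Finset.mem_range]
    have := (hsp c).2
    omega
  rw [h1, Finset.mul_sum]
  apply IsIntegral.sum
  intro t ht
  rw [Finset.mem_range] at ht
  by_cases hkt : k ≤ t
  · refine level_sum ρ hp hg ho hkt (by omega) hH (fun c : G => th p q k y (c * y * c⁻¹) = t)
      ?_ (fun c hc => hc) ?_
    · intro n hn n' hn' c hc
      rw [th_double c hn hn', hc]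
    · intro c hc
      have h2 := dvd_block hp (isConj_iff.mpr ⟨c, rfl⟩ : IsConj y (c * y * c⁻¹)) ho hka hH
      rwa [hc] at h2
  · have h2 : univ.filter (fun c : G => th p q k y (c * y * c⁻¹) = t) = ∅ := by
      apply Finset.filter_eq_empty_iff.mpr
      intro c _ hc
      have := (hsp c).1
      omega
    rw [h2, Finset.sum_empty, mul_zero]
    exact isIntegral_zero

/-- From the sum over the group to the sum over the class. -/
theorem sum_conj_eq [ρ.IsIrreducible] (y g : G) :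
    ∑ c : G, ρ.character (g * (c * y * c⁻¹)) = (Nat.card (Subgroup.centralizer {y}) : ℂ) *
      ((clCard y : ℂ) * ρ.character y / (Module.finrank ℂ V : ℂ) * ρ.character g) := by
  classical
  let K : Finset G := univ.filter (fun z => IsConj y z)
  have hK : ∀ z, z ∈ K ↔ IsConj y z := fun z => by simp [K]
  rw [← sum_class_char ρ y g K hK, Finset.mul_sum]
  have h1 : ∑ c : G, ρ.character (g * (c * y * c⁻¹)) =
      ∑ z ∈ K, ∑ c ∈ univ.filter (fun c : G => c * y * c⁻¹ = z),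
        ρ.character (g * (c * y * c⁻¹)) := by
    refine (Finset.sum_fiberwise_of_maps_to (fun c _ => ?_) _).symm
    rw [hK]
    exact isConj_iff.mpr ⟨c, rfl⟩
  rw [h1]
  refine Finset.sum_congr rfl (fun z hz => ?_)
  rw [hK] at hz
  obtain ⟨c0, hc0⟩ := isConj_iff.mp hz
  have h2 : ∀ c ∈ univ.filter (fun c : G => c * y * c⁻¹ = z),
      ρ.character (g * (c * y * c⁻¹)) = ρ.character (g * z) := by
    intro c hc
    simp only [mem_filter, mem_univ, true_and] at hc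
    rw [hc]
  rw [Finset.sum_congr rfl h2, Finset.sum_const, nsmul_eq_mul]
  congr 2
  rw [Nat.card_eq_fintype_card, Fintype.card_subtype]
  refine Finset.card_bij' (fun c _ => c0⁻¹ * c) (fun c _ => c0 * c) ?_ ?_ ?_ ?_
  · intro c hc
    simp only [mem_filter, mem_univ, true_and] at hc ⊢
    rw [Subgroup.mem_centralizer_iff]
    intro x hx
    rw [Set.mem_singleton_iff] at hx
    subst hx
    have h3 : c * x * c⁻¹ = c0 * x * c0⁻¹ := by rw [hc, hc0]
    calc x * (c0⁻¹ * c) = c0⁻¹ * (c0 * x * c0⁻¹) * c := by group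
      _ = c0⁻¹ * (c * x * c⁻¹) * c := by rw [h3]
      _ = c0⁻¹ * c * x := by group
  · intro c hc
    simp only [mem_filter, mem_univ, true_and] at hc ⊢
    rw [Subgroup.mem_centralizer_iff] at hc
    have h3 := hc y rfl
    calc c0 * c * y * (c0 * c)⁻¹ = c0 * (c * y) * c⁻¹ * c0⁻¹ := by group
      _ = c0 * (y * c) * c⁻¹ * c0⁻¹ := by rw [h3]
      _ = c0 * y * c0⁻¹ := by group
      _ = z := hc0
  · intro c _; group
  · intro c _; group

/-- The main lemma, for `g = y` and `g = y⁻¹`. -/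
theorem main_lemma_gen [ρ.IsIrreducible] (hp : p.Prime) {a k : ℕ} {y g : G}
    (hg : g = y ∨ g = y⁻¹) (ho : orderOf (y ^ q) = p ^ a) (hka : k ≤ a)
    (hH : ∀ i : ℕ, i ≡ 1 [MOD p ^ k * q] → IsConj y (y ^ i)) :
    IsIntegral ℤ (((p ^ (a - k) : ℕ) : ℂ)⁻¹ *
      ((clCard y : ℂ) * ρ.character y / (Module.finrank ℂ V : ℂ) * ρ.character g)) := by
  have h1 := sum_conj_integral ρ hp hg ho hka hH
  rw [sum_conj_eq] at h1
  have hC0 : (Nat.card (Subgroup.centralizer {y}) : ℂ) ≠ 0 := by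
    exact_mod_cast Nat.card_pos.ne'
  have hp0 : (p : ℂ) ≠ 0 := by exact_mod_cast hp.ne_zero
  have e : (((p ^ (a - k) * Nat.card (Subgroup.centralizer {y}) : ℕ) : ℂ)⁻¹ *
      ((Nat.card (Subgroup.centralizer {y}) : ℂ) *
      ((clCard y : ℂ) * ρ.character y / (Module.finrank ℂ V : ℂ) * ρ.character g))) =
      (((p ^ (a - k) : ℕ) : ℂ)⁻¹ *
      ((clCard y : ℂ) * ρ.character y / (Module.finrank ℂ V : ℂ) * ρ.character g)) := by
    push_cast
    rw [mul_inv]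
    calc _ = ((p : ℂ) ^ (a - k))⁻¹ * ((Nat.card (Subgroup.centralizer {y}) : ℂ)⁻¹ *
          (Nat.card (Subgroup.centralizer {y}) : ℂ)) *
          ((clCard y : ℂ) * ρ.character y / (Module.finrank ℂ V : ℂ) * ρ.character g) := by ring
      _ = _ := by rw [inv_mul_cancel₀ hC0, mul_one]
  rwa [e] at h1

end char

end MB

section
variable {G V : Type*} [Group G] [Fintype G] [AddCommGroup V] [Module ℂ V] [FiniteDimensional ℂ V]
  (ρ : Representation ℂ G V) {p q : ℕ}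

/-- The main lemma for all `1 ≤ k ≤ a`. -/
theorem main_lemma_all [ρ.IsIrreducible] {n : ℕ} (hp : p.Prime) (_hN : Nat.card G = p ^ n * q)
    (_hq : ¬ p ∣ q) {a k : ℕ} {y : G} (ho : orderOf (y ^ q) = p ^ a) (_hk1 : 1 ≤ k) (hka : k ≤ a)
    (hH : ∀ i : ℕ, i ≡ 1 [MOD p ^ k * q] → IsConj y (y ^ i)) :
    IsIntegral ℤ (((p ^ (a - k) : ℕ) : ℂ)⁻¹ *
      ((clCard y : ℂ) * ρ.character y / (Module.finrank ℂ V : ℂ) * ρ.character y)) :=
  MB.main_lemma_gen ρ hp (Or.inl rfl) ho hka hH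

/-- The main lemma, with the inverse element. -/
theorem main_lemma_inv [ρ.IsIrreducible] (hp : p.Prime) {a k : ℕ} {y : G}
    (ho : orderOf (y ^ q) = p ^ a) (hka : k ≤ a)
    (hH : ∀ i : ℕ, i ≡ 1 [MOD p ^ k * q] → IsConj y (y ^ i)) :
    IsIntegral ℤ (((p ^ (a - k) : ℕ) : ℂ)⁻¹ *
      ((clCard y : ℂ) * ρ.character y / (Module.finrank ℂ V : ℂ) * ρ.character y⁻¹)) :=
  MB.main_lemma_gen ρ hp (Or.inr rfl) ho hka hH

end

end Pool.Agent.H57.Wilde
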