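import Mathlib
import Pool.Agent.H57.Wilde.GB

/-!
Tight pairs: if `y ^ q` acts on `⟨z⟩` and `z ^ q` acts on `⟨y⟩` through exponents congruent to one
modulo `q`, then `(y * z ^ j) ^ (p ^ n)` does not depend on `j ≡ 1` modulo `q`.
-/

namespace Pool.Agent.H57.Wilde

open Finset Pool.Agent.H42.Wilde

section

variable {G : Type*} [Group G] [Finite G] {p n q : ℕ}

theorem exists_uv (hp : p.Prime) (hq : ¬ p ∣ q) :
    ∃ u v : ℕ, q ∣ u ∧ p ^ n ∣ v ∧ v ≡ 1 [MOD q] ∧ u + v ≡ 1 [MOD p ^ n * q] := by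
  have hco : Nat.Coprime (p ^ n) q := ((hp.coprime_iff_not_dvd).mpr hq).pow_left n
  obtain ⟨u, hu1, hu2⟩ := Nat.chineseRemainder hco 1 0
  obtain ⟨v, hv1, hv2⟩ := Nat.chineseRemainder hco 0 1
  refine ⟨u, v, (Nat.modEq_zero_iff_dvd).mp hu2, (Nat.modEq_zero_iff_dvd).mp hv1, hv2, ?_⟩
  rw [← Nat.modEq_and_modEq_iff_modEq_mul hco]
  exact ⟨hu1.add hv1, hu2.add hv2⟩

theorem commute_of_NN (hN : Nat.card G = p ^ n * q) {v : ℕ} (hv : p ^ n ∣ v) {g z : G}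
    (hg : g ∈ NN q z) : Commute g (z ^ v) := by
  obtain ⟨i, hi, hgz⟩ := hg
  have h1 : g * z ^ v * g⁻¹ = z ^ v := by
    rw [← conj_pow, hgz, ← pow_mul]
    apply (pow_eq_pow_iff_modEq).mpr
    have h2 : i * v ≡ 1 * v [MOD q * v] := hi.mul_right' v
    rw [one_mul] at h2
    refine h2.of_dvd ((orderOf_dvd_natCard z).trans ?_)
    rw [hN, mul_comm]
    exact mul_dvd_mul_left q hv
  rw [mul_inv_eq_iff_eq_mul] at h1
  exact h1

theorem pow_p_part (hp : p.Prime) (hN : Nat.card G = p ^ n * q) (hq : ¬ p ∣ q) {u : ℕ}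
    (hu : q ∣ u) {y z : G} (hy : y ^ q ∈ NN q z) (j : ℕ) :
    (y ^ u * (z ^ u) ^ j) ^ (p ^ n) = 1 := by
  have hpow : ∀ x : G, (x ^ u) ^ (p ^ n) = 1 := by
    intro x
    obtain ⟨c, rfl⟩ := hu
    rw [← pow_mul]
    have h1 : q * c * p ^ n = Nat.card G * c := by rw [hN]; ring
    rw [h1, pow_mul, pow_card_eq_one', one_pow]
  have hP : ∀ x : G, IsPGroup p (Subgroup.zpowers (x ^ u)) := by
    intro x g
    obtain ⟨g, hg⟩ := g
    obtain ⟨c, rfl⟩ := Subgroup.mem_zpowers_iff.mp hg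
    refine ⟨n, Subtype.ext ?_⟩
    simp only [SubmonoidClass.mk_pow, Subgroup.coe_one]
    rw [← zpow_natCast, ← zpow_mul, mul_comm, zpow_mul, zpow_natCast, hpow, one_zpow]
  have hyu : y ^ u ∈ NN q z := by
    obtain ⟨c, rfl⟩ := hu
    rw [pow_mul]
    exact Subgroup.pow_mem _ hy c
  have hnorm : Subgroup.zpowers (y ^ u) ≤ Subgroup.normalizer (Subgroup.zpowers (z ^ u) : Set G) := by
    rw [Subgroup.zpowers_le, Subgroup.mem_normalizer_iff]
    intro h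
    constructor
    · intro hh
      exact conj_pow_mem_zpowers hyu u hh
    · intro hh
      have h2 := conj_pow_mem_zpowers (Subgroup.inv_mem _ hyu) u hh
      have h3 : (y ^ u)⁻¹ * (y ^ u * h * (y ^ u)⁻¹) * (y ^ u)⁻¹⁻¹ = h := by group
      rwa [h3] at h2
  have hS := IsPGroup.to_sup_of_normal_right' (hP y) (hP z) hnorm
  have hmem : y ^ u * (z ^ u) ^ j ∈ Subgroup.zpowers (y ^ u) ⊔ Subgroup.zpowers (z ^ u) :=
    Subgroup.mul_mem _ (Subgroup.mem_sup_left (Subgroup.mem_zpowers _))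
      (Subgroup.mem_sup_right (Subgroup.pow_mem _ (Subgroup.mem_zpowers _) _))
  obtain ⟨s, hs⟩ := hS ⟨_, hmem⟩
  have hs' : (y ^ u * (z ^ u) ^ j) ^ (p ^ s) = 1 := by
    have := congrArg Subtype.val hs
    simpa using this
  have h1 := orderOf_dvd_of_pow_eq_one hs'
  have h2 := orderOf_dvd_natCard (y ^ u * (z ^ u) ^ j)
  rw [hN] at h2
  have h3 : Nat.Coprime (orderOf (y ^ u * (z ^ u) ^ j)) q :=
    Nat.Coprime.coprime_dvd_left h1 (((hp.coprime_iff_not_dvd).mpr hq).pow_left s)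
  exact orderOf_dvd_iff_pow_eq_one.mp (h3.dvd_of_dvd_mul_right h2)

theorem pow_of_tight (hp : p.Prime) (hN : Nat.card G = p ^ n * q) (hq : ¬ p ∣ q) {u v : ℕ}
    (hu : q ∣ u) (hv : p ^ n ∣ v) (huv : u + v ≡ 1 [MOD p ^ n * q]) {y z : G}
    (hy : y ^ q ∈ NN q z) (hz : z ^ q ∈ NN q y) {j : ℕ} (hj : j ≡ 1 [MOD q]) :
    (y * z ^ j) ^ (p ^ n) = (y ^ v * z ^ v) ^ (p ^ n) := by
  have hsplit : ∀ x : G, x = x ^ u * x ^ v := by
    intro x
    rw [← pow_add]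
    conv_lhs => rw [← pow_one x]
    apply (pow_eq_pow_iff_modEq).mpr
    refine huv.symm.of_dvd ?_
    rw [← hN]
    exact orderOf_dvd_natCard x
  have hyu : y ^ u ∈ NN q z := by
    obtain ⟨c, rfl⟩ := hu
    rw [pow_mul]
    exact Subgroup.pow_mem _ hy c
  have hzu : z ^ u ∈ NN q y := by
    obtain ⟨c, rfl⟩ := hu
    rw [pow_mul]
    exact Subgroup.pow_mem _ hz c
  have c1 : Commute (y ^ u) (z ^ v) := commute_of_NN hN hv hyu
  have c2 : Commute (z ^ u) (y ^ v) := commute_of_NN hN hv hzu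
  have hzv : (z ^ v) ^ j = z ^ v := by
    rw [← pow_mul]
    apply (pow_eq_pow_iff_modEq).mpr
    have h2 : v * j ≡ v * 1 [MOD v * q] := hj.mul_left' v
    rw [mul_one] at h2
    refine h2.of_dvd ((orderOf_dvd_natCard z).trans ?_)
    rw [hN]
    exact mul_dvd_mul_right hv q
  have hzj : z ^ j = (z ^ u) ^ j * z ^ v := by
    conv_lhs => rw [hsplit z]
    rw [((Commute.refl z).pow_pow u v).mul_pow, hzv]
  have e1 : y * z ^ j = (y ^ u * (z ^ u) ^ j) * (y ^ v * z ^ v) := by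
    rw [hzj]
    conv_lhs => rw [hsplit y]
    calc y ^ u * y ^ v * ((z ^ u) ^ j * z ^ v) = y ^ u * (y ^ v * (z ^ u) ^ j) * z ^ v := by
          simp only [mul_assoc]
      _ = y ^ u * ((z ^ u) ^ j * y ^ v) * z ^ v := by rw [(c2.pow_left j).eq]
      _ = (y ^ u * (z ^ u) ^ j) * (y ^ v * z ^ v) := by simp only [mul_assoc]
  have c3 : Commute (y ^ u * (z ^ u) ^ j) (y ^ v * z ^ v) := by
    apply Commute.mul_left
    · exact ((Commute.refl y).pow_pow u v).mul_right c1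
    · exact (c2.pow_left j).mul_right ((((Commute.refl z).pow_pow u v)).pow_left j)
  rw [e1, c3.mul_pow, pow_p_part hp hN hq hu hy j, one_mul]

/-- The power does not depend on `j`. -/
theorem tight_pow_eq (hp : p.Prime) (hN : Nat.card G = p ^ n * q) (hq : ¬ p ∣ q) {y z : G}
    (hy : y ^ q ∈ NN q z) (hz : z ^ q ∈ NN q y) {j : ℕ} (hj : j ≡ 1 [MOD q]) :
    (y * z ^ j) ^ (p ^ n) = (y * z) ^ (p ^ n) := by
  obtain ⟨u, v, hu, hv, _, huv⟩ := exists_uv (p := p) (n := n) (q := q) hp hq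
  have h1 := pow_of_tight hp hN hq hu hv huv hy hz hj
  have h2 := pow_of_tight hp hN hq hu hv huv hy hz (Nat.ModEq.refl 1)
  rw [pow_one] at h2
  rw [h1, h2]

/-- The same for pairs at level `k`. -/
theorem tight_pow_eq' (hp : p.Prime) (hN : Nat.card G = p ^ n * q) (hq : ¬ p ∣ q) {k : ℕ}
    {y z : G} (hy : y ^ q ∈ NN (p ^ k * q) z) (hz : z ^ q ∈ NN (p ^ k * q) y) {j : ℕ}
    (hj : j ≡ 1 [MOD q]) : (y * z ^ j) ^ (p ^ n) = (y * z) ^ (p ^ n) :=
  tight_pow_eq hp hN hq (NN_mono (dvd_mul_left q _) z hy) (NN_mono (dvd_mul_left q _) y hz) hj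

end

end Pool.Agent.H57.Wilde
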