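import Mathlib
import Pool.Agent.H57.Wilde.GB
import Pool.Agent.H57.Wilde.AV
import Pool.Agent.H57.Wilde.CG
import Pool.Agent.H57.Wilde.TP

/-!
The radical of `2` in the algebraic integers, and the congruence on tight pairs.
-/

namespace Pool.Agent.H57.Wilde

open Finset Representation Pool.Agent.H42.Wilde

/-- Algebraic integers some power of which is divisible by `2`. -/
def Rad2 (x : ℂ) : Prop := IsIntegral ℤ x ∧ ∃ M : ℕ, IsIntegral ℤ (x ^ M / 2)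

/-- The radical of `2` in the algebraic integers. -/
def rad2Ideal : Ideal (integralClosure ℤ ℂ) :=
  (Ideal.span {(2 : integralClosure ℤ ℂ)}).radical

theorem rad2_iff {x : ℂ} :
    Rad2 x ↔ ∃ t : integralClosure ℤ ℂ, (t : ℂ) = x ∧ t ∈ rad2Ideal := by
  constructor
  · rintro ⟨hx, M, hM⟩
    refine ⟨⟨x, hx⟩, rfl, ?_⟩
    refine Ideal.mem_radical_iff.mpr ⟨M, ?_⟩
    rw [Ideal.mem_span_singleton]
    refine ⟨⟨x ^ M / 2, hM⟩, ?_⟩
    apply Subtype.ext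
    push_cast
    change x ^ M = 2 * (x ^ M / 2)
    ring
  · rintro ⟨t, rfl, ht⟩
    obtain ⟨M, hM⟩ := Ideal.mem_radical_iff.mp ht
    rw [Ideal.mem_span_singleton] at hM
    obtain ⟨s, hs⟩ := hM
    refine ⟨t.2, M, ?_⟩
    have h1 : (t : ℂ) ^ M = 2 * (s : ℂ) := by
      have h2 := congrArg (fun r : integralClosure ℤ ℂ => (r : ℂ)) hs
      push_cast at h2
      exact h2
    rw [h1, mul_div_cancel_left₀ _ (two_ne_zero)]
    exact s.2

theorem rad2_zero : Rad2 0 := rad2_iff.mpr ⟨0, rfl, zero_mem _⟩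

theorem rad2_add {x y : ℂ} (hx : Rad2 x) (hy : Rad2 y) : Rad2 (x + y) := by
  obtain ⟨s, rfl, hs⟩ := rad2_iff.mp hx
  obtain ⟨t, rfl, ht⟩ := rad2_iff.mp hy
  exact rad2_iff.mpr ⟨s + t, rfl, add_mem hs ht⟩

theorem rad2_neg {x : ℂ} (hx : Rad2 x) : Rad2 (-x) := by
  obtain ⟨s, rfl, hs⟩ := rad2_iff.mp hx
  exact rad2_iff.mpr ⟨-s, rfl, neg_mem hs⟩

theorem rad2_sub {x y : ℂ} (hx : Rad2 x) (hy : Rad2 y) : Rad2 (x - y) := by
  rw [sub_eq_add_neg]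
  exact rad2_add hx (rad2_neg hy)

theorem rad2_mul {x y : ℂ} (hx : IsIntegral ℤ x) (hy : Rad2 y) : Rad2 (x * y) := by
  obtain ⟨t, rfl, ht⟩ := rad2_iff.mp hy
  exact rad2_iff.mpr ⟨⟨x, hx⟩ * t, rfl, Ideal.mul_mem_left _ _ ht⟩

theorem rad2_sum {ι : Type*} (s : Finset ι) (f : ι → ℂ) (h : ∀ i ∈ s, Rad2 (f i)) :
    Rad2 (∑ i ∈ s, f i) := by
  classical
  induction s using Finset.induction_on with
  | empty => simpa using rad2_zero
  | insert a s ha ih =>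
    rw [Finset.sum_insert ha]
    exact rad2_add (h a (Finset.mem_insert_self a s))
      (ih fun i hi => h i (Finset.mem_insert_of_mem hi))

theorem isIntegral_nat (c : ℕ) : IsIntegral ℤ (c : ℂ) := by
  have h : IsIntegral ℤ (algebraMap ℤ ℂ (c : ℤ)) := isIntegral_algebraMap
  simpa using h

theorem rad2_of_dvd {c : ℕ} (hc : 2 ∣ c) {x : ℂ} (hx : IsIntegral ℤ x) : Rad2 ((c : ℂ) * x) := by
  obtain ⟨d, rfl⟩ := hc
  have h1 : IsIntegral ℤ ((d : ℂ) * x) := (isIntegral_nat d).mul hx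
  refine ⟨(isIntegral_nat _).mul hx, 1, ?_⟩
  have h2 : ((((2 * d : ℕ) : ℂ)) * x) ^ 1 / 2 = (d : ℂ) * x := by
    push_cast
    ring
  rw [h2]
  exact h1

/-- Replacing every term of a weighted sum by a congruent one; the total weight is even. -/
theorem rad2_weighted {ι : Type*} (s : Finset ι) (r : ι → ℕ) (F : ι → ℂ) (F0 : ℂ)
    (h0 : IsIntegral ℤ F0) (hF : ∀ i ∈ s, Rad2 (F i - F0)) (he : 2 ∣ ∑ i ∈ s, r i) :
    Rad2 (∑ i ∈ s, (r i : ℂ) * F i) := by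
  have h1 : ∑ i ∈ s, (r i : ℂ) * F i =
      ∑ i ∈ s, (r i : ℂ) * (F i - F0) + ((∑ i ∈ s, r i : ℕ) : ℂ) * F0 := by
    push_cast
    rw [Finset.sum_mul, ← Finset.sum_add_distrib]
    refine Finset.sum_congr rfl fun i _ => ?_
    ring
  rw [h1]
  exact rad2_add (rad2_sum s _ fun i hi => rad2_mul (isIntegral_nat _) (hF i hi))
    (rad2_of_dvd he h0)

section
variable {G V : Type*} [Group G] [Fintype G] [AddCommGroup V] [Module ℂ V] [FiniteDimensional ℂ V]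
  (ρ : Representation ℂ G V) {n q : ℕ}

omit [Fintype G] in
theorem Mut_of_tight {p k : ℕ} [Finite G] {y z : G} (h1 : y ^ q ∈ NN (p ^ k * q) z)
    (h2 : z ^ q ∈ NN (p ^ k * q) y) : Mut (p ^ k * q) y z := by
  have e : ∀ x : G, x ^ (p ^ k * q) = (x ^ q) ^ (p ^ k) := by
    intro x
    rw [← pow_mul, mul_comm]
  refine ⟨?_, ?_⟩
  · rw [e]; exact Subgroup.pow_mem _ h1 _
  · rw [e]; exact Subgroup.pow_mem _ h2 _

omit [Fintype G] in
theorem conj_pow_mem_of_conj_mem {R : Subgroup G} {z : G} (h : ∀ w ∈ R, z * w * z⁻¹ ∈ R) (j : ℕ) :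
    ∀ w ∈ R, z ^ j * w * (z ^ j)⁻¹ ∈ R := by
  induction j with
  | zero => intro w hw; simpa using hw
  | succ j ih =>
    intro w hw
    have h1 : z ^ (j + 1) * w * (z ^ (j + 1))⁻¹ = z * (z ^ j * w * (z ^ j)⁻¹) * z⁻¹ := by
      rw [pow_succ']; group
    rw [h1]
    exact h _ (ih w hw)

/-- The congruence on tight pairs. -/
theorem tight_congr (hN : Nat.card G = 2 ^ n * q) (hq : ¬ 2 ∣ q) {k : ℕ} {y z : G}
    (h1 : y ^ q ∈ NN (2 ^ k * q) z) (h2 : z ^ q ∈ NN (2 ^ k * q) y) {j : ℕ} (hj : j ≡ 1 [MOD q])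
    (R : Subgroup G) [Fintype R]
    (hR : R = Subgroup.zpowers (y ^ (2 ^ k * q)) ⊔ Subgroup.zpowers (z ^ (2 ^ k * q))) :
    Rad2 ((Nat.card R : ℂ)⁻¹ * ∑ h : R, ρ.character ((h : G) * (y * z ^ j)) -
      (Nat.card R : ℂ)⁻¹ * ∑ h : R, ρ.character ((h : G) * (y * z))) := by
  have hM := Mut_of_tight h1 h2
  have hyR : ∀ w ∈ R, y * w * y⁻¹ ∈ R := by
    intro w hw
    rw [hR] at hw ⊢
    exact norm_left hM hw
  have hzR : ∀ w ∈ R, z * w * z⁻¹ ∈ R := by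
    intro w hw
    rw [hR] at hw ⊢
    exact norm_right hM hw
  have hyz : ∀ j : ℕ, ∀ w ∈ R, (y * z ^ j) * w * (y * z ^ j)⁻¹ ∈ R := by
    intro j w hw
    have e : (y * z ^ j) * w * (y * z ^ j)⁻¹ = y * (z ^ j * w * (z ^ j)⁻¹) * y⁻¹ := by group
    rw [e]
    exact hyR _ (conj_pow_mem_of_conj_mem hzR j w hw)
  have hyz1 : ∀ w ∈ R, (y * z) * w * (y * z)⁻¹ ∈ R := by
    intro w hw
    have := hyz 1 w hw
    rwa [pow_one] at this
  refine ⟨(isIntegral_avg ρ R _ (hyz j)).sub (isIntegral_avg ρ R _ hyz1), ?_⟩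
  exact avg_congr ρ R _ _ (hyz j) hyz1 n (tight_pow_eq' Nat.prime_two hN hq h1 h2 hj)

end

end Pool.Agent.H57.Wilde
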