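import Mathlib
import Pool.Agent.H57.Wilde.GB
import Pool.Agent.H57.Wilde.TP
import Pool.Agent.H57.Wilde.AV
import Pool.Agent.H57.Wilde.AW
import Pool.Agent.H57.Wilde.CG
import Pool.Agent.H57.Wilde.TC
import Pool.Agent.H57.Wilde.CM

/-!
The strict gain for the prime two.
-/

namespace Pool.Agent.H57.Wilde.MB2

open Finset Representation Pool.Agent.H42.Wilde

section rad

/-- The algebraic integers a power of which is divisible by two. -/
def Rad2S : AddSubgroup ℂ where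
  carrier := {x | Rad2 x}
  zero_mem' := rad2_zero
  add_mem' := rad2_add
  neg_mem' := rad2_neg

theorem mem_Rad2S {x : ℂ} : x ∈ Rad2S ↔ Rad2 x := Iff.rfl

/-- The algebraic integers. -/
def IntS : AddSubgroup ℂ where
  carrier := {x | IsIntegral ℤ x}
  zero_mem' := isIntegral_zero
  add_mem' := IsIntegral.add
  neg_mem' := IsIntegral.neg

theorem mem_IntS {x : ℂ} : x ∈ IntS ↔ IsIntegral ℤ x := Iff.rfl

end rad

section orbit

theorem sum_mem_of_orbit {H Y : Type*} [Group H] [Finite H] [MulAction H Y] [Fintype Y]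
    (S : AddSubgroup ℂ) (A : Y → ℂ) (hA : ∀ (g : H) (y : Y), A (g • y) = A y) (c : ℂ)
    (h : ∀ y : Y, c * (Nat.card (MulAction.orbit H y) : ℂ) * A y ∈ S) :
    c * ∑ y, A y ∈ S := by
  classical
  have key : ∑ y, A y = ∑ ω : MulAction.orbitRel.Quotient H Y,
      ∑ y ∈ univ.filter (fun y : Y => (Quotient.mk'' y : MulAction.orbitRel.Quotient H Y) = ω), A y :=
    (Finset.sum_fiberwise _ _ _).symm
  rw [key, Finset.mul_sum]
  apply AddSubgroup.sum_mem
  intro ω _
  obtain ⟨y, rfl⟩ := Quotient.mk''_surjective ω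
  have h1 : ∀ z ∈ univ.filter (fun z : Y =>
      (Quotient.mk'' z : MulAction.orbitRel.Quotient H Y) = Quotient.mk'' y), A z = A y := by
    intro z hz
    rw [Finset.mem_filter] at hz
    have h2 := hz.2
    rw [Quotient.eq''] at h2
    obtain ⟨g, rfl⟩ := h2
    exact hA g y
  rw [Finset.sum_congr rfl h1, Finset.sum_const, nsmul_eq_mul]
  have h3 : #(univ.filter (fun z : Y =>
      (Quotient.mk'' z : MulAction.orbitRel.Quotient H Y) = Quotient.mk'' y))
      = Nat.card (MulAction.orbit H y) := by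
    rw [Nat.card_eq_fintype_card, ← Set.toFinset_card]
    congr 1
    ext z
    rw [Finset.mem_filter, Set.mem_toFinset, Quotient.eq'']
    simp [MulAction.orbitRel_apply]
  rw [h3, ← mul_assoc]
  exact h y

variable {G : Type*} [Group G]

/-- The action of a product of two subgroups by left and right multiplication. -/
@[reducible] def dAct (H1 H2 : Subgroup G) : MulAction (H1 × H2) G where
  smul x c := (x.1 : G) * c * (x.2 : G)⁻¹
  one_smul c := by
    change ((1 : H1) : G) * c * ((1 : H2) : G)⁻¹ = c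
    simp
  mul_smul x x' c := by
    change ((x.1 * x'.1 : H1) : G) * c * ((x.2 * x'.2 : H2) : G)⁻¹
      = x.1 * (x'.1 * c * (x'.2 : G)⁻¹) * (x.2 : G)⁻¹
    rw [Subgroup.coe_mul, Subgroup.coe_mul]
    group

/-- Sums of functions that are constant on double cosets. -/
theorem sum_mem_of_double [Fintype G] (S : AddSubgroup ℂ) (H1 H2 : Subgroup G)
    (H3 : G → Subgroup G) (h3 : ∀ c n, n ∈ H3 c ↔ c⁻¹ * n * c ∈ H2) (A : G → ℂ)
    (hA : ∀ n ∈ H1, ∀ m ∈ H2, ∀ c, A (n * c * m) = A c) (κ : ℂ)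
    (h : ∀ c, κ * (((H3 c).relIndex H1 * Nat.card H2 : ℕ) : ℂ) * A c ∈ S) :
    κ * ∑ c, A c ∈ S := by
  let _ : MulAction (H1 × H2) G := dAct H1 H2
  have hsm : ∀ (x : H1 × H2) (c : G), x • c = (x.1 : G) * c * (x.2 : G)⁻¹ := fun x c => rfl
  apply sum_mem_of_orbit (H := H1 × H2) S A
  · intro x c
    rw [hsm]
    exact hA _ x.1.2 _ (H2.inv_mem x.2.2) c
  · intro c
    have hcard : Nat.card (MulAction.orbit (H1 × H2) c) = (H3 c).relIndex H1 * Nat.card H2 := by
      have e1 : Nat.card (MulAction.orbit (H1 × H2) c) *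
          Nat.card (MulAction.stabilizer (H1 × H2) c) = Nat.card H1 * Nat.card H2 := by
        rw [Nat.card_coe_set_eq, ← MulAction.index_stabilizer, Subgroup.index_mul_card,
          Nat.card_prod]
      have e2 : Nat.card (MulAction.stabilizer (H1 × H2) c) = Nat.card (H3 c ⊓ H1 : Subgroup G) := by
        apply Nat.card_congr
        refine ⟨fun x => ⟨x.1.1, ?_, x.1.1.2⟩,
          fun n => ⟨(⟨n, n.2.2⟩, ⟨c⁻¹ * n * c, (h3 c n).1 n.2.1⟩), ?_⟩, ?_, ?_⟩
        · change (x.1.1 : G) ∈ H3 c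
          rw [h3]
          have h4 : (x.1.1 : G) * c * (x.1.2 : G)⁻¹ = c := x.2
          have h5 : c⁻¹ * (x.1.1 : G) * c = (x.1.2 : G) := by
            rw [mul_inv_eq_iff_eq_mul] at h4
            rw [mul_assoc, h4]; group
          rw [h5]
          exact x.1.2.2
        · change (n : G) * c * (c⁻¹ * n * c)⁻¹ = c
          group
        · intro x
          apply Subtype.ext
          apply Prod.ext
          · rfl
          · apply Subtype.ext
            change c⁻¹ * (x.1.1 : G) * c = (x.1.2 : G)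
            have h4 : (x.1.1 : G) * c * (x.1.2 : G)⁻¹ = c := x.2
            rw [mul_inv_eq_iff_eq_mul] at h4
            rw [mul_assoc, h4]; group
        · intro n
          rfl
      have e3 := relIndex_mul_card_inf (H3 c) H1
      rw [e2, ← e3] at e1
      have h0 : 0 < Nat.card (H3 c ⊓ H1 : Subgroup G) := Nat.card_pos
      apply Nat.eq_of_mul_eq_mul_right h0
      rw [e1]; ring
    rw [hcard]
    exact h c

end orbit

section group

variable {G : Type*} [Group G] [Finite G] {p q : ℕ}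

theorem zpowers_conj_NN {m : ℕ} {y n : G} (hn : n ∈ NN m y) :
    Subgroup.zpowers (n * y * n⁻¹) = Subgroup.zpowers y := by
  apply le_antisymm
  · rw [Subgroup.zpowers_le]
    obtain ⟨i, _, hi⟩ := hn
    rw [hi]
    exact Subgroup.pow_mem _ (Subgroup.mem_zpowers _) _
  · rw [Subgroup.zpowers_le]
    obtain ⟨i, _, hi⟩ := (NN m y).inv_mem hn
    have h1 : y = (n * y * n⁻¹) ^ i := by
      rw [conj_pow, ← hi]; group
    rw [h1]
    exact Subgroup.pow_mem _ (by rw [← h1]; exact Subgroup.mem_zpowers _) _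

/-- Properties of pairs that only depend on the cyclic groups, up to conjugation. -/
theorem pair_stable {m : ℕ} {y n r : G} (hn : n ∈ NN m y) (hr : r ∈ NN m y) (P : G → G → Prop)
    (hc : ∀ g u v, P (g * u * g⁻¹) (g * v * g⁻¹) ↔ P u v)
    (hz : ∀ u u' v v', Subgroup.zpowers u = Subgroup.zpowers u' →
      Subgroup.zpowers v = Subgroup.zpowers v' → (P u v ↔ P u' v')) (c : G) :
    P y (n * c * r * y * (n * c * r)⁻¹) ↔ P y (c * y * c⁻¹) := by
  have h1 : P y (n * c * r * y * (n * c * r)⁻¹) ↔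
      P (n⁻¹ * y * n⁻¹⁻¹) (n⁻¹ * (n * c * r * y * (n * c * r)⁻¹) * n⁻¹⁻¹) := (hc _ _ _).symm
  rw [h1]
  have h2 : n⁻¹ * (n * c * r * y * (n * c * r)⁻¹) * n⁻¹⁻¹ = c * (r * y * r⁻¹) * c⁻¹ := by group
  rw [h2]
  apply hz
  · exact zpowers_conj_NN ((NN m y).inv_mem hn)
  · have h3 : ∀ x, Subgroup.zpowers (c * x * c⁻¹)
        = (Subgroup.zpowers x).map (MulAut.conj c).toMonoidHom := by
      intro x
      rw [MonoidHom.map_zpowers]
      rfl
    rw [h3, h3, zpowers_conj_NN hr]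

theorem NN_map_conj {m : ℕ} (g y : G) :
    NN m (g * y * g⁻¹) = (NN m y).map (MulAut.conj g).toMonoidHom := by
  ext w
  rw [Subgroup.mem_map, mem_NN_conj]
  constructor
  · intro hw
    refine ⟨g⁻¹ * w * g, hw, ?_⟩
    change g * (g⁻¹ * w * g) * g⁻¹ = w
    group
  · rintro ⟨v, hv, rfl⟩
    change g⁻¹ * (g * v * g⁻¹) * g ∈ NN m y
    have h2 : g⁻¹ * (g * v * g⁻¹) * g = v := by group
    rwa [h2]

theorem relIndex_NN_conj {m : ℕ} (g y z : G) :
    (NN m (g * z * g⁻¹)).relIndex (NN m (g * y * g⁻¹)) = (NN m z).relIndex (NN m y) := by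
  rw [NN_map_conj, NN_map_conj]
  exact Subgroup.relIndex_map_map_of_injective _ _ (MulAut.conj g).injective

/-- The size of a block. -/
noncomputable def BS (p q a k : ℕ) (y z : G) : ℕ :=
  p ^ (a - th p q k y z) * (NN (p ^ th p q k y z * q) z).relIndex (NN (p ^ th p q k y z * q) y)

theorem BS_conj {a k : ℕ} (g y z : G) :
    BS p q a k (g * y * g⁻¹) (g * z * g⁻¹) = BS p q a k y z := by
  unfold BS
  rw [th_conj, relIndex_NN_conj]

theorem BS_congr {a k : ℕ} {y y' z z' : G} (h : Subgroup.zpowers y = Subgroup.zpowers y')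
    (h' : Subgroup.zpowers z = Subgroup.zpowers z') : BS p q a k y z = BS p q a k y' z' := by
  unfold BS
  rw [th_congr h h', NN_congr h, NN_congr h']

/-- Reparametrisation of a coset. -/
theorem sum_conj_coset {m : ℕ} {y n : G} (hn : n ∈ NN m y)
    [Fintype (Subgroup.zpowers (y ^ m))] (f : G → ℂ) :
    ∑ a : Subgroup.zpowers (y ^ m), f (n * (y * (a : G)) * n⁻¹)
      = ∑ a : Subgroup.zpowers (y ^ m), f (y * (a : G)) := by
  obtain ⟨i, hi, hi'⟩ := id hn
  have hmem : ∀ a ∈ Subgroup.zpowers (y ^ m),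
      y⁻¹ * (n * (y * a) * n⁻¹) ∈ Subgroup.zpowers (y ^ m) := by
    intro a ha
    have h1 : y⁻¹ * (n * (y * a) * n⁻¹) = (y ^ (1 - (i : ℤ)))⁻¹ * (n * a * n⁻¹) := by
      have h2 : (y ^ (1 - (i : ℤ)))⁻¹ = y⁻¹ * (n * y * n⁻¹) := by
        rw [hi', ← zpow_neg, neg_sub, sub_eq_neg_add, zpow_add, zpow_neg_one, zpow_natCast]
      rw [h2]; group
    rw [h1]
    exact Subgroup.mul_mem _ (Subgroup.inv_mem _ (zpow_one_sub_mem hi y))
      (conj_pow_mem_zpowers hn m ha)
  let φ : Subgroup.zpowers (y ^ m) → Subgroup.zpowers (y ^ m) := fun a =>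
    ⟨y⁻¹ * (n * (y * (a : G)) * n⁻¹), hmem a a.2⟩
  have hφ : Function.Bijective φ := by
    apply Function.Injective.bijective_of_finite
    intro a b hab
    have h1 : y⁻¹ * (n * (y * (a : G)) * n⁻¹) = y⁻¹ * (n * (y * (b : G)) * n⁻¹) :=
      congrArg Subtype.val hab
    apply Subtype.ext
    simpa using h1
  refine Fintype.sum_bijective φ hφ _ _ ?_
  intro a
  change f (n * (y * (a : G)) * n⁻¹) = f (y * (y⁻¹ * (n * (y * (a : G)) * n⁻¹)))
  rw [mul_inv_cancel_left]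

/-- Fusion inside a coset. -/
theorem exists_conj_coset {m : ℕ} {y a : G} (hH : ∀ i : ℕ, i ≡ 1 [MOD m] → IsConj y (y ^ i))
    (ha : a ∈ Subgroup.zpowers (y ^ m)) : ∃ n ∈ NN m y, n * y * n⁻¹ = y * a := by
  have h1 : a ∈ Submonoid.powers (y ^ m) := mem_powers_iff_mem_zpowers.2 ha
  obtain ⟨j, hj⟩ := Submonoid.mem_powers_iff _ _ |>.1 h1
  have h2 : m * j + 1 ≡ 1 [MOD m] := by simp
  obtain ⟨c, hc⟩ := isConj_iff.1 (hH (m * j + 1) h2)
  refine ⟨c, ⟨_, h2, hc⟩, ?_⟩
  rw [hc, ← hj, ← pow_mul, pow_succ']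

end group

section means

variable {G V : Type*} [Group G] [Fintype G] [AddCommGroup V] [Module ℂ V] [FiniteDimensional ℂ V]
  (ρ : Representation ℂ G V) {p q : ℕ}

open Classical in
/-- The mean of the character over the pairs in `y⟨y ^ m⟩ × c y⟨y ^ m⟩ c⁻¹`. -/
noncomputable def FF (m : ℕ) (y c : G) : ℂ :=
  ((Nat.card (Subgroup.zpowers (y ^ m)) : ℂ) * (Nat.card (Subgroup.zpowers (y ^ m)) : ℂ))⁻¹ *
    ∑ a : Subgroup.zpowers (y ^ m), ∑ b : Subgroup.zpowers (y ^ m),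
      ρ.character (y * (a : G) * (c * (y * (b : G)) * c⁻¹))

omit [FiniteDimensional ℂ V] in
theorem FF_right {m : ℕ} {y r : G} (hr : r ∈ NN m y) (c : G) :
    FF ρ m y (c * r) = FF ρ m y c := by
  classical
  unfold FF
  congr 1
  refine Finset.sum_congr rfl fun a _ => ?_
  have h1 := sum_conj_coset hr (fun g => ρ.character (y * (a : G) * (c * g * c⁻¹)))
  rw [← h1]
  refine Finset.sum_congr rfl fun b _ => ?_
  congr 1
  group

omit [FiniteDimensional ℂ V] in
theorem FF_left {m : ℕ} {y n : G} (hn : n ∈ NN m y) (c : G) :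
    FF ρ m y (n * c) = FF ρ m y c := by
  classical
  unfold FF
  congr 1
  rw [Finset.sum_comm]
  symm
  rw [Finset.sum_comm]
  symm
  refine Finset.sum_congr rfl fun b _ => ?_
  have h1 := sum_conj_coset ((NN m y).inv_mem hn)
    (fun g => ρ.character (g * (c * (y * (b : G)) * c⁻¹)))
  rw [← h1]
  refine Finset.sum_congr rfl fun a _ => ?_
  rw [← char_conj ρ _ n⁻¹]
  congr 1
  group

omit [FiniteDimensional ℂ V] in
theorem FF_sum {m : ℕ} {y : G} (hH : ∀ i : ℕ, i ≡ 1 [MOD m] → IsConj y (y ^ i)) (X : Finset G)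
    (hX : ∀ n ∈ NN m y, ∀ r ∈ NN m y, ∀ c ∈ X, n * c * r ∈ X) :
    ∑ c ∈ X, ρ.character (y * (c * y * c⁻¹)) = ∑ c ∈ X, FF ρ m y c := by
  classical
  have step : ∀ a ∈ Subgroup.zpowers (y ^ m), ∀ b ∈ Subgroup.zpowers (y ^ m),
      ∑ c ∈ X, ρ.character (y * a * (c * (y * b) * c⁻¹))
        = ∑ c ∈ X, ρ.character (y * (c * y * c⁻¹)) := by
    intro a ha b hb
    obtain ⟨n, hn, hna⟩ := exists_conj_coset hH ha
    obtain ⟨r, hr, hrb⟩ := exists_conj_coset hH hb
    rw [← hna, ← hrb]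
    refine Finset.sum_bij' (fun c _ => n⁻¹ * c * r) (fun c _ => n * c * r⁻¹) ?_ ?_ ?_ ?_ ?_
    · intro c hc
      exact hX _ ((NN m y).inv_mem hn) _ hr c hc
    · intro c hc
      exact hX _ hn _ ((NN m y).inv_mem hr) c hc
    · intro c _
      group
    · intro c _
      group
    · intro c _
      rw [← char_conj ρ (y * (n⁻¹ * c * r * y * (n⁻¹ * c * r)⁻¹)) n]
      congr 1
      group
  have hR : (Nat.card (Subgroup.zpowers (y ^ m)) : ℂ) ≠ 0 := by exact_mod_cast Nat.card_pos.ne'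
  unfold FF
  rw [← Finset.mul_sum, Finset.sum_comm]
  have h1 : ∀ a ∈ (univ : Finset (Subgroup.zpowers (y ^ m))),
      ∑ c ∈ X, ∑ b : Subgroup.zpowers (y ^ m),
        ρ.character (y * (a : G) * (c * (y * (b : G)) * c⁻¹))
      = (Nat.card (Subgroup.zpowers (y ^ m)) : ℂ) *
        ∑ c ∈ X, ρ.character (y * (c * y * c⁻¹)) := by
    intro a _
    rw [Finset.sum_comm, Finset.sum_congr rfl fun (b : Subgroup.zpowers (y ^ m)) _ =>
      step a a.2 b b.2, Finset.sum_const, Finset.card_univ, ← Nat.card_eq_fintype_card,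
      nsmul_eq_mul]
  rw [Finset.sum_congr rfl h1, Finset.sum_const, Finset.card_univ, ← Nat.card_eq_fintype_card,
    nsmul_eq_mul, ← mul_assoc _ _ (∑ c ∈ X, ρ.character (y * (c * y * c⁻¹))), ← mul_assoc,
    inv_mul_cancel₀ (mul_ne_zero hR hR), one_mul]

open Classical in
theorem FF_eq {m : ℕ} {y c : G} (h : Mut m y (c * y * c⁻¹)) :
    FF ρ m y c = (Nat.card (Subgroup.zpowers (y ^ m) ⊔
      Subgroup.zpowers ((c * y * c⁻¹) ^ m) : Subgroup G) : ℂ)⁻¹ *
      ∑ w : (Subgroup.zpowers (y ^ m) ⊔ Subgroup.zpowers ((c * y * c⁻¹) ^ m) : Subgroup G),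
        ρ.character ((w : G) * (y * (c * y * c⁻¹))) := by
  rw [← avg_pair_eq ρ h]
  have hm1 : ∀ a ∈ Subgroup.zpowers (y ^ m), c * a * c⁻¹ ∈ Subgroup.zpowers ((c * y * c⁻¹) ^ m) := by
    intro a ha
    obtain ⟨s, rfl⟩ := Subgroup.mem_zpowers_iff.1 ha
    rw [conj_pow, ← conj_zpow]
    exact Subgroup.zpow_mem _ (Subgroup.mem_zpowers _) s
  have hm2 : ∀ b ∈ Subgroup.zpowers ((c * y * c⁻¹) ^ m), c⁻¹ * b * c ∈ Subgroup.zpowers (y ^ m) := by
    intro b hb
    obtain ⟨s, rfl⟩ := Subgroup.mem_zpowers_iff.1 hb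
    rw [conj_pow, conj_zpow]
    have h1 : c⁻¹ * (c * (y ^ m) ^ s * c⁻¹) * c = (y ^ m) ^ s := by group
    rw [h1]
    exact Subgroup.zpow_mem _ (Subgroup.mem_zpowers _) s
  let e : Subgroup.zpowers (y ^ m) ≃ Subgroup.zpowers ((c * y * c⁻¹) ^ m) :=
    { toFun := fun a => ⟨c * a * c⁻¹, hm1 a a.2⟩
      invFun := fun b => ⟨c⁻¹ * b * c, hm2 b b.2⟩
      left_inv := fun a => by
        apply Subtype.ext
        change c⁻¹ * (c * (a : G) * c⁻¹) * c = a
        group
      right_inv := fun b => by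
        apply Subtype.ext
        change c * (c⁻¹ * (b : G) * c) * c⁻¹ = b
        group }
  unfold FF
  rw [Nat.card_congr e.symm]
  congr 1
  refine Finset.sum_congr rfl fun a _ => ?_
  refine Fintype.sum_equiv e _ _ ?_
  intro b
  congr 2
  change c * (y * (b : G)) * c⁻¹ = c * y * c⁻¹ * (c * (b : G) * c⁻¹)
  group

theorem FF_eq' {m : ℕ} {y c : G} (h : Mut m y (c * y * c⁻¹)) (R : Subgroup G) [Fintype R]
    (hR : R = Subgroup.zpowers (y ^ m) ⊔ Subgroup.zpowers ((c * y * c⁻¹) ^ m)) :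
    FF ρ m y c = (Nat.card R : ℂ)⁻¹ * ∑ w : R, ρ.character ((w : G) * (y * (c * y * c⁻¹))) := by
  classical
  subst hR
  rw [FF_eq ρ h]
  congr 1
  exact Finset.sum_congr (by ext; simp) fun _ _ => rfl

theorem FF_int {m : ℕ} {y c : G} (h : Mut m y (c * y * c⁻¹)) : IsIntegral ℤ (FF ρ m y c) := by
  classical
  rw [FF_eq ρ h, ← avg_pair_eq ρ h]
  exact isIntegral_avg_pair ρ h

/-- The sum over all conjugates. -/
theorem sum_conj_char [ρ.IsIrreducible] (y g : G) :
    ∑ c : G, ρ.character (g * (c * y * c⁻¹)) =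
      (Nat.card G : ℂ) * ρ.character y / (Module.finrank ℂ V : ℂ) * ρ.character g := by
  classical
  let E : Module.End ℂ V := ∑ c : G, ρ (c * y * c⁻¹)
  have hcomm : ∀ h : G, ρ h * E = E * ρ h := by
    intro h
    have h1 : ρ h * E * ρ h⁻¹ = E := by
      simp only [E]
      rw [Finset.mul_sum, Finset.sum_mul]
      refine Fintype.sum_equiv (Equiv.mulLeft h) _ _ ?_
      intro x
      rw [← map_mul, ← map_mul]
      congr 1
      change h * (x * y * x⁻¹) * h⁻¹ = (h * x) * y * (h * x)⁻¹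
      group
    calc ρ h * E = ρ h * E * (ρ h⁻¹ * ρ h) := by rw [← map_mul]; simp
      _ = (ρ h * E * ρ h⁻¹) * ρ h := by simp only [mul_assoc]
      _ = E * ρ h := by rw [h1]
  let f : IntertwiningMap ρ ρ := ⟨E, by
    intro h
    exact (hcomm h).symm⟩
  obtain ⟨c, hc⟩ := (IsIrreducible.algebraMap_intertwiningMap_bijective_of_isAlgClosed
    (ρ := ρ)).surjective f
  have hE : E = algebraMap ℂ (Module.End ℂ V) c := by
    have h1 : f.toLinearMap = E := rfl
    rw [← h1, ← hc, IntertwiningMap.algebraMap_apply]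
    rfl
  have hnt : Nontrivial V := by
    by_contra hV
    rw [not_nontrivial_iff_subsingleton] at hV
    have h1 : (⊥ : Subrepresentation ρ) = ⊤ := by
      apply Subrepresentation.toSubmodule_injective
      exact Subsingleton.elim _ _
    exact bot_ne_top h1
  have hfin : (Module.finrank ℂ V : ℂ) ≠ 0 := by
    exact_mod_cast (Module.finrank_pos (R := ℂ) (M := V)).ne'
  have htr : (Nat.card G : ℂ) * ρ.character y = c * (Module.finrank ℂ V : ℂ) := by
    have h1 : LinearMap.trace ℂ V E = c * (Module.finrank ℂ V : ℂ) := by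
      rw [hE, Algebra.algebraMap_eq_smul_one, map_smul, LinearMap.trace_one, smul_eq_mul]
    rw [← h1]
    simp only [E]
    rw [map_sum]
    have h2 : ∀ x ∈ (univ : Finset G), LinearMap.trace ℂ V (ρ (x * y * x⁻¹)) = ρ.character y := by
      intro x _
      exact char_conj ρ y x
    rw [Finset.sum_congr rfl h2, Finset.sum_const, nsmul_eq_mul, Finset.card_univ,
      Nat.card_eq_fintype_card]
  have hsum : ∑ c : G, ρ.character (g * (c * y * c⁻¹)) = LinearMap.trace ℂ V (ρ g * E) := by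
    simp only [E]
    rw [Finset.mul_sum, map_sum]
    refine Finset.sum_congr rfl fun z _ => ?_
    rw [← map_mul]
    rfl
  have h3 : LinearMap.trace ℂ V (ρ g * E) = c * ρ.character g := by
    rw [hE, Algebra.algebraMap_eq_smul_one, mul_smul_comm, mul_one, map_smul, smul_eq_mul]
    rfl
  rw [hsum, h3, htr, mul_div_assoc, div_self hfin, mul_one]

omit [FiniteDimensional ℂ V] in
theorem clCard_mul_card_centralizer (y : G) :
    clCard y * Nat.card (Subgroup.centralizer {y}) = Nat.card G := by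
  classical
  unfold clCard
  rw [Subgroup.nat_card_centralizer_nat_card_stabilizer, Nat.card_coe_set_eq,
    ← MulAction.index_stabilizer, Subgroup.index_mul_card]
  rfl

theorem main_eq [ρ.IsIrreducible] (y : G) :
    (clCard y : ℂ) * ρ.character y / (Module.finrank ℂ V : ℂ) * ρ.character y =
      (Nat.card (Subgroup.centralizer {y}) : ℂ)⁻¹ *
        ∑ c : G, ρ.character (y * (c * y * c⁻¹)) := by
  have hC : (Nat.card (Subgroup.centralizer {y}) : ℂ) ≠ 0 := by exact_mod_cast Nat.card_pos.ne'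
  rw [sum_conj_char, ← clCard_mul_card_centralizer y, eq_inv_mul_iff_mul_eq₀ hC]
  push_cast
  ring

/-- A part of the sum on which the level is `t`. -/
theorem level_part {a k t D : ℕ} {y : G} (hp : p.Prime) (ho : orderOf (y ^ q) = p ^ a)
    (hkt : k ≤ t) (hta : t ≤ a) (hH : ∀ i : ℕ, i ≡ 1 [MOD p ^ k * q] → IsConj y (y ^ i))
    (X : Finset G)
    (hX : ∀ n ∈ NN (p ^ t * q) y, ∀ r ∈ NN (p ^ t * q) y, ∀ c ∈ X, n * c * r ∈ X)
    (hM : ∀ c ∈ X, Mut (p ^ t * q) y (c * y * c⁻¹))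
    (hD : ∀ c ∈ X, D ∣ p ^ (a - t) *
      (NN (p ^ t * q) (c * y * c⁻¹)).relIndex (NN (p ^ t * q) y)) :
    IsIntegral ℤ ((D : ℂ)⁻¹ * ((Nat.card (Subgroup.centralizer {y}) : ℂ)⁻¹ *
      ∑ c ∈ X, ρ.character (y * (c * y * c⁻¹)))) := by
  classical
  have hH' : ∀ i : ℕ, i ≡ 1 [MOD p ^ t * q] → IsConj y (y ^ i) := fun i hi =>
    hH i (hi.of_dvd (Nat.mul_dvd_mul_right (pow_dvd_pow p hkt) q))
  rw [FF_sum ρ hH' X hX, ← mul_assoc]
  let A : G → ℂ := fun c => if c ∈ X then FF ρ (p ^ t * q) y c else 0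
  have h1 : ∑ c ∈ X, FF ρ (p ^ t * q) y c = ∑ c, A c := by
    simp only [A]
    rw [← Finset.sum_filter]
    congr 1
    ext c
    simp
  rw [h1]
  change _ ∈ IntS
  apply sum_mem_of_double IntS (NN (p ^ t * q) y) (NN (p ^ t * q) y)
    (fun c => NN (p ^ t * q) (c * y * c⁻¹)) (fun c n => mem_NN_conj) A
  · intro n hn r hr c
    simp only [A]
    by_cases hc : c ∈ X
    · rw [if_pos hc, if_pos (hX n hn r hr c hc), FF_right ρ hr, FF_left ρ hn]
    · rw [if_neg hc, if_neg]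
      intro h2
      apply hc
      have h3 := hX _ ((NN _ y).inv_mem hn) _ ((NN _ y).inv_mem hr) _ h2
      have h4 : n⁻¹ * (n * c * r) * r⁻¹ = c := by group
      rwa [h4] at h3
  · intro c
    simp only [A]
    by_cases hc : c ∈ X
    · rw [if_pos hc, card_NN hp ho hkt hta hH]
      obtain ⟨w, hw⟩ := hD c hc
      have hC : (Nat.card (Subgroup.centralizer {y}) : ℂ) ≠ 0 := by
        exact_mod_cast Nat.card_pos.ne'
      have h5 : (NN (p ^ t * q) (c * y * c⁻¹)).relIndex (NN (p ^ t * q) y) *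
          (p ^ (a - t) * Nat.card (Subgroup.centralizer {y}))
          = D * w * Nat.card (Subgroup.centralizer {y}) := by
        rw [← hw]; ring
      rw [h5]
      by_cases hD0 : (D : ℂ) = 0
      · rw [hD0]; simp only [inv_zero, zero_mul]
        exact isIntegral_zero
      · have h6 : (D : ℂ)⁻¹ * (Nat.card (Subgroup.centralizer {y}) : ℂ)⁻¹ *
            ((D * w * Nat.card (Subgroup.centralizer {y}) : ℕ) : ℂ) = (w : ℂ) := by
          push_cast
          field_simp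
        rw [h6]
        exact (_root_.isIntegral_natCast w).mul (FF_int ρ (hM c hc))
    · rw [if_neg hc, mul_zero]
      exact isIntegral_zero

/-- The sum over a set of elements defined by a property of pairs, all blocks being divisible
by `D`. -/
theorem pairs_part {a k D : ℕ} {y : G} (hp : p.Prime) (ho : orderOf (y ^ q) = p ^ a)
    (hka : k ≤ a) (hH : ∀ i : ℕ, i ≡ 1 [MOD p ^ k * q] → IsConj y (y ^ i))
    (P : G → G → Prop) (hc : ∀ g u v, P (g * u * g⁻¹) (g * v * g⁻¹) ↔ P u v)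
    (hz : ∀ u u' v v', Subgroup.zpowers u = Subgroup.zpowers u' →
      Subgroup.zpowers v = Subgroup.zpowers v' → (P u v ↔ P u' v'))
    (hD : ∀ z, IsConj y z → P y z → D ∣ BS p q a k y z)
    (X : Finset G) (hX : ∀ c, c ∈ X ↔ P y (c * y * c⁻¹)) :
    IsIntegral ℤ ((D : ℂ)⁻¹ * ((Nat.card (Subgroup.centralizer {y}) : ℂ)⁻¹ *
      ∑ c ∈ X, ρ.character (y * (c * y * c⁻¹)))) := by
  have hyz : ∀ c : G, IsConj y (c * y * c⁻¹) := fun c => isConj_iff.2 ⟨c, rfl⟩
  have hs : ∀ c : G, k ≤ th p q k y (c * y * c⁻¹) ∧ th p q k y (c * y * c⁻¹) ≤ a ∧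
      Mut (p ^ th p q k y (c * y * c⁻¹) * q) y (c * y * c⁻¹) := fun c =>
    th_spec ho (by rw [orderOf_of_isConj (hyz c), ho]) hka
  have hmaps : ∀ c ∈ X, th p q k y (c * y * c⁻¹) ∈ range (a + 1) := by
    intro c _
    rw [mem_range]
    have := (hs c).2.1
    omega
  rw [← Finset.sum_fiberwise_of_maps_to hmaps, Finset.mul_sum, Finset.mul_sum]
  apply IsIntegral.sum
  intro t _
  by_cases hkt : k ≤ t ∧ t ≤ a
  · apply level_part ρ hp ho hkt.1 hkt.2 hH
    · intro n hn r hr c hcX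
      rw [mem_filter, hX] at hcX ⊢
      refine ⟨(pair_stable hn hr P hc hz c).2 hcX.1, ?_⟩
      exact (pair_stable hn hr (fun u v => th p q k u v = t)
        (fun g u v => by rw [th_conj]) (fun u u' v v' h h' => by rw [th_congr h h']) c).2 hcX.2
    · intro c hcX
      rw [mem_filter] at hcX
      have h1 := (hs c).2.2
      rwa [hcX.2] at h1
    · intro c hcX
      rw [mem_filter, hX] at hcX
      have h1 := hD _ (hyz c) hcX.1
      unfold BS at h1
      rwa [hcX.2] at h1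
  · have h1 : X.filter (fun c => th p q k y (c * y * c⁻¹) = t) = ∅ := by
      rw [Finset.filter_eq_empty_iff]
      intro c _ h
      have := hs c
      omega
    rw [h1]
    simp [isIntegral_zero]

/-- The main lemma, all levels. -/
theorem main_lemma_all' [ρ.IsIrreducible] (hp : p.Prime) {a k : ℕ} {y : G}
    (ho : orderOf (y ^ q) = p ^ a) (hka : k ≤ a)
    (hH : ∀ i : ℕ, i ≡ 1 [MOD p ^ k * q] → IsConj y (y ^ i)) :
    IsIntegral ℤ (((p ^ (a - k) : ℕ) : ℂ)⁻¹ *
      ((clCard y : ℂ) * ρ.character y / (Module.finrank ℂ V : ℂ) * ρ.character y)) := by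
  classical
  have h1 := pairs_part (D := p ^ (a - k)) ρ hp ho hka hH (fun _ _ => True) (fun _ _ _ => Iff.rfl)
    (fun _ _ _ _ _ _ => Iff.rfl) (fun z hz _ => dvd_block hp hz ho hka hH) univ
    (fun c => by simp)
  rw [main_eq]
  exact h1

/-- Moving by an element of `NN q y` on the right changes the mean by an element of the radical. -/
theorem FF_congr_right {n k : ℕ} {y c r : G} (hN : Nat.card G = 2 ^ n * q) (hq : ¬ 2 ∣ q)
    (h1 : y ^ q ∈ NN (2 ^ k * q) (c * y * c⁻¹)) (h2 : (c * y * c⁻¹) ^ q ∈ NN (2 ^ k * q) y)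
    (hr : r ∈ NN q y) : Rad2 (FF ρ (2 ^ k * q) y (c * r) - FF ρ (2 ^ k * q) y c) := by
  classical
  obtain ⟨j, hj, hj'⟩ := id hr
  have hM := Mut_of_tight h1 h2
  have e1 : c * r * y * (c * r)⁻¹ = (c * y * c⁻¹) ^ j := by
    rw [conj_pow, ← hj']; group
  have e2 : Subgroup.zpowers ((c * y * c⁻¹) ^ j) = Subgroup.zpowers (c * y * c⁻¹) := by
    rw [← e1]
    have h3 : ∀ x, Subgroup.zpowers (c * x * c⁻¹)
        = (Subgroup.zpowers x).map (MulAut.conj c).toMonoidHom := by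
      intro x
      rw [MonoidHom.map_zpowers]
      rfl
    have h4 : c * r * y * (c * r)⁻¹ = c * (r * y * r⁻¹) * c⁻¹ := by group
    rw [h4, h3, h3, zpowers_conj_NN hr]
  have hM' : Mut (2 ^ k * q) y (c * r * y * (c * r)⁻¹) := by
    rw [e1]
    exact (Mut_congr rfl e2).2 hM
  have := tight_congr ρ hN hq h1 h2 hj
    (Subgroup.zpowers (y ^ (2 ^ k * q)) ⊔ Subgroup.zpowers ((c * y * c⁻¹) ^ (2 ^ k * q))) rfl
  rw [FF_eq' ρ hM' _ (by rw [e1, zpowers_pow_congr e2]), FF_eq' ρ hM _ rfl, e1]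
  exact this

/-- Representatives of double cosets. -/
theorem exists_rep {G : Type*} [Group G] (H1 H2 : Subgroup G) :
    ∃ rep : G → G, (∀ n ∈ H1, ∀ r ∈ H2, ∀ c, rep (n * c * r) = rep c) ∧
      ∀ c, ∃ n ∈ H1, ∃ r ∈ H2, rep c = n * c * r := by
  let _ : MulAction (H1 × H2) G := dAct H1 H2
  have hsm : ∀ (x : H1 × H2) (c : G), x • c = (x.1 : G) * c * (x.2 : G)⁻¹ := fun x c => rfl
  let s : Setoid G := MulAction.orbitRel (H1 × H2) G
  refine ⟨fun c => (Quotient.mk s c).out, ?_, ?_⟩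
  · intro n hn r hr c
    have h1 : (Quotient.mk s (n * c * r)) = Quotient.mk s c := by
      apply Quotient.sound
      refine ⟨(⟨n, hn⟩, ⟨r⁻¹, H2.inv_mem hr⟩), ?_⟩
      change n * c * r⁻¹⁻¹ = n * c * r
      rw [inv_inv]
    change (Quotient.mk s (n * c * r)).out = (Quotient.mk s c).out
    rw [h1]
  · intro c
    have h1 : s ((Quotient.mk s c).out) c := Quotient.exact (Quotient.out_eq (Quotient.mk s c))
    obtain ⟨x, hx⟩ := h1
    refine ⟨x.1, x.1.2, (x.2 : G)⁻¹, H2.inv_mem x.2.2, ?_⟩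
    exact hx.symm

/-- The tight pairs. -/
theorem tight_part {n a k : ℕ} {y : G} (hN : Nat.card G = 2 ^ n * q)
    (hq : ¬ 2 ∣ q) (ho : orderOf (y ^ q) = 2 ^ a) (hk1 : 1 ≤ k)
    (hka : k ≤ a) (hH : ∀ i : ℕ, i ≡ 1 [MOD 2 ^ k * q] → IsConj y (y ^ i))
    (hG : 2 ^ (a - k + 1) * Nat.card (Subgroup.centralizer {y}) ∣ Nat.card (NN q y))
    (X : Finset G) (hXm : ∀ c, c ∈ X ↔ ¬ 2 ^ (a - k + 1) ∣ BS 2 q a k y (c * y * c⁻¹)) :
    Rad2 (((2 ^ (a - k) : ℕ) : ℂ)⁻¹ * ((Nat.card (Subgroup.centralizer {y}) : ℂ)⁻¹ *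
      ∑ c ∈ X, ρ.character (y * (c * y * c⁻¹)))) := by
  classical
  have hyz : ∀ c : G, IsConj y (c * y * c⁻¹) := fun c => isConj_iff.2 ⟨c, rfl⟩
  have hst : ∀ m, ∀ n ∈ NN m y, ∀ r ∈ NN m y, ∀ c, n * c * r ∈ X ↔ c ∈ X := by
    intro m n hn r hr c
    rw [hXm, hXm]
    exact pair_stable hn hr (fun u v => ¬ 2 ^ (a - k + 1) ∣ BS 2 q a k u v)
      (fun g u v => by rw [BS_conj]) (fun u u' v v' h h' => by rw [BS_congr h h']) c
  have htight : ∀ c ∈ X, th 2 q k y (c * y * c⁻¹) = k ∧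
      ¬ 2 ∣ (NN (2 ^ k * q) (c * y * c⁻¹)).relIndex (NN (2 ^ k * q) y) ∧
      y ^ q ∈ NN (2 ^ k * q) (c * y * c⁻¹) ∧ (c * y * c⁻¹) ^ q ∈ NN (2 ^ k * q) y := by
    intro c hc
    exact tight Nat.prime_two (hyz c) ho hk1 hka hH ((hXm c).1 hc)
  have hMut : ∀ c ∈ X, Mut (2 ^ k * q) y (c * y * c⁻¹) := by
    intro c hc
    obtain ⟨_, _, h1, h2⟩ := htight c hc
    exact Mut_of_tight h1 h2
  rw [FF_sum ρ hH X (fun n hn r hr c hc => (hst _ n hn r hr c).2 hc)]
  have hC : (Nat.card (Subgroup.centralizer {y}) : ℂ) ≠ 0 := by exact_mod_cast Nat.card_pos.ne'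
  have h2e : ((2 : ℂ) ^ (a - k)) ≠ 0 := pow_ne_zero _ two_ne_zero
  have hmq : NN (2 ^ k * q) y ≤ NN q y := NN_mono (dvd_mul_left q _) y
  obtain ⟨rep, hrep1, hrep2⟩ := exists_rep (NN (2 ^ k * q) y) (NN q y)
  have hrepX : ∀ c, rep c ∈ X ↔ c ∈ X := by
    intro c
    obtain ⟨n, hn, r, hr, h⟩ := hrep2 c
    rw [h]
    exact hst q n (hmq hn) r hr c
  let A : G → ℂ := fun c => if c ∈ X then FF ρ (2 ^ k * q) y (rep c) else 0
  let B : G → ℂ := fun c =>
    if c ∈ X then FF ρ (2 ^ k * q) y c - FF ρ (2 ^ k * q) y (rep c) else 0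
  have hsum : ∑ c ∈ X, FF ρ (2 ^ k * q) y c = ∑ c, A c + ∑ c, B c := by
    rw [← Finset.sum_add_distrib]
    have h1 : ∀ c, A c + B c = if c ∈ X then FF ρ (2 ^ k * q) y c else 0 := by
      intro c
      simp only [A, B]
      by_cases hc : c ∈ X
      · rw [if_pos hc, if_pos hc, if_pos hc]; ring
      · rw [if_neg hc, if_neg hc, if_neg hc]; ring
    rw [Finset.sum_congr rfl fun c _ => h1 c, ← Finset.sum_filter]
    congr 1
    ext c
    simp
  rw [hsum, mul_add, mul_add]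
  apply rad2_add
  · rw [← mul_assoc]
    change _ ∈ Rad2S
    apply sum_mem_of_double Rad2S (NN (2 ^ k * q) y) (NN q y)
      (fun c => NN q (c * y * c⁻¹)) (fun c n => mem_NN_conj) A
    · intro n hn r hr c
      simp only [A]
      rw [hrep1 n hn r hr c]
      by_cases hc : c ∈ X
      · rw [if_pos hc, if_pos ((hst q n (hmq hn) r hr c).2 hc)]
      · rw [if_neg hc, if_neg (fun h => hc ((hst q n (hmq hn) r hr c).1 h))]
    · intro c
      simp only [A]
      by_cases hc : c ∈ X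
      · rw [if_pos hc]
        obtain ⟨w, hw⟩ := hG
        set R := (NN q (c * y * c⁻¹)).relIndex (NN (2 ^ k * q) y)
        have h6 : ((2 ^ (a - k) : ℕ) : ℂ)⁻¹ * (Nat.card (Subgroup.centralizer {y}) : ℂ)⁻¹ *
            ((R * Nat.card (NN q y) : ℕ) : ℂ) = ((2 * (R * w) : ℕ) : ℂ) := by
          rw [hw]
          push_cast
          rw [pow_succ]
          field_simp
        rw [h6]
        exact rad2_of_dvd (dvd_mul_right 2 _) (FF_int ρ (hMut _ ((hrepX c).2 hc)))
      · rw [if_neg hc, mul_zero]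
        exact rad2_zero
  · rw [← mul_assoc]
    change _ ∈ Rad2S
    apply sum_mem_of_double Rad2S (NN (2 ^ k * q) y) (NN (2 ^ k * q) y)
      (fun c => NN (2 ^ k * q) (c * y * c⁻¹)) (fun c n => mem_NN_conj) B
    · intro n hn r hr c
      simp only [B]
      rw [hrep1 n hn r (hmq hr) c, FF_right ρ hr, FF_left ρ hn]
      by_cases hc : c ∈ X
      · rw [if_pos hc, if_pos ((hst _ n hn r hr c).2 hc)]
      · rw [if_neg hc, if_neg (fun h => hc ((hst _ n hn r hr c).1 h))]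
    · intro c
      simp only [B]
      by_cases hc : c ∈ X
      · rw [if_pos hc, card_NN Nat.prime_two ho le_rfl hka hH]
        set R := (NN (2 ^ k * q) (c * y * c⁻¹)).relIndex (NN (2 ^ k * q) y)
        have h6 : ((2 ^ (a - k) : ℕ) : ℂ)⁻¹ * (Nat.card (Subgroup.centralizer {y}) : ℂ)⁻¹ *
            ((R * (2 ^ (a - k) * Nat.card (Subgroup.centralizer {y})) : ℕ) : ℂ) = (R : ℂ) := by
          push_cast
          field_simp
        rw [h6]
        apply rad2_mul (isIntegral_nat R)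
        obtain ⟨n, hn, r, hr, h⟩ := hrep2 c
        obtain ⟨_, _, t1, t2⟩ := htight c hc
        rw [h, mul_assoc, FF_left ρ hn, ← neg_sub]
        exact rad2_neg (FF_congr_right ρ hN hq t1 t2 hr)
      · rw [if_neg hc, mul_zero]
        exact rad2_zero

/-- Strict gain for the prime two, in terms of the order of `NN q y`. -/
theorem main_lemma_two' [ρ.IsIrreducible] {n a k : ℕ} {y : G} (hN : Nat.card G = 2 ^ n * q)
    (hq : ¬ 2 ∣ q) (ho : orderOf (y ^ q) = 2 ^ a) (hk1 : 1 ≤ k)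
    (hka : k ≤ a) (hH : ∀ i : ℕ, i ≡ 1 [MOD 2 ^ k * q] → IsConj y (y ^ i))
    (hG : 2 ^ (a - k + 1) * Nat.card (Subgroup.centralizer {y}) ∣ Nat.card (NN q y)) :
    Rad2 (((2 ^ (a - k) : ℕ) : ℂ)⁻¹ *
      ((clCard y : ℂ) * ρ.character y / (Module.finrank ℂ V : ℂ) * ρ.character y)) := by
  classical
  set X : Finset G := univ.filter (fun c => 2 ^ (a - k + 1) ∣ BS 2 q a k y (c * y * c⁻¹)) with hX
  set Y : Finset G := univ.filter (fun c => ¬ 2 ^ (a - k + 1) ∣ BS 2 q a k y (c * y * c⁻¹)) with hY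
  have h1 := tight_part ρ hN hq ho hk1 hka hH hG Y (fun c => by rw [hY, mem_filter]; simp)
  have h2 := pairs_part (D := 2 ^ (a - k + 1)) ρ Nat.prime_two ho hka hH
    (fun u v => 2 ^ (a - k + 1) ∣ BS 2 q a k u v) (fun g u v => by rw [BS_conj])
    (fun u u' v v' h h' => by rw [BS_congr h h']) (fun z _ h => h) X
    (fun c => by rw [hX, mem_filter]; simp)
  rw [main_eq]
  have h3 : ∑ c ∈ X, ρ.character (y * (c * y * c⁻¹)) + ∑ c ∈ Y, ρ.character (y * (c * y * c⁻¹))
      = ∑ c : G, ρ.character (y * (c * y * c⁻¹)) :=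
    Finset.sum_filter_add_sum_filter_not univ _ _
  rw [← h3, mul_add, mul_add]
  apply rad2_add
  · have h4 := rad2_of_dvd (dvd_refl 2) h2
    have h5 : ((2 : ℕ) : ℂ) * (((2 ^ (a - k + 1) : ℕ) : ℂ)⁻¹ *
        ((Nat.card (Subgroup.centralizer {y}) : ℂ)⁻¹ *
        ∑ c ∈ X, ρ.character (y * (c * y * c⁻¹)))) =
        ((2 ^ (a - k) : ℕ) : ℂ)⁻¹ * ((Nat.card (Subgroup.centralizer {y}) : ℂ)⁻¹ *
        ∑ c ∈ X, ρ.character (y * (c * y * c⁻¹))) := by
      rw [← mul_assoc]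
      congr 1
      push_cast
      rw [pow_succ]
      field_simp
    rw [h5] at h4
    exact h4
  · exact h1

end means

end Pool.Agent.H57.Wilde.MB2

namespace Pool.Agent.H57.Wilde

open Finset Representation Pool.Agent.H42.Wilde

/-- Strict gain for the prime two. -/
theorem main_lemma_two {G V : Type*} [Group G] [Fintype G] [AddCommGroup V] [Module ℂ V]
    [FiniteDimensional ℂ V] (ρ : Representation ℂ G V) {q : ℕ} [ρ.IsIrreducible] {n : ℕ}
    (hN : Nat.card G = 2 ^ n * q)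
    (hq : ¬ 2 ∣ q) (hqN : q ∣ Nat.card G) {a k : ℕ} {y : G} (ho : orderOf (y ^ q) = 2 ^ a)
    (hk1 : 1 ≤ k) (hka : k ≤ a) (hH : ∀ i : ℕ, i ≡ 1 [MOD 2 ^ k * q] → IsConj y (y ^ i))
    (hG : 2 ^ (n - a) * 2 ^ (a - k + 1) ∣ Nat.card (Gam q hqN y)) :
    ∃ M : ℕ, IsIntegral ℤ ((((2 ^ (a - k) : ℕ) : ℂ)⁻¹ *
      ((clCard y : ℂ) * ρ.character y / (Module.finrank ℂ V : ℂ) * ρ.character y)) ^ M / 2) := by
  refine (MB2.main_lemma_two' ρ hN hq ho hk1 hka hH ?_).2
  have h1 := card_Gam_mul hN hq hqN (hk1.trans hka) ho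
  have h2 := Nat.mul_dvd_mul_right hG (Nat.card (Subgroup.centralizer {y}))
  rw [h1, mul_assoc] at h2
  exact Nat.dvd_of_mul_dvd_mul_left (by positivity) h2

end Pool.Agent.H57.Wilde
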