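import Mathlib
import Pool.Agent.H57.Wilde.Defs

/-!
A union of full sections with an integral normalised sum contains no nonvanishing point.
-/

namespace Pool.Agent.H57.Wilde

open Finset Representation Pool.Agent.H42.Wilde

variable {G V : Type*} [Group G] [Fintype G] [AddCommGroup V] [Module ℂ V] [FiniteDimensional ℂ V]
  (ρ : Representation ℂ G V)

theorem no_integral_sum [ρ.IsIrreducible] (U : Finset G) (h1 : (1 : G) ∉ U)
    (hUJ : ∀ j : (ZMod (Nat.card G))ˣ, ∀ y ∈ U, pw j y ∈ U)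
    (hint : IsIntegral ℤ ((Nat.card G : ℂ)⁻¹ * ∑ y ∈ U, ρ.character y * ρ.character y⁻¹)) :
    ∀ x ∈ U, ρ.character x = 0 := by
  classical
  intro x hxU
  by_contra hx
  have hN0 : Nat.card G ≠ 0 := Nat.card_pos.ne'
  have hNe : NeZero (Nat.card G) := ⟨hN0⟩
  have hNpos : (0 : ℝ) < (Nat.card G : ℝ) := by exact_mod_cast Nat.card_pos
  let f : G → ℝ := fun y => Complex.normSq (ρ.character y)
  have hf0 : ∀ y, 0 ≤ f y := fun y => Complex.normSq_nonneg _
  let A : (ZMod (Nat.card G))ˣ → ℂ := fun j =>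
    ((((Nat.card G : ℚ)⁻¹ : ℚ)) : ℂ) *
      ∑ y ∈ U, ρ.character (y ^ (j : ZMod (Nat.card G)).val) *
        ρ.character ((y⁻¹) ^ (j : ZMod (Nat.card G)).val)
  have hA : IsCyc (Nat.card G) A :=
    (IsCyc.const _).mul (IsCyc.sum _ _ (fun y _ =>
      (IsCyc.char ρ y pow_card_eq_one').mul (IsCyc.char ρ y⁻¹ pow_card_eq_one')))
  let r : (ZMod (Nat.card G))ˣ → ℝ := fun j => (Nat.card G : ℝ)⁻¹ * ∑ y ∈ U, f (pw j y)
  have hr : ∀ j, A j = (r j : ℂ) := by
    intro j
    simp only [A, r]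
    push_cast
    congr 1
    apply Finset.sum_congr rfl
    intro y _
    rw [inv_pow, char_mul_char_inv]
    rfl
  have hr0 : ∀ j, 0 ≤ r j := fun j =>
    mul_nonneg (by positivity) (Finset.sum_nonneg (fun y _ => hf0 _))
  have hrj : ∀ j, r j = (Nat.card G : ℝ)⁻¹ * ∑ y ∈ U, f y := by
    intro j
    simp only [r]
    congr 1
    refine Finset.sum_bij (fun y _ => pw j y) (fun y hy => hUJ j y hy) ?_ ?_ (fun y _ => rfl)
    · intro y _ y' _ h
      exact (pwEquiv j).injective h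
    · intro y hy
      refine ⟨pw j⁻¹ y, hUJ j⁻¹ y hy, ?_⟩
      rw [← pw_mul, mul_inv_cancel, pw_one]
  have hA1 : IsIntegral ℤ (A 1) := by
    rw [hr, hrj]
    have h2 : (((Nat.card G : ℝ)⁻¹ * ∑ y ∈ U, f y : ℝ) : ℂ) =
        (Nat.card G : ℂ)⁻¹ * ∑ y ∈ U, ρ.character y * ρ.character y⁻¹ := by
      push_cast
      congr 1
      apply Finset.sum_congr rfl
      intro y _
      rw [char_mul_char_inv]
    rw [h2]
    exact hint
  have hpos : 0 < ∑ y ∈ U, f y := by
    apply Finset.sum_pos'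
    · intro y _
      exact hf0 y
    · exact ⟨x, hxU, Complex.normSq_pos.mpr hx⟩
  have hA1' : A 1 ≠ 0 := by
    rw [hr, hrj]
    have h2 : 0 < (Nat.card G : ℝ)⁻¹ * ∑ y ∈ U, f y := mul_pos (by positivity) hpos
    exact_mod_cast h2.ne'
  have h2 := hA.totient_le r hr hr0 hA1 hA1'
  simp only [hrj] at h2
  rw [Finset.sum_const, Finset.card_univ, ZMod.card_units_eq_totient, nsmul_eq_mul] at h2
  have hφ : (0 : ℝ) < ((Nat.card G).totient : ℝ) := by
    exact_mod_cast Nat.totient_pos.mpr Nat.card_pos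
  have h3 : 1 ≤ (Nat.card G : ℝ)⁻¹ * ∑ y ∈ U, f y := by
    by_contra hlt
    push Not at hlt
    have h4 := mul_lt_mul_of_pos_left hlt hφ
    rw [mul_one] at h4
    linarith
  have h4 : ∑ y, f y = (Nat.card G : ℝ) := by
    have h5 := sum_char_mul_inv ρ
    simp_rw [char_mul_char_inv] at h5
    exact_mod_cast h5
  have h5 : 0 < f 1 := by
    apply Complex.normSq_pos.mpr
    rw [char_one]
    exact_mod_cast (finrank_pos_of_irreducible ρ).ne'
  have h6 : ∑ y ∈ U, f y < ∑ y, f y := by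
    apply Finset.sum_lt_sum_of_subset (Finset.subset_univ U) (Finset.mem_univ (1 : G)) h1 h5
    intro y _ _
    exact hf0 y
  rw [h4] at h6
  have h7 : (Nat.card G : ℝ)⁻¹ * ∑ y ∈ U, f y < 1 := by
    rw [inv_mul_lt_iff₀ hNpos, mul_one]
    exact h6
  linarith

end Pool.Agent.H57.Wilde
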