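import Mathlib
import Pool.Agent.H57.Wilde.Defs

/-!
The trace of an algebraic integer of a cyclotomic field down to the part prime to `p`.
-/

namespace Pool.Agent.H57.Wilde

open Finset Pool.Agent.H42.Wilde

theorem tr_poly {N : ℕ} [NeZero N] {a : (ZMod N)ˣ → ℂ} (ha : IsCyc N a)
    (hint : IsIntegral ℤ (a 1)) :
    ∃ P : Polynomial ℤ, ∀ j : (ZMod N)ˣ, a j = Polynomial.aeval (zet N ^ (j : ZMod N).val) P := by
  obtain ⟨α, hα⟩ := ha
  have h1 : emb N α = a 1 := by
    have := hα 1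
    rw [map_one] at this
    exact this
  have hint' : IsIntegral ℤ α := by
    rw [← h1] at hint
    exact (isIntegral_algHom_iff ((emb N).restrictScalars ℤ) (emb N).injective).mp hint
  have h2 := IsCyclotomicExtension.Rat.isIntegralClosure_adjoin_singleton
    (IsCyclotomicExtension.zeta_spec N ℚ (CyclotomicField N ℚ))
  obtain ⟨y, hy⟩ := h2.isIntegral_iff.1 hint'
  obtain ⟨P, hP⟩ : ∃ P : Polynomial ℤ,
      Polynomial.aeval (IsCyclotomicExtension.zeta N ℚ (CyclotomicField N ℚ)) P =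
        (y : CyclotomicField N ℚ) := by
    have h3 : ∀ w : CyclotomicField N ℚ, w ∈ Algebra.adjoin ℤ
        {IsCyclotomicExtension.zeta N ℚ (CyclotomicField N ℚ)} → ∃ P : Polynomial ℤ,
        Polynomial.aeval (IsCyclotomicExtension.zeta N ℚ (CyclotomicField N ℚ)) P = w := by
      intro w hw
      rw [Algebra.adjoin_singleton_eq_range_aeval] at hw
      exact hw
    exact h3 _ y.2
  refine ⟨P, fun j => ?_⟩
  have h4 := hα ((jj N).symm j)
  rw [MulEquiv.apply_symm_apply] at h4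
  have h5 : Polynomial.aeval (IsCyclotomicExtension.zeta N ℚ (CyclotomicField N ℚ)) P = α := by
    rw [← hy]; exact hP
  have h6 := jj_spec N ((jj N).symm j)
  rw [MulEquiv.apply_symm_apply] at h6
  rw [← h4, ← h5]
  have h8 := Polynomial.aeval_algHom_apply (R := ℤ)
    (((emb N).comp (((jj N).symm j : CyclotomicField N ℚ ≃ₐ[ℚ] CyclotomicField N ℚ) :
      CyclotomicField N ℚ →ₐ[ℚ] CyclotomicField N ℚ)).restrictScalars ℤ)
    (IsCyclotomicExtension.zeta N ℚ (CyclotomicField N ℚ)) P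
  have h9 : (((emb N).comp (((jj N).symm j : CyclotomicField N ℚ ≃ₐ[ℚ] CyclotomicField N ℚ) :
      CyclotomicField N ℚ →ₐ[ℚ] CyclotomicField N ℚ)).restrictScalars ℤ)
    (IsCyclotomicExtension.zeta N ℚ (CyclotomicField N ℚ)) = zet N ^ (j : ZMod N).val := by
    show emb N (((jj N).symm j) (IsCyclotomicExtension.zeta N ℚ (CyclotomicField N ℚ))) = _
    rw [h6, map_pow]
    rfl
  rw [h9] at h8
  exact h8.symm

theorem tr_geom {τ : ℂ} {k : ℕ} (hk : 0 < k) (hτ : τ ^ k = 1) :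
    IsIntegral ℤ (((k : ℕ) : ℂ)⁻¹ * ∑ t ∈ range k, τ ^ t) := by
  by_cases h : τ = 1
  · subst h
    have hk' : ((k : ℕ) : ℂ) ≠ 0 := by exact_mod_cast hk.ne'
    simp only [one_pow, sum_const, card_range, nsmul_eq_mul, mul_one]
    rw [inv_mul_cancel₀ hk']
    exact isIntegral_one
  · have h1 : (∑ t ∈ range k, τ ^ t) = 0 := by
      rw [geom_sum_eq h, hτ, sub_self, zero_div]
    rw [h1, mul_zero]
    exact isIntegral_zero

theorem tr_one {N n p q : ℕ} [NeZero N] (hp : p.Prime) (hN : N = p ^ n * q) (hn : 1 ≤ n)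
    (hqN : q ∣ N) (J : Finset (ZMod N)ˣ) (hJ : ∀ j, j ∈ J ↔ j ∈ JJ N q hqN)
    {ω : ℂ} (hω : ω ^ N = 1) :
    IsIntegral ℤ (((p ^ (n - 1) : ℕ) : ℂ)⁻¹ * ∑ j ∈ J, ω ^ (j : ZMod N).val) := by
  classical
  have hN0 : 0 < N := NeZero.pos N
  have hq0 : 0 < q := by
    rcases Nat.eq_zero_or_pos q with h | h
    · rw [h, mul_zero] at hN; omega
    · exact h
  have hpq0 : 0 < p * q := Nat.mul_pos hp.pos hq0
  have hNe : N = p * q * p ^ (n - 1) := by
    obtain ⟨m, rfl⟩ : ∃ m, n = m + 1 := ⟨n - 1, by omega⟩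
    rw [hN, Nat.add_sub_cancel, pow_succ]; ring
  have hωi : IsIntegral ℤ ω := ⟨Polynomial.X ^ N - 1, Polynomial.monic_X_pow_sub_C 1 hN0.ne',
    by simp [hω]⟩
  have hmem : ∀ j : (ZMod N)ˣ, j ∈ J ↔ (j : ZMod N).val ≡ 1 [MOD q] := by
    intro j
    rw [hJ, JJ, MonoidHom.mem_ker, Units.ext_iff, ZMod.unitsMap_val, Units.val_one,
      ← ZMod.natCast_eq_natCast_iff, ZMod.natCast_val, Nat.cast_one]
  set R : Finset ℕ := (range (p * q)).filter (fun r => r.Coprime (p * q) ∧ r ≡ 1 [MOD q]) with hR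
  have hsum : ∑ j ∈ J, ω ^ (j : ZMod N).val =
      ∑ x ∈ R ×ˢ range (p ^ (n - 1)), ω ^ (x.1 + p * q * x.2) := by
    have hcop : ∀ x : ℕ × ℕ, x ∈ R ×ˢ range (p ^ (n - 1)) →
        (x.1 + p * q * x.2).Coprime N := by
      intro x hx
      rw [mem_product, hR, mem_filter] at hx
      obtain ⟨⟨_, h1, _⟩, _⟩ := hx
      have h2 : (x.1 + p * q * x.2).Coprime (p * q) := by
        rw [Nat.coprime_add_mul_left_left]
        exact h1
      have h3 := Nat.Coprime.coprime_mul_right_right h2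
      have h4 := Nat.Coprime.coprime_mul_left_right h2
      rw [hN]
      exact Nat.Coprime.mul_right (Nat.Coprime.pow_right n h3) h4
    have hval : ∀ x : ℕ × ℕ, ∀ hx : x ∈ R ×ˢ range (p ^ (n - 1)),
        ((ZMod.unitOfCoprime (x.1 + p * q * x.2) (hcop x hx) : (ZMod N)ˣ) : ZMod N).val =
          x.1 + p * q * x.2 := by
      intro x hx
      rw [ZMod.coe_unitOfCoprime, ZMod.val_natCast]
      apply Nat.mod_eq_of_lt
      rw [mem_product, hR, mem_filter, mem_range, mem_range] at hx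
      obtain ⟨⟨h1, _⟩, h2⟩ := hx
      calc x.1 + p * q * x.2 < p * q + p * q * x.2 := by omega
        _ = p * q * (x.2 + 1) := by ring
        _ ≤ p * q * p ^ (n - 1) := Nat.mul_le_mul_left _ h2
        _ = N := hNe.symm
    refine Finset.sum_bij' (fun j _ => ((j : ZMod N).val % (p * q), (j : ZMod N).val / (p * q)))
      (fun x hx => ZMod.unitOfCoprime (x.1 + p * q * x.2) (hcop x hx)) ?_ ?_ ?_ ?_ ?_
    · intro j hj
      rw [hmem] at hj
      rw [mem_product, hR, mem_filter, mem_range, mem_range]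
      have h1 := ZMod.val_coe_unit_coprime j
      have h2 : (j : ZMod N).val.Coprime (p * q) :=
        Nat.Coprime.coprime_dvd_right (Dvd.intro _ hNe.symm) h1
      refine ⟨⟨Nat.mod_lt _ hpq0, ?_, ?_⟩, ?_⟩
      · rw [Nat.Coprime, ← Nat.gcd_rec, Nat.gcd_comm]
        exact h2
      · refine Nat.ModEq.trans ?_ hj
        exact (Nat.mod_modEq _ _).of_mul_left p
      · rw [Nat.div_lt_iff_lt_mul hpq0, mul_comm, ← hNe]
        exact ZMod.val_lt _
    · intro x hx
      rw [hmem, hval x hx]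
      rw [mem_product, hR, mem_filter] at hx
      obtain ⟨⟨_, _, h1⟩, _⟩ := hx
      have h2 : x.1 + p * q * x.2 ≡ x.1 [MOD q] := by
        have h3 : p * q * x.2 ≡ 0 [MOD q] :=
          (Nat.modEq_zero_iff_dvd).2 ⟨p * x.2, by ring⟩
        simpa using h3.add_left x.1
      exact h2.trans h1
    · intro j hj
      apply Units.ext
      rw [ZMod.coe_unitOfCoprime, Nat.mod_add_div, ZMod.natCast_zmod_val]
    · intro x hx
      rw [hval x hx]
      rw [mem_product, hR, mem_filter, mem_range] at hx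
      obtain ⟨⟨h1, _⟩, _⟩ := hx
      apply Prod.ext
      · show (x.1 + p * q * x.2) % (p * q) = x.1
        rw [Nat.add_mul_mod_self_left, Nat.mod_eq_of_lt h1]
      · show (x.1 + p * q * x.2) / (p * q) = x.2
        rw [Nat.add_mul_div_left _ _ hpq0, Nat.div_eq_of_lt h1, zero_add]
    · intro j hj
      show ω ^ (j : ZMod N).val = ω ^ ((j : ZMod N).val % (p * q) + p * q * ((j : ZMod N).val / (p * q)))
      rw [Nat.mod_add_div]
  rw [hsum, sum_product, mul_sum]
  refine IsIntegral.sum _ (fun r _ => ?_)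
  have h1 : ∑ y ∈ range (p ^ (n - 1)), ω ^ (r + p * q * y) =
      ω ^ r * ∑ y ∈ range (p ^ (n - 1)), (ω ^ (p * q)) ^ y := by
    rw [mul_sum]
    exact sum_congr rfl (fun y _ => by rw [pow_add, pow_mul])
  show IsIntegral ℤ (_ * ∑ y ∈ range (p ^ (n - 1)), ω ^ (r + p * q * y))
  rw [h1, mul_left_comm]
  exact (hωi.pow r).mul (tr_geom (pow_pos hp.pos _) (by rw [← pow_mul, ← hNe, hω]))

theorem trace_gain {N n p q : ℕ} [NeZero N] (hp : p.Prime) (hN : N = p ^ n * q) (hn : 1 ≤ n)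
    (hq : ¬ p ∣ q) (hqN : q ∣ N) (J : Finset (ZMod N)ˣ) (hJ : ∀ j, j ∈ J ↔ j ∈ JJ N q hqN)
    {a : (ZMod N)ˣ → ℂ} (ha : IsCyc N a) (hint : IsIntegral ℤ (a 1)) :
    IsIntegral ℤ (((p ^ (n - 1) : ℕ) : ℂ)⁻¹ * ∑ j ∈ J, a j) := by
  obtain ⟨P, hP⟩ := tr_poly ha hint
  have h1 : ∑ j ∈ J, a j = ∑ m ∈ P.support, ((P.coeff m : ℤ) : ℂ) *
      ∑ j ∈ J, (zet N ^ m) ^ (j : ZMod N).val := by
    have h2 : ∀ j ∈ J, a j = ∑ m ∈ P.support, ((P.coeff m : ℤ) : ℂ) *
        (zet N ^ m) ^ (j : ZMod N).val := by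
      intro j _
      rw [hP j, Polynomial.aeval_def, Polynomial.eval₂_eq_sum, Polynomial.sum_def]
      refine sum_congr rfl (fun m _ => ?_)
      rw [← pow_mul, ← pow_mul, mul_comm m]
      rfl
    rw [sum_congr rfl h2, sum_comm]
    exact sum_congr rfl (fun m _ => by rw [mul_sum])
  rw [h1, mul_sum]
  refine IsIntegral.sum _ (fun m _ => ?_)
  rw [mul_left_comm]
  refine IsIntegral.mul ?_ ?_
  · exact isIntegral_algebraMap (R := ℤ) (x := P.coeff m)
  · have _ := hq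
    refine tr_one hp hN hn hqN J hJ ?_
    rw [← pow_mul, mul_comm, pow_mul, (zet_prim N).pow_eq_one, one_pow]

end Pool.Agent.H57.Wilde
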