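import Mathlib
import Pool.Agent.H57.Wilde.TR

/-!
The sum of `χ(y) χ(y⁻¹)` over a union of full sections, at the prime `p`: orbits of the group
of pairs (conjugation, exponent congruent to one) on the group.
-/

namespace Pool.Agent.H57.Wilde

open Finset Representation Pool.Agent.H42.Wilde

section act

variable {G : Type*} [Group G]

theorem pw_conj (j : (ZMod (Nat.card G))ˣ) (c y : G) :
    pw j (c * y * c⁻¹) = c * pw j y * c⁻¹ := by
  unfold pw
  rw [conj_pow]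

variable [Finite G]

/-- Conjugation together with the exponents of a group of units, acting on `G`. -/
@[reducible] noncomputable def actK (J : Subgroup (ZMod (Nat.card G))ˣ) :
    MulAction (ConjAct G × J) G where
  smul s y := ConjAct.ofConjAct s.1 * pw (s.2 : (ZMod (Nat.card G))ˣ) y *
    (ConjAct.ofConjAct s.1)⁻¹
  one_smul y := by
    change 1 * pw 1 y * 1⁻¹ = y
    rw [pw_one]
    group
  mul_smul s t y := by
    change (ConjAct.ofConjAct s.1 * ConjAct.ofConjAct t.1) *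
        pw ((s.2 : (ZMod (Nat.card G))ˣ) * (t.2 : (ZMod (Nat.card G))ˣ)) y *
        (ConjAct.ofConjAct s.1 * ConjAct.ofConjAct t.1)⁻¹ =
      ConjAct.ofConjAct s.1 * pw (s.2 : (ZMod (Nat.card G))ˣ)
        (ConjAct.ofConjAct t.1 * pw (t.2 : (ZMod (Nat.card G))ˣ) y *
          (ConjAct.ofConjAct t.1)⁻¹) * (ConjAct.ofConjAct s.1)⁻¹
    rw [pw_conj, pw_mul]
    group

/-- The size of an orbit of this action. -/
theorem card_orbit_actK (q : ℕ) (hqN : q ∣ Nat.card G) (y : G) :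
    letI := actK (JJ (Nat.card G) q hqN)
    Nat.card (MulAction.orbit (ConjAct G × JJ (Nat.card G) q hqN) y) *
      (Nat.card (Subgroup.centralizer {y}) * Nat.card (Gam q hqN y)) =
      Nat.card G * Nat.card (JJ (Nat.card G) q hqN) := by
  let _ := actK (JJ (Nat.card G) q hqN)
  have hNe : NeZero (Nat.card G) := ⟨Nat.card_pos.ne'⟩
  have hsmul : ∀ (s : ConjAct G × JJ (Nat.card G) q hqN) (x : G), s • x =
      ConjAct.ofConjAct s.1 * pw (s.2 : (ZMod (Nat.card G))ˣ) x *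
        (ConjAct.ofConjAct s.1)⁻¹ := fun s x => rfl
  let S := MulAction.stabilizer (ConjAct G × JJ (Nat.card G) q hqN) y
  have hS : ∀ s : ConjAct G × JJ (Nat.card G) q hqN, s ∈ S ↔
      ConjAct.ofConjAct s.1 * pw (s.2 : (ZMod (Nat.card G))ˣ) y *
        (ConjAct.ofConjAct s.1)⁻¹ = y := fun s => MulAction.mem_stabilizer_iff
  have h1 : Nat.card (MulAction.orbit (ConjAct G × JJ (Nat.card G) q hqN) y) * Nat.card S =
      Nat.card G * Nat.card (JJ (Nat.card G) q hqN) := by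
    have h2 := MulAction.index_stabilizer (ConjAct G × JJ (Nat.card G) q hqN) y
    have h3 := Subgroup.card_mul_index S
    rw [Nat.card_coe_set_eq, ← h2, mul_comm, h3, Nat.card_prod]
    rfl
  let f : S →* (ZMod (Nat.card G))ˣ :=
    (Subgroup.subtype _).comp ((MonoidHom.snd _ _).comp (Subgroup.subtype S))
  have hf : ∀ s : S, f s = (((s : ConjAct G × JJ (Nat.card G) q hqN).2 :
      JJ (Nat.card G) q hqN) : (ZMod (Nat.card G))ˣ) := fun s => rfl
  have hrange : f.range = Gam q hqN y := by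
    ext j
    constructor
    · rintro ⟨s, rfl⟩
      refine ⟨(s : ConjAct G × JJ (Nat.card G) q hqN).2.2, ?_⟩
      have h2 := (hS s.1).mp s.2
      exact (isConj_iff.mpr ⟨_, h2⟩ : IsConj (pw _ y) y).symm
    · rintro ⟨hj, hc⟩
      obtain ⟨c, hc'⟩ := isConj_iff.mp hc.symm
      exact ⟨⟨(ConjAct.toConjAct c, ⟨j, hj⟩), (hS _).mpr hc'⟩, rfl⟩
  have hker : Nat.card f.ker = Nat.card (Subgroup.centralizer {y}) := by
    apply Nat.card_congr
    refine ⟨fun s => ⟨ConjAct.ofConjAct ((s : S) : ConjAct G × JJ (Nat.card G) q hqN).1, ?_⟩,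
      fun c => ⟨⟨(ConjAct.toConjAct (c : G), 1), ?_⟩, ?_⟩, ?_, ?_⟩
    · have h2 := (hS _).mp (s : S).2
      have h3 : (((((s : S) : ConjAct G × JJ (Nat.card G) q hqN).2 :
          JJ (Nat.card G) q hqN)) : (ZMod (Nat.card G))ˣ) = 1 := s.2
      rw [h3, pw_one] at h2
      rw [Subgroup.mem_centralizer_singleton_iff]
      exact (mul_inv_eq_iff_eq_mul.mp h2)
    · have h2 := Subgroup.mem_centralizer_singleton_iff.mp c.2
      rw [hS]
      change (c : G) * pw 1 y * (c : G)⁻¹ = y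
      rw [pw_one]
      exact mul_inv_eq_iff_eq_mul.mpr h2
    · rfl
    · intro s
      apply Subtype.ext
      apply Subtype.ext
      refine Prod.ext rfl ?_
      apply Subtype.ext
      exact s.2.symm
    · intro c
      rfl
  have h4 : Nat.card S = Nat.card (Subgroup.centralizer {y}) * Nat.card (Gam q hqN y) := by
    rw [← Subgroup.card_mul_index f.ker, Subgroup.index_ker, hrange, hker]
  rw [← h4]
  exact h1

end act

section

variable {G V : Type*} [Group G] [Fintype G] [AddCommGroup V] [Module ℂ V] [FiniteDimensional ℂ V]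
  (ρ : Representation ℂ G V) {p n q : ℕ}

/-- The sum of the values at the powers of `y`. -/
theorem local_integral (hp : p.Prime) (hN : Nat.card G = p ^ n * q) (hn : 1 ≤ n)
    (hq : ¬ p ∣ q) (hqN : q ∣ Nat.card G) (J : Finset (ZMod (Nat.card G))ˣ)
    (hJ : ∀ j, j ∈ J ↔ j ∈ JJ (Nat.card G) q hqN) (y : G) (κ w : ℕ)
    (h : IsIntegral ℤ ((κ : ℂ) * ((p ^ (n - 1) : ℕ) : ℂ) / ((p ^ w : ℕ) : ℂ) *
      (ρ.character y * ρ.character y⁻¹))) :
    IsIntegral ℤ ((κ : ℂ) * ((p ^ w : ℕ) : ℂ)⁻¹ *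
      ∑ j ∈ J, ρ.character (pw j y) * ρ.character (pw j y)⁻¹) := by
  have hNe : NeZero (Nat.card G) := ⟨Nat.card_pos.ne'⟩
  let a : (ZMod (Nat.card G))ˣ → ℂ := fun j =>
    ((((κ : ℚ) * ((p ^ (n - 1) : ℕ) : ℚ) / ((p ^ w : ℕ) : ℚ)) : ℚ) : ℂ) *
      (ρ.character (y ^ (j : ZMod (Nat.card G)).val) *
        ρ.character ((y⁻¹) ^ (j : ZMod (Nat.card G)).val))
  have ha : IsCyc (Nat.card G) a :=
    (IsCyc.const _).mul ((IsCyc.char ρ y pow_card_eq_one').mul
      (IsCyc.char ρ y⁻¹ pow_card_eq_one'))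
  have ha' : ∀ j, a j = (κ : ℂ) * ((p ^ (n - 1) : ℕ) : ℂ) / ((p ^ w : ℕ) : ℂ) *
      (ρ.character (pw j y) * ρ.character (pw j y)⁻¹) := by
    intro j
    simp only [a]
    push_cast
    rw [inv_pow]
    rfl
  have hint : IsIntegral ℤ (a 1) := by
    rw [ha', pw_one]
    exact h
  have h1 := trace_gain hp hN hn hq hqN J hJ ha hint
  have hp0 : ((p ^ (n - 1) : ℕ) : ℂ) ≠ 0 := by
    exact_mod_cast pow_ne_zero _ hp.ne_zero
  have h2 : ((p ^ (n - 1) : ℕ) : ℂ)⁻¹ * ∑ j ∈ J, a j = (κ : ℂ) * ((p ^ w : ℕ) : ℂ)⁻¹ *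
      ∑ j ∈ J, ρ.character (pw j y) * ρ.character (pw j y)⁻¹ := by
    simp_rw [ha']
    rw [← Finset.mul_sum, ← mul_assoc]
    congr 1
    field_simp
  rw [← h2]
  exact h1

/-- The sum at `p`, from the integrality of the sums over the powers of each element. -/
theorem sum_p_integral_of_sums (hp : p.Prime) (hN : Nat.card G = p ^ n * q)
    (hqN : q ∣ Nat.card G) (U : Finset G)
    (hU : ∀ g y, y ∈ U → g * y * g⁻¹ ∈ U)
    (hUJ : ∀ j ∈ JJ (Nat.card G) q hqN, ∀ y ∈ U, pw j y ∈ U)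
    (J : Finset (ZMod (Nat.card G))ˣ) (hJ : ∀ j, j ∈ J ↔ j ∈ JJ (Nat.card G) q hqN)
    (hloc : ∀ y ∈ U, ∃ κ : ℕ, ¬ p ∣ κ ∧ IsIntegral ℤ ((κ : ℂ) *
      ((p ^ ((Nat.card (Subgroup.centralizer {y})).factorization p +
        (Nat.card (Gam q hqN y)).factorization p) : ℕ) : ℂ)⁻¹ *
      ∑ j ∈ J, ρ.character (pw j y) * ρ.character (pw j y)⁻¹)) :
    ∃ κ : ℕ, ¬ p ∣ κ ∧ IsIntegral ℤ ((κ : ℂ) * ((p ^ n : ℕ) : ℂ)⁻¹ *
      ∑ y ∈ U, ρ.character y * ρ.character y⁻¹) := by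
  classical
  have hNe : NeZero (Nat.card G) := ⟨Nat.card_pos.ne'⟩
  let f : G → ℂ := fun y => ρ.character y * ρ.character y⁻¹
  let F : G → ℂ := fun y => ∑ j ∈ J, f (pw j y)
  have hfc : ∀ c y : G, f (c * y * c⁻¹) = f y := by
    intro c y
    simp only [f]
    have h3 : (c * y * c⁻¹)⁻¹ = c * y⁻¹ * c⁻¹ := by group
    rw [h3, char_conj, char_conj]
  have hFc : ∀ c y : G, F (c * y * c⁻¹) = F y := by
    intro c y
    simp only [F]
    apply Finset.sum_congr rfl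
    intro j _
    rw [pw_conj, hfc]
  have hFj : ∀ i ∈ JJ (Nat.card G) q hqN, ∀ y : G, F (pw i y) = F y := by
    intro i hi y
    simp only [F]
    apply Finset.sum_equiv (Equiv.mulRight i)
    · intro j
      rw [Equiv.coe_mulRight, hJ, hJ]
      exact (Subgroup.mul_mem_cancel_right _ hi).symm
    · intro j _
      rw [Equiv.coe_mulRight, pw_mul]
  -- membership in `U`
  have hUc : ∀ c y : G, c * y * c⁻¹ ∈ U ↔ y ∈ U := by
    intro c y
    constructor
    · intro h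
      have h2 := hU c⁻¹ _ h
      have h3 : c⁻¹ * (c * y * c⁻¹) * c⁻¹⁻¹ = y := by group
      rwa [h3] at h2
    · exact hU c y
  have hUj : ∀ i ∈ JJ (Nat.card G) q hqN, ∀ y : G, pw i y ∈ U ↔ y ∈ U := by
    intro i hi y
    constructor
    · intro h
      have h2 := hUJ i⁻¹ (inv_mem hi) _ h
      rwa [← pw_mul, inv_mul_cancel, pw_one] at h2
    · exact hUJ i hi y
  -- the sum of `F`
  have hsum : ∑ y ∈ U, F y = (#J : ℂ) * ∑ y ∈ U, f y := by
    simp only [F]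
    rw [Finset.sum_comm]
    have h1 : ∀ j ∈ J, ∑ y ∈ U, f (pw j y) = ∑ y ∈ U, f y := by
      intro j hj
      apply Finset.sum_equiv (pwEquiv j)
      · intro y
        exact (hUj j ((hJ j).mp hj) y).symm
      · intro y _
        rfl
    rw [Finset.sum_congr rfl h1, Finset.sum_const, nsmul_eq_mul]
  have hcardJ : Nat.card (JJ (Nat.card G) q hqN) = #J := by
    rw [← Fintype.card_coe, ← Nat.card_eq_fintype_card]
    exact Nat.card_congr (Equiv.subtypeEquivRight (fun j => (hJ j).symm))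
  have hJ0 : (#J : ℂ) ≠ 0 := by
    rw [← hcardJ]
    have : 0 < Nat.card (JJ (Nat.card G) q hqN) := Nat.card_pos
    exact_mod_cast this.ne'
  -- the local multipliers
  choose! κ hκ hκi using hloc
  let m : G → ℕ := fun y => Nat.card (Subgroup.centralizer {y}) * Nat.card (Gam q hqN y)
  let w : G → ℕ := fun y => (Nat.card (Subgroup.centralizer {y})).factorization p +
    (Nat.card (Gam q hqN y)).factorization p
  have hm0 : ∀ y, m y ≠ 0 := fun y => mul_ne_zero Nat.card_pos.ne' Nat.card_pos.ne'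
  have hw : ∀ y, (m y).factorization p = w y := by
    intro y
    simp only [m, w]
    rw [Nat.factorization_mul Nat.card_pos.ne' Nat.card_pos.ne']
    rfl
  let m' : G → ℕ := fun y => m y / p ^ (m y).factorization p
  have hm' : ∀ y, ¬ p ∣ m' y := fun y => Nat.not_dvd_ordCompl hp (hm0 y)
  have hmm : ∀ y, p ^ w y * m' y = m y := by
    intro y
    simp only [m']
    rw [← hw]
    exact Nat.ordProj_mul_ordCompl_eq_self _ _
  refine ⟨∏ y ∈ U, κ y * m' y, ?_, ?_⟩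
  · rw [Prime.dvd_finsetProd_iff hp.prime]
    rintro ⟨y, hy, hd⟩
    rcases (Nat.Prime.dvd_mul hp).mp hd with h | h
    · exact hκ y hy h
    · exact hm' y h
  · have hrw : ((∏ y ∈ U, κ y * m' y : ℕ) : ℂ) * ((p ^ n : ℕ) : ℂ)⁻¹ * ∑ y ∈ U, f y =
        ((∏ y ∈ U, κ y * m' y : ℕ) : ℂ) * ((p ^ n : ℕ) : ℂ)⁻¹ * (#J : ℂ)⁻¹ *
          ∑ y, (if y ∈ U then F y else 0) := by
      have h2 : ∑ y, (if y ∈ U then F y else 0) = ∑ y ∈ U, F y := by
        simp [Finset.sum_ite_mem]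
      rw [h2, hsum]
      field_simp
    change IsIntegral ℤ (((∏ y ∈ U, κ y * m' y : ℕ) : ℂ) * ((p ^ n : ℕ) : ℂ)⁻¹ * ∑ y ∈ U, f y)
    rw [hrw]
    let _ := actK (JJ (Nat.card G) q hqN)
    apply isIntegral_sum_of_orbit (G := ConjAct G × JJ (Nat.card G) q hqN)
    · intro s y
      have hs : s • y = ConjAct.ofConjAct s.1 * pw (s.2 : (ZMod (Nat.card G))ˣ) y *
        (ConjAct.ofConjAct s.1)⁻¹ := rfl
      rw [hs]
      simp only [hUc, hUj _ s.2.2, hFc, hFj _ s.2.2]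
    · intro y
      by_cases hy : y ∈ U
      · rw [if_pos hy]
        have h1 := card_orbit_actK q hqN y
        have h2 := hκi y hy
        have h3 : ((∏ y ∈ U, κ y * m' y : ℕ) : ℂ) =
            ((κ y : ℂ) * (m' y : ℂ)) * ((∏ z ∈ U.erase y, κ z * m' z : ℕ) : ℂ) := by
          rw [← Finset.mul_prod_erase U _ hy]
          push_cast
          ring
        have h4 := (h2.mul (H42.Wilde.isIntegral_natCast q)).mul
          (H42.Wilde.isIntegral_natCast (∏ z ∈ U.erase y, κ z * m' z))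
        rw [h3]
        have h5 : (Nat.card (MulAction.orbit (ConjAct G × JJ (Nat.card G) q hqN) y) : ℂ) *
            (((p ^ w y : ℕ) : ℂ) * (m' y : ℂ)) = ((p ^ n : ℕ) : ℂ) * (q : ℂ) * (#J : ℂ) := by
          have h6 : Nat.card (MulAction.orbit (ConjAct G × JJ (Nat.card G) q hqN) y) *
              (p ^ w y * m' y) = p ^ n * q * #J := by
            rw [hmm, ← hcardJ, ← hN]
            exact h1
          exact_mod_cast congrArg (Nat.cast : ℕ → ℂ) h6
        have hp1 : ((p ^ n : ℕ) : ℂ) ≠ 0 := by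
          exact_mod_cast pow_ne_zero _ hp.ne_zero
        have hp2 : ((p ^ w y : ℕ) : ℂ) ≠ 0 := by
          exact_mod_cast pow_ne_zero _ hp.ne_zero
        have h7 : (κ y : ℂ) * (m' y : ℂ) * ((∏ z ∈ U.erase y, κ z * m' z : ℕ) : ℂ) *
            ((p ^ n : ℕ) : ℂ)⁻¹ * (#J : ℂ)⁻¹ *
            (Nat.card (MulAction.orbit (ConjAct G × JJ (Nat.card G) q hqN) y) : ℂ) * F y =
            (κ y : ℂ) * ((p ^ w y : ℕ) : ℂ)⁻¹ * F y * (q : ℂ) *
              ((∏ z ∈ U.erase y, κ z * m' z : ℕ) : ℂ) := by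
          have h8 : (m' y : ℂ) * ((p ^ n : ℕ) : ℂ)⁻¹ * (#J : ℂ)⁻¹ *
              (Nat.card (MulAction.orbit (ConjAct G × JJ (Nat.card G) q hqN) y) : ℂ) =
              ((p ^ w y : ℕ) : ℂ)⁻¹ * (q : ℂ) := by
            field_simp
            linear_combination h5
          linear_combination ((κ y : ℂ) * ((∏ z ∈ U.erase y, κ z * m' z : ℕ) : ℂ) * F y) * h8
        rw [h7]
        exact h4
      · rw [if_neg hy, mul_zero]
        exact isIntegral_zero

theorem sum_p_integral (hp : p.Prime) (hN : Nat.card G = p ^ n * q) (hn : 1 ≤ n)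
    (hq : ¬ p ∣ q) (hqN : q ∣ Nat.card G) (U : Finset G) (hU : ∀ g y, y ∈ U → g * y * g⁻¹ ∈ U)
    (hUJ : ∀ j ∈ JJ (Nat.card G) q hqN, ∀ y ∈ U, pw j y ∈ U)
    (hloc : ∀ y ∈ U, ∃ κ : ℕ, ¬ p ∣ κ ∧ IsIntegral ℤ ((κ : ℂ) * ((p ^ (n - 1) : ℕ) : ℂ) /
      ((p ^ ((Nat.card (Subgroup.centralizer {y})).factorization p +
        (Nat.card (Gam q hqN y)).factorization p) : ℕ) : ℂ) *
      (ρ.character y * ρ.character y⁻¹))) :
    ∃ κ : ℕ, ¬ p ∣ κ ∧ IsIntegral ℤ ((κ : ℂ) * ((p ^ n : ℕ) : ℂ)⁻¹ *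
      ∑ y ∈ U, ρ.character y * ρ.character y⁻¹) := by
  classical
  have hNe : NeZero (Nat.card G) := ⟨Nat.card_pos.ne'⟩
  let J : Finset (ZMod (Nat.card G))ˣ := univ.filter (fun j => j ∈ JJ (Nat.card G) q hqN)
  have hJ : ∀ j, j ∈ J ↔ j ∈ JJ (Nat.card G) q hqN := by
    intro j
    simp [J]
  refine sum_p_integral_of_sums ρ hp hN hqN U hU hUJ J hJ ?_
  intro y hy
  obtain ⟨κ, h1, h2⟩ := hloc y hy
  exact ⟨κ, h1, local_integral ρ hp hN hn hq hqN J hJ y κ _ h2⟩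

/-- The same with the hypotheses of the skeleton. -/
theorem sum_p_integral' {n : ℕ} (hp : p.Prime) (hN : Nat.card G = p ^ n * q) (_hn : 1 ≤ n)
    (_hq : ¬ p ∣ q) (hqN : q ∣ Nat.card G) (J : Finset (ZMod (Nat.card G))ˣ)
    (hJ : ∀ j, j ∈ J ↔ j ∈ JJ (Nat.card G) q hqN)
    (U : Finset G) (hU : ∀ g y, y ∈ U → g * y * g⁻¹ ∈ U)
    (hUJ : ∀ j ∈ JJ (Nat.card G) q hqN, ∀ y ∈ U, pw j y ∈ U)
    (hloc : ∀ y ∈ U, ∃ κ : ℕ, ¬ p ∣ κ ∧ IsIntegral ℤ ((κ : ℂ) /
      ((p ^ ((Nat.card (Subgroup.centralizer {y})).factorization p +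
        (Nat.card (Gam q hqN y)).factorization p) : ℕ) : ℂ) *
      ∑ j ∈ J, (ρ.character (pw j y) * ρ.character (pw j y)⁻¹))) :
    ∃ κ : ℕ, ¬ p ∣ κ ∧ IsIntegral ℤ ((κ : ℂ) * ((p ^ n : ℕ) : ℂ)⁻¹ *
      ∑ y ∈ U, ρ.character y * ρ.character y⁻¹) := by
  refine sum_p_integral_of_sums ρ hp hN hqN U hU hUJ J hJ ?_
  intro y hy
  obtain ⟨κ, h1, h2⟩ := hloc y hy
  refine ⟨κ, h1, ?_⟩
  rw [div_eq_mul_inv] at h2
  exact h2

end

end Pool.Agent.H57.Wilde
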