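import Mathlib
import Pool.Agent.H57.Wilde.TR

/-!
At the prime two the trace gains one more factor, for an element fixed by an exponent which is
three modulo four and which lies in every prime above two.
-/

namespace Pool.Agent.H57.Wilde

open Finset Pool.Agent.H42.Wilde

/-- A sum of a function constant along a map of order a power of two, in a group killed by two,
is the sum over the fixed points. -/
theorem sum_fixed {ι R : Type*} [DecidableEq ι] [AddCommGroup R] (h2 : ∀ x : R, x + x = 0)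
    (g : ι → ι) (f : ι → R) :
    ∀ (m : ℕ) (S : Finset ι), (∀ i ∈ S, g i ∈ S) → (∀ i ∈ S, g^[2 ^ m] i = i) →
      (∀ i ∈ S, f (g i) = f i) → ∑ i ∈ S, f i = ∑ i ∈ S with g i = i, f i := by
  intro m
  induction m with
  | zero =>
    intro S hS h1 hf
    rw [Finset.filter_true_of_mem]
    intro i hi
    simpa using h1 i hi
  | succ m ih =>
    intro S hS h1 hf
    have hSk : ∀ k i, i ∈ S → g^[k] i ∈ S ∧ f (g^[k] i) = f i := by
      intro k
      induction k with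
      | zero => intro i hi; exact ⟨hi, rfl⟩
      | succ k ihk =>
        intro i hi
        rw [Function.iterate_succ_apply']
        exact ⟨hS _ (ihk i hi).1, (hf _ (ihk i hi).1).trans (ihk i hi).2⟩
    have h2' : ∀ i ∈ S, g^[2 ^ m] (g^[2 ^ m] i) = i := by
      intro i hi
      have := h1 i hi
      rwa [pow_succ, mul_two, Function.iterate_add_apply] at this
    rw [← Finset.sum_filter_add_sum_filter_not S (fun i => g^[2 ^ m] i = i)]
    have h3 : ∑ i ∈ S with ¬ g^[2 ^ m] i = i, f i = 0 := by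
      apply Finset.sum_involution (fun i _ => g^[2 ^ m] i)
      · intro i hi
        rw [Finset.mem_filter] at hi
        rw [(hSk _ i hi.1).2, h2]
      · intro i hi _
        exact (Finset.mem_filter.mp hi).2
      · intro i hi
        rw [mem_filter] at hi ⊢
        refine ⟨(hSk _ i hi.1).1, fun h => hi.2 ?_⟩
        rw [h2' i hi.1] at h
        exact h.symm
      · intro i hi
        exact h2' i (mem_filter.mp hi).1
    rw [h3, add_zero, ih (S.filter (fun i => g^[2 ^ m] i = i))]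
    · congr 1
      ext i
      simp only [mem_filter]
      constructor
      · rintro ⟨⟨h, _⟩, h'⟩
        exact ⟨h, h'⟩
      · rintro ⟨h, h'⟩
        exact ⟨⟨h, Function.iterate_fixed h' _⟩, h'⟩
    · intro i hi
      rw [mem_filter] at hi ⊢
      refine ⟨hS i hi.1, ?_⟩
      rw [← Function.iterate_succ_apply, Function.iterate_succ_apply', hi.2]
    · intro i hi
      exact (mem_filter.mp hi).2
    · intro i hi
      exact hf i (mem_filter.mp hi).1

theorem tr2_sum {N n q : ℕ} [NeZero N] (hN : N = 2 ^ n * q) (hn : 1 ≤ n) (hq : ¬ 2 ∣ q)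
    (hqN : q ∣ N) (J : Finset (ZMod N)ˣ) (hJ : ∀ j, j ∈ J ↔ j ∈ JJ N q hqN) (F : ℕ → ℂ) :
    ∑ j ∈ J, F (j : ZMod N).val = ∑ t ∈ range (2 ^ (n - 1)), F (1 + 2 * q * t) := by
  have hN0 : 0 < N := NeZero.pos N
  have hq0 : 0 < q := by
    rcases Nat.eq_zero_or_pos q with h | h
    · rw [h, mul_zero] at hN; omega
    · exact h
  have hNe : N = 2 * q * 2 ^ (n - 1) := by
    obtain ⟨m, rfl⟩ : ∃ m, n = m + 1 := ⟨n - 1, by omega⟩
    rw [hN, Nat.add_sub_cancel, pow_succ]; ring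
  have hmem : ∀ j : (ZMod N)ˣ, j ∈ J ↔ (j : ZMod N).val ≡ 1 [MOD q] := by
    intro j
    rw [hJ, JJ, MonoidHom.mem_ker, Units.ext_iff, ZMod.unitsMap_val, Units.val_one,
      ← ZMod.natCast_eq_natCast_iff, ZMod.natCast_val, Nat.cast_one]
  have hcop : ∀ t : ℕ, (1 + 2 * q * t).Coprime N := by
    intro t
    have h2 : (1 + 2 * q * t).Coprime (2 * q) := by
      rw [Nat.coprime_add_mul_left_left]
      exact Nat.coprime_one_left _
    have h3 := Nat.Coprime.coprime_mul_right_right h2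
    have h4 := Nat.Coprime.coprime_mul_left_right h2
    rw [hN]
    exact Nat.Coprime.mul_right (Nat.Coprime.pow_right n h3) h4
  have hval : ∀ t : ℕ, t ∈ range (2 ^ (n - 1)) →
      ((ZMod.unitOfCoprime (1 + 2 * q * t) (hcop t) : (ZMod N)ˣ) : ZMod N).val =
        1 + 2 * q * t := by
    intro t ht
    rw [ZMod.coe_unitOfCoprime, ZMod.val_natCast]
    apply Nat.mod_eq_of_lt
    rw [mem_range] at ht
    calc 1 + 2 * q * t < 2 * q + 2 * q * t := by omega
      _ = 2 * q * (t + 1) := by ring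
      _ ≤ 2 * q * 2 ^ (n - 1) := Nat.mul_le_mul_left _ ht
      _ = N := hNe.symm
  have hdec : ∀ j ∈ J, 1 + 2 * q * (((j : ZMod N).val - 1) / (2 * q)) = (j : ZMod N).val := by
    intro j hj
    rw [hmem] at hj
    have h1 := ZMod.val_coe_unit_coprime j
    have h2 : (j : ZMod N).val.Coprime 2 :=
      Nat.Coprime.coprime_dvd_right (by rw [hNe, mul_assoc]; exact dvd_mul_right _ _) h1
    have h3 : (j : ZMod N).val ≡ 1 [MOD 2] := by
      have h5 : ¬ 2 ∣ (j : ZMod N).val := fun h =>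
        by have := Nat.Coprime.eq_one_of_dvd h2.symm h; omega
      unfold Nat.ModEq
      omega
    have hpos : 1 ≤ (j : ZMod N).val := by
      by_contra hcon
      have : (j : ZMod N).val = 0 := by omega
      rw [this] at h3
      exact absurd h3 (by decide)
    have d1 : q ∣ (j : ZMod N).val - 1 := (Nat.modEq_iff_dvd' hpos).mp hj.symm
    have d2 : 2 ∣ (j : ZMod N).val - 1 := (Nat.modEq_iff_dvd' hpos).mp h3.symm
    have d3 : 2 * q ∣ (j : ZMod N).val - 1 :=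
      Nat.Coprime.mul_dvd_of_dvd_of_dvd ((Nat.Prime.coprime_iff_not_dvd Nat.prime_two).mpr hq) d2 d1
    rw [Nat.mul_div_cancel' d3]
    omega
  refine Finset.sum_bij' (fun j _ => ((j : ZMod N).val - 1) / (2 * q))
    (fun t _ => ZMod.unitOfCoprime (1 + 2 * q * t) (hcop t)) ?_ ?_ ?_ ?_ ?_
  · intro j hj
    rw [mem_range, Nat.div_lt_iff_lt_mul (by omega), mul_comm, ← hNe]
    have := ZMod.val_lt (j : ZMod N)
    omega
  · intro t ht
    rw [hmem, hval t ht]
    have h3 : 2 * q * t ≡ 0 [MOD q] :=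
      (Nat.modEq_zero_iff_dvd).2 ⟨2 * t, by ring⟩
    simpa using h3.add_left 1
  · intro j hj
    apply Units.ext
    rw [ZMod.coe_unitOfCoprime, hdec j hj, ZMod.natCast_zmod_val]
  · intro t ht
    show (((ZMod.unitOfCoprime (1 + 2 * q * t) (hcop t) : (ZMod N)ˣ) : ZMod N).val - 1) / (2 * q)
      = t
    rw [hval t ht, Nat.add_sub_cancel_left, Nat.mul_div_cancel_left _ (by omega)]
  · intro j hj
    show F (j : ZMod N).val = F (1 + 2 * q * (((j : ZMod N).val - 1) / (2 * q)))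
    rw [hdec j hj]

theorem tr2_ram {N n q : ℕ} [NeZero N] (hN : N = 2 ^ n * q) (hn : 1 ≤ n) (hq : ¬ 2 ∣ q)
    (hqN : q ∣ N) (J : Finset (ZMod N)ˣ) (hJ : ∀ j, j ∈ J ↔ j ∈ JJ N q hqN)
    {e E : ℂ} (he : e ^ q = 1) (hE : E ^ (2 ^ n) = 1) :
    ∑ j ∈ J, (e * E) ^ (j : ZMod N).val =
      2 ^ (n - 1) * (e * ((if E = 1 then 1 else 0) - (if E = -1 then 1 else 0))) := by
  rw [tr2_sum hN hn hq hqN J hJ (fun x => (e * E) ^ x)]
  have h1 : ∑ t ∈ range (2 ^ (n - 1)), (e * E) ^ (1 + 2 * q * t) =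
      (e * E) * ∑ t ∈ range (2 ^ (n - 1)), ((E ^ 2) ^ q) ^ t := by
    rw [mul_sum]
    refine sum_congr rfl (fun t _ => ?_)
    rw [pow_add, pow_one, pow_mul, mul_pow, mul_comm 2 q, pow_mul e, he, one_pow, one_mul,
      mul_comm q 2, pow_mul E]
  rw [h1]
  by_cases c1 : E = 1
  · subst c1
    have h2 : (1 : ℂ) ≠ -1 := by norm_num
    simp [h2]
    ring
  by_cases c2 : E = -1
  · subst c2
    have h2 : (-1 : ℂ) ≠ 1 := by norm_num
    simp [h2]
    ring
  · rw [if_neg c1, if_neg c2, sub_zero, mul_zero, mul_zero]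
    have h3 : E ^ 2 ≠ 1 := by
      intro h
      have h' : (E - 1) * (E + 1) = 0 := by linear_combination h
      rcases mul_eq_zero.mp h' with h | h
      · exact c1 (sub_eq_zero.mp h)
      · exact c2 (eq_neg_of_add_eq_zero_left h)
    have h5 : ((E ^ 2) ^ q) ^ (2 ^ (n - 1)) = 1 := by
      obtain ⟨m, rfl⟩ : ∃ m, n = m + 1 := ⟨n - 1, by omega⟩
      rw [Nat.add_sub_cancel, ← pow_mul, ← pow_mul, mul_comm q, ← mul_assoc, ← pow_succ', pow_mul,
        hE, one_pow]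
    have h6 : (E ^ 2) ^ q ≠ 1 := by
      intro h
      apply h3
      have h7 : (E ^ 2) ^ (2 ^ n) = 1 := by rw [← pow_mul, mul_comm, pow_mul, hE, one_pow]
      have h8 := orderOf_dvd_of_pow_eq_one h
      have h9 := orderOf_dvd_of_pow_eq_one h7
      have h10 : Nat.Coprime (2 ^ n) q :=
        Nat.Coprime.pow_left n ((Nat.Prime.coprime_iff_not_dvd Nat.prime_two).mpr hq)
      have h11 : orderOf (E ^ 2) = 1 := Nat.eq_one_of_dvd_coprimes h10 h9 h8
      exact orderOf_eq_one_iff.mp h11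
    rw [geom_sum_eq h6, h5, sub_self, zero_div, mul_zero]

/-- The ideal generated by two in the ring of algebraic integers. -/
noncomputable def I2 : Ideal (integralClosure ℤ ℂ) := Ideal.span {(2 : integralClosure ℤ ℂ)}

theorem coe_two : ((2 : integralClosure ℤ ℂ) : ℂ) = 2 := rfl

theorem I2_mem {x : integralClosure ℤ ℂ} : x ∈ I2 ↔ IsIntegral ℤ ((x : ℂ) / 2) := by
  rw [I2, Ideal.mem_span_singleton]
  constructor
  · rintro ⟨y, rfl⟩
    have : (((2 : integralClosure ℤ ℂ) * y : integralClosure ℤ ℂ) : ℂ) / 2 = (y : ℂ) := by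
      rw [MulMemClass.coe_mul, coe_two]
      ring
    rw [this]
    exact y.2
  · intro h
    refine ⟨⟨(x : ℂ) / 2, h⟩, Subtype.ext ?_⟩
    rw [MulMemClass.coe_mul, coe_two]
    ring

instance I2_charP : CharP (integralClosure ℤ ℂ ⧸ I2) 2 := by
  have h2 : Fact (Nat.Prime 2) := ⟨Nat.prime_two⟩
  have hun : ((2 : ℕ) : integralClosure ℤ ℂ) ∈ nonunits (integralClosure ℤ ℂ) := by
    intro hu
    obtain ⟨u, hu⟩ := isUnit_iff_exists_inv.mp hu
    have h1 : (2 : ℂ) * (u : ℂ) = 1 := congrArg (Subtype.val) hu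
    have h3 : algebraMap ℚ ℂ (1 / 2 : ℚ) = (u : ℂ) := by
      have h4 : algebraMap ℚ ℂ (1 / 2 : ℚ) = 1 / 2 := by simp
      rw [h4]
      linear_combination (-1 / 2 : ℂ) * h1
    have h4 : IsIntegral ℤ (1 / 2 : ℚ) := by
      have h5 : IsIntegral ℤ (algebraMap ℚ ℂ (1 / 2 : ℚ)) := by
        rw [h3]
        exact u.2
      exact (isIntegral_algebraMap_iff (algebraMap ℚ ℂ).injective).mp h5
    obtain ⟨z, hz⟩ := IsIntegrallyClosed.isIntegral_iff.mp h4
    have h6 : (2 * z : ℤ) = 1 := by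
      have : (2 * z : ℚ) = 1 := by
        have h7 : ((z : ℤ) : ℚ) = 1 / 2 := by simpa using hz
        rw [h7]; norm_num
      exact_mod_cast this
    omega
  exact CharP.quotient (integralClosure ℤ ℂ) 2 hun

theorem tr2_dvd {h D : ℤ} (hh : 0 < h) :
    (h ∣ D ↔ (2 * h ∣ D ∨ 2 * h ∣ D - h)) ∧ ¬ (2 * h ∣ D ∧ 2 * h ∣ D - h) := by
  constructor
  · constructor
    · rintro ⟨c, rfl⟩
      rcases Int.even_or_odd' c with ⟨d, rfl | rfl⟩
      · exact Or.inl ⟨d, by ring⟩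
      · exact Or.inr ⟨d, by ring⟩
    · rintro (⟨c, hc⟩ | ⟨c, hc⟩)
      · exact ⟨2 * c, by rw [hc]; ring⟩
      · exact ⟨2 * c + 1, by linear_combination hc⟩
  · rintro ⟨⟨c, hc⟩, ⟨d, hd⟩⟩
    have h1 : h * (2 * (c - d)) = h * 1 := by linear_combination hd - hc
    have h2 := mul_left_cancel₀ hh.ne' h1
    omega

theorem pow_int_char_two {R : Type*} [CommRing R] [CharP R 2] (c : ℤ) (k : ℕ) :
    ((c : ℤ) : R) ^ (2 ^ k) = (c : R) := by
  rcases Int.even_or_odd' c with ⟨d, rfl | rfl⟩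
  · have h : ((2 * d : ℤ) : R) = 0 := (CharP.intCast_eq_zero_iff R 2 _).mpr ⟨d, by push_cast; ring⟩
    rw [h, zero_pow (by positivity)]
  · have h : ((2 * d : ℤ) : R) = 0 := (CharP.intCast_eq_zero_iff R 2 _).mpr ⟨d, by push_cast; ring⟩
    rw [Int.cast_add, h, Int.cast_one, zero_add, one_pow]

/-- The trace of an element fixed by an exponent `3` modulo `4`, some power of which is divisible
by two. -/
theorem trace_gain_two {N n q : ℕ} [NeZero N] (hN : N = 2 ^ n * q) (hn : 2 ≤ n)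
    (hq : ¬ 2 ∣ q) (hqN : q ∣ N) (J : Finset (ZMod N)ˣ) (hJ : ∀ j, j ∈ J ↔ j ∈ JJ N q hqN)
    {a : (ZMod N)ˣ → ℂ} (ha : IsCyc N a) (hint : IsIntegral ℤ (a 1)) (j0 : (ZMod N)ˣ)
    (hj0 : j0 ∈ J) (h3 : (j0 : ZMod N).val % 4 = 3) (hfix : a j0 = a 1) (M : ℕ)
    (hM : IsIntegral ℤ (a 1 ^ M / 2)) :
    IsIntegral ℤ (((2 ^ n : ℕ) : ℂ)⁻¹ * ∑ j ∈ J, a j) := by
  classical
  have hfix' : ∀ j, a (j0 * j) = a j := by
    obtain ⟨α, hα⟩ := ha
    have e1 := hα ((jj N).symm j0)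
    rw [MulEquiv.apply_symm_apply] at e1
    have e2 := hα 1
    rw [map_one] at e2
    have e3 : (jj N).symm j0 α = α := by
      apply (emb N).injective
      show emb N ((jj N).symm j0 α) = emb N α
      rw [e1, hfix, ← e2]
      rfl
    intro j
    have e4 := hα ((jj N).symm (j * j0))
    rw [MulEquiv.apply_symm_apply, map_mul, AlgEquiv.mul_apply, e3] at e4
    have e5 := hα ((jj N).symm j)
    rw [MulEquiv.apply_symm_apply] at e5
    rw [mul_comm, ← e4, ← e5]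
  obtain ⟨r, rfl⟩ : ∃ r, n = r + 2 := ⟨n - 2, by omega⟩
  obtain ⟨P, hP⟩ := tr_poly ha hint
  have hq0 : 0 < q := by
    rcases Nat.eq_zero_or_pos q with h | h
    · rw [h] at hq; exact absurd (dvd_zero 2) hq
    · exact h
  have h2q : Nat.Coprime 2 q := (Nat.Prime.coprime_iff_not_dvd Nat.prime_two).mpr hq
  have hne1 : NeZero (2 ^ (r + 2)) := ⟨by positivity⟩
  have hne2 : NeZero (2 ^ (r + 1)) := ⟨by positivity⟩
  have hdvN : 2 ^ (r + 2) ∣ N := ⟨q, hN⟩
  obtain ⟨L, hnL, hML, hL⟩ : ∃ L, r + 2 ≤ L ∧ M ≤ 2 ^ L ∧ 2 ^ L ≡ 1 [MOD q] := by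
    have htot : 0 < q.totient := Nat.totient_pos.mpr hq0
    refine ⟨q.totient * (r + 2 + M), ?_, ?_, ?_⟩
    · calc r + 2 ≤ r + 2 + M := by omega
        _ ≤ q.totient * (r + 2 + M) := Nat.le_mul_of_pos_left _ htot
    · calc M ≤ r + 2 + M := by omega
        _ ≤ q.totient * (r + 2 + M) := Nat.le_mul_of_pos_left _ htot
        _ ≤ 2 ^ (q.totient * (r + 2 + M)) := Nat.lt_two_pow_self.le
    · rw [pow_mul]
      simpa using (Nat.ModEq.pow_totient h2q).pow (r + 2 + M)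
  set ζ := zet N with hζ
  have hζp : IsPrimitiveRoot ζ N := zet_prim N
  have hζN : ζ ^ N = 1 := hζp.pow_eq_one
  have hζ0 : ζ ≠ 0 := hζp.ne_zero (NeZero.ne N)
  set η := ζ ^ (2 ^ L) with hη
  have hη0 : η ≠ 0 := pow_ne_zero _ hζ0
  set ξ := ζ * η⁻¹ with hξ
  have hζξ : ζ = η * ξ := by rw [hξ]; field_simp
  have hηq : η ^ q = 1 := by
    rw [hη, ← pow_mul]
    have : 2 ^ L * q = N * 2 ^ (L - (r + 2)) := by
      rw [hN, mul_right_comm, ← pow_add]
      congr 2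
      omega
    rw [this, pow_mul, hζN, one_pow]
  have hξ2 : ξ ^ (2 ^ (r + 2)) = 1 := by
    have h1 : η ^ (2 ^ (r + 2)) = ζ ^ (2 ^ (r + 2)) := by
      rw [hη, ← pow_mul, mul_comm, pow_mul]
      have h2 : (ζ ^ (2 ^ (r + 2))) ^ q = 1 := by rw [← pow_mul, ← hN, hζN]
      have h3 := pow_eq_pow_of_modEq hL h2
      rw [h3, pow_one]
    rw [hξ, mul_pow, inv_pow, h1, mul_inv_cancel₀ (pow_ne_zero _ hζ0)]
  have hξ0 : ξ ≠ 0 := by
    intro h
    rw [h, zero_pow (by positivity)] at hξ2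
    exact zero_ne_one hξ2
  have hξn : ξ ^ (2 ^ (r + 1)) ≠ 1 := by
    intro h
    have h1 : ζ ^ (2 ^ (r + 1)) = η ^ (2 ^ (r + 1)) := by rw [hζξ, mul_pow, h, mul_one]
    have h2 : ζ ^ (2 ^ (r + 1) * q) = 1 := by
      rw [pow_mul, h1, ← pow_mul, mul_comm, pow_mul, hηq, one_pow]
    have h3 := hζp.dvd_of_pow_eq_one _ h2
    have h4 := Nat.le_of_dvd (by positivity) h3
    rw [hN, pow_succ 2 (r + 1), mul_right_comm] at h4
    have : 0 < 2 ^ (r + 1) * q := by positivity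
    omega
  have hξh : ξ ^ (2 ^ (r + 1)) = -1 := by
    have h1 : (ξ ^ (2 ^ (r + 1)) - 1) * (ξ ^ (2 ^ (r + 1)) + 1) = 0 := by
      have h2 : (ξ ^ (2 ^ (r + 1))) ^ 2 = 1 := by rw [← pow_mul, ← pow_succ, hξ2]
      linear_combination h2
    rcases mul_eq_zero.mp h1 with h | h
    · exact absurd (sub_eq_zero.mp h) hξn
    · exact eq_neg_of_add_eq_zero_left h
  have hξp : IsPrimitiveRoot ξ (2 ^ (r + 2)) := by
    have h2 : Fact (Nat.Prime 2) := ⟨Nat.prime_two⟩
    have h1 : orderOf ξ = 2 ^ (r + 1 + 1) := orderOf_eq_prime_pow hξn hξ2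
    rw [← h1]
    exact IsPrimitiveRoot.orderOf ξ
  -- integral elements
  have hζi : IsIntegral ℤ ζ := ⟨Polynomial.X ^ N - 1, Polynomial.monic_X_pow_sub_C 1 (NeZero.ne N),
    by simp [hζN]⟩
  set ζO : integralClosure ℤ ℂ := ⟨ζ, hζi⟩ with hζO
  set ηO : integralClosure ℤ ℂ := ζO ^ (2 ^ L) with hηO
  have hηc : (ηO : ℂ) = η := rfl
  set x : ℕ → integralClosure ℤ ℂ := fun m => ((P.coeff m : ℤ) : integralClosure ℤ ℂ) * ηO ^ m
    with hx
  have hxc : ∀ m, ((x m : integralClosure ℤ ℂ) : ℂ) = (P.coeff m : ℂ) * η ^ m := fun m => rfl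
  set A : ZMod (2 ^ (r + 2)) → integralClosure ℤ ℂ := fun i =>
    ∑ m ∈ P.support with ((m : ℕ) : ZMod (2 ^ (r + 2))) = i, x m with hA
  have hAc : ∀ i, ((A i : integralClosure ℤ ℂ) : ℂ) =
      ∑ m ∈ P.support, if ((m : ℕ) : ZMod (2 ^ (r + 2))) = i then (P.coeff m : ℂ) * η ^ m else 0 := by
    intro i
    rw [← Finset.sum_filter]
    have h1 := map_sum (algebraMap (integralClosure ℤ ℂ) ℂ) x
      (P.support.filter (fun m => ((m : ℕ) : ZMod (2 ^ (r + 2))) = i))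
    exact h1
  set B : ZMod (2 ^ (r + 2)) → integralClosure ℤ ℂ := fun i => A i - A (i + 2 ^ (r + 1)) with hB
  -- residues
  have hcast : ∀ (m : ℕ) (i : ZMod (2 ^ (r + 2))), (m : ZMod (2 ^ (r + 2))) = i ↔
      (2 : ℤ) * 2 ^ (r + 1) ∣ (m : ℤ) - i.val := by
    intro m i
    have h1 : (2 : ℤ) * 2 ^ (r + 1) = ((2 ^ (r + 2) : ℕ) : ℤ) := by push_cast; ring
    rw [h1, ← ZMod.intCast_eq_intCast_iff_dvd_sub]
    constructor
    · intro h
      push_cast
      rw [ZMod.natCast_zmod_val, h]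
    · intro h
      push_cast at h
      rw [ZMod.natCast_zmod_val] at h
      exact h.symm
  have hcast' : ∀ (m : ℕ) (i : ZMod (2 ^ (r + 2))), (m : ZMod (2 ^ (r + 2))) = i + 2 ^ (r + 1) ↔
      (2 : ℤ) * 2 ^ (r + 1) ∣ (m : ℤ) - i.val - 2 ^ (r + 1) := by
    intro m i
    have h1 : (2 : ℤ) * 2 ^ (r + 1) = ((2 ^ (r + 2) : ℕ) : ℤ) := by push_cast; ring
    have h2 : (m : ℤ) - i.val - 2 ^ (r + 1) = (m : ℤ) - (i.val + 2 ^ (r + 1) : ℕ) := by
      push_cast; ring
    rw [h1, h2, ← ZMod.intCast_eq_intCast_iff_dvd_sub]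
    constructor
    · intro h
      push_cast
      rw [ZMod.natCast_zmod_val, h]
    · intro h
      push_cast at h
      rw [ZMod.natCast_zmod_val] at h
      exact h.symm
  have hEE : ∀ (m : ℕ) (i : ZMod (2 ^ (r + 2))), ξ ^ m * (ξ⁻¹) ^ i.val = ξ ^ ((m : ℤ) - i.val) := by
    intro m i
    rw [zpow_sub₀ hξ0, zpow_natCast, zpow_natCast, inv_pow, div_eq_mul_inv]
  have hE1 : ∀ (m : ℕ) (i : ZMod (2 ^ (r + 2))), ξ ^ m * (ξ⁻¹) ^ i.val = 1 ↔
      (m : ZMod (2 ^ (r + 2))) = i := by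
    intro m i
    rw [hEE, hξp.zpow_eq_one_iff_dvd, hcast]
    push_cast
    rw [show (2 : ℤ) ^ (r + 2) = 2 * 2 ^ (r + 1) by ring]
  have hE2 : ∀ (m : ℕ) (i : ZMod (2 ^ (r + 2))), ξ ^ m * (ξ⁻¹) ^ i.val = -1 ↔
      (m : ZMod (2 ^ (r + 2))) = i + 2 ^ (r + 1) := by
    intro m i
    rw [hcast']
    have h1 : ξ ^ ((m : ℤ) - i.val - 2 ^ (r + 1)) = - (ξ ^ m * (ξ⁻¹) ^ i.val) := by
      rw [zpow_sub₀ hξ0, ← hEE]
      have : ξ ^ ((2 : ℤ) ^ (r + 1)) = -1 := by
        rw [← hξh, ← zpow_natCast]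
        push_cast
        rfl
      rw [this]
      ring
    have h2 := hξp.zpow_eq_one_iff_dvd ((m : ℤ) - i.val - 2 ^ (r + 1))
    push_cast at h2
    rw [show (2 : ℤ) ^ (r + 2) = 2 * 2 ^ (r + 1) by ring, h1] at h2
    rw [← h2]
    constructor
    · intro h; rw [h, neg_neg]
    · intro h; rw [← h, neg_neg]
  -- the traces
  have hT : ∀ i : ZMod (2 ^ (r + 2)), ∑ j ∈ J, a j * (ξ⁻¹) ^ ((j : ZMod N).val * i.val) =
      2 ^ (r + 1) * ((B i : integralClosure ℤ ℂ) : ℂ) := by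
    intro i
    have h1 : ∑ j ∈ J, a j * (ξ⁻¹) ^ ((j : ZMod N).val * i.val) =
        ∑ m ∈ P.support, ((P.coeff m : ℤ) : ℂ) *
          ∑ j ∈ J, (η ^ m * (ξ ^ m * (ξ⁻¹) ^ i.val)) ^ (j : ZMod N).val := by
      have h2 : ∀ j ∈ J, a j * (ξ⁻¹) ^ ((j : ZMod N).val * i.val) =
          ∑ m ∈ P.support, ((P.coeff m : ℤ) : ℂ) *
            (η ^ m * (ξ ^ m * (ξ⁻¹) ^ i.val)) ^ (j : ZMod N).val := by
        intro j _
        rw [hP j, Polynomial.aeval_def, Polynomial.eval₂_eq_sum, Polynomial.sum_def, sum_mul]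
        refine sum_congr rfl (fun m _ => ?_)
        rw [← mul_assoc (η ^ m), ← mul_pow η ξ, ← hζξ, mul_pow, ← pow_mul, ← pow_mul, ← pow_mul,
          mul_comm m, mul_comm i.val, mul_assoc]
        rfl
      rw [sum_congr rfl h2, sum_comm]
      exact sum_congr rfl (fun m _ => by rw [mul_sum])
    rw [h1]
    have h2 : ((B i : integralClosure ℤ ℂ) : ℂ) = ((A i : integralClosure ℤ ℂ) : ℂ) -
        ((A (i + 2 ^ (r + 1)) : integralClosure ℤ ℂ) : ℂ) := rfl
    rw [h2, hAc, hAc, ← sum_sub_distrib, mul_sum]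
    refine sum_congr rfl (fun m _ => ?_)
    have h3 : (η ^ m) ^ q = 1 := by rw [← pow_mul, mul_comm, pow_mul, hηq, one_pow]
    have h4 : (ξ ^ m * (ξ⁻¹) ^ i.val) ^ (2 ^ (r + 2)) = 1 := by
      rw [mul_pow, ← pow_mul, ← pow_mul, mul_comm m, mul_comm i.val, pow_mul, pow_mul, inv_pow,
        hξ2, inv_one, one_pow, one_pow, mul_one]
    rw [tr2_ram hN (by omega) hq hqN J hJ h3 h4]
    have h5 : r + 2 - 1 = r + 1 := by omega
    rw [h5]
    simp only [hE1, hE2]
    split_ifs <;> ring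
  have hξi : (ξ⁻¹) ^ (2 ^ (r + 2)) = 1 := by rw [inv_pow, hξ2, inv_one]
  set u : ZMod (2 ^ (r + 2)) := (((j0 : ZMod N).val : ℕ) : ZMod (2 ^ (r + 2))) with hu
  have hTu : ∀ i : ZMod (2 ^ (r + 2)), ∑ j ∈ J, a j * (ξ⁻¹) ^ ((j : ZMod N).val * (u * i).val) =
      ∑ j ∈ J, a j * (ξ⁻¹) ^ ((j : ZMod N).val * i.val) := by
    intro i
    have h1 : ∀ j ∈ J, a j * (ξ⁻¹) ^ ((j : ZMod N).val * (u * i).val) =
        a (j0 * j) * (ξ⁻¹) ^ (((j0 * j : (ZMod N)ˣ) : ZMod N).val * i.val) := by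
      intro j _
      rw [hfix']
      congr 1
      apply pow_eq_pow_of_modEq _ hξi
      rw [← ZMod.natCast_eq_natCast_iff]
      push_cast
      rw [ZMod.natCast_zmod_val, ZMod.natCast_zmod_val, ZMod.natCast_val, ZMod.natCast_val,
        ZMod.cast_mul hdvN, hu, ZMod.natCast_val]
      ring
    rw [sum_congr rfl h1]
    have hmemJ : ∀ j, j ∈ J → j0 * j ∈ J := by
      intro j hj
      rw [hJ] at hj hj0 ⊢
      exact mul_mem hj0 hj
    have hmemJ' : ∀ j, j ∈ J → j0⁻¹ * j ∈ J := by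
      intro j hj
      rw [hJ] at hj hj0 ⊢
      exact mul_mem (inv_mem hj0) hj
    exact Finset.sum_nbij' (fun j => j0 * j) (fun j => j0⁻¹ * j) hmemJ hmemJ'
      (fun j _ => by simp) (fun j _ => by simp) (fun j _ => rfl)
  have h2r : (2 : ℂ) ^ (r + 1) ≠ 0 := pow_ne_zero _ two_ne_zero
  have hBu : ∀ i, B (u * i) = B i := by
    intro i
    apply Subtype.ext
    have h1 := hTu i
    rw [hT, hT] at h1
    exact mul_left_cancel₀ h2r h1
  have h22 : ∀ i : ZMod (2 ^ (r + 2)), i + 2 ^ (r + 1) + 2 ^ (r + 1) = i := by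
    intro i
    have h1 : (2 : ZMod (2 ^ (r + 2))) ^ (r + 2) = 0 := by
      have := ZMod.natCast_self (2 ^ (r + 2))
      push_cast at this
      exact this
    rw [add_assoc, ← two_mul, ← pow_succ', h1, add_zero]
  have hBn : ∀ i, B (i + 2 ^ (r + 1)) = - B i := by
    intro i
    show A (i + 2 ^ (r + 1)) - A (i + 2 ^ (r + 1) + 2 ^ (r + 1)) = - (A i - A (i + 2 ^ (r + 1)))
    rw [h22]
    ring
  have hBh : B (2 ^ r) = 0 := by
    obtain ⟨c, hc⟩ : ∃ c, (j0 : ZMod N).val = 3 + 4 * c := ⟨(j0 : ZMod N).val / 4, by omega⟩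
    have h1 : u * 2 ^ r = 2 ^ r + 2 ^ (r + 1) := by
      rw [hu, hc]
      push_cast
      have h1 : (2 : ZMod (2 ^ (r + 2))) ^ (r + 2) = 0 := by
        have := ZMod.natCast_self (2 ^ (r + 2))
        push_cast at this
        exact this
      linear_combination (c : ZMod (2 ^ (r + 2))) * h1
    have h2 := hBu (2 ^ r)
    rw [h1, hBn] at h2
    have h3 : (2 : integralClosure ℤ ℂ) * B (2 ^ r) = 0 := by linear_combination -h2
    rcases mul_eq_zero.mp h3 with h | h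
    · exact absurd (congrArg Subtype.val h) (by rw [coe_two]; simp)
    · exact h
  -- reduction modulo two
  set π := Ideal.Quotient.mk I2 with hπ
  set b : ZMod (2 ^ (r + 1)) → (integralClosure ℤ ℂ ⧸ I2) := fun k =>
    ∑ m ∈ P.support with ((m : ℕ) : ZMod (2 ^ (r + 1))) = k, π (x m) with hb
  have hneg : ∀ w : (integralClosure ℤ ℂ ⧸ I2), -w = w := fun w => CharTwo.neg_eq w
  have hdv1 : 2 ^ (r + 1) ∣ 2 ^ (r + 2) := pow_dvd_pow 2 (by omega)
  have hb1 : ∀ i : ZMod (2 ^ (r + 2)), b (ZMod.cast i) = π (B i) := by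
    intro i
    have h1 : π (B i) = π (A i) + π (A (i + 2 ^ (r + 1))) := by
      rw [hB]
      simp only [map_sub]
      rw [sub_eq_add_neg, hneg]
    rw [h1, hA, hb]
    simp only [map_sum]
    rw [Finset.sum_filter, Finset.sum_filter, Finset.sum_filter, ← sum_add_distrib]
    refine sum_congr rfl (fun m _ => ?_)
    have h3 : ((m : ℕ) : ZMod (2 ^ (r + 1))) = ZMod.cast i ↔
        (2 : ℤ) ^ (r + 1) ∣ (m : ℤ) - i.val := by
      have h4 : (ZMod.cast i : ZMod (2 ^ (r + 1))) = ((i.val : ℤ) : ZMod (2 ^ (r + 1))) := by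
        push_cast
        rw [ZMod.natCast_val]
      have h5 : (2 : ℤ) ^ (r + 1) = ((2 ^ (r + 1) : ℕ) : ℤ) := by push_cast; ring
      rw [h4, h5, ← ZMod.intCast_eq_intCast_iff_dvd_sub]
      push_cast
      exact eq_comm
    obtain ⟨h6, h7⟩ := tr2_dvd (h := 2 ^ (r + 1)) (D := (m : ℤ) - i.val) (by positivity)
    rw [← hcast, ← hcast', ← h3] at h6
    rw [← hcast, ← hcast'] at h7
    by_cases c1 : ((m : ℕ) : ZMod (2 ^ (r + 2))) = i
    · have c2 : ¬ ((m : ℕ) : ZMod (2 ^ (r + 2))) = i + 2 ^ (r + 1) := fun h => h7 ⟨c1, h⟩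
      rw [if_pos c1, if_neg c2, if_pos (h6.mpr (Or.inl c1)), add_zero]
    · by_cases c2 : ((m : ℕ) : ZMod (2 ^ (r + 2))) = i + 2 ^ (r + 1)
      · rw [if_neg c1, if_pos c2, if_pos (h6.mpr (Or.inr c2)), zero_add]
      · rw [if_neg c1, if_neg c2, if_neg (fun h => (h6.mp h).elim c1 c2), add_zero]
  have hb2 : ∑ k, b k = 0 := by
    rw [hb, Finset.sum_fiberwise]
    set αO : integralClosure ℤ ℂ := ⟨a 1, hint⟩ with hαO
    have h1 : αO = ∑ m ∈ P.support, ((P.coeff m : ℤ) : integralClosure ℤ ℂ) * ζO ^ m := by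
      apply Subtype.ext
      have h2 := map_sum (algebraMap (integralClosure ℤ ℂ) ℂ)
        (fun m => ((P.coeff m : ℤ) : integralClosure ℤ ℂ) * ζO ^ m) P.support
      refine Eq.trans ?_ h2.symm
      show a 1 = _
      rw [hP 1, Polynomial.aeval_def, Polynomial.eval₂_eq_sum, Polynomial.sum_def]
      refine sum_congr rfl (fun m _ => ?_)
      have h3 : ζ ^ ((1 : (ZMod N)ˣ) : ZMod N).val = ζ := by
        rw [Units.val_one]
        have h5 : (1 : ℕ) ≡ (1 : ZMod N).val [MOD N] := by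
          rw [← ZMod.natCast_eq_natCast_iff, ZMod.natCast_zmod_val, Nat.cast_one]
        rw [← pow_eq_pow_of_modEq h5 hζN, pow_one]
      rw [h3]
      rfl
    have h2 : (π αO) ^ (2 ^ L) = ∑ m ∈ P.support, π (x m) := by
      rw [h1, map_sum, sum_pow_char_pow]
      refine sum_congr rfl (fun m _ => ?_)
      rw [hx, map_mul, map_mul, mul_pow, map_intCast, pow_int_char_two, ← map_pow, hηO, ← pow_mul,
        ← pow_mul, mul_comm m]
    rw [← h2]
    have h3 : (π αO) ^ M = 0 := by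
      rw [← map_pow, Ideal.Quotient.eq_zero_iff_mem, I2_mem]
      exact hM
    exact pow_eq_zero_of_le hML h3
  set u' : ZMod (2 ^ (r + 1)) := (((j0 : ZMod N).val : ℕ) : ZMod (2 ^ (r + 1))) with hu'
  have hlift : ∀ k : ZMod (2 ^ (r + 1)), ∃ i : ZMod (2 ^ (r + 2)),
      (ZMod.cast i : ZMod (2 ^ (r + 1))) = k ∧ (ZMod.cast (u * i) : ZMod (2 ^ (r + 1))) = u' * k := by
    intro k
    refine ⟨((k.val : ℕ) : ZMod (2 ^ (r + 2))), ?_, ?_⟩
    · rw [ZMod.cast_natCast hdv1, ZMod.natCast_zmod_val]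
    · rw [ZMod.cast_mul hdv1, hu, ZMod.cast_natCast hdv1, ZMod.cast_natCast hdv1,
        ZMod.natCast_zmod_val]
  have hb3 : ∀ k, b (u' * k) = b k := by
    intro k
    obtain ⟨i, h1, h2⟩ := hlift k
    rw [← h2, hb1, hBu, ← hb1, h1]
  have hfixpt : ∀ k : ZMod (2 ^ (r + 1)), u' * k = k → k = 0 ∨ k = 2 ^ r := by
    intro k hk
    obtain ⟨c, hc⟩ : ∃ c, (j0 : ZMod N).val = 3 + 4 * c := ⟨(j0 : ZMod N).val / 4, by omega⟩
    have h1 : ((2 * (1 + 2 * c) * k.val : ℕ) : ZMod (2 ^ (r + 1))) = 0 := by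
      have h2 : (u' - 1) * k = 0 := by rw [sub_mul, hk, one_mul, sub_self]
      rw [← h2, hu', hc]
      push_cast
      rw [ZMod.natCast_zmod_val]
      ring
    rw [ZMod.natCast_eq_zero_iff] at h1
    have h2 : 2 ^ r ∣ (1 + 2 * c) * k.val := by
      have e1 : 2 * 2 ^ r = 2 ^ (r + 1) := (pow_succ' 2 r).symm
      have h1' : 2 * 2 ^ r ∣ 2 * ((1 + 2 * c) * k.val) := by
        rw [e1, ← mul_assoc]
        exact h1
      exact Nat.dvd_of_mul_dvd_mul_left two_pos h1'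
    have h3 : Nat.Coprime (2 ^ r) (1 + 2 * c) := by
      apply Nat.Coprime.pow_left
      rw [Nat.Prime.coprime_iff_not_dvd Nat.prime_two]
      omega
    obtain ⟨d, hd⟩ := h3.dvd_of_dvd_mul_left h2
    have h5 : d < 2 := by
      have h4 := ZMod.val_lt k
      have e1 : 2 ^ r * 2 = 2 ^ (r + 1) := (pow_succ 2 r).symm
      have h4' : 2 ^ r * d < 2 ^ r * 2 := by
        rw [e1, ← hd]
        exact h4
      exact lt_of_mul_lt_mul_left h4' (Nat.zero_le _)
    have h6 : k = ((k.val : ℕ) : ZMod (2 ^ (r + 1))) := (ZMod.natCast_zmod_val k).symm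
    rw [hd] at h6
    interval_cases d
    · left
      simpa using h6
    · right
      simpa using h6
  have hbr : b (2 ^ r) = 0 := by
    have h1 : (ZMod.cast (2 ^ r : ZMod (2 ^ (r + 2))) : ZMod (2 ^ (r + 1))) = 2 ^ r := by
      have h2 : (2 ^ r : ZMod (2 ^ (r + 2))) = ((2 ^ r : ℕ) : ZMod (2 ^ (r + 2))) := by push_cast; rfl
      rw [h2, ZMod.cast_natCast hdv1]
      push_cast
      rfl
    rw [← h1, hb1, hBh, map_zero]
  have hb0 : b 0 = π (B 0) := by
    rw [← hb1, ZMod.cast_zero]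
  have hiter : ∀ k ∈ (univ : Finset (ZMod (2 ^ (r + 1)))),
      (fun k => u' * k)^[2 ^ r] k = k := by
    intro k _
    rw [mul_left_iterate]
    have h1 : u' ^ (2 ^ r) = 1 := by
      have h2 : Nat.Coprime (j0 : ZMod N).val (2 ^ (r + 1)) := by
        apply Nat.Coprime.symm
        apply Nat.Coprime.pow_left
        rw [Nat.Prime.coprime_iff_not_dvd Nat.prime_two]
        omega
      have h3 := Nat.ModEq.pow_totient h2
      rw [Nat.totient_prime_pow_succ Nat.prime_two, ← ZMod.natCast_eq_natCast_iff] at h3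
      rw [hu']
      simpa using h3
    show u' ^ (2 ^ r) * k = k
    rw [h1, one_mul]
  have hfin := sum_fixed (fun w : (integralClosure ℤ ℂ ⧸ I2) => CharTwo.add_self_eq_zero w)
    (fun k => u' * k) b r univ (fun _ _ => mem_univ _) hiter (fun k _ => hb3 k)
  rw [hb2, Finset.sum_eq_single_of_mem 0 (by simp), hb0] at hfin
  · have h1 : B 0 ∈ I2 := Ideal.Quotient.eq_zero_iff_mem.mp hfin.symm
    rw [I2_mem] at h1
    have h2 := hT 0
    simp only [ZMod.val_zero, mul_zero, pow_zero, mul_one] at h2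
    rw [h2]
    have h3 : ((2 ^ (r + 2) : ℕ) : ℂ)⁻¹ * (2 ^ (r + 1) * ((B 0 : integralClosure ℤ ℂ) : ℂ)) =
        ((B 0 : integralClosure ℤ ℂ) : ℂ) / 2 := by
      push_cast
      rw [pow_succ 2 (r + 1)]
      field_simp
    rw [h3]
    exact h1
  · intro k hk hk0
    rcases hfixpt k (mem_filter.mp hk).2 with h | h
    · exact absurd h hk0
    · rw [h]
      exact hbr

end Pool.Agent.H57.Wilde
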