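import Mathlib
import Pool.Agent.H57.Wilde.Defs

/-!
Units modulo the order of the group: if the group of the exponents fixing the class of `y` is
large, it contains all exponents which are congruent to one modulo a given number.
-/

set_option autoImplicit false

namespace Pool.Agent.H57.Wilde

open Finset Pool.Agent.H42.Wilde

section UNaux

/-- In a finite cyclic group a subgroup of order divisible by `m` contains all `x`, `x ^ m = 1`. -/
theorem un_mem_of_pow_eq_one {C : Type*} [CommGroup C] [IsCyclic C] [Finite C] (D : Subgroup C)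
    {m : ℕ} (hm : m ∣ Nat.card D) {x : C} (hx : x ^ m = 1) : x ∈ D := by
  have hDc : Nat.card D ∣ Nat.card C := Subgroup.card_subgroup_dvd_card D
  have h1 : Nat.card (powMonoidHom m : C →* C).ker = m := by
    rw [IsCyclic.card_powMonoidHom_ker]
    exact Nat.gcd_eq_right (hm.trans hDc)
  have h2 : Nat.card (powMonoidHom m : D →* D).ker = m := by
    rw [IsCyclic.card_powMonoidHom_ker]
    exact Nat.gcd_eq_right hm
  have h3 : Nat.card ((powMonoidHom m : D →* D).ker.map D.subtype) = m :=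
    (Subgroup.card_map_of_injective (Subgroup.subtype_injective D)).trans h2
  have h4 : (powMonoidHom m : D →* D).ker.map D.subtype ≤ (powMonoidHom m : C →* C).ker := by
    rintro _ ⟨d, hd, rfl⟩
    rw [SetLike.mem_coe, MonoidHom.mem_ker, powMonoidHom_apply] at hd
    rw [MonoidHom.mem_ker, powMonoidHom_apply, ← map_pow, hd, map_one]
  have h5 : (powMonoidHom m : D →* D).ker.map D.subtype = (powMonoidHom m : C →* C).ker :=
    Subgroup.eq_of_le_of_card_ge h4 (by rw [h1, h3])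
  have h6 : x ∈ (powMonoidHom m : C →* C).ker := by
    rw [MonoidHom.mem_ker, powMonoidHom_apply]
    exact hx
  rw [← h5] at h6
  obtain ⟨d, -, rfl⟩ := h6
  exact d.2

/-- The same for a subgroup meeting a cyclic subgroup. -/
theorem un_mem_of_pow_eq_one' {A : Type*} [CommGroup A] [Finite A] (C H : Subgroup A)
    [IsCyclic C] {m : ℕ} (hm : m ∣ Nat.card (H ⊓ C : Subgroup A)) {x : A} (hxC : x ∈ C)
    (hx : x ^ m = 1) : x ∈ H := by
  have h1 : Nat.card (H.subgroupOf C) = Nat.card (H ⊓ C : Subgroup A) := by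
    rw [← Subgroup.subgroupOf_map_subtype]
    exact (Subgroup.card_map_of_injective (Subgroup.subtype_injective C)).symm
  have h2 : (⟨x, hxC⟩ : C) ∈ H.subgroupOf C := by
    apply un_mem_of_pow_eq_one (m := m) (H.subgroupOf C) (by rw [h1]; exact hm)
    ext
    exact hx
  exact Subgroup.mem_subgroupOf.mp h2

theorem un_card_ker {N m : ℕ} [NeZero N] (h : m ∣ N) :
    Nat.card (ZMod.unitsMap h).ker * m.totient = N.totient := by
  have hm : NeZero m := ⟨fun h0 => NeZero.ne N (by rw [h0] at h; exact Nat.eq_zero_of_zero_dvd h)⟩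
  have h1 := Subgroup.card_mul_index (ZMod.unitsMap h).ker
  rw [Subgroup.index_ker, MonoidHom.range_eq_top.mpr (ZMod.unitsMap_surjective h),
    Subgroup.card_top, Nat.card_eq_fintype_card (α := (ZMod m)ˣ), ZMod.card_units_eq_totient,
    Nat.card_eq_fintype_card (α := (ZMod N)ˣ), ZMod.card_units_eq_totient] at h1
  exact h1

theorem un_pow_eq_one {p n k : ℕ} (hp : p.Prime) (hk1 : 1 ≤ k) (hkn : k ≤ n)
    {x : (ZMod (p ^ n))ˣ} (hx : ZMod.unitsMap (pow_dvd_pow p hkn) x = 1) :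
    x ^ (p ^ (n - k)) = 1 := by
  have hne : NeZero (p ^ n) := ⟨pow_ne_zero _ hp.ne_zero⟩
  have h1 := un_card_ker (pow_dvd_pow p hkn)
  rw [Nat.totient_prime_pow hp (by omega), Nat.totient_prime_pow hp (by omega)] at h1
  have h2 : p ^ (n - 1) = p ^ (n - k) * p ^ (k - 1) := by
    rw [← pow_add]
    congr 1
    omega
  have hp1 : 0 < p - 1 := by have := hp.two_le; omega
  have h3 : Nat.card (ZMod.unitsMap (pow_dvd_pow p hkn)).ker = p ^ (n - k) := by
    have h4 : 0 < p ^ (k - 1) * (p - 1) := Nat.mul_pos (pow_pos hp.pos _) hp1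
    apply Nat.eq_of_mul_eq_mul_right h4
    rw [h1, h2]
    ring
  have h5 : (⟨x, hx⟩ : (ZMod.unitsMap (pow_dvd_pow p hkn)).ker) ^ (p ^ (n - k)) = 1 := by
    rw [← h3]
    exact pow_card_eq_one'
  exact congrArg Subtype.val h5

/-- The units congruent to one modulo four form a cyclic group modulo a power of two. -/
theorem un_cyclic_four {n : ℕ} (hn : 2 ≤ n) :
    IsCyclic (ZMod.unitsMap (pow_dvd_pow 2 hn)).ker := by
  obtain ⟨r, rfl⟩ : ∃ r, n = r + 2 := ⟨n - 2, by omega⟩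
  have hne : NeZero (2 ^ (r + 2)) := ⟨pow_ne_zero _ two_ne_zero⟩
  have h5 : IsUnit (5 : ZMod (2 ^ (r + 2))) := by
    have h : Nat.Coprime 5 (2 ^ (r + 2)) := Nat.Coprime.pow_right _ (by decide)
    have := (ZMod.isUnit_iff_coprime 5 (2 ^ (r + 2))).mpr h
    exact_mod_cast this
  have ho : orderOf h5.unit = 2 ^ r := by
    rw [← orderOf_injective _ Units.coeHom_injective h5.unit, Units.coeHom_apply,
      IsUnit.unit_spec]
    exact ZMod.orderOf_five r
  have hmem : h5.unit ∈ (ZMod.unitsMap (pow_dvd_pow 2 hn)).ker := by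
    rw [MonoidHom.mem_ker]
    ext
    have h6 : (5 : ZMod (2 ^ (r + 2))) = ((5 : ℕ) : ZMod (2 ^ (r + 2))) := by norm_num
    rw [ZMod.unitsMap_val, IsUnit.unit_spec, Units.val_one, h6,
      ZMod.cast_natCast (pow_dvd_pow 2 hn)]
    decide
  have hc := un_card_ker (pow_dvd_pow 2 hn)
  rw [Nat.totient_prime_pow Nat.prime_two (by omega), Nat.totient_prime_pow Nat.prime_two
    (by omega)] at hc
  have hc' : Nat.card (ZMod.unitsMap (pow_dvd_pow 2 hn)).ker = 2 ^ r := by
    have h1 : 2 ^ (r + 2 - 1) = 2 ^ r * 2 := by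
      rw [← pow_succ]
      congr 1
    rw [h1] at hc
    simp only [Nat.add_one_sub_one, pow_one, mul_one] at hc
    exact Nat.eq_of_mul_eq_mul_right two_pos hc
  refine isCyclic_of_orderOf_eq_card ⟨h5.unit, hmem⟩ ?_
  rw [hc', ← ho]
  exact (Subgroup.orderOf_coe _).symm

end UNaux

section

variable {G : Type*} [Group G] [Finite G] {p n q : ℕ}

theorem un_inj (hN : Nat.card G = p ^ n * q) (hpq : Nat.Coprime (p ^ n) q)
    (hqN : q ∣ Nat.card G) (hpN : p ^ n ∣ Nat.card G) {j : (ZMod (Nat.card G))ˣ}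
    (h1 : j ∈ JJ (Nat.card G) q hqN) (h2 : ZMod.unitsMap hpN j = 1) : j = 1 := by
  have hne : NeZero (Nat.card G) := ⟨Nat.card_pos.ne'⟩
  have key : ∀ {m : ℕ} (hm : m ∣ Nat.card G), ZMod.unitsMap hm j = 1 →
      (j : ZMod (Nat.card G)).val ≡ 1 [MOD m] := by
    intro m hm hj
    have h3 := congrArg Units.val hj
    rw [ZMod.unitsMap_val, Units.val_one] at h3
    rw [← ZMod.natCast_eq_natCast_iff, Nat.cast_one, ← h3, ZMod.natCast_val]
  have h3 : (j : ZMod (Nat.card G)).val ≡ 1 [MOD Nat.card G] := by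
    have h4 := (Nat.modEq_and_modEq_iff_modEq_mul hpq).mp ⟨key hpN h2, key hqN h1⟩
    rwa [← hN] at h4
  ext
  rw [Units.val_one, ← ZMod.natCast_zmod_val (j : ZMod (Nat.card G)), ← Nat.cast_one,
    ZMod.natCast_eq_natCast_iff]
  exact h3

/-- The reduction to the units modulo `p ^ n`. -/
theorem un_conj (hp : p.Prime) (hN : Nat.card G = p ^ n * q) (hq : ¬ p ∣ q)
    (hqN : q ∣ Nat.card G) (hpN : p ^ n ∣ Nat.card G) {k : ℕ} (hk1 : 1 ≤ k) (hkn : k ≤ n) {y : G}
    (H : ∀ x : (ZMod (p ^ n))ˣ, ZMod.unitsMap (pow_dvd_pow p hkn) x = 1 →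
      x ∈ (Gam q hqN y).map (ZMod.unitsMap hpN)) :
    ∀ i : ℕ, i ≡ 1 [MOD p ^ k * q] → IsConj y (y ^ i) := by
  intro i hi
  have hne : NeZero (Nat.card G) := ⟨Nat.card_pos.ne'⟩
  have hpq' : Nat.Coprime p q := (Nat.Prime.coprime_iff_not_dvd hp).mpr hq
  have hpq : Nat.Coprime (p ^ n) q := Nat.Coprime.pow_left n hpq'
  have hik : i ≡ 1 [MOD p ^ k] := hi.of_mul_right q
  have hiq : i ≡ 1 [MOD q] := hi.of_mul_left (p ^ k)
  have hip : i ≡ 1 [MOD p] := by
    have : p ∣ p ^ k := dvd_pow_self p (by omega)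
    exact hik.of_dvd this
  have c1 : Nat.Coprime i p := by
    have := hip.gcd_eq
    rw [Nat.gcd_one_left] at this
    exact this
  have c2 : Nat.Coprime i q := by
    have := hiq.gcd_eq
    rw [Nat.gcd_one_left] at this
    exact this
  have hco : Nat.Coprime i (Nat.card G) := by
    rw [hN]
    exact Nat.Coprime.mul_right (Nat.Coprime.pow_right n c1) c2
  set j : (ZMod (Nat.card G))ˣ := ZMod.unitOfCoprime i hco with hj
  have hval : ∀ {m : ℕ} (hm : m ∣ Nat.card G), i ≡ 1 [MOD m] → ZMod.unitsMap hm j = 1 := by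
    intro m hm him
    ext
    rw [ZMod.unitsMap_val, Units.val_one, hj, ZMod.coe_unitOfCoprime, ZMod.cast_natCast hm,
      ← Nat.cast_one, ZMod.natCast_eq_natCast_iff]
    exact him
  have hjJ : j ∈ JJ (Nat.card G) q hqN := hval hqN hiq
  have hjk : ZMod.unitsMap (pow_dvd_pow p hkn) (ZMod.unitsMap hpN j) = 1 := by
    have h1 := hval ((pow_dvd_pow p hkn).trans hpN) hik
    have h2 := ZMod.unitsMap_comp (pow_dvd_pow p hkn) hpN
    rw [← h2] at h1
    exact h1
  obtain ⟨g, hg, hgj⟩ := H _ hjk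
  have hgj' : g = j := by
    have h1 : j⁻¹ * g = 1 := by
      apply un_inj hN hpq hqN hpN
      · exact mul_mem (inv_mem hjJ) hg.1
      · rw [map_mul, map_inv, hgj, inv_mul_cancel]
    rw [inv_mul_eq_one] at h1
    exact h1.symm
  have h3 : IsConj y (pw j y) := by
    rw [← hgj']
    exact hg.2
  have h4 : pw j y = y ^ i := by
    unfold pw
    rw [hj, ZMod.coe_unitOfCoprime, ZMod.val_natCast]
    exact pow_mod_natCard y i
  rwa [h4] at h3

theorem un_card_map (hp : p.Prime) (hN : Nat.card G = p ^ n * q) (hq : ¬ p ∣ q)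
    (hqN : q ∣ Nat.card G) (hpN : p ^ n ∣ Nat.card G) (y : G) :
    Nat.card ((Gam q hqN y).map (ZMod.unitsMap hpN)) = Nat.card (Gam q hqN y) := by
  have hpq : Nat.Coprime (p ^ n) q :=
    Nat.Coprime.pow_left n ((Nat.Prime.coprime_iff_not_dvd hp).mpr hq)
  refine (Nat.card_congr (Equiv.ofBijective
    (fun g : Gam q hqN y => (⟨ZMod.unitsMap hpN g.1, g.1, g.2, rfl⟩ :
      (Gam q hqN y).map (ZMod.unitsMap hpN))) ⟨?_, ?_⟩)).symm
  · intro a b hab
    have h1 : ZMod.unitsMap hpN a.1 = ZMod.unitsMap hpN b.1 := congrArg Subtype.val hab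
    have h2 : a.1⁻¹ * b.1 = 1 := by
      apply un_inj hN hpq hqN hpN
      · exact mul_mem (inv_mem a.2.1) b.2.1
      · rw [map_mul, map_inv, h1, inv_mul_cancel]
    rw [inv_mul_eq_one] at h2
    exact Subtype.ext h2
  · rintro ⟨_, g, hg, rfl⟩
    exact ⟨⟨g, hg⟩, rfl⟩

theorem conj_of_card_odd (hp : p.Prime) (hp2 : p ≠ 2) (hN : Nat.card G = p ^ n * q)
    (hq : ¬ p ∣ q) (hqN : q ∣ Nat.card G) {k : ℕ} (hk1 : 1 ≤ k) (hkn : k ≤ n) {y : G}
    (hG : p ^ (n - k) ∣ Nat.card (Gam q hqN y)) :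
    ∀ i : ℕ, i ≡ 1 [MOD p ^ k * q] → IsConj y (y ^ i) := by
  have hpN : p ^ n ∣ Nat.card G := ⟨q, hN⟩
  refine un_conj hp hN hq hqN hpN hk1 hkn (fun x hx => ?_)
  have hne : NeZero (p ^ n) := ⟨pow_ne_zero _ hp.ne_zero⟩
  have hcyc : IsCyclic (ZMod (p ^ n))ˣ := ZMod.isCyclic_units_of_prime_pow p hp hp2 n
  refine un_mem_of_pow_eq_one _ ?_ (un_pow_eq_one hp hk1 hkn hx)
  rw [un_card_map hp hN hq hqN hpN y]
  exact hG

theorem conj_of_card_two (hN : Nat.card G = 2 ^ n * q)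
    (hq : ¬ 2 ∣ q) (hqN : q ∣ Nat.card G) {k : ℕ} (hk1 : 2 ≤ k) (hkn : k ≤ n) {y : G}
    (hG : 2 ^ (n - k + 1) ∣ Nat.card (Gam q hqN y)) :
    ∀ i : ℕ, i ≡ 1 [MOD 2 ^ k * q] → IsConj y (y ^ i) := by
  have hpN : 2 ^ n ∣ Nat.card G := ⟨q, hN⟩
  have hn2 : 2 ≤ n := hk1.trans hkn
  refine un_conj Nat.prime_two hN hq hqN hpN (by omega) hkn (fun x hx => ?_)
  have hne : NeZero (2 ^ n) := ⟨pow_ne_zero _ two_ne_zero⟩
  have hcyc := un_cyclic_four hn2
  set C := (ZMod.unitsMap (pow_dvd_pow 2 hn2)).ker with hC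
  set H := (Gam q hqN y).map (ZMod.unitsMap hpN) with hH
  have hcard : Nat.card H = Nat.card (Gam q hqN y) := un_card_map Nat.prime_two hN hq hqN hpN y
  have hxC : x ∈ C := by
    have h1 := ZMod.unitsMap_comp (pow_dvd_pow 2 hk1) (pow_dvd_pow 2 hkn)
    rw [hC, MonoidHom.mem_ker]
    have h2 : ZMod.unitsMap (pow_dvd_pow 2 hn2) x =
        ZMod.unitsMap (pow_dvd_pow 2 hk1) (ZMod.unitsMap (pow_dvd_pow 2 hkn) x) := by
      rw [← MonoidHom.comp_apply, h1]
    rw [h2, hx, map_one]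
  refine un_mem_of_pow_eq_one' C H ?_ hxC (un_pow_eq_one Nat.prime_two (by omega) hkn hx)
  have hidx : C.index = 2 := by
    rw [hC, Subgroup.index_ker, MonoidHom.range_eq_top.mpr (ZMod.unitsMap_surjective _),
      Subgroup.card_top, Nat.card_eq_fintype_card, ZMod.card_units_eq_totient]
    decide
  have hrel : C.relIndex H ∣ 2 := by
    have h1 := Subgroup.relIndex_dvd_index_of_normal C H
    rwa [hidx] at h1
  have hmul : Nat.card (H ⊓ C : Subgroup _) * C.relIndex H = Nat.card H := by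
    have h1 := Subgroup.card_mul_index (C.subgroupOf H)
    have h2 : Nat.card (C.subgroupOf H) = Nat.card (H ⊓ C : Subgroup _) := by
      rw [inf_comm, ← Subgroup.subgroupOf_map_subtype]
      exact (Subgroup.card_map_of_injective (Subgroup.subtype_injective H)).symm
    rw [h2] at h1
    exact h1
  rw [hcard] at hmul
  have h2 : 2 ^ (n - k + 1) ∣ Nat.card (H ⊓ C : Subgroup _) * 2 := by
    refine hG.trans ?_
    rw [← hmul]
    exact Nat.mul_dvd_mul_left _ hrel
  rw [pow_succ] at h2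
  exact Nat.dvd_of_mul_dvd_mul_right two_pos h2

/-- full fusion -/
theorem conj_of_card_two' (hN : Nat.card G = 2 ^ n * q)
    (hq : ¬ 2 ∣ q) (hqN : q ∣ Nat.card G) (hn : 1 ≤ n) {y : G}
    (hG : 2 ^ (n - 1) ∣ Nat.card (Gam q hqN y)) :
    ∀ i : ℕ, i ≡ 1 [MOD 2 ^ 1 * q] → IsConj y (y ^ i) := by
  have hpN : 2 ^ n ∣ Nat.card G := ⟨q, hN⟩
  refine un_conj Nat.prime_two hN hq hqN hpN le_rfl hn (fun x hx => ?_)
  have hne : NeZero (2 ^ n) := ⟨pow_ne_zero _ two_ne_zero⟩
  have hcard := un_card_map Nat.prime_two hN hq hqN hpN y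
  have htop : (Gam q hqN y).map (ZMod.unitsMap hpN) = ⊤ := by
    apply Subgroup.eq_top_of_le_card
    rw [hcard, Nat.card_eq_fintype_card, ZMod.card_units_eq_totient,
      Nat.totient_prime_pow Nat.prime_two (by omega)]
    have := Nat.le_of_dvd Nat.card_pos hG
    simpa using this
  rw [htop]
  exact Subgroup.mem_top x

end

end Pool.Agent.H57.Wilde
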