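import Mathlib
import Pool.Agent.H57.Wilde.UN

/-!
Exponents fixing the class of `y` when all of them are congruent to one modulo four.
-/

namespace Pool.Agent.H57.Wilde

open Finset Pool.Agent.H42.Wilde

theorem conj_of_card_four {G : Type*} [Group G] [Finite G] {n q : ℕ}
    (hN : Nat.card G = 2 ^ n * q) (hq : ¬ 2 ∣ q) (hqN : q ∣ Nat.card G) {k : ℕ} (hk1 : 2 ≤ k)
    (hkn : k ≤ n) {y : G} (h4 : ∀ j ∈ Gam q hqN y, (j : ZMod (Nat.card G)).val % 4 = 1)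
    (hG : 2 ^ (n - k) ∣ Nat.card (Gam q hqN y)) :
    ∀ i : ℕ, i ≡ 1 [MOD 2 ^ k * q] → IsConj y (y ^ i) := by
  have hpN : 2 ^ n ∣ Nat.card G := ⟨q, hN⟩
  have hn2 : 2 ≤ n := hk1.trans hkn
  have hneG : NeZero (Nat.card G) := ⟨Nat.card_pos.ne'⟩
  refine un_conj Nat.prime_two hN hq hqN hpN (by omega) hkn (fun x hx => ?_)
  have hne : NeZero (2 ^ n) := ⟨pow_ne_zero _ two_ne_zero⟩
  have hcyc := un_cyclic_four hn2
  set C := (ZMod.unitsMap (pow_dvd_pow 2 hn2)).ker with hC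
  set H := (Gam q hqN y).map (ZMod.unitsMap hpN) with hH
  have hcard : Nat.card H = Nat.card (Gam q hqN y) := un_card_map Nat.prime_two hN hq hqN hpN y
  have hxC : x ∈ C := by
    have h1 := ZMod.unitsMap_comp (pow_dvd_pow 2 hk1) (pow_dvd_pow 2 hkn)
    rw [hC, MonoidHom.mem_ker]
    have h2 : ZMod.unitsMap (pow_dvd_pow 2 hn2) x =
        ZMod.unitsMap (pow_dvd_pow 2 hk1) (ZMod.unitsMap (pow_dvd_pow 2 hkn) x) := by
      rw [← MonoidHom.comp_apply, h1]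
    rw [h2, hx, map_one]
  have hHC : H ≤ C := by
    rintro _ ⟨j, hj, rfl⟩
    have h1 := h4 j hj
    have h2 := ZMod.unitsMap_comp (pow_dvd_pow 2 hn2) hpN
    rw [hC, MonoidHom.mem_ker, ← MonoidHom.comp_apply, h2]
    ext
    rw [ZMod.unitsMap_val, Units.val_one]
    have h3 : (j : ZMod (Nat.card G)).val ≡ 1 [MOD 2 ^ 2] := h1
    rw [← ZMod.natCast_eq_natCast_iff, Nat.cast_one, ZMod.natCast_val] at h3
    exact h3
  refine un_mem_of_pow_eq_one' C H ?_ hxC (un_pow_eq_one Nat.prime_two (by omega) hkn hx)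
  rw [inf_eq_left.mpr hHC, hcard]
  exact hG

end Pool.Agent.H57.Wilde
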