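import Mathlib
import Pool.Agent.H57.Wilde.MB2
import Pool.Agent.H57.Wilde.MB
import Pool.Agent.H57.Wilde.TR2
import Pool.Agent.H57.Wilde.CI
import Pool.Agent.H57.Wilde.UN
import Pool.Agent.H57.Wilde.UN4
import Pool.Agent.H57.Wilde.TR
import Pool.Agent.H57.Wilde.SP
import Pool.Agent.H57.Wilde.NI

/-!
Wilde's conjecture: the order of an element at which an irreducible character does not vanish
divides the order of the group divided by the degree.
-/

namespace Pool.Agent.H57.Wilde

open Finset Representation Pool.Agent.H42.Wilde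

section
variable {G : Type*} [Group G] [Finite G] {p n q : ℕ}

/-- The index `|N(⟨u⟩) : C(u)|`. -/
noncomputable def mi (u : G) : ℕ :=
  (Subgroup.centralizer {u}).relIndex (Subgroup.normalizer (Subgroup.zpowers u : Set G))

omit [Finite G] in
theorem centralizer_singleton_eq (u : G) :
    Subgroup.centralizer {u} = Subgroup.centralizer (Subgroup.zpowers u : Set G) := by
  ext g
  rw [Subgroup.mem_centralizer_iff, Subgroup.mem_centralizer_iff]
  constructor
  · intro h x hx
    obtain ⟨i, rfl⟩ := Subgroup.mem_zpowers_iff.mp hx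
    have h1 : Commute u g := h u rfl
    exact (h1.zpow_left i).eq
  · intro h x hx
    rw [Set.mem_singleton_iff] at hx
    subst hx
    exact h x (Subgroup.mem_zpowers x)

omit [Finite G] in
theorem mi_of_zpowers_eq {u v : G} (h : Subgroup.zpowers u = Subgroup.zpowers v) :
    mi u = mi v := by
  unfold mi
  rw [centralizer_singleton_eq u, centralizer_singleton_eq v, h]

theorem mi_of_isConj {u v : G} (h : IsConj u v) : mi u = mi v := by
  obtain ⟨c, rfl⟩ := isConj_iff.mp h
  unfold mi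
  rw [← card_conj_eq_relIndex, ← card_conj_eq_relIndex]
  apply Nat.card_congr
  refine ⟨fun w => ⟨c * w * c⁻¹, ?_, ?_⟩, fun w => ⟨c⁻¹ * w * c, ?_, ?_⟩, fun w => ?_, fun w => ?_⟩
  · obtain ⟨i, hi⟩ := Subgroup.mem_zpowers_iff.mp w.2.1
    rw [← hi, ← conj_zpow]
    exact Subgroup.zpow_mem_zpowers _ _
  · exact (isConj_iff.mpr ⟨c⁻¹, by group⟩ : IsConj (c * u * c⁻¹) u).trans
      (w.2.2.trans (isConj_iff.mpr ⟨c, rfl⟩))
  · obtain ⟨i, hi⟩ := Subgroup.mem_zpowers_iff.mp w.2.1
    rw [conj_zpow] at hi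
    rw [← hi]
    have h1 : c⁻¹ * (c * u ^ i * c⁻¹) * c = u ^ i := by group
    rw [h1]
    exact Subgroup.zpow_mem_zpowers _ _
  · exact (isConj_iff.mpr ⟨c, rfl⟩ : IsConj u (c * u * c⁻¹)).trans
      (w.2.2.trans (isConj_iff.mpr ⟨c⁻¹, by group⟩))
  · apply Subtype.ext
    simp only
    group
  · apply Subtype.ext
    simp only
    group

/-- The number of elements of the class times the order of the centraliser. -/
theorem clCard_mul_card (y : G) :
    clCard y * Nat.card (Subgroup.centralizer {y}) = Nat.card G := by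
  have : Fintype G := Fintype.ofFinite G
  have h3 : Nat.card (Subgroup.centralizer {y}) =
      Nat.card (MulAction.stabilizer (ConjAct G) y) := by
    apply Nat.card_congr
    refine ⟨fun t => ⟨ConjAct.toConjAct (t : G), ?_⟩,
      fun t => ⟨ConjAct.ofConjAct (t : ConjAct G), ?_⟩, fun t => by simp, fun t => by simp⟩
    · have h4 := t.2
      rw [Subgroup.mem_centralizer_iff] at h4
      rw [MulAction.mem_stabilizer_iff, ConjAct.smul_def, ConjAct.ofConjAct_toConjAct,
        ← h4 y rfl, mul_inv_cancel_right]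
    · have h4 := t.2
      rw [MulAction.mem_stabilizer_iff, ConjAct.smul_def, mul_inv_eq_iff_eq_mul] at h4
      rw [Subgroup.mem_centralizer_iff]
      intro h hh
      rw [Set.mem_singleton_iff] at hh
      rw [hh]
      exact h4.symm
  unfold clCard
  rw [h3]
  classical
  rw [Nat.card_eq_fintype_card, Nat.card_eq_fintype_card, Nat.card_eq_fintype_card]
  have h5 : Fintype.card G = Fintype.card (ConjAct G) := rfl
  rw [h5]
  exact MulAction.card_orbit_mul_card_stabilizer_eq_card_group (ConjAct G) y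

end

section
variable {G V : Type*} [Group G] [Fintype G] [AddCommGroup V] [Module ℂ V] [FiniteDimensional ℂ V]
  (ρ : Representation ℂ G V) {p n q : ℕ}

/-- The value needed at `y`, from the divisibility of `ω χ` by `p ^ e`. -/
theorem loc_of_main [ρ.IsIrreducible] (hp : p.Prime) {e : ℕ} {y : G} {n γ : ℕ}
    (h1 : IsIntegral ℤ (((p ^ e : ℕ) : ℂ)⁻¹ *
      ((clCard y : ℂ) * ρ.character y / (Module.finrank ℂ V : ℂ) * ρ.character y)))
    (h2 : IsIntegral ℤ (((p ^ e : ℕ) : ℂ)⁻¹ *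
      ((clCard y⁻¹ : ℂ) * ρ.character y⁻¹ / (Module.finrank ℂ V : ℂ) * ρ.character y⁻¹)))
    (hγ : γ + (Nat.card G / Module.finrank ℂ V).factorization p + 1 ≤ n + e) :
    ∃ κ : ℕ, ¬ p ∣ κ ∧ IsIntegral ℤ ((κ : ℂ) * ((p ^ (n - 1) : ℕ) : ℂ) /
      ((p ^ ((Nat.card (Subgroup.centralizer {y})).factorization p + γ) : ℕ) : ℂ) *
      (ρ.character y * ρ.character y⁻¹)) := by
  set D := Nat.card G / Module.finrank ℂ V with hD
  set d := D.factorization p with hd
  set C := Nat.card (Subgroup.centralizer {y}) with hC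
  have hdim0 : 0 < Module.finrank ℂ V := finrank_pos_of_irreducible ρ
  have hdim : (Module.finrank ℂ V : ℂ) ≠ 0 := by exact_mod_cast hdim0.ne'
  have hD0 : D ≠ 0 :=
    (Nat.div_pos (Nat.le_of_dvd Nat.card_pos (finrank_dvd_card ρ)) hdim0).ne'
  have hC0 : C ≠ 0 := Nat.card_pos.ne'
  have hp0 : (p : ℂ) ≠ 0 := by exact_mod_cast hp.ne_zero
  have hcl := clCard_mul_card y
  rw [← hC] at hcl
  have hcl0 : clCard y ≠ 0 := by
    intro h
    rw [h, zero_mul] at hcl
    exact Nat.card_pos.ne hcl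
  have eD : (D : ℂ) = ((p ^ d : ℕ) : ℂ) * ((D / p ^ d : ℕ) : ℂ) := by
    have : p ^ d * (D / p ^ d) = D := Nat.ordProj_mul_ordCompl_eq_self D p
    exact_mod_cast congrArg (Nat.cast : ℕ → ℂ) this.symm
  have eC : (C : ℂ) = ((p ^ C.factorization p : ℕ) : ℂ) * ((C / p ^ C.factorization p : ℕ) : ℂ) := by
    have : p ^ C.factorization p * (C / p ^ C.factorization p) = C :=
      Nat.ordProj_mul_ordCompl_eq_self C p
    exact_mod_cast congrArg (Nat.cast : ℕ → ℂ) this.symm
  -- `B = p ^ (-e) ω χ(y⁻¹)` is integral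
  set B : ℂ := ((p ^ e : ℕ) : ℂ)⁻¹ * ((clCard y : ℂ) / (Module.finrank ℂ V : ℂ) *
    (ρ.character y * ρ.character y⁻¹)) with hB
  have hBint : IsIntegral ℤ B := by
    apply IsIntegral.of_pow (n := 2) (by norm_num)
    have h3 := h1.mul h2
    rw [clCard_inv] at h3
    have h4 : B ^ 2 = ((p ^ e : ℕ) : ℂ)⁻¹ *
      ((clCard y : ℂ) * ρ.character y / (Module.finrank ℂ V : ℂ) * ρ.character y) *
      (((p ^ e : ℕ) : ℂ)⁻¹ *
      ((clCard y : ℂ) * ρ.character y⁻¹ / (Module.finrank ℂ V : ℂ) * ρ.character y⁻¹)) := by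
      rw [hB]
      ring
    rw [h4]
    exact h3
  have hclD : (clCard y : ℂ) / (Module.finrank ℂ V : ℂ) = (D : ℂ) / (C : ℂ) := by
    have h3 : (clCard y : ℂ) * (C : ℂ) = (Nat.card G : ℂ) := by exact_mod_cast hcl
    have h4 : (D : ℂ) * (Module.finrank ℂ V : ℂ) = (Nat.card G : ℂ) := by
      have := Nat.div_mul_cancel (finrank_dvd_card ρ)
      exact_mod_cast this
    have hCC : (C : ℂ) ≠ 0 := by exact_mod_cast hC0
    rw [div_eq_div_iff hdim hCC, h3, h4]
  refine ⟨D / p ^ d, Nat.not_dvd_ordCompl hp hD0, ?_⟩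
  have h5 : ((D / p ^ d : ℕ) : ℂ) * ((p ^ (n - 1) : ℕ) : ℂ) /
      ((p ^ (C.factorization p + γ) : ℕ) : ℂ) * (ρ.character y * ρ.character y⁻¹) =
      ((C / p ^ C.factorization p : ℕ) : ℂ) * ((p ^ (n - 1 + e - d - γ) : ℕ) : ℂ) * B := by
    rw [hB, hclD, eD, eC]
    have hCC : ((C / p ^ C.factorization p : ℕ) : ℂ) ≠ 0 := by
      intro h0
      rw [h0, mul_zero] at eC
      exact hC0 (by exact_mod_cast eC)
    have hpe : p ^ (n - 1) * p ^ e * 1 = p ^ (n - 1 + e - d - γ) * p ^ d * p ^ γ := by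
      rw [mul_one, ← pow_add, ← pow_add, ← pow_add]
      congr 1
      omega
    have hpe' : ((p : ℂ) ^ (n - 1)) * (p : ℂ) ^ e =
        (p : ℂ) ^ (n - 1 + e - d - γ) * (p : ℂ) ^ d * (p : ℂ) ^ γ := by
      have := congrArg (Nat.cast : ℕ → ℂ) hpe
      push_cast at this
      rw [mul_one] at this
      exact this
    push_cast at hCC ⊢
    rw [pow_add]
    field_simp
    linear_combination (((D / p ^ d : ℕ) : ℂ) * ρ.character y * ρ.character y⁻¹) * hpe'
  rw [h5]
  exact ((H42.Wilde.isIntegral_natCast _).mul (H42.Wilde.isIntegral_natCast _)).mul hBint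

/-- The value needed at `y`, from the integrality of the central character alone. -/
theorem loc_of_central [ρ.IsIrreducible] (hp : p.Prime) {y : G} {n γ : ℕ}
    (hγ : γ + 2 * (Nat.card G / Module.finrank ℂ V).factorization p + 1 ≤
      n + (Nat.card (Subgroup.centralizer {y})).factorization p) :
    ∃ κ : ℕ, ¬ p ∣ κ ∧ IsIntegral ℤ ((κ : ℂ) * ((p ^ (n - 1) : ℕ) : ℂ) /
      ((p ^ ((Nat.card (Subgroup.centralizer {y})).factorization p + γ) : ℕ) : ℂ) *
      (ρ.character y * ρ.character y⁻¹)) := by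
  set D := Nat.card G / Module.finrank ℂ V with hD
  set d := D.factorization p with hd
  set C := Nat.card (Subgroup.centralizer {y}) with hC
  have hdim0 : 0 < Module.finrank ℂ V := finrank_pos_of_irreducible ρ
  have hdim : (Module.finrank ℂ V : ℂ) ≠ 0 := by exact_mod_cast hdim0.ne'
  have hD0 : D ≠ 0 :=
    (Nat.div_pos (Nat.le_of_dvd Nat.card_pos (finrank_dvd_card ρ)) hdim0).ne'
  have hC0 : C ≠ 0 := Nat.card_pos.ne'
  have hp0 : (p : ℂ) ≠ 0 := by exact_mod_cast hp.ne_zero
  have hcl := clCard_mul_card y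
  rw [← hC] at hcl
  have eD : (D : ℂ) = ((p ^ d : ℕ) : ℂ) * ((D / p ^ d : ℕ) : ℂ) := by
    have : p ^ d * (D / p ^ d) = D := Nat.ordProj_mul_ordCompl_eq_self D p
    exact_mod_cast congrArg (Nat.cast : ℕ → ℂ) this.symm
  have eC : (C : ℂ) = ((p ^ C.factorization p : ℕ) : ℂ) * ((C / p ^ C.factorization p : ℕ) : ℂ) := by
    have : p ^ C.factorization p * (C / p ^ C.factorization p) = C :=
      Nat.ordProj_mul_ordCompl_eq_self C p
    exact_mod_cast congrArg (Nat.cast : ℕ → ℂ) this.symm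
  have hclD : (clCard y : ℂ) / (Module.finrank ℂ V : ℂ) = (D : ℂ) / (C : ℂ) := by
    have h3 : (clCard y : ℂ) * (C : ℂ) = (Nat.card G : ℂ) := by exact_mod_cast hcl
    have h4 : (D : ℂ) * (Module.finrank ℂ V : ℂ) = (Nat.card G : ℂ) := by
      have := Nat.div_mul_cancel (finrank_dvd_card ρ)
      exact_mod_cast this
    have hCC : (C : ℂ) ≠ 0 := by exact_mod_cast hC0
    rw [div_eq_div_iff hdim hCC, h3, h4]
  set B : ℂ := ((clCard y : ℂ) / (Module.finrank ℂ V : ℂ)) ^ 2 *
    (ρ.character y * ρ.character y⁻¹) with hB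
  have hBint : IsIntegral ℤ B := by
    have h3 := (isIntegral_central ρ y).mul (isIntegral_central ρ y⁻¹)
    rw [clCard_inv] at h3
    have h4 : B = (clCard y : ℂ) * ρ.character y / (Module.finrank ℂ V : ℂ) *
      ((clCard y : ℂ) * ρ.character y⁻¹ / (Module.finrank ℂ V : ℂ)) := by
      rw [hB]
      ring
    rw [h4]
    exact h3
  refine ⟨(D / p ^ d) ^ 2, fun h => Nat.not_dvd_ordCompl hp hD0 (hp.dvd_of_dvd_pow h), ?_⟩
  have h5 : (((D / p ^ d) ^ 2 : ℕ) : ℂ) * ((p ^ (n - 1) : ℕ) : ℂ) /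
      ((p ^ (C.factorization p + γ) : ℕ) : ℂ) * (ρ.character y * ρ.character y⁻¹) =
      (((C / p ^ C.factorization p) ^ 2 : ℕ) : ℂ) *
        ((p ^ (n - 1 + C.factorization p - 2 * d - γ) : ℕ) : ℂ) * B := by
    rw [hB, hclD, eD, eC]
    have hCC : ((C / p ^ C.factorization p : ℕ) : ℂ) ≠ 0 := by
      intro h0
      rw [h0, mul_zero] at eC
      exact hC0 (by exact_mod_cast eC)
    have hpe : p ^ (n - 1) * p ^ C.factorization p * 1 =
        p ^ (n - 1 + C.factorization p - 2 * d - γ) * (p ^ d) ^ 2 * p ^ γ := by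
      rw [mul_one, ← pow_mul, ← pow_add, ← pow_add, ← pow_add]
      congr 1
      omega
    have hpe' : ((p : ℂ) ^ (n - 1)) * (p : ℂ) ^ C.factorization p =
        (p : ℂ) ^ (n - 1 + C.factorization p - 2 * d - γ) * ((p : ℂ) ^ d) ^ 2 * (p : ℂ) ^ γ := by
      have := congrArg (Nat.cast : ℕ → ℂ) hpe
      push_cast at this
      rw [mul_one] at this
      exact this
    push_cast at hCC ⊢
    rw [pow_add]
    field_simp
    linear_combination (((D / p ^ d : ℕ) : ℂ) ^ 2 * ρ.character y * ρ.character y⁻¹) * hpe'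
  rw [h5]
  exact ((H42.Wilde.isIntegral_natCast _).mul (H42.Wilde.isIntegral_natCast _)).mul hBint

/-- The integrality at the primes `r ≠ p`. -/
theorem isIntegral_union_q {r : ℕ} (hp : p.Prime) (hr : r.Prime) (hrp : r ≠ p)
    (hN : Nat.card G = p ^ n * q) (U : Finset G) (hU : ∀ g y, y ∈ U → g * y * g⁻¹ ∈ U)
    (hUq : ∀ y z : G, y ^ q = z ^ q → (y ∈ U ↔ z ∈ U)) :
    IsIntegral ℤ (((r ^ (Nat.card G).factorization r : ℕ) : ℂ)⁻¹ *
      ∑ y ∈ U, ρ.character y * ρ.character y⁻¹) := by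
  have : Fact r.Prime := ⟨hr⟩
  have hN0 : Nat.card G ≠ 0 := Nat.card_pos.ne'
  have hmul : r ^ (Nat.card G).factorization r *
      (Nat.card G / r ^ (Nat.card G).factorization r) = Nat.card G :=
    Nat.ordProj_mul_ordCompl_eq_self _ _
  have hcop : Nat.Coprime (r ^ (Nat.card G).factorization r)
      (Nat.card G / r ^ (Nat.card G).factorization r) :=
    (Nat.coprime_ordCompl hr hN0).pow_left _
  obtain ⟨γ, hγ0, hγ1⟩ := Nat.chineseRemainder hcop 0 1
  have hqα : r ^ (Nat.card G).factorization r ∣ q := by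
    have h1 : r ^ (Nat.card G).factorization r ∣ p ^ n * q := by
      rw [← hN]
      exact Nat.ordProj_dvd _ _
    have h2 : Nat.Coprime (r ^ (Nat.card G).factorization r) (p ^ n) :=
      Nat.Coprime.pow _ _ ((Nat.coprime_primes hr hp).mpr hrp)
    exact h2.dvd_of_dvd_mul_left h1
  have h := isIntegral_section (ρ.tprod ρ.dual) (q := r) U hU γ
    (Nat.modEq_zero_iff_dvd.mp hγ0) hγ1
    (by
      intro y
      apply hUq
      rw [← pow_mul]
      apply pow_eq_pow_of_modEq_card
      rw [← hmul]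
      refine (Nat.modEq_and_modEq_iff_modEq_mul hcop).mp ⟨?_, ?_⟩
      · exact ((Nat.modEq_zero_iff_dvd.mpr hqα)).trans
          (Nat.modEq_zero_iff_dvd.mpr (hqα.mul_left _)).symm
      · simpa using (hγ1.mul_right q).symm)
  simpa [char_tensor, char_dual] using h

omit [Fintype G] in
theorem pow_mem_zpowers_iff_ppart [Finite G] (hp : p.Prime) (hq : ¬ p ∣ q)
    (hN : Nat.card G = p ^ n * q) (x : G) :
    orderOf (x ^ q) = p ^ (orderOf x).factorization p := by
  have hx0 : orderOf x ≠ 0 := (orderOf_pos x).ne'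
  have hN0 : Nat.card G ≠ 0 := Nat.card_pos.ne'
  set a := (orderOf x).factorization p with ha
  have hdvd : orderOf x ∣ p ^ n * q := by rw [← hN]; exact orderOf_dvd_natCard x
  have hmul : p ^ a * (orderOf x / p ^ a) = orderOf x := Nat.ordProj_mul_ordCompl_eq_self _ _
  have hcop : Nat.Coprime p (orderOf x / p ^ a) := Nat.coprime_ordCompl hp hx0
  have h1 : (orderOf x / p ^ a) ∣ q := by
    have h2 : orderOf x / p ^ a ∣ p ^ n * q := (Nat.div_dvd_of_dvd (Nat.ordProj_dvd _ _)).trans hdvd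
    exact (hcop.symm.pow_right n).dvd_of_dvd_mul_left h2
  have h2 : Nat.Coprime (p ^ a) q := ((hp.coprime_iff_not_dvd).mpr hq).pow_left _
  have h3 : (orderOf x).gcd q = orderOf x / p ^ a := by
    conv_lhs => rw [← hmul]
    rw [Nat.Coprime.gcd_mul_left_cancel _ h2]
    exact Nat.gcd_eq_left h1
  rw [orderOf_pow, h3]
  exact Nat.div_div_self (Nat.ordProj_dvd _ _) hx0

/-- The refined value at `y` for `p = 2`. -/
theorem loc_of_main_two [ρ.IsIrreducible] {e : ℕ} {y : G} {n γ : ℕ}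
    (h1 : IsIntegral ℤ (((2 ^ e : ℕ) : ℂ)⁻¹ *
      ((clCard y : ℂ) * ρ.character y / (Module.finrank ℂ V : ℂ) * ρ.character y)))
    (h2 : IsIntegral ℤ (((2 ^ e : ℕ) : ℂ)⁻¹ *
      ((clCard y⁻¹ : ℂ) * ρ.character y⁻¹ / (Module.finrank ℂ V : ℂ) * ρ.character y⁻¹)))
    (h3 : ∃ M : ℕ, IsIntegral ℤ ((((2 ^ e : ℕ) : ℂ)⁻¹ *
      ((clCard y : ℂ) * ρ.character y / (Module.finrank ℂ V : ℂ) * ρ.character y)) ^ M / 2))
    (hγ : γ + (Nat.card G / Module.finrank ℂ V).factorization 2 ≤ n + e) :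
    ∃ κ : ℕ, ¬ 2 ∣ κ ∧ IsIntegral ℤ ((κ : ℂ) * ((2 ^ n : ℕ) : ℂ) /
      ((2 ^ ((Nat.card (Subgroup.centralizer {y})).factorization 2 + γ) : ℕ) : ℂ) *
      (ρ.character y * ρ.character y⁻¹)) ∧
      ∃ M : ℕ, IsIntegral ℤ (((κ : ℂ) * ((2 ^ n : ℕ) : ℂ) /
      ((2 ^ ((Nat.card (Subgroup.centralizer {y})).factorization 2 + γ) : ℕ) : ℂ) *
      (ρ.character y * ρ.character y⁻¹)) ^ M / 2) := by
  have hp : Nat.Prime 2 := Nat.prime_two
  set D := Nat.card G / Module.finrank ℂ V with hD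
  set d := D.factorization 2 with hd
  set C := Nat.card (Subgroup.centralizer {y}) with hC
  have hdim0 : 0 < Module.finrank ℂ V := finrank_pos_of_irreducible ρ
  have hdim : (Module.finrank ℂ V : ℂ) ≠ 0 := by exact_mod_cast hdim0.ne'
  have hD0 : D ≠ 0 :=
    (Nat.div_pos (Nat.le_of_dvd Nat.card_pos (finrank_dvd_card ρ)) hdim0).ne'
  have hC0 : C ≠ 0 := Nat.card_pos.ne'
  have hcl := clCard_mul_card y
  rw [← hC] at hcl
  have eD : (D : ℂ) = ((2 ^ d : ℕ) : ℂ) * ((D / 2 ^ d : ℕ) : ℂ) := by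
    have : 2 ^ d * (D / 2 ^ d) = D := Nat.ordProj_mul_ordCompl_eq_self D 2
    exact_mod_cast congrArg (Nat.cast : ℕ → ℂ) this.symm
  have eC : (C : ℂ) = ((2 ^ C.factorization 2 : ℕ) : ℂ) * ((C / 2 ^ C.factorization 2 : ℕ) : ℂ) := by
    have : 2 ^ C.factorization 2 * (C / 2 ^ C.factorization 2) = C :=
      Nat.ordProj_mul_ordCompl_eq_self C 2
    exact_mod_cast congrArg (Nat.cast : ℕ → ℂ) this.symm
  set B : ℂ := ((2 ^ e : ℕ) : ℂ)⁻¹ * ((clCard y : ℂ) / (Module.finrank ℂ V : ℂ) *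
    (ρ.character y * ρ.character y⁻¹)) with hB
  have h4 : B ^ 2 = ((2 ^ e : ℕ) : ℂ)⁻¹ *
      ((clCard y : ℂ) * ρ.character y / (Module.finrank ℂ V : ℂ) * ρ.character y) *
      (((2 ^ e : ℕ) : ℂ)⁻¹ *
      ((clCard y⁻¹ : ℂ) * ρ.character y⁻¹ / (Module.finrank ℂ V : ℂ) * ρ.character y⁻¹)) := by
    rw [hB, clCard_inv]
    ring
  have hBint : IsIntegral ℤ B := by
    apply IsIntegral.of_pow (n := 2) (by norm_num)
    rw [h4]
    exact h1.mul h2
  obtain ⟨M, hM⟩ := h3
  have hB2 : IsIntegral ℤ (B ^ (2 * M) / 2) := by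
    rw [pow_mul, h4, mul_pow]
    have h5 := hM.mul (h2.pow M)
    rw [div_mul_eq_mul_div] at h5
    exact h5
  have hclD : (clCard y : ℂ) / (Module.finrank ℂ V : ℂ) = (D : ℂ) / (C : ℂ) := by
    have h3 : (clCard y : ℂ) * (C : ℂ) = (Nat.card G : ℂ) := by exact_mod_cast hcl
    have h4 : (D : ℂ) * (Module.finrank ℂ V : ℂ) = (Nat.card G : ℂ) := by
      have := Nat.div_mul_cancel (finrank_dvd_card ρ)
      exact_mod_cast this
    have hCC : (C : ℂ) ≠ 0 := by exact_mod_cast hC0
    rw [div_eq_div_iff hdim hCC, h3, h4]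
  have h5 : ((D / 2 ^ d : ℕ) : ℂ) * ((2 ^ n : ℕ) : ℂ) /
      ((2 ^ (C.factorization 2 + γ) : ℕ) : ℂ) * (ρ.character y * ρ.character y⁻¹) =
      (((C / 2 ^ C.factorization 2 : ℕ) : ℂ) * ((2 ^ (n + e - d - γ) : ℕ) : ℂ)) * B := by
    rw [hB, hclD, eD, eC]
    have hCC : ((C / 2 ^ C.factorization 2 : ℕ) : ℂ) ≠ 0 := by
      intro h0
      rw [h0, mul_zero] at eC
      exact hC0 (by exact_mod_cast eC)
    have hpe : 2 ^ n * 2 ^ e * 1 = 2 ^ (n + e - d - γ) * 2 ^ d * 2 ^ γ := by
      rw [mul_one, ← pow_add, ← pow_add, ← pow_add]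
      congr 1
      omega
    have hpe' : ((2 : ℂ) ^ n) * (2 : ℂ) ^ e =
        (2 : ℂ) ^ (n + e - d - γ) * (2 : ℂ) ^ d * (2 : ℂ) ^ γ := by
      have := congrArg (Nat.cast : ℕ → ℂ) hpe
      push_cast at this
      rw [mul_one] at this
      exact this
    push_cast at hCC ⊢
    rw [pow_add]
    field_simp
    linear_combination (((D / 2 ^ d : ℕ) : ℂ) * ρ.character y * ρ.character y⁻¹) * hpe'
  refine ⟨D / 2 ^ d, Nat.not_dvd_ordCompl hp hD0, ?_, 2 * M, ?_⟩
  · rw [h5]
    exact ((H42.Wilde.isIntegral_natCast _).mul (H42.Wilde.isIntegral_natCast _)).mul hBint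
  · rw [h5, mul_pow, mul_div_assoc]
    exact (((H42.Wilde.isIntegral_natCast _).mul (H42.Wilde.isIntegral_natCast _)).pow _).mul hB2

omit [Fintype G] in
/-- The family of conjugates of a multiple of `χ(y) χ(y⁻¹)`. -/
theorem isCyc_family [NeZero (Nat.card G)] (c : ℚ) (y : G) :
    IsCyc (Nat.card G) (fun j => (c : ℂ) * (ρ.character (pw j y) * ρ.character (pw j y)⁻¹)) := by
  have h1 := (IsCyc.const (N := Nat.card G) c).mul
    ((IsCyc.char ρ y pow_card_eq_one').mul (IsCyc.char ρ y⁻¹ pow_card_eq_one'))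
  have h2 : (fun j : (ZMod (Nat.card G))ˣ => (c : ℂ) *
      (ρ.character (pw j y) * ρ.character (pw j y)⁻¹)) =
      fun j : (ZMod (Nat.card G))ˣ => (c : ℂ) *
        (ρ.character (y ^ (j : ZMod (Nat.card G)).val) *
        ρ.character ((y⁻¹) ^ (j : ZMod (Nat.card G)).val)) := by
    funext j
    rw [inv_pow]
    rfl
  rw [h2]
  exact h1

/-- The local theorem. -/
theorem wilde_q [ρ.IsIrreducible] (hp : p.Prime) (hN : Nat.card G = p ^ n * q) (hn : 1 ≤ n)
    (hq : ¬ p ∣ q) (x : G) (hx : ρ.character x ≠ 0) {a : ℕ} (ha : 1 ≤ a)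
    (ho : orderOf (x ^ q) = p ^ a) :
    a ≤ (Nat.card G / Module.finrank ℂ V).factorization p := by
  classical
  by_contra hcon
  push Not at hcon
  obtain ⟨d, hd⟩ : ∃ d, d = (Nat.card G / Module.finrank ℂ V).factorization p := ⟨_, rfl⟩
  rw [← hd] at hcon
  have hN0 : Nat.card G ≠ 0 := Nat.card_pos.ne'
  have hNe : NeZero (Nat.card G) := ⟨hN0⟩
  have hqN : q ∣ Nat.card G := by rw [hN]; exact dvd_mul_left _ _
  have hq0 : q ≠ 0 := by
    rintro rfl
    exact hq (dvd_zero _)
  let U : Finset G := univ.filter (fun y => ∃ j : (ZMod (Nat.card G))ˣ,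
    IsConj (y ^ q) (pw j (x ^ q)))
  have hUmem : ∀ y, y ∈ U ↔ ∃ j : (ZMod (Nat.card G))ˣ, IsConj (y ^ q) (pw j (x ^ q)) := by
    intro y
    simp [U]
  have hUc : ∀ g y, y ∈ U → g * y * g⁻¹ ∈ U := by
    intro g y hy
    rw [hUmem] at hy ⊢
    obtain ⟨j, hj⟩ := hy
    refine ⟨j, ?_⟩
    rw [conj_pow]
    exact (isConj_iff.mpr ⟨g⁻¹, by group⟩ : IsConj (g * y ^ q * g⁻¹) (y ^ q)).trans hj
  have hUJ : ∀ j : (ZMod (Nat.card G))ˣ, ∀ y ∈ U, pw j y ∈ U := by
    intro j y hy
    rw [hUmem] at hy ⊢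
    obtain ⟨i, hi⟩ := hy
    refine ⟨j * i, ?_⟩
    rw [pw_mul, pw_pow]
    exact isConj_pw j hi
  have hU1 : (1 : G) ∉ U := by
    intro h
    rw [hUmem] at h
    obtain ⟨j, hj⟩ := h
    rw [one_pow, isConj_one_right] at hj
    have h1 := pw_eq_one hj
    rw [h1, orderOf_one] at ho
    have := Nat.one_lt_pow (by omega : a ≠ 0) hp.one_lt
    omega
  have hUx : x ∈ U := by
    rw [hUmem]
    exact ⟨1, by rw [pw_one]⟩
  have hpw : ∀ (j : (ZMod (Nat.card G))ˣ) (w : G),
      Subgroup.zpowers (pw j w) = Subgroup.zpowers w := by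
    intro j w
    apply le_antisymm
    · rw [Subgroup.zpowers_le]
      exact Subgroup.npow_mem_zpowers _ _
    · rw [Subgroup.zpowers_le]
      have h1 : pw j⁻¹ (pw j w) = w := by rw [← pw_mul, inv_mul_cancel, pw_one]
      have h2 : pw j⁻¹ (pw j w) ∈ Subgroup.zpowers (pw j w) :=
        Subgroup.npow_mem_zpowers _ _
      rw [h1] at h2
      exact h2
  have hUo : ∀ y ∈ U, orderOf (y ^ q) = p ^ a := by
    intro y hy
    rw [hUmem] at hy
    obtain ⟨j, hj⟩ := hy
    have h1 := orderOf_of_isConj hj 1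
    rw [pow_one, pow_one] at h1
    rw [← h1, ← ho, ← Nat.card_zpowers, ← Nat.card_zpowers, hpw]
  have han : a ≤ n := by
    have h1 : p ^ a ∣ p ^ n * q := by
      rw [← ho, ← hN]; exact orderOf_dvd_natCard _
    have h2 : Nat.Coprime (p ^ a) q := ((hp.coprime_iff_not_dvd).mpr hq).pow_left _
    exact (Nat.pow_dvd_pow_iff_le_right hp.one_lt).mp (h2.dvd_of_dvd_mul_right h1)
  let J : Finset (ZMod (Nat.card G))ˣ := univ.filter (fun j => j ∈ JJ (Nat.card G) q hqN)
  have hJ : ∀ j, j ∈ J ↔ j ∈ JJ (Nat.card G) q hqN := by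
    intro j
    simp [J]
  -- the local divisibility
  have hloc : ∀ y ∈ U, ∃ κ : ℕ, ¬ p ∣ κ ∧ IsIntegral ℤ ((κ : ℂ) /
      ((p ^ ((Nat.card (Subgroup.centralizer {y})).factorization p +
        (Nat.card (Gam q hqN y)).factorization p) : ℕ) : ℂ) *
      ∑ j ∈ J, (ρ.character (pw j y) * ρ.character (pw j y)⁻¹)) := by
    intro y hy
    have hoy := hUo y hy
    obtain ⟨γ, hγ⟩ : ∃ γ, γ = (Nat.card (Gam q hqN y)).factorization p := ⟨_, rfl⟩
    rw [← hγ]
    have hG0 : Nat.card (Gam q hqN y) ≠ 0 := Nat.card_pos.ne'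
    have hγle : γ + 1 ≤ n := by
      have h1 := card_Gam_dvd hp hN hq hqN ha hoy
      have h1' : (Subgroup.centralizer {y ^ q}).relIndex
        (Subgroup.normalizer (Subgroup.zpowers (y ^ q) : Set G)) ∣ (p ^ a).totient := by
        have h2 := card_HH_mul_index (y ^ q)
        rw [card_HH, card_conj_eq_relIndex] at h2
        rw [← hoy]
        exact ⟨_, h2.symm⟩
      have hpa : 0 < (p ^ a).totient := Nat.totient_pos.mpr (pow_pos hp.pos _)
      have h3 := h1.trans (mul_dvd_mul_left (p ^ (n - a)) h1')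
      have h4 := (Nat.factorization_le_iff_dvd hG0
        (mul_ne_zero (pow_pos hp.pos _).ne' hpa.ne')).mpr h3 p
      have h5 : (p ^ a).totient.factorization p = a - 1 := by
        rw [Nat.totient_prime_pow hp ha]
        rw [Nat.factorization_mul (pow_pos hp.pos _).ne' (by have := hp.two_le; omega)]
        rw [Nat.factorization_pow, hp.factorization]
        have h3 : (p - 1).factorization p = 0 := by
          apply Nat.factorization_eq_zero_of_not_dvd
          intro h
          have := Nat.le_of_dvd (by have := hp.two_le; omega) h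
          have := hp.two_le
          omega
        simp [h3]
      rw [Nat.factorization_mul (pow_pos hp.pos _).ne' hpa.ne', Nat.factorization_pow,
        hp.factorization] at h4
      simp only [Finsupp.add_apply, Finsupp.smul_apply, smul_eq_mul, Finsupp.single_eq_same,
        mul_one] at h4
      omega
    have hγd : ∀ s, s ≤ γ → p ^ s ∣ Nat.card (Gam q hqN y) := by
      intro s hs
      exact (hp.pow_dvd_iff_le_factorization hG0).mpr (hγ ▸ hs)
    have hκ : a ≤ (Nat.card (Subgroup.centralizer {y})).factorization p := by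
      rw [← hp.pow_dvd_iff_le_factorization Nat.card_pos.ne', ← hoy]
      have h1 : y ^ q ∈ Subgroup.centralizer {y} := by
        rw [Subgroup.mem_centralizer_iff]
        intro h hh
        rw [Set.mem_singleton_iff] at hh
        subst hh
        exact ((Commute.refl h).pow_right q).eq
      have h2 := orderOf_dvd_natCard (⟨y ^ q, h1⟩ : Subgroup.centralizer {y})
      rwa [Subgroup.orderOf_mk] at h2
    have hoy' : orderOf (y⁻¹ ^ q) = p ^ a := by rw [inv_pow, orderOf_inv, hoy]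
    -- from the ordinary estimate
    have hord : (∃ κ : ℕ, ¬ p ∣ κ ∧ IsIntegral ℤ ((κ : ℂ) * ((p ^ (n - 1) : ℕ) : ℂ) /
          ((p ^ ((Nat.card (Subgroup.centralizer {y})).factorization p + γ) : ℕ) : ℂ) *
          (ρ.character y * ρ.character y⁻¹))) → ∃ κ : ℕ, ¬ p ∣ κ ∧ IsIntegral ℤ ((κ : ℂ) /
      ((p ^ ((Nat.card (Subgroup.centralizer {y})).factorization p + γ) : ℕ) : ℂ) *
      ∑ j ∈ J, (ρ.character (pw j y) * ρ.character (pw j y)⁻¹)) := by
      rintro ⟨κ, hκ1, hκ2⟩
      refine ⟨κ, hκ1, ?_⟩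
      set w := (Nat.card (Subgroup.centralizer {y})).factorization p + γ with hw
      have hc : (((κ : ℚ) * ((p ^ (n - 1) : ℕ) : ℚ) / ((p ^ w : ℕ) : ℚ) : ℚ) : ℂ) =
          (κ : ℂ) * ((p ^ (n - 1) : ℕ) : ℂ) / ((p ^ w : ℕ) : ℂ) := by
        push_cast
        rfl
      have h1 := trace_gain hp hN hn hq hqN J hJ
        (isCyc_family ρ ((κ : ℚ) * ((p ^ (n - 1) : ℕ) : ℚ) / ((p ^ w : ℕ) : ℚ)) y)
        (by rw [pw_one, hc]; exact hκ2)
      simp only [hc] at h1
      rw [← Finset.mul_sum] at h1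
      have hpn : ((p ^ (n - 1) : ℕ) : ℂ) ≠ 0 := by
        exact_mod_cast (pow_pos hp.pos (n - 1)).ne'
      have h2 : (κ : ℂ) / ((p ^ w : ℕ) : ℂ) *
          ∑ j ∈ J, (ρ.character (pw j y) * ρ.character (pw j y)⁻¹) =
          ((p ^ (n - 1) : ℕ) : ℂ)⁻¹ * ((κ : ℂ) * ((p ^ (n - 1) : ℕ) : ℂ) / ((p ^ w : ℕ) : ℂ) *
          ∑ j ∈ J, (ρ.character (pw j y) * ρ.character (pw j y)⁻¹)) := by
        field_simp
      rw [h2]
      exact h1
    -- application of the main lemma with `k = a - e`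
    have happ : ∀ k : ℕ, 1 ≤ k → k ≤ a →
        (∀ i : ℕ, i ≡ 1 [MOD p ^ k * q] → IsConj y (y ^ i)) → γ + d + 1 ≤ n + (a - k) →
        ∃ κ : ℕ, ¬ p ∣ κ ∧ IsIntegral ℤ ((κ : ℂ) /
      ((p ^ ((Nat.card (Subgroup.centralizer {y})).factorization p + γ) : ℕ) : ℂ) *
      ∑ j ∈ J, (ρ.character (pw j y) * ρ.character (pw j y)⁻¹)) := by
      intro k hk1 hka hH hcond
      have hH' : ∀ i : ℕ, i ≡ 1 [MOD p ^ k * q] → IsConj y⁻¹ (y⁻¹ ^ i) := by
        intro i hi
        rw [inv_pow]
        exact isConj_inv_inv (hH i hi)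
      exact hord (loc_of_main ρ hp (main_lemma_all ρ hp hN hq hoy hk1 hka hH)
        (main_lemma_all ρ hp hN hq hoy' hk1 hka hH') (by rw [← hd]; exact hcond))
    by_cases hone : γ + a ≤ n + 1
    · exact hord (loc_of_central ρ hp (by rw [← hd]; omega))
    · by_cases hp2 : p = 2
      · subst hp2
        by_cases hfull : γ + 1 = n
        · apply happ 1 le_rfl ha _ (by omega)
          exact conj_of_card_two' hN hq hqN hn (hγd _ (by omega))
        · by_cases h4 : ∀ j ∈ Gam q hqN y, (j : ZMod (Nat.card G)).val % 4 = 1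
          · apply happ (n - γ) (by omega) (by omega) _ (by omega)
            exact conj_of_card_four hN hq hqN (by omega) (by omega) h4 (hγd _ (by omega))
          · push Not at h4
            obtain ⟨j0, hj0, hj4⟩ := h4
            have hH := conj_of_card_two hN hq hqN (k := n - γ + 1) (y := y) (by omega) (by omega)
              (hγd _ (by omega))
            by_cases hd2 : d + 2 ≤ a
            · exact happ (n - γ + 1) (by omega) (by omega) hH (by omega)
            · have hH' : ∀ i : ℕ, i ≡ 1 [MOD 2 ^ (n - γ + 1) * q] → IsConj y⁻¹ (y⁻¹ ^ i) := by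
                intro i hi
                rw [inv_pow]
                exact isConj_inv_inv (hH i hi)
              have hG2 : 2 ^ (n - a) * 2 ^ (a - (n - γ + 1) + 1) ∣ Nat.card (Gam q hqN y) := by
                rw [← pow_add]
                exact hγd _ (by omega)
              obtain ⟨κ, hκ1, hκ2, M, hM⟩ := loc_of_main_two ρ (n := n) (γ := γ)
                (main_lemma_all ρ hp hN hq hoy (by omega) (by omega) hH)
                (main_lemma_all ρ hp hN hq hoy' (by omega) (by omega) hH')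
                (main_lemma_two ρ hN hq hqN hoy (by omega) (by omega) hH hG2)
                (by rw [← hd]; omega)
              refine ⟨κ, hκ1, ?_⟩
              set w := (Nat.card (Subgroup.centralizer {y})).factorization 2 + γ with hw
              have hc : (((κ : ℚ) * ((2 ^ n : ℕ) : ℚ) / ((2 ^ w : ℕ) : ℚ) : ℚ) : ℂ) =
                  (κ : ℂ) * ((2 ^ n : ℕ) : ℂ) / ((2 ^ w : ℕ) : ℂ) := by
                push_cast
                rfl
              have h40 : 4 ∣ Nat.card G := by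
                rw [hN]
                exact (pow_dvd_pow 2 (by omega : 2 ≤ n)).mul_right q
              have hj3 : (j0 : ZMod (Nat.card G)).val % 4 = 3 := by
                have h5 : Nat.Coprime (j0 : ZMod (Nat.card G)).val (Nat.card G) :=
                  ZMod.val_coe_unit_coprime j0
                have h6 : Nat.Coprime (j0 : ZMod (Nat.card G)).val 2 :=
                  h5.coprime_dvd_right ((by norm_num : 2 ∣ 4).trans h40)
                rw [Nat.coprime_comm, Nat.prime_two.coprime_iff_not_dvd] at h6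
                omega
              have hfix : ρ.character (pw j0 y) * ρ.character (pw j0 y)⁻¹ =
                  ρ.character y * ρ.character y⁻¹ := by
                obtain ⟨c, hc'⟩ := isConj_iff.mp hj0.2
                have h5 : (pw j0 y)⁻¹ = c * y⁻¹ * c⁻¹ := by rw [← hc']; group
                rw [h5, ← hc', char_conj, char_conj]
              have h1 := trace_gain_two hN (by omega) hq hqN J hJ
                (isCyc_family ρ ((κ : ℚ) * ((2 ^ n : ℕ) : ℚ) / ((2 ^ w : ℕ) : ℚ)) y)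
                (by rw [pw_one, hc]; exact hκ2) j0 ((hJ j0).mpr hj0.1) hj3
                (by rw [hfix, pw_one]) M (by rw [pw_one, hc]; exact hM)
              simp only [hc] at h1
              rw [← Finset.mul_sum] at h1
              have hpn : ((2 ^ n : ℕ) : ℂ) ≠ 0 := by
                exact_mod_cast (pow_pos (by norm_num : 0 < 2) n).ne'
              have h2 : (κ : ℂ) / ((2 ^ w : ℕ) : ℂ) *
                  ∑ j ∈ J, (ρ.character (pw j y) * ρ.character (pw j y)⁻¹) =
                  ((2 ^ n : ℕ) : ℂ)⁻¹ * ((κ : ℂ) * ((2 ^ n : ℕ) : ℂ) / ((2 ^ w : ℕ) : ℂ) *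
                  ∑ j ∈ J, (ρ.character (pw j y) * ρ.character (pw j y)⁻¹)) := by
                field_simp
              rw [h2]
              exact h1
      · apply happ (n - γ) (by omega) (by omega) _ (by omega)
        exact conj_of_card_odd hp hp2 hN hq hqN (by omega) (by omega) (hγd _ (by omega))
  obtain ⟨κ, hκ, hint⟩ := sum_p_integral' ρ hp hN hn hq hqN J hJ U hUc
    (fun j _ y hy => hUJ j y hy) hloc
  have hNC : (Nat.card G : ℂ) = ((p ^ n : ℕ) : ℂ) * (q : ℂ) := by
    rw [hN]; push_cast; rfl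
  have hpnC : ((p ^ n : ℕ) : ℂ) ≠ 0 := by
    exact_mod_cast (pow_pos hp.pos n).ne'
  have hqC : (q : ℂ) ≠ 0 := by exact_mod_cast hq0
  have hS : IsIntegral ℤ ((Nat.card G : ℂ)⁻¹ * ∑ y ∈ U, ρ.character y * ρ.character y⁻¹) := by
    apply isIntegral_of_forall_prime
    intro r hr
    by_cases hrp : r = p
    · subst hrp
      refine ⟨κ * q, ?_, ?_⟩
      · intro h
        rcases (hr.dvd_mul).mp h with h | h
        · exact hκ h
        · exact hq h
      · have h1 : ((κ * q : ℕ) : ℂ) * ((Nat.card G : ℂ)⁻¹ *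
            ∑ y ∈ U, ρ.character y * ρ.character y⁻¹) =
            (κ : ℂ) * ((r ^ n : ℕ) : ℂ)⁻¹ * ∑ y ∈ U, ρ.character y * ρ.character y⁻¹ := by
          rw [hNC]
          push_cast at hpnC ⊢
          field_simp
        rw [h1]
        exact hint
    · refine ⟨Nat.card G / r ^ (Nat.card G).factorization r, Nat.not_dvd_ordCompl hr hN0, ?_⟩
      have h1 := isIntegral_union_q ρ hp hr hrp hN U hUc (by
        intro y z hyz
        rw [hUmem, hUmem, hyz])
      have h2 : (Nat.card G : ℂ) = ((r ^ (Nat.card G).factorization r : ℕ) : ℂ) *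
          ((Nat.card G / r ^ (Nat.card G).factorization r : ℕ) : ℂ) := by
        have : r ^ (Nat.card G).factorization r *
          (Nat.card G / r ^ (Nat.card G).factorization r) = Nat.card G :=
          Nat.ordProj_mul_ordCompl_eq_self _ r
        exact_mod_cast congrArg (Nat.cast : ℕ → ℂ) this.symm
      have hr0 : ((r ^ (Nat.card G).factorization r : ℕ) : ℂ) ≠ 0 := by
        have := pow_ne_zero ((Nat.card G).factorization r) hr.ne_zero
        exact_mod_cast this
      have hr1 : ((Nat.card G / r ^ (Nat.card G).factorization r : ℕ) : ℂ) ≠ 0 := by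
        intro h0
        rw [h0, mul_zero] at h2
        exact hN0 (by exact_mod_cast h2)
      have h3 : ((Nat.card G / r ^ (Nat.card G).factorization r : ℕ) : ℂ) *
          ((Nat.card G : ℂ)⁻¹ * ∑ y ∈ U, ρ.character y * ρ.character y⁻¹) =
          (((r ^ (Nat.card G).factorization r : ℕ) : ℂ))⁻¹ *
          ∑ y ∈ U, ρ.character y * ρ.character y⁻¹ := by
        rw [h2]
        push_cast at hr0 hr1 ⊢
        field_simp
      rw [h3]
      exact h1
  exact hx (no_integral_sum ρ U hU1 hUJ hS x hUx)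

end

section
variable {G V : Type*} [Group G] [Finite G] [AddCommGroup V] [Module ℂ V] [FiniteDimensional ℂ V]
  (ρ : Representation ℂ G V)

/-- Wilde's conjecture. -/
theorem wilde [ρ.IsIrreducible] (x : G) (hx : ρ.character x ≠ 0) :
    orderOf x ∣ Nat.card G / Module.finrank ℂ V := by
  have : Fintype G := Fintype.ofFinite G
  have hx0 : orderOf x ≠ 0 := (orderOf_pos x).ne'
  have hN0 : Nat.card G ≠ 0 := Nat.card_pos.ne'
  have he0 : Nat.card G / Module.finrank ℂ V ≠ 0 :=
    (Nat.div_pos (Nat.le_of_dvd Nat.card_pos (finrank_dvd_card ρ))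
      (finrank_pos_of_irreducible ρ)).ne'
  rw [← Nat.factorization_prime_le_iff_dvd hx0 he0]
  intro p hp
  rcases Nat.eq_zero_or_pos ((orderOf x).factorization p) with ha | ha
  · rw [ha]
    exact Nat.zero_le _
  · have hpx : p ∣ orderOf x := Nat.dvd_of_factorization_pos ha.ne'
    have hN : Nat.card G = p ^ (Nat.card G).factorization p *
        (Nat.card G / p ^ (Nat.card G).factorization p) :=
      (Nat.ordProj_mul_ordCompl_eq_self _ _).symm
    have hq : ¬ p ∣ Nat.card G / p ^ (Nat.card G).factorization p := Nat.not_dvd_ordCompl hp hN0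
    have hn : 1 ≤ (Nat.card G).factorization p :=
      hp.factorization_pos_of_dvd hN0 (hpx.trans (orderOf_dvd_natCard x))
    exact wilde_q ρ hp hN hn hq x hx ha (pow_mem_zpowers_iff_ppart hp hq hN x)

end

end Pool.Agent.H57.Wilde
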