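import Mathlib
import Pool.Agent.H57.Wilde.GA
import Pool.Agent.H57.Wilde.AV

/-!
The main lemma: the class sum is divisible by `p ^ (a - k)`.
-/

namespace Pool.Agent.H57.Wilde

open Finset Representation Pool.Agent.H42.Wilde



section group

variable {G : Type*} [Group G]

/-- Powers generating the same cyclic group normalise the same subgroups. -/
theorem conj_mem_zpowers_pow {y r : G} (h : y * r * y⁻¹ ∈ Subgroup.zpowers r) (i : ℕ) :
    y ^ i * r * (y ^ i)⁻¹ ∈ Subgroup.zpowers r := by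
  induction i with
  | zero => simp
  | succ i ih =>
    obtain ⟨j, hj⟩ := Subgroup.mem_zpowers_iff.1 ih
    have h1 : y ^ (i + 1) * r * (y ^ (i + 1))⁻¹ = y * (y ^ i * r * (y ^ i)⁻¹) * y⁻¹ := by
      rw [pow_succ']; group
    rw [h1, ← hj]
    have h2 : y * r ^ j * y⁻¹ = (y * r * y⁻¹) ^ j := (conj_zpow).symm
    rw [h2]
    exact Subgroup.zpow_mem _ h _

/-- If `y` is a power of `y'` and `y'` is a power of `y`. -/
theorem conj_mem_zpowers_iff {y y' r : G} (h1 : ∃ i : ℕ, y' = y ^ i) (h2 : ∃ i : ℕ, y = y' ^ i) :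
    y * r * y⁻¹ ∈ Subgroup.zpowers r ↔ y' * r * y'⁻¹ ∈ Subgroup.zpowers r := by
  obtain ⟨i, hi⟩ := h1
  obtain ⟨j, hj⟩ := h2
  constructor
  · intro h
    rw [hi]
    exact conj_mem_zpowers_pow h i
  · intro h
    rw [hj]
    exact conj_mem_zpowers_pow h j

theorem centralizer_eq_of_powers {y y' : G} (h1 : ∃ i : ℕ, y' = y ^ i) (h2 : ∃ i : ℕ, y = y' ^ i) :
    Subgroup.centralizer {y} = Subgroup.centralizer {y'} := by
  obtain ⟨i, hi⟩ := h1
  obtain ⟨j, hj⟩ := h2
  ext g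
  rw [Subgroup.mem_centralizer_singleton_iff, Subgroup.mem_centralizer_singleton_iff]
  constructor
  · intro h
    rw [hi]
    exact (Commute.pow_right (show Commute g y from h) i)
  · intro h
    rw [hj]
    exact (Commute.pow_right (show Commute g y' from h) j)

theorem zpowers_pow_eq {y y' : G} (h1 : ∃ i : ℕ, y' = y ^ i) (h2 : ∃ i : ℕ, y = y' ^ i) (m : ℕ) :
    Subgroup.zpowers (y ^ m) = Subgroup.zpowers (y' ^ m) := by
  obtain ⟨i, hi⟩ := h1
  obtain ⟨j, hj⟩ := h2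
  apply le_antisymm
  · rw [Subgroup.zpowers_le]
    have h : y ^ m = (y' ^ m) ^ j := by
      conv_lhs => rw [hj]
      rw [← pow_mul, ← pow_mul, mul_comm]
    rw [h]
    exact Subgroup.pow_mem _ (Subgroup.mem_zpowers _) _
  · rw [Subgroup.zpowers_le]
    have h : y' ^ m = (y ^ m) ^ i := by
      rw [hi, ← pow_mul, ← pow_mul, mul_comm]
    rw [h]
    exact Subgroup.pow_mem _ (Subgroup.mem_zpowers _) _

variable [Finite G]

theorem NN_eq {m : ℕ} {y y' : G} (h1 : ∃ i : ℕ, y' = y ^ i) (h2 : ∃ i : ℕ, y = y' ^ i) :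
    NN m y = NN m y' := by
  have key : ∀ {y y' : G}, (∃ i : ℕ, y' = y ^ i) → NN m y ≤ NN m y' := by
    rintro y y' ⟨i, rfl⟩ g ⟨j, hj, hg⟩
    refine ⟨j, hj, ?_⟩
    rw [← conj_pow, hg, ← pow_mul, ← pow_mul, mul_comm]
  exact le_antisymm (key h1) (key h2)

omit [Finite G] in
theorem conj_mem_zpowers_congr {y r r' : G} (h : Subgroup.zpowers r = Subgroup.zpowers r') :
    y * r * y⁻¹ ∈ Subgroup.zpowers r ↔ y * r' * y⁻¹ ∈ Subgroup.zpowers r' := by
  have key : ∀ {r r' : G}, Subgroup.zpowers r = Subgroup.zpowers r' →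
      y * r * y⁻¹ ∈ Subgroup.zpowers r → y * r' * y⁻¹ ∈ Subgroup.zpowers r' := by
    intro r r' h h1
    have h2 : r' ∈ Subgroup.zpowers r := h ▸ Subgroup.mem_zpowers r'
    obtain ⟨j, hj⟩ := Subgroup.mem_zpowers_iff.1 h2
    have h3 : y * r' * y⁻¹ = (y * r * y⁻¹) ^ j := by
      rw [← hj]; exact (conj_zpow).symm
    rw [h3, ← h]
    exact Subgroup.zpow_mem _ h1 _
  exact ⟨key h, key h.symm⟩

variable {p q k : ℕ}

omit [Finite G] in
theorem tt_left {y y' z : G} (h1 : ∃ i : ℕ, y' = y ^ i) (h2 : ∃ i : ℕ, y = y' ^ i) :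
    tt p q k y z = tt p q k y' z := by
  unfold tt
  congr 1
  ext t
  simp only [Set.mem_ofPred_eq]
  rw [conj_mem_zpowers_congr (zpowers_pow_eq h1 h2 (p ^ t * q))]

omit [Finite G] in
theorem tt_right {y z z' : G} (h1 : ∃ i : ℕ, z' = z ^ i) (h2 : ∃ i : ℕ, z = z' ^ i) :
    tt p q k y z = tt p q k y z' := by
  unfold tt
  congr 1
  ext t
  simp only [Set.mem_ofPred_eq]
  rw [conj_mem_zpowers_iff h1 h2]

theorem II_left {y y' z : G} (h1 : ∃ i : ℕ, y' = y ^ i) (h2 : ∃ i : ℕ, y = y' ^ i) :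
    II p q k y z = II p q k y' z := by
  unfold II
  rw [tt_left h1 h2, NN_eq h1 h2]

theorem II_right {y z z' : G} (h1 : ∃ i : ℕ, z' = z ^ i) (h2 : ∃ i : ℕ, z = z' ^ i) :
    II p q k y z = II p q k y z' := by
  unfold II
  rw [tt_right h1 h2, centralizer_eq_of_powers h1 h2]

omit [Finite G] in
theorem conj_zpowers_iff (g y z : G) (m : ℕ) :
    (g * z * g⁻¹) * (g * y * g⁻¹) ^ m * (g * z * g⁻¹)⁻¹ ∈ Subgroup.zpowers ((g * y * g⁻¹) ^ m) ↔
      z * y ^ m * z⁻¹ ∈ Subgroup.zpowers (y ^ m) := by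
  have h1 : (g * z * g⁻¹) * (g * y * g⁻¹) ^ m * (g * z * g⁻¹)⁻¹ = g * (z * y ^ m * z⁻¹) * g⁻¹ := by
    rw [conj_pow]; group
  rw [h1, conj_pow, Subgroup.mem_zpowers_iff, Subgroup.mem_zpowers_iff]
  constructor
  · rintro ⟨j, hj⟩
    refine ⟨j, ?_⟩
    rw [conj_zpow] at hj
    have h2 := congrArg (fun w => g⁻¹ * w * g) hj
    simpa [mul_assoc] using h2
  · rintro ⟨j, hj⟩
    refine ⟨j, ?_⟩
    rw [conj_zpow, hj]

omit [Finite G] in
theorem tt_conj (g y z : G) : tt p q k (g * y * g⁻¹) (g * z * g⁻¹) = tt p q k y z := by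
  unfold tt
  congr 1
  ext t
  simp only [Set.mem_ofPred_eq]
  rw [conj_zpowers_iff]

theorem mem_NN_conj {m : ℕ} (g y w : G) : g * w * g⁻¹ ∈ NN m (g * y * g⁻¹) ↔ w ∈ NN m y := by
  rw [mem_NN, mem_NN]
  constructor
  · rintro ⟨i, hi, h⟩
    refine ⟨i, hi, ?_⟩
    have h1 : g * w * g⁻¹ * (g * y * g⁻¹) * (g * w * g⁻¹)⁻¹ = g * (w * y * w⁻¹) * g⁻¹ := by group
    rw [h1, conj_pow] at h
    have h2 := congrArg (fun w => g⁻¹ * w * g) h
    simpa [mul_assoc] using h2
  · rintro ⟨i, hi, h⟩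
    refine ⟨i, hi, ?_⟩
    have h1 : g * w * g⁻¹ * (g * y * g⁻¹) * (g * w * g⁻¹)⁻¹ = g * (w * y * w⁻¹) * g⁻¹ := by group
    rw [h1, h, conj_pow]

theorem II_conj (g y z : G) : II p q k (g * y * g⁻¹) (g * z * g⁻¹) = II p q k y z := by
  unfold II
  rw [tt_conj]
  set m := p ^ tt p q k y z * q
  have h1 : NN m (g * y * g⁻¹) = (NN m y).map (MulAut.conj g).toMonoidHom := by
    ext w
    rw [Subgroup.mem_map]
    constructor
    · intro hw
      refine ⟨g⁻¹ * w * g, ?_, ?_⟩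
      · rw [← mem_NN_conj g]
        have h2 : g * (g⁻¹ * w * g) * g⁻¹ = w := by group
        rw [h2]; exact hw
      · simp [MulAut.conj_apply, mul_assoc]
    · rintro ⟨v, hv, rfl⟩
      exact (mem_NN_conj g y v).2 hv
  have h2 : Subgroup.centralizer {g * z * g⁻¹}
      = (Subgroup.centralizer {z}).map (MulAut.conj g).toMonoidHom := by
    ext w
    rw [Subgroup.mem_map]
    constructor
    · intro hw
      rw [Subgroup.mem_centralizer_singleton_iff] at hw
      refine ⟨g⁻¹ * w * g, ?_, ?_⟩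
      · rw [Subgroup.mem_centralizer_singleton_iff]
        have h3 := congrArg (fun v => g⁻¹ * v * g) hw
        simpa [mul_assoc] using h3
      · simp [MulAut.conj_apply, mul_assoc]
    · rintro ⟨v, hv, rfl⟩
      rw [Subgroup.mem_centralizer_singleton_iff] at hv
      rw [Subgroup.mem_centralizer_singleton_iff]
      change g * v * g⁻¹ * (g * z * g⁻¹) = g * z * g⁻¹ * (g * v * g⁻¹)
      have h3 : g * v * g⁻¹ * (g * z * g⁻¹) = g * (v * z) * g⁻¹ := by group
      rw [h3, hv]; group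
  rw [h1, h2]
  exact Subgroup.relIndex_map_map_of_injective _ _ (MulAut.conj g).injective

/-- Elements of `NN m y` conjugate `y` to a power generating the same cyclic group. -/
theorem powers_of_mem_NN {m : ℕ} {y c : G} (hc : c ∈ NN m y) :
    (∃ i : ℕ, c * y * c⁻¹ = y ^ i) ∧ (∃ i : ℕ, y = (c * y * c⁻¹) ^ i) := by
  refine ⟨?_, ?_⟩
  · obtain ⟨i, _, hi⟩ := hc
    exact ⟨i, hi⟩
  · obtain ⟨i, _, hi⟩ := (NN m y).inv_mem hc
    refine ⟨i, ?_⟩
    rw [conj_pow, ← hi]
    group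

theorem II_of_mem_NN {m : ℕ} {y c : G} (hc : c ∈ NN m y) (z : G) :
    tt p q k y (c * z * c⁻¹) = tt p q k y z := by
  obtain ⟨h1, h2⟩ := powers_of_mem_NN hc
  rw [tt_left h1 h2, tt_conj]

end group

section exchange

variable {G : Type*} [Group G] [Fintype G]

open Classical in
theorem exchange (Φ : G → G → ℂ) (hc : ∀ g u v, Φ (g * u * g⁻¹) (g * v * g⁻¹) = Φ u v) (y : G) :
    ∑ v ∈ univ.filter (fun z => IsConj y z), Φ y v =
      ∑ u ∈ univ.filter (fun z => IsConj y z), Φ u y := by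
  set K : Finset G := univ.filter (fun z => IsConj y z) with hK
  have hmem : ∀ z, z ∈ K ↔ IsConj y z := by
    intro z; rw [hK, mem_filter]; simp
  have hconj : ∀ g z, z ∈ K → g * z * g⁻¹ ∈ K := by
    intro g z hz
    rw [hmem] at hz ⊢
    exact hz.trans (isConj_iff.2 ⟨g, rfl⟩)
  have hre : ∀ (g : G) (f : G → ℂ), ∑ v ∈ K, f (g * v * g⁻¹) = ∑ v ∈ K, f v := by
    intro g f
    refine Finset.sum_bij' (fun v _ => g * v * g⁻¹) (fun v _ => g⁻¹ * v * g) ?_ ?_ ?_ ?_ ?_
    · intro v hv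
      exact hconj g v hv
    · intro v hv
      have := hconj g⁻¹ v hv
      rwa [inv_inv] at this
    · intro v _
      group
    · intro v _
      group
    · intro v _
      rfl
  have h1 : ∀ u ∈ K, ∑ v ∈ K, Φ u v = ∑ v ∈ K, Φ y v := by
    intro u hu
    rw [hmem] at hu
    obtain ⟨g, rfl⟩ := isConj_iff.1 hu
    rw [← hre g]
    exact Finset.sum_congr rfl fun v _ => hc g y v
  have h2 : ∀ v ∈ K, ∑ u ∈ K, Φ u v = ∑ u ∈ K, Φ u y := by
    intro v hv
    rw [hmem] at hv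
    obtain ⟨g, rfl⟩ := isConj_iff.1 hv
    rw [← hre g (fun u => Φ u (g * y * g⁻¹))]
    exact Finset.sum_congr rfl fun u _ => hc g u y
  have h3 : ∑ u ∈ K, ∑ v ∈ K, Φ u v = ∑ v ∈ K, ∑ u ∈ K, Φ u v := Finset.sum_comm
  rw [Finset.sum_congr rfl h1, Finset.sum_congr rfl h2, Finset.sum_const, Finset.sum_const,
    nsmul_eq_mul, nsmul_eq_mul] at h3
  have h4 : (K.card : ℂ) ≠ 0 := by
    have : y ∈ K := (hmem y).2 (IsConj.refl y)
    exact_mod_cast (Finset.card_pos.2 ⟨y, this⟩).ne'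
  exact mul_left_cancel₀ h4 h3

end exchange

section main

variable {G V : Type*} [Group G] [Fintype G] [AddCommGroup V] [Module ℂ V] [FiniteDimensional ℂ V]
  (ρ : Representation ℂ G V) {p q : ℕ}

open Classical in
/-- The pairs with a fixed value of `tt`. -/
theorem part_t {a k e t : ℕ} {y : G} (ho : orderOf (y ^ q) = p ^ a) (hka : k ≤ a)
    (hH : ∀ i : ℕ, i ≡ 1 [MOD p ^ k * q] → IsConj y (y ^ i)) (hkt : k ≤ t)
    (S : Finset G) (hS : ∀ c ∈ NN (p ^ t * q) y, ∀ z ∈ S, c * z * c⁻¹ ∈ S)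
    (ht : ∀ z ∈ S, tt p q k y z = t) (hd : ∀ z ∈ S, p ^ e ∣ II p q k y z) :
    IsIntegral ℤ (((p ^ e : ℕ) : ℂ)⁻¹ * ∑ z ∈ S, ρ.character (y * z)) := by
  set m := p ^ t * q with hm
  set R := Subgroup.zpowers (y ^ m) with hR
  have hkm : p ^ k * q ∣ m := Nat.mul_dvd_mul_right (pow_dvd_pow p hkt) q
  have hS' : ∀ c ∈ NN m y, ∀ z ∈ S, c⁻¹ * z * c ∈ S := by
    intro c hc z hz
    have := hS c⁻¹ ((NN m y).inv_mem hc) z hz
    rwa [inv_inv] at this
  -- translation by elements of `R`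
  have step1 : ∀ h ∈ R, ∑ z ∈ S, ρ.character (h * (y * z)) = ∑ z ∈ S, ρ.character (y * z) := by
    intro h hh
    have h1 : h ∈ Submonoid.powers (y ^ m) := mem_powers_iff_mem_zpowers.2 hh
    obtain ⟨j, hj⟩ := Submonoid.mem_powers_iff _ _ |>.1 h1
    have h2 : m * j + 1 ≡ 1 [MOD m] := by simp
    obtain ⟨c, hc⟩ := isConj_iff.1 (hH (m * j + 1) (h2.of_dvd hkm))
    have hcN : c ∈ NN m y := ⟨_, h2, hc⟩
    have h3 : h * y = c * y * c⁻¹ := by
      rw [hc, ← hj, ← pow_mul, pow_succ]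
    symm
    refine Finset.sum_bij' (fun z _ => c * z * c⁻¹) (fun z _ => c⁻¹ * z * c) ?_ ?_ ?_ ?_ ?_
    · intro z hz
      exact hS c hcN z hz
    · intro z hz
      exact hS' c hcN z hz
    · intro z _
      group
    · intro z _
      group
    · intro z _
      have h4 : h * (y * (c * z * c⁻¹)) = c * (y * z) * c⁻¹ := by
        rw [← mul_assoc, h3]; group
      rw [h4, char_conj]
  have hcard : (Nat.card R : ℂ) ≠ 0 := by exact_mod_cast Nat.card_pos.ne'
  let g : G → ℂ := fun z => (Nat.card R : ℂ)⁻¹ * ∑ h : R, ρ.character ((h : G) * (y * z))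
  have step2 : ∑ z ∈ S, ρ.character (y * z) = ∑ z ∈ S, g z := by
    simp only [g]
    rw [← Finset.mul_sum, Finset.sum_comm]
    have h1 : ∀ h ∈ (univ : Finset R), ∑ z ∈ S, ρ.character ((h : G) * (y * z))
        = ∑ z ∈ S, ρ.character (y * z) := fun h _ => step1 h h.2
    rw [Finset.sum_congr rfl h1, Finset.sum_const, Finset.card_univ, ← Nat.card_eq_fintype_card,
      nsmul_eq_mul, ← mul_assoc, inv_mul_cancel₀ hcard, one_mul]
  -- the action
  let φ : NN m y →* ConjAct G := (ConjAct.toConjAct (G := G)).toMonoidHom.comp (NN m y).subtype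
  let _ : MulAction (NN m y) G := MulAction.compHom G φ
  have hsmul : ∀ (c : NN m y) (x : G), c • x = (c : G) * x * (c : G)⁻¹ := fun c x => rfl
  let A : G → ℂ := fun z => if z ∈ S then g z else 0
  have step3 : ∑ z ∈ S, g z = ∑ z, A z := by
    simp only [A]
    rw [← Finset.sum_filter]
    congr 1
    ext z
    simp
  have hg : ∀ (c : NN m y) (z : G), g ((c : G) * z * (c : G)⁻¹) = g z := by
    intro c z
    simp only [g]
    congr 1
    -- `c⁻¹ y c = r y`
    have hci := (NN m y).inv_mem c.2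
    obtain ⟨i, hi, hi'⟩ := hci
    rw [inv_inv] at hi'
    have hr : y ^ i * y⁻¹ ∈ R := by
      obtain ⟨s, hs⟩ := (Nat.modEq_iff_dvd.1 hi.symm : (m : ℤ) ∣ (i : ℤ) - (1 : ℕ))
      have h1 : y ^ i * y⁻¹ = (y ^ m) ^ s := by
        have h2 : y ^ i * y⁻¹ = y ^ ((i : ℤ) - (1 : ℕ)) := by
          rw [zpow_sub]; simp
        rw [h2, hs, zpow_mul, zpow_natCast]
      rw [h1]
      exact Subgroup.zpow_mem _ (Subgroup.mem_zpowers _) s
    have hci2 : ∀ h ∈ R, (c : G)⁻¹ * h * (c : G) ∈ R := by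
      intro h hh
      have := conj_pow_mem_zpowers ((NN m y).inv_mem c.2) m hh
      rwa [inv_inv] at this
    refine Finset.sum_bij' (fun h _ => (⟨(c : G)⁻¹ * h * (c : G) * (y ^ i * y⁻¹),
      R.mul_mem (hci2 h h.2) hr⟩ : R))
      (fun h _ => (⟨(c : G) * ((h : G) * (y ^ i * y⁻¹)⁻¹) * (c : G)⁻¹,
        conj_pow_mem_zpowers c.2 m (R.mul_mem h.2 (R.inv_mem hr))⟩ : R)) ?_ ?_ ?_ ?_ ?_
    · intro h _
      exact mem_univ _
    · intro h _
      exact mem_univ _
    · intro h _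
      apply Subtype.ext
      change (c : G) * ((c : G)⁻¹ * h * (c : G) * (y ^ i * y⁻¹) * (y ^ i * y⁻¹)⁻¹) * (c : G)⁻¹ = h
      group
    · intro h _
      apply Subtype.ext
      change (c : G)⁻¹ * ((c : G) * ((h : G) * (y ^ i * y⁻¹)⁻¹) * (c : G)⁻¹) * (c : G)
        * (y ^ i * y⁻¹) = h
      group
    · intro h _
      change ρ.character ((h : G) * (y * ((c : G) * z * (c : G)⁻¹)))
        = ρ.character ((c : G)⁻¹ * h * (c : G) * (y ^ i * y⁻¹) * (y * z))
      have h1 : (c : G)⁻¹ * h * (c : G) * (y ^ i * y⁻¹) * (y * z)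
          = (c : G)⁻¹ * ((h : G) * (y * ((c : G) * z * (c : G)⁻¹))) * ((c : G)⁻¹)⁻¹ := by
        rw [inv_inv, ← hi']
        group
      rw [h1, char_conj]
  have hA : ∀ (c : NN m y) (z : G), A (c • z) = A z := by
    intro c z
    simp only [A]
    rw [hsmul]
    by_cases hz : z ∈ S
    · rw [if_pos hz, if_pos (hS c c.2 z hz), hg]
    · rw [if_neg hz, if_neg]
      intro h1
      apply hz
      have h2 := hS' c c.2 _ h1
      have h3 : (c : G)⁻¹ * ((c : G) * z * (c : G)⁻¹) * (c : G) = z := by group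
      rwa [h3] at h2
  rw [step2, step3]
  apply isIntegral_sum_of_orbit (G := NN m y) A hA
  intro z
  simp only [A]
  by_cases hz : z ∈ S
  · rw [if_pos hz]
    have horb : Nat.card (MulAction.orbit (NN m y) z) = II p q k y z := by
      rw [Nat.card_coe_set_eq, ← MulAction.index_stabilizer]
      unfold II
      rw [ht z hz]
      change _ = ((Subgroup.centralizer {z}).subgroupOf (NN m y)).index
      congr 1
      ext c
      rw [MulAction.mem_stabilizer_iff, hsmul, Subgroup.mem_subgroupOf,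
        Subgroup.mem_centralizer_singleton_iff, mul_inv_eq_iff_eq_mul]
    obtain ⟨w, hw⟩ := hd z hz
    have hint : IsIntegral ℤ (g z) := by
      apply isIntegral_avg ρ R (y * z)
      intro h hh
      obtain ⟨s1, s2, s3⟩ := tt_spec (p := p) (q := q) ho hka z
      rw [ht z hz] at s3
      obtain ⟨j, rfl⟩ := Subgroup.mem_zpowers_iff.1 hh
      have h1 : z * (y ^ m) ^ j * z⁻¹ ∈ R := by
        rw [← conj_zpow]
        exact Subgroup.zpow_mem _ s3 j
      obtain ⟨l, hl⟩ := Subgroup.mem_zpowers_iff.1 h1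
      have h2 : y * z * (y ^ m) ^ j * (y * z)⁻¹ = y * (z * (y ^ m) ^ j * z⁻¹) * y⁻¹ := by group
      rw [h2, ← hl]
      have h3 : y * (y ^ m) ^ l * y⁻¹ = (y ^ m) ^ l := by
        rw [← conj_zpow, ← conj_pow]
        simp
      rw [h3]
      exact Subgroup.zpow_mem _ (Subgroup.mem_zpowers _) l
    rw [horb, hw]
    by_cases hp0 : ((p ^ e : ℕ) : ℂ) = 0
    · rw [hp0]; simp [isIntegral_zero]
    · have h0 : ∀ c u v : ℂ, c ≠ 0 → c⁻¹ * (c * u) * v = u * v := by
        intro c u v hc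
        rw [← mul_assoc c⁻¹ c u, inv_mul_cancel₀ hc, one_mul]
      have h1 : ((p ^ e : ℕ) : ℂ)⁻¹ * ((p ^ e * w : ℕ) : ℂ) * g z = (w : ℂ) * g z := by
        rw [Nat.cast_mul]
        exact h0 _ _ _ hp0
      rw [h1]
      exact (_root_.isIntegral_natCast w).mul hint
  · rw [if_neg hz, mul_zero]
    exact isIntegral_zero

open Classical in
/-- The pairs of an invariant set on which the index is divisible by `p ^ e`. -/
theorem part_B {a k e : ℕ} {y : G} (ho : orderOf (y ^ q) = p ^ a) (hka : k ≤ a)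
    (hH : ∀ i : ℕ, i ≡ 1 [MOD p ^ k * q] → IsConj y (y ^ i))
    (P : G → G → Prop) (hPc : ∀ g y z, P (g * y * g⁻¹) (g * z * g⁻¹) ↔ P y z)
    (hPp : ∀ y', (∃ i : ℕ, y' = y ^ i) → (∃ i : ℕ, y = y' ^ i) → ∀ z, (P y' z ↔ P y z))
    (hPd : ∀ z, IsConj y z → P y z → p ^ e ∣ II p q k y z)
    (S : Finset G) (hmem : ∀ z, z ∈ S ↔ IsConj y z ∧ P y z) :
    IsIntegral ℤ (((p ^ e : ℕ) : ℂ)⁻¹ * ∑ z ∈ S, ρ.character (y * z)) := by
  have hst : ∀ m, ∀ c ∈ NN m y, ∀ z ∈ S, c * z * c⁻¹ ∈ S := by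
    intro m c hc z hz
    rw [hmem] at hz ⊢
    refine ⟨hz.1.trans (isConj_iff.2 ⟨c, rfl⟩), ?_⟩
    obtain ⟨h1, h2⟩ := powers_of_mem_NN hc
    rw [← hPp _ h1 h2, hPc]
    exact hz.2
  have hmaps : ∀ z ∈ S, tt p q k y z ∈ range (a + 1) := by
    intro z _
    rw [mem_range]
    have := (tt_spec (p := p) (q := q) ho hka z).2.1
    omega
  rw [← Finset.sum_fiberwise_of_maps_to hmaps, Finset.mul_sum]
  apply IsIntegral.sum
  intro t _
  by_cases hkt : k ≤ t
  · apply part_t ρ ho hka hH hkt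
    · intro c hc z hz
      rw [mem_filter] at hz ⊢
      refine ⟨hst _ c hc z hz.1, ?_⟩
      rw [II_of_mem_NN hc]
      exact hz.2
    · intro z hz
      exact (mem_filter.1 hz).2
    · intro z hz
      have h1 := (hmem z).1 (mem_filter.1 hz).1
      exact hPd z h1.1 h1.2
  · have : S.filter (fun z => tt p q k y z = t) = ∅ := by
      rw [Finset.filter_eq_empty_iff]
      intro z _ h
      have := (tt_spec (p := p) (q := q) ho hka z).1
      omega
    rw [this]
    simp [isIntegral_zero]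

/-- The main lemma. -/
theorem main_lemma [ρ.IsIrreducible] {n : ℕ} (hp : p.Prime) (hN : Nat.card G = p ^ n * q)
    (hq : ¬ p ∣ q) {a k : ℕ} {y : G} (ho : orderOf (y ^ q) = p ^ a) (hk1 : 1 ≤ k) (hka : k < a)
    (h3 : a ≤ 3 * k + 2) (hH : ∀ i : ℕ, i ≡ 1 [MOD p ^ k * q] → IsConj y (y ^ i)) :
    IsIntegral ℤ (((p ^ (a - k) : ℕ) : ℂ)⁻¹ *
      ((clCard y : ℂ) * ρ.character y / (Module.finrank ℂ V : ℂ) * ρ.character y)) := by
  classical
  obtain ⟨e, he⟩ : ∃ e, e = a - k := ⟨_, rfl⟩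
  rw [← he]
  have hsum := sum_class_char ρ y y (univ.filter (fun z => IsConj y z)) (fun z => by simp)
  rw [← hsum]
  have hsplit : ∑ z ∈ univ.filter (fun z => IsConj y z), ρ.character (y * z)
      = ∑ z ∈ univ.filter (fun z => IsConj y z ∧ p ^ e ∣ II p q k y z), ρ.character (y * z)
      + ∑ z ∈ univ.filter (fun z => IsConj y z ∧ ¬ p ^ e ∣ II p q k z y), ρ.character (y * z) := by
    have h1 := Finset.sum_filter_add_sum_filter_not (univ.filter (fun z => IsConj y z))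
      (fun z => p ^ e ∣ II p q k y z) (fun z => ρ.character (y * z))
    rw [Finset.filter_filter, Finset.filter_filter] at h1
    rw [← h1]
    congr 1
    have h2 := exchange (fun u v => if ¬ p ^ e ∣ II p q k u v then ρ.character (u * v) else 0)
      (by
        intro g u v
        have h4 : g * u * g⁻¹ * (g * v * g⁻¹) = g * (u * v) * g⁻¹ := by group
        simp only [II_conj]
        rw [h4, char_conj]) y
    rw [← Finset.sum_filter, ← Finset.sum_filter, Finset.filter_filter, Finset.filter_filter] at h2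
    rw [h2]
    exact Finset.sum_congr rfl fun z _ => (char_mul_comm ρ z y).symm
  rw [hsplit, mul_add]
  apply IsIntegral.add
  · refine part_B ρ ho hka.le hH (fun u v => p ^ e ∣ II p q k u v) ?_ ?_ ?_ _ ?_
    · intro g y z
      rw [II_conj]
    · intro y' h1 h2 z
      rw [II_left h1 h2]
    · intro z _ h
      exact h
    · intro z
      rw [mem_filter]
      simp
  · refine part_B ρ ho hka.le hH (fun u v => ¬ p ^ e ∣ II p q k v u) ?_ ?_ ?_ _ ?_
    · intro g y z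
      rw [II_conj]
    · intro y' h1 h2 z
      rw [II_right h1 h2]
    · intro z hz h
      have h5 := claimA hp hq hz ho hka h3 hH
      rw [← he] at h5
      rcases h5 with h5 | h5
      · exact h5
      · exact absurd h5 h
    · intro z
      rw [mem_filter]
      simp

end main

end Pool.Agent.H57.Wilde
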