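import Mathlib
import Pool.Agent.H57.Wilde.AW
import Pool.Agent.H57.Wilde.CI
import Pool.Agent.H57.Wilde.TC

/-!
Conjugation by a subgroup together with a group of exponents: sizes of orbits.
-/

namespace Pool.Agent.H57.Wilde

open Finset Representation Pool.Agent.H42.Wilde

section
variable {G : Type*} [Group G] [Finite G] {p n q : ℕ}

omit [Finite G] in
theorem pw_conj_ob (j : (ZMod (Nat.card G))ˣ) (c y : G) :
    pw j (c * y * c⁻¹) = c * pw j y * c⁻¹ := by
  unfold pw
  rw [conj_pow]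

/-- Conjugation by a subgroup together with the exponents of a group of units. -/
@[reducible] noncomputable def actM (N : Subgroup G) (J : Subgroup (ZMod (Nat.card G))ˣ) :
    MulAction (N × J) G where
  smul s z := (s.1 : G) * pw (s.2 : (ZMod (Nat.card G))ˣ) z * (s.1 : G)⁻¹
  one_smul z := by
    change 1 * pw 1 z * 1⁻¹ = z
    rw [pw_one]
    group
  mul_smul s t z := by
    change ((s.1 : G) * (t.1 : G)) *
        pw ((s.2 : (ZMod (Nat.card G))ˣ) * (t.2 : (ZMod (Nat.card G))ˣ)) z *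
        ((s.1 : G) * (t.1 : G))⁻¹ =
      (s.1 : G) * pw (s.2 : (ZMod (Nat.card G))ˣ)
        ((t.1 : G) * pw (t.2 : (ZMod (Nat.card G))ˣ) z * (t.1 : G)⁻¹) * (s.1 : G)⁻¹
    rw [pw_conj_ob, pw_mul]
    group

/-- Exponents fixing `z`. -/
theorem mem_ker_of_pw_eq (hp : p.Prime) (hq : ¬ p ∣ q)
    (hqN : q ∣ Nat.card G) {a : ℕ} {z : G} (ho : orderOf (z ^ q) = p ^ a)
    (h : q * p ^ a ∣ Nat.card G) {j : (ZMod (Nat.card G))ˣ} (hj : j ∈ JJ (Nat.card G) q hqN)
    (hz : pw j z = z) : j ∈ (ZMod.unitsMap h).ker := by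
  have hNe : NeZero (Nat.card G) := ⟨Nat.card_pos.ne'⟩
  have h1 : (j : ZMod (Nat.card G)).val ≡ 1 [MOD q] := by
    have h2 : ZMod.unitsMap hqN j = 1 := hj
    have h3 := congrArg (fun u : (ZMod q)ˣ => (u : ZMod q)) h2
    simp only [ZMod.unitsMap_def, Units.coe_map, MonoidHom.coe_coe, Units.val_one] at h3
    rw [← ZMod.natCast_eq_natCast_iff, Nat.cast_one, ← h3, ZMod.castHom_apply,
      ZMod.natCast_val]
  have h2 : (j : ZMod (Nat.card G)).val ≡ 1 [MOD p ^ a] := by
    have h3 : z ^ (j : ZMod (Nat.card G)).val = z ^ 1 := by rw [pow_one]; exact hz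
    have h4 := pow_eq_pow_iff_modEq.mp h3
    have h5 : p ^ a ∣ orderOf z := by
      rw [← ho]
      exact orderOf_pow_dvd q
    exact h4.of_dvd h5
  have hcop : Nat.Coprime q (p ^ a) :=
    (Nat.Coprime.pow_left a ((Nat.Prime.coprime_iff_not_dvd hp).mpr hq)).symm
  have h3 : (j : ZMod (Nat.card G)).val ≡ 1 [MOD q * p ^ a] :=
    (Nat.modEq_and_modEq_iff_modEq_mul hcop).mp ⟨h1, h2⟩
  rw [MonoidHom.mem_ker]
  apply Units.ext
  simp only [ZMod.unitsMap_def, Units.coe_map, MonoidHom.coe_coe, Units.val_one]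
  rw [← ZMod.natCast_eq_natCast_iff, Nat.cast_one] at h3
  rw [← h3, ZMod.castHom_apply, ZMod.natCast_val]

/-- Sizes of the orbits. -/
theorem orbit_dvd (hp : p.Prime) (hN : Nat.card G = p ^ n * q) (hq : ¬ p ∣ q)
    (hqN : q ∣ Nat.card G) {a : ℕ} (ha : 1 ≤ a) (han : a ≤ n) {z : G}
    (ho : orderOf (z ^ q) = p ^ a) (N D : Subgroup G) (J : Subgroup (ZMod (Nat.card G))ˣ)
    (hJ : J ≤ JJ (Nat.card G) q hqN)
    (hD : ∀ c ∈ N, ∀ j ∈ J, c * pw j z * c⁻¹ = z → c ∈ D) {r : ℕ}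
    (hr : r * p ^ (n - a) ∣ Nat.card J) :
    letI := actM N J
    r * D.relIndex N ∣ Nat.card (MulAction.orbit (N × J) z) := by
  classical
  let _ := actM N J
  have hNe : NeZero (Nat.card G) := ⟨Nat.card_pos.ne'⟩
  have hdv : q * p ^ a ∣ Nat.card G := by
    rw [hN, mul_comm]
    exact mul_dvd_mul_right (pow_dvd_pow p han) q
  have hsmul : ∀ (s : N × J) (x : G), s • x =
      (s.1 : G) * pw (s.2 : (ZMod (Nat.card G))ˣ) x * (s.1 : G)⁻¹ := fun s x => rfl
  set S := MulAction.stabilizer (N × J) z with hSdef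
  let H1 : Subgroup (N × J) := (D.subgroupOf N).prod ⊤
  let Q : Subgroup (N × J) := (⊥ : Subgroup N).prod ⊤
  have hSH : S ≤ H1 := by
    intro s hs
    rw [MulAction.mem_stabilizer_iff, hsmul] at hs
    rw [Subgroup.mem_prod]
    exact ⟨Subgroup.mem_subgroupOf.mpr (hD _ s.1.2 _ s.2.2 hs), Subgroup.mem_top _⟩
  have hQH : Q ≤ H1 := Subgroup.prod_mono bot_le le_rfl
  have h1 : Nat.card (MulAction.orbit (N × J) z) = S.relIndex H1 * H1.index := by
    rw [Subgroup.relIndex_mul_index hSH, MulAction.index_stabilizer, Nat.card_coe_set_eq]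
  have h2 : H1.index = D.relIndex N := by
    change ((D.subgroupOf N).prod ⊤).index = _
    rw [Subgroup.index_prod, Subgroup.index_top, mul_one]
    rfl
  have h3 : S.relIndex Q ∣ S.relIndex H1 := by
    apply relIndex_dvd_of_normal _ _ _ hQH
    intro c _ h hh
    rw [Subgroup.mem_prod] at hh ⊢
    refine ⟨?_, Subgroup.mem_top _⟩
    have h4 : h.1 = 1 := Subgroup.mem_bot.mp hh.1
    change c.1 * h.1 * c.1⁻¹ ∈ (⊥ : Subgroup N)
    rw [h4, mul_one, mul_inv_cancel]
    exact Subgroup.one_mem _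
  have h4 : S.relIndex Q * Nat.card (S ⊓ Q : Subgroup (N × J)) = Nat.card J := by
    rw [relIndex_mul_card_inf]
    apply Nat.card_congr
    refine ⟨fun s => s.1.2, fun j => ⟨(1, j), ?_⟩, ?_, ?_⟩
    · exact Subgroup.mem_prod.mpr ⟨Subgroup.one_mem _, Subgroup.mem_top _⟩
    · rintro ⟨⟨c, j⟩, hs⟩
      have h5 : c = 1 := Subgroup.mem_bot.mp (Subgroup.mem_prod.mp hs).1
      subst h5
      rfl
    · intro j
      rfl
  have h5 : Nat.card (S ⊓ Q : Subgroup (N × J)) ∣ p ^ (n - a) := by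
    rw [← card_ker_unitsMap hp hN Nat.card_pos.ne' hq ha han hdv]
    let f : (S ⊓ Q : Subgroup (N × J)) →* (ZMod.unitsMap hdv).ker :=
      { toFun := fun s => ⟨((s : N × J).2 : (ZMod (Nat.card G))ˣ), by
          have hs1 : (s : N × J) ∈ S := s.2.1
          have hs2 : (s : N × J) ∈ Q := s.2.2
          have h6 : (s : N × J).1 = 1 := Subgroup.mem_bot.mp (Subgroup.mem_prod.mp hs2).1
          rw [MulAction.mem_stabilizer_iff, hsmul, h6] at hs1
          simp only [OneMemClass.coe_one, one_mul, inv_one, mul_one] at hs1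
          exact mem_ker_of_pw_eq hp hq hqN ho hdv (hJ (s : N × J).2.2) hs1⟩
        map_one' := rfl
        map_mul' := fun s t => rfl }
    apply Subgroup.card_dvd_of_injective f
    intro s t hst
    have hs2 : (s : N × J) ∈ Q := s.2.2
    have ht2 : (t : N × J) ∈ Q := t.2.2
    have h6 : (s : N × J).1 = 1 := Subgroup.mem_bot.mp (Subgroup.mem_prod.mp hs2).1
    have h7 : (t : N × J).1 = 1 := Subgroup.mem_bot.mp (Subgroup.mem_prod.mp ht2).1
    apply Subtype.ext
    apply Prod.ext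
    · rw [h6, h7]
    · apply Subtype.ext
      have h8 := congrArg
        (fun u : (ZMod.unitsMap hdv).ker => (u : (ZMod (Nat.card G))ˣ)) hst
      exact h8
  have h6 : r ∣ S.relIndex Q := by
    have h7 : r * p ^ (n - a) ∣ S.relIndex Q * p ^ (n - a) := by
      refine hr.trans ?_
      rw [← h4]
      exact mul_dvd_mul_left _ h5
    exact Nat.dvd_of_mul_dvd_mul_right (Nat.pow_pos hp.pos) h7
  rw [h1, h2]
  exact mul_dvd_mul_right (h6.trans h3) _

end

end Pool.Agent.H57.Wilde
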